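import Pool.Agent.PertQ.Targets
import Pool.Agent.Ben.P_MTWO

/-!
# PertQ, GK: the moment of order `2k` of the finite Gaussian sums
-/

set_option autoImplicit false

namespace Pool.Agent.PertQ

open MeasureTheory Set Complex
open Pool.Agent.Ben (e gs MTWO_upper)

namespace GK_

theorem two_pow_ge (k : ℕ) : ((k + 1 : ℕ) : ℝ) ≤ 2 ^ k := by
  have h : k + 1 ≤ 2 ^ k := Nat.lt_two_pow_self
  exact_mod_cast h

theorem small (ε : ℝ) (hε : 0 < ε) : ∃ K : ℝ, 1 ≤ K ∧ ∀ k : ℕ,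
    ((k + 1 : ℕ) : ℝ) ≤ K * ((2 : ℝ) ^ k) ^ ε := by
  have hl : 0 < Real.log 2 := Real.log_pos one_lt_two
  refine ⟨max 1 (1 / (ε * Real.log 2)), le_max_left _ _, fun k => ?_⟩
  set K := max 1 (1 / (ε * Real.log 2)) with hK
  have h1 : ((2 : ℝ) ^ k) ^ ε = Real.exp (k * (ε * Real.log 2)) := by
    rw [Real.rpow_def_of_pos (by positivity), Real.log_pow]
    congr 1
    ring
  have h2 : (k : ℝ) * (ε * Real.log 2) + 1 ≤ Real.exp (k * (ε * Real.log 2)) :=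
    Real.add_one_le_exp _
  have h3 : 1 ≤ K := le_max_left _ _
  have h4 : 1 ≤ K * (ε * Real.log 2) := by
    have h5 : 1 / (ε * Real.log 2) ≤ K := le_max_right _ _
    rwa [div_le_iff₀ (by positivity)] at h5
  rw [h1]
  have h5 : K * ((k : ℝ) * (ε * Real.log 2) + 1) ≤ K * Real.exp (k * (ε * Real.log 2)) :=
    mul_le_mul_of_nonneg_left h2 (by linarith)
  have h6 : (k : ℝ) ≤ k * (K * (ε * Real.log 2)) := by
    have hk : (0 : ℝ) ≤ k := Nat.cast_nonneg k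
    nlinarith
  push_cast
  nlinarith

/-- the divisor bound -/
theorem tau (ε : ℝ) (hε : 0 < ε) : ∃ C : ℝ, 0 < C ∧ ∀ n : ℕ, 1 ≤ n →
    (n.divisors.card : ℝ) ≤ C * (n : ℝ) ^ ε := by
  classical
  obtain ⟨K, hK1, hK⟩ := small ε hε
  obtain ⟨N, hN⟩ := exists_nat_ge ((2 : ℝ) ^ (1 / ε))
  refine ⟨K ^ N, by positivity, fun n hn => ?_⟩
  have hn0 : n ≠ 0 := by omega
  have key : ∀ p ∈ n.primeFactors, ((n.factorization p + 1 : ℕ) : ℝ) ≤
      (if p < N then K else 1) * ((p : ℝ) ^ (n.factorization p)) ^ ε := by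
    intro p hp
    have hp2 : 2 ≤ p := (Nat.prime_of_mem_primeFactors hp).two_le
    have hp2' : (2 : ℝ) ≤ p := by exact_mod_cast hp2
    set k := n.factorization p
    by_cases h : p < N
    · rw [if_pos h]
      refine (hK k).trans ?_
      gcongr
    · rw [if_neg h, one_mul]
      push Not at h
      have h1 : (2 : ℝ) ^ (1 / ε) ≤ p := hN.trans (by exact_mod_cast h)
      have h2 : (2 : ℝ) ≤ (p : ℝ) ^ ε := by
        calc (2 : ℝ) = ((2 : ℝ) ^ (1 / ε)) ^ ε := by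
              rw [← Real.rpow_mul (by norm_num), one_div, inv_mul_cancel₀ hε.ne', Real.rpow_one]
          _ ≤ _ := Real.rpow_le_rpow (by positivity) h1 hε.le
      calc ((k + 1 : ℕ) : ℝ) ≤ 2 ^ k := two_pow_ge k
        _ ≤ ((p : ℝ) ^ ε) ^ k := pow_le_pow_left₀ (by norm_num) h2 k
        _ = _ := by
            rw [← Real.rpow_natCast, ← Real.rpow_mul (by positivity), ← Real.rpow_natCast,
              ← Real.rpow_mul (by positivity), mul_comm]
  have hcard : (n.divisors.card : ℝ) =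
      ∏ p ∈ n.primeFactors, ((n.factorization p + 1 : ℕ) : ℝ) := by
    rw [Nat.card_divisors hn0]
    push_cast
    rfl
  have hprod : ∏ p ∈ n.primeFactors, ((p : ℝ) ^ (n.factorization p)) ^ ε = (n : ℝ) ^ ε := by
    rw [Real.finsetProd_rpow _ _ (fun p _ => by positivity)]
    congr 1
    have h := Nat.prod_factorization_pow_eq_self hn0
    have h' : ((∏ p ∈ n.primeFactors, p ^ n.factorization p : ℕ) : ℝ) = n := by
      exact_mod_cast congrArg (Nat.cast (R := ℝ)) h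
    rw [← h']
    push_cast
    rfl
  have hK' : ∏ p ∈ n.primeFactors, (if p < N then K else 1) ≤ K ^ N := by
    rw [← Finset.prod_filter, Finset.prod_const]
    refine pow_le_pow_right₀ hK1 ?_
    calc (n.primeFactors.filter (fun p => p < N)).card ≤ (Finset.range N).card := by
          refine Finset.card_le_card ?_
          intro p hp
          exact Finset.mem_range.2 (Finset.mem_filter.1 hp).2
      _ = N := Finset.card_range N
  rw [hcard]
  calc ∏ p ∈ n.primeFactors, ((n.factorization p + 1 : ℕ) : ℝ)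
      ≤ ∏ p ∈ n.primeFactors, ((if p < N then K else 1) * ((p : ℝ) ^ (n.factorization p)) ^ ε) :=
        Finset.prod_le_prod (fun p _ => by positivity) key
    _ = (∏ p ∈ n.primeFactors, (if p < N then K else 1)) * (n : ℝ) ^ ε := by
        rw [Finset.prod_mul_distrib, hprod]
    _ ≤ K ^ N * (n : ℝ) ^ ε := mul_le_mul_of_nonneg_right hK' (by positivity)

/-- the coefficients of a product -/
noncomputable def cf (L M : ℕ) (c w : ℕ → ℝ) (k : ℕ) : ℝ :=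
  ∑ p ∈ Finset.filter (fun p : ℕ × ℕ => p.1 * p.2 = k) (Finset.Icc 1 L ×ˢ Finset.Icc 1 M),
    c p.1 * w p.2

theorem cf_mul (L M : ℕ) (c w : ℕ → ℝ) (t : ℝ) :
    (∑ n ∈ Finset.Icc 1 L, e (t * Real.log n) * (c n : ℝ)) *
      (∑ n ∈ Finset.Icc 1 M, e (t * Real.log n) * (w n : ℝ)) =
      ∑ k ∈ Finset.Icc 1 (L * M), e (t * Real.log k) * (cf L M c w k : ℝ) := by
  rw [Finset.sum_mul_sum, ← Finset.sum_product']
  rw [← Finset.sum_fiberwise_of_maps_to (g := fun p : ℕ × ℕ => p.1 * p.2)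
    (t := Finset.Icc 1 (L * M))]
  · refine Finset.sum_congr rfl fun k hk => ?_
    unfold cf
    push_cast
    rw [Finset.mul_sum]
    refine Finset.sum_congr rfl fun p hp => ?_
    rw [Finset.mem_filter, Finset.mem_product, Finset.mem_Icc, Finset.mem_Icc] at hp
    obtain ⟨⟨h1, h2⟩, h3⟩ := hp
    have h4 : (p.1 : ℝ) ≠ 0 := by
      have : p.1 ≠ 0 := by omega
      exact_mod_cast this
    have h5 : (p.2 : ℝ) ≠ 0 := by
      have : p.2 ≠ 0 := by omega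
      exact_mod_cast this
    have h6 : e (t * Real.log k) = e (t * Real.log p.1) * e (t * Real.log p.2) := by
      rw [← h3]
      unfold Pool.Agent.Ben.e
      rw [← Complex.exp_add]
      congr 1
      push_cast
      rw [← Nat.cast_mul, Nat.cast_mul, Real.log_mul h4 h5]
      push_cast
      ring
    rw [h6]
    ring
  · intro p hp
    rw [Finset.mem_product, Finset.mem_Icc, Finset.mem_Icc] at hp
    rw [Finset.mem_Icc]
    exact ⟨Nat.mul_pos hp.1.1 hp.2.1, Nat.mul_le_mul hp.1.2 hp.2.2⟩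

theorem cf_bound (L M : ℕ) (c w : ℕ → ℝ) (hw0 : ∀ n, 0 ≤ w n) (hw1 : ∀ n, w n ≤ 1)
    (B : ℝ) (hc0 : ∀ n, 0 ≤ c n) (hc1 : ∀ n, c n ≤ B) (ε K : ℝ) (hε : 0 < ε) (hK : 0 < K)
    (hd : ∀ n : ℕ, 1 ≤ n → (n.divisors.card : ℝ) ≤ K * (n : ℝ) ^ ε) (k : ℕ) :
    0 ≤ cf L M c w k ∧ cf L M c w k ≤ K * ((L : ℝ) * M) ^ ε * B := by
  have h0 : 0 ≤ cf L M c w k := Finset.sum_nonneg fun p _ => mul_nonneg (hc0 _) (hw0 _)
  have hB : 0 ≤ B := (hc0 0).trans (hc1 0)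
  refine ⟨h0, ?_⟩
  by_cases hk : 1 ≤ k ∧ k ≤ L * M
  · have h1 : cf L M c w k ≤ (Finset.filter (fun p : ℕ × ℕ => p.1 * p.2 = k)
        (Finset.Icc 1 L ×ˢ Finset.Icc 1 M)).card * B := by
      unfold cf
      refine (Finset.sum_le_card_nsmul _ _ B fun p _ => ?_).trans (by simp)
      calc c p.1 * w p.2 ≤ B * 1 := mul_le_mul (hc1 _) (hw1 _) (hw0 _) hB
        _ = B := mul_one B
    have h2 : (Finset.filter (fun p : ℕ × ℕ => p.1 * p.2 = k)
        (Finset.Icc 1 L ×ˢ Finset.Icc 1 M)).card ≤ k.divisors.card := by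
      refine Finset.card_le_card_of_injOn (fun p => p.1) ?_ ?_
      · intro p hp
        have hp' := Finset.mem_filter.1 (Finset.mem_coe.1 hp)
        refine Finset.mem_coe.2 (Nat.mem_divisors.2 ⟨⟨p.2, hp'.2.symm⟩, by omega⟩)
      · intro p hp q hq hpq
        have hp' := Finset.mem_filter.1 (Finset.mem_coe.1 hp)
        have hq' := Finset.mem_filter.1 (Finset.mem_coe.1 hq)
        have h3 := (Finset.mem_Icc.1 (Finset.mem_product.1 hp'.1).1).1
        simp only at hpq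
        have h4 : p.1 * p.2 = p.1 * q.2 := by rw [hp'.2, hpq, hq'.2]
        exact Prod.ext hpq (Nat.eq_of_mul_eq_mul_left h3 h4)
    have h3 : (k.divisors.card : ℝ) ≤ K * (k : ℝ) ^ ε := hd k hk.1
    have h4 : (k : ℝ) ^ ε ≤ ((L : ℝ) * M) ^ ε := by
      refine Real.rpow_le_rpow (by positivity) ?_ hε.le
      exact_mod_cast hk.2
    have h5 : ((Finset.filter (fun p : ℕ × ℕ => p.1 * p.2 = k)
        (Finset.Icc 1 L ×ˢ Finset.Icc 1 M)).card : ℝ) ≤ k.divisors.card := by exact_mod_cast h2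
    exact h1.trans (mul_le_mul_of_nonneg_right
      (h5.trans (h3.trans (mul_le_mul_of_nonneg_left h4 hK.le))) hB)
  · have h1 : cf L M c w k = 0 := by
      unfold cf
      rw [Finset.sum_eq_zero]
      intro p hp
      exfalso
      rw [Finset.mem_filter, Finset.mem_product, Finset.mem_Icc, Finset.mem_Icc] at hp
      obtain ⟨⟨h1, h2⟩, h3⟩ := hp
      apply hk
      rw [← h3]
      exact ⟨Nat.mul_pos h1.1 h2.1, Nat.mul_le_mul h1.2 h2.2⟩
    rw [h1]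
    positivity

/-- the coefficients of the `k`-th power -/
theorem powers (ε : ℝ) (hε : 0 < ε) (k : ℕ) : ∃ C : ℝ, 0 < C ∧ ∀ M : ℕ, 1 ≤ M → ∀ w : ℕ → ℝ,
    (∀ n, 0 ≤ w n) → (∀ n, w n ≤ 1) → ∃ c : ℕ → ℝ, (∀ n, 0 ≤ c n) ∧
      (∀ n, c n ≤ C * (M : ℝ) ^ (((k : ℝ) ^ 2) * ε)) ∧
      ∀ t : ℝ, (∑ n ∈ Finset.Icc 1 M, e (t * Real.log n) * (w n : ℝ)) ^ k =
        ∑ m ∈ Finset.Icc 1 (M ^ k), e (t * Real.log m) * (c m : ℝ) := by
  induction k with
  | zero =>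
    refine ⟨1, one_pos, fun M hM w _ _ => ⟨fun _ => 1, fun _ => zero_le_one, fun n => ?_,
      fun t => ?_⟩⟩
    · simp
    · simp [Pool.Agent.Ben.e]
  | succ k ih =>
    obtain ⟨C, hC, ih⟩ := ih
    obtain ⟨K, hK, hd⟩ := tau ε hε
    refine ⟨K * C, by positivity, fun M hM w hw0 hw1 => ?_⟩
    obtain ⟨c, hc0, hc1, hc⟩ := ih M hM w hw0 hw1
    have hM1 : (1 : ℝ) ≤ M := by exact_mod_cast hM
    have hM0 : (0 : ℝ) < M := by linarith
    have hb := cf_bound (M ^ k) M c w hw0 hw1 _ hc0 hc1 ε K hε hK hd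
    refine ⟨cf (M ^ k) M c w, fun n => (hb n).1, fun n => (hb n).2.trans ?_, fun t => ?_⟩
    · have h1 : (((M ^ k : ℕ) : ℝ) * M) ^ ε = (M : ℝ) ^ ((k + 1 : ℝ) * ε) := by
        rw [Nat.cast_pow, ← pow_succ, ← Real.rpow_natCast, ← Real.rpow_mul hM0.le]
        push_cast
        ring_nf
      rw [h1]
      have h2 : (M : ℝ) ^ ((k + 1 : ℝ) * ε) * (M : ℝ) ^ ((k : ℝ) ^ 2 * ε) ≤
          (M : ℝ) ^ (((k + 1 : ℕ) : ℝ) ^ 2 * ε) := by
        rw [← Real.rpow_add hM0]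
        apply Real.rpow_le_rpow_of_exponent_le hM1
        push_cast
        have hk0 : (0 : ℝ) ≤ k := Nat.cast_nonneg k
        nlinarith [mul_nonneg hk0 hε.le]
      calc K * (M : ℝ) ^ ((k + 1 : ℝ) * ε) * (C * (M : ℝ) ^ ((k : ℝ) ^ 2 * ε)) =
            K * C * ((M : ℝ) ^ ((k + 1 : ℝ) * ε) * (M : ℝ) ^ ((k : ℝ) ^ 2 * ε)) := by ring
        _ ≤ _ := mul_le_mul_of_nonneg_left h2 (by positivity)
    · rw [pow_succ, hc t, cf_mul, ← pow_succ]

end GK_

open GK_ in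
theorem p_GK : T_GK := by
  intro k hk ε hε
  have hk0 : (0 : ℝ) < k := by exact_mod_cast hk
  obtain ⟨C, hC, hp⟩ := powers (ε / (4 * (k : ℝ) ^ 2)) (by positivity) k
  refine ⟨C ^ 2 * (2 * (1 + 2 * k / ε)), fun T y M hT hM => ?_⟩
  have hM1 : (1 : ℝ) ≤ M := by exact_mod_cast hM
  have hM0 : (0 : ℝ) < M := by linarith
  obtain ⟨c, hc0, hc1, hc⟩ := hp M hM (fun n => Real.exp (-(Real.log n - y) ^ 2 / 4))
    (fun n => (Real.exp_pos _).le) (fun n => by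
      rw [Real.exp_le_one_iff]
      have := sq_nonneg (Real.log n - y)
      linarith)
  have he : (k : ℝ) ^ 2 * (ε / (4 * (k : ℝ) ^ 2)) = ε / 4 := by
    field_simp
  rw [he] at hc1
  obtain ⟨D, hD⟩ : ∃ D : ℝ, D = C * (M : ℝ) ^ (ε / 4) := ⟨_, rfl⟩
  rw [← hD] at hc1
  have hD0 : 0 < D := by
    rw [hD]
    positivity
  have h1 := MTWO_upper (M ^ k) (fun n => c n / D) (fun n => by
    rw [abs_div, abs_of_pos hD0, div_le_one hD0, abs_of_nonneg (hc0 n)]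
    exact hc1 n) T (by linarith)
  have h2 : ∀ t : ℝ, ‖gs M t y‖ ^ (2 * k) =
      D ^ 2 * ‖∑ n ∈ Finset.Icc 1 (M ^ k), e (t * Real.log n) * ((c n / D : ℝ) : ℂ)‖ ^ 2 := by
    intro t
    have h3 : ∑ m ∈ Finset.Icc 1 (M ^ k), e (t * Real.log m) * (c m : ℝ) =
        (D : ℂ) * ∑ n ∈ Finset.Icc 1 (M ^ k), e (t * Real.log n) * ((c n / D : ℝ) : ℂ) := by
      rw [Finset.mul_sum]
      refine Finset.sum_congr rfl fun n _ => ?_
      have hD1 : (D : ℂ) ≠ 0 := by exact_mod_cast hD0.ne'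
      push_cast
      field_simp
    have h4 : ‖gs M t y‖ ^ (2 * k) = ‖gs M t y ^ k‖ ^ 2 := by
      rw [norm_pow, ← pow_mul, mul_comm]
    have h5 : gs M t y ^ k = ∑ m ∈ Finset.Icc 1 (M ^ k), e (t * Real.log m) * (c m : ℝ) :=
      hc t
    rw [h4, h5, h3, norm_mul, mul_pow, Complex.norm_real, Real.norm_eq_abs, sq_abs]
  simp_rw [h2]
  rw [intervalIntegral.integral_const_mul]
  refine (mul_le_mul_of_nonneg_left h1 (by positivity)).trans ?_
  rw [Nat.cast_pow, Real.log_pow]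
  have h6 : Real.log M ≤ (M : ℝ) ^ (ε / 2) / (ε / 2) :=
    Real.log_le_rpow_div hM0.le (by positivity)
  have h7 : 1 ≤ (M : ℝ) ^ (ε / 2) := Real.one_le_rpow hM1 (by positivity)
  have h8 : 1 + (k : ℝ) * Real.log M ≤ (1 + 2 * k / ε) * (M : ℝ) ^ (ε / 2) := by
    have h9 : (k : ℝ) * Real.log M ≤ k * ((M : ℝ) ^ (ε / 2) / (ε / 2)) :=
      mul_le_mul_of_nonneg_left h6 hk0.le
    have h10 : (k : ℝ) * ((M : ℝ) ^ (ε / 2) / (ε / 2)) = 2 * k / ε * (M : ℝ) ^ (ε / 2) := by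
      field_simp
    rw [h10] at h9
    nlinarith
  have hMk : (0 : ℝ) < (M : ℝ) ^ k := by positivity
  have hq : 0 < 1 + 2 * (k : ℝ) / ε := by positivity
  have h11 : T + 2 * (M : ℝ) ^ k * (1 + k * Real.log M) ≤
      2 * (1 + 2 * k / ε) * (M : ℝ) ^ (ε / 2) * (T + (M : ℝ) ^ k) := by
    have h12 : 2 * (M : ℝ) ^ k * (1 + k * Real.log M) ≤
        2 * (M : ℝ) ^ k * ((1 + 2 * k / ε) * (M : ℝ) ^ (ε / 2)) :=
      mul_le_mul_of_nonneg_left h8 (by positivity)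
    have h13 : 1 ≤ (1 + 2 * k / ε) * (M : ℝ) ^ (ε / 2) := by
      have h14 : (1 : ℝ) ≤ 1 + 2 * k / ε := by
        have : 0 ≤ 2 * (k : ℝ) / ε := by positivity
        linarith
      nlinarith
    have h15 : T ≤ 2 * ((1 + 2 * k / ε) * (M : ℝ) ^ (ε / 2)) * T := by nlinarith
    nlinarith
  have h16 : D ^ 2 = C ^ 2 * (M : ℝ) ^ (ε / 2) := by
    rw [hD, mul_pow, ← Real.rpow_natCast ((M : ℝ) ^ (ε / 4)), ← Real.rpow_mul hM0.le]
    congr 2
    push_cast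
    ring
  have h17 : (M : ℝ) ^ ((k : ℝ) + ε) = (M : ℝ) ^ k * ((M : ℝ) ^ (ε / 2) * (M : ℝ) ^ (ε / 2)) := by
    rw [← Real.rpow_add hM0, Real.rpow_add hM0, Real.rpow_natCast]
    congr 2
    ring
  rw [h16, h17]
  calc C ^ 2 * (M : ℝ) ^ (ε / 2) * ((M : ℝ) ^ k * (T + 2 * (M : ℝ) ^ k * (1 + k * Real.log M)))
      ≤ C ^ 2 * (M : ℝ) ^ (ε / 2) * ((M : ℝ) ^ k *
        (2 * (1 + 2 * k / ε) * (M : ℝ) ^ (ε / 2) * (T + (M : ℝ) ^ k))) := by gcongr
    _ = _ := by ring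

end Pool.Agent.PertQ
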