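import Pool.Agent.PertQ.Targets
import Pool.Agent.DBN.WinSumC

set_option autoImplicit false

/-! MP_4e5e8a_nt, PertQ: averages of the smoothed zeta sums in the mean of order `q`. -/

namespace Pool.Agent.PertQ

open MeasureTheory Set Complex Pool.Agent.CW Pool.Agent.DBN Pool.Agent.PertZ
open scoped ENNReal

namespace AVG_

/-- the kernel of the reproducing formula -/
noncomputable def kk (p : ℝ × ℝ) : ℝ≥0∞ := ENNReal.ofReal (Real.exp (-p.1 ^ 2 / 8 - p.2 ^ 2))

/-- first factor of the larger kernel -/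
noncomputable def k1 (x : ℝ) : ℝ≥0∞ := ENNReal.ofReal (Real.exp (-x ^ 2 / 16))

/-- second factor of the larger kernel -/
noncomputable def k2 (y : ℝ) : ℝ≥0∞ := ENNReal.ofReal (Real.exp (-y ^ 2 / 2))

lemma meas_kk : Measurable kk := by unfold kk; fun_prop

lemma meas_k1 : Measurable k1 := by unfold k1; fun_prop

lemma meas_k2 : Measurable k2 := by unfold k2; fun_prop

lemma int_k1 : ∫⁻ x, k1 x ≠ ⊤ := by
  have h := (integrable_exp_neg_mul_sq (b := 1 / 16) (by norm_num)).lintegral_lt_top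
  refine ne_of_lt (lt_of_le_of_lt (le_of_eq ?_) h)
  refine lintegral_congr fun x => ?_
  unfold k1
  congr 2
  ring

lemma int_k2 : ∫⁻ x, k2 x ≠ ⊤ := by
  have h := (integrable_exp_neg_mul_sq (b := 1 / 2) (by norm_num)).lintegral_lt_top
  refine ne_of_lt (lt_of_le_of_lt (le_of_eq ?_) h)
  refine lintegral_congr fun x => ?_
  unfold k2
  congr 2
  ring

lemma int_KK : ∫⁻ p : ℝ × ℝ, k1 p.1 * k2 p.2 ≠ ⊤ := by
  rw [Measure.volume_eq_prod, lintegral_prod_mul meas_k1.aemeasurable meas_k2.aemeasurable]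
  exact ENNReal.mul_ne_top int_k1 int_k2

lemma kk_le (p : ℝ × ℝ) : kk p ≤ k1 p.1 * k2 p.2 := by
  unfold kk k1 k2
  rw [← ENNReal.ofReal_mul (Real.exp_pos _).le, ← Real.exp_add]
  refine ENNReal.ofReal_le_ofReal (Real.exp_le_exp.2 ?_)
  nlinarith [sq_nonneg p.1, sq_nonneg p.2]

lemma kk_le1 (p : ℝ × ℝ) : kk p ≤ k1 p.1 := by
  unfold kk k1
  refine ENNReal.ofReal_le_ofReal (Real.exp_le_exp.2 ?_)
  nlinarith [sq_nonneg p.1, sq_nonneg p.2]

lemma int_kk : ∫⁻ p, kk p ≠ ⊤ := ne_top_of_le_ne_top int_KK (lintegral_mono kk_le)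

/-- the real estimate for the tails of the kernel -/
lemma real_tail {q δ c : ℝ} (hq : 1 ≤ q) (hδ : 0 < δ) (hc : 0 ≤ c) :
    ∃ C : ℝ, 0 ≤ C ∧ ∀ X x y : ℝ, 4 ≤ X → ¬ (|x| ≤ δ * Real.log X ∧ |y| ≤ X / 2) →
      X * (Real.exp (-x ^ 2 / 8 - y ^ 2) * (c * X ^ 2 * Real.exp |x|) ^ q) ≤
        C * (Real.exp (-x ^ 2 / 16) * Real.exp (-y ^ 2 / 2)) := by
  set b : ℝ := 1 + 2 * q with hb
  set a : ℝ := b / δ + q with ha
  refine ⟨c ^ q * Real.exp (4 * a ^ 2 + 4 * q ^ 2 + 2 * b ^ 2), by positivity, ?_⟩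
  intro X x y hX hbad
  have hX0 : 0 < X := by linarith
  set l := Real.log X with hl
  have hXl : X = Real.exp l := (Real.exp_log hX0).symm
  have hl0 : 0 ≤ l := Real.log_nonneg (by linarith)
  have hlX : l ≤ X := by
    have := Real.log_le_sub_one_of_pos hX0
    linarith
  have e1 : X * (Real.exp (-x ^ 2 / 8 - y ^ 2) * (c * X ^ 2 * Real.exp |x|) ^ q) =
      c ^ q * Real.exp (l + (-x ^ 2 / 8 - y ^ 2) + (2 * l + |x|) * q) := by
    have e2 : c * X ^ 2 * Real.exp |x| = c * Real.exp (2 * l + |x|) := by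
      rw [Real.exp_add, two_mul, Real.exp_add, ← hXl]; ring
    rw [e2, Real.mul_rpow hc (Real.exp_pos _).le, ← Real.exp_mul, Real.exp_add, Real.exp_add,
      ← hXl]
    ring
  rw [e1, mul_assoc, ← Real.exp_add, ← Real.exp_add]
  refine mul_le_mul_of_nonneg_left (Real.exp_le_exp.2 ?_) (by positivity)
  have hx0 : 0 ≤ |x| := abs_nonneg x
  have hxx : |x| ^ 2 = x ^ 2 := sq_abs x
  have hb0 : 0 < b := by rw [hb]; linarith
  have ha0 : 0 < a := by rw [ha]; positivity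
  by_cases h1 : |x| ≤ δ * l
  · have h2 : X / 2 < |y| := by
      by_contra h
      exact hbad ⟨h1, not_lt.1 h⟩
    have h3 : X ^ 2 / 4 ≤ y ^ 2 := by
      rw [← sq_abs y]
      nlinarith
    have h4 : l * b ≤ X ^ 2 / 8 + 2 * b ^ 2 := by
      have : l * b ≤ X * b := mul_le_mul_of_nonneg_right hlX hb0.le
      nlinarith [sq_nonneg (X / 4 - b)]
    have h5 : q * |x| ≤ x ^ 2 / 16 + 4 * q ^ 2 := by
      nlinarith [sq_nonneg (|x| / 4 - 2 * q)]
    have h6 : l + (2 * l + |x|) * q = l * b + q * |x| := by rw [hb]; ring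
    nlinarith [sq_nonneg a]
  · have h2 : l ≤ |x| / δ := by
      rw [le_div_iff₀ hδ]
      nlinarith [not_le.1 h1]
    have h4 : l * b ≤ |x| / δ * b := mul_le_mul_of_nonneg_right h2 hb0.le
    have h5 : a * |x| ≤ x ^ 2 / 16 + 4 * a ^ 2 := by
      nlinarith [sq_nonneg (|x| / 4 - 2 * a)]
    have h6 : l + (2 * l + |x|) * q = l * b + q * |x| := by rw [hb]; ring
    have h7 : a * |x| = |x| / δ * b + q * |x| := by rw [ha]; ring
    nlinarith [sq_nonneg q, sq_nonneg b, sq_nonneg y]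

/-- the crude bound -/
lemma crude {q : ℝ} (hq : 1 ≤ q) : ∃ c : ℝ, 0 ≤ c ∧ ∀ X w y s : ℝ, 4 ≤ X →
    w ≤ 2 * Real.log X →
      ‖zs (w + y) s‖ₑ ^ q ≤ ENNReal.ofReal ((c * X ^ 2 * Real.exp |y|) ^ q) := by
  have hc : 0 ≤ Real.exp 1 * Nw.S32 := by
    have h := Nw.norm_zsum_le (N := 1) one_pos 0
    rw [mul_one] at h
    exact (norm_nonneg _).trans h
  refine ⟨Real.exp 1 * Nw.S32, hc, ?_⟩
  intro X w y s hX hw
  have hX0 : 0 < X := by linarith
  have h1 : ‖zs (w + y) s‖ ≤ Real.exp 1 * Nw.S32 * Real.exp (w + y) :=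
    Nw.norm_zsum_le (Real.exp_pos _) s
  have h2 : Real.exp (w + y) ≤ X ^ 2 * Real.exp |y| := by
    rw [Real.exp_add]
    refine mul_le_mul ?_ (Real.exp_le_exp.2 (le_abs_self y)) (Real.exp_pos _).le (by positivity)
    calc Real.exp w ≤ Real.exp (2 * Real.log X) := Real.exp_le_exp.2 hw
      _ = X ^ 2 := by rw [two_mul, Real.exp_add, Real.exp_log hX0]; ring
  have h3 : ‖zs (w + y) s‖ ≤ Real.exp 1 * Nw.S32 * X ^ 2 * Real.exp |y| := by
    refine h1.trans ?_
    rw [mul_assoc (Real.exp 1 * Nw.S32)]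
    exact mul_le_mul_of_nonneg_left h2 hc
  rw [← ofReal_norm, ENNReal.ofReal_rpow_of_nonneg (norm_nonneg _) (by linarith)]
  exact ENNReal.ofReal_le_ofReal (Real.rpow_le_rpow (norm_nonneg _) h3 (by linarith))

/-- the bound on `[X/2, 4X]` -/
lemma cover {q X : ℝ} (F : ℝ → ℂ) (J : ℝ≥0∞) (hX : 4 ≤ X)
    (h : ∀ Y : ℝ, X / 2 ≤ Y → Y ≤ 2 * X → mm q Y F ≤ J) :
    ∫⁻ s in Icc (X / 2) (4 * X), ‖F s‖ₑ ^ q ≤ 3 * J := by
  have hsub : Icc (X / 2) (4 * X) ⊆
      (Icc (X / 2) (2 * (X / 2)) ∪ Icc X (2 * X)) ∪ Icc (2 * X) (2 * (2 * X)) := by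
    intro s hs
    rcases le_total s X with h1 | h1
    · exact Or.inl (Or.inl ⟨hs.1, by linarith⟩)
    · rcases le_total s (2 * X) with h2 | h2
      · exact Or.inl (Or.inr ⟨h1, h2⟩)
      · exact Or.inr ⟨h2, by linarith [hs.2]⟩
  have h1 := h (X / 2) le_rfl (by linarith)
  have h2 := h X (by linarith) (by linarith)
  have h3 := h (2 * X) (by linarith) le_rfl
  unfold mm at h1 h2 h3
  calc ∫⁻ s in Icc (X / 2) (4 * X), ‖F s‖ₑ ^ q
      ≤ _ := lintegral_mono_set hsub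
    _ ≤ _ := lintegral_union_le _ _ _
    _ ≤ (J + J) + J := add_le_add ((lintegral_union_le _ _ _).trans (add_le_add h1 h2)) h3
    _ = 3 * J := by ring

/-- KER and JEN together -/
lemma powker {q : ℝ} (hq : 1 ≤ q) (hK : T_KER) (hJ : T_JEN) (hC : T_CON) :
    ∃ C : ℝ≥0∞, C ≠ ⊤ ∧ ∀ w r t : ℝ, |r| ≤ 1 → ‖zs (w + r) t‖ₑ ^ q ≤
      C * ∫⁻ p : ℝ × ℝ, kk p * ‖zs (w + p.1) (t - p.2)‖ₑ ^ q := by
  obtain ⟨C, h⟩ := hK
  refine ⟨ENNReal.ofReal C ^ q * (∫⁻ p, kk p) ^ (q - 1), ENNReal.mul_ne_top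
    (ENNReal.rpow_ne_top_of_nonneg (by linarith) ENNReal.ofReal_ne_top)
    (ENNReal.rpow_ne_top_of_nonneg (by linarith) int_kk), ?_⟩
  intro w r t hr
  have h1 := h w r t hr
  have hm : Measurable fun p : ℝ × ℝ => ‖zs (w + p.1) (t - p.2)‖ₑ := by
    have : Continuous fun p : ℝ × ℝ => zs (w + p.1) (t - p.2) :=
      hC.comp (f := fun p : ℝ × ℝ => (w + p.1, t - p.2)) (by fun_prop)
    exact this.measurable.enorm
  have h2 := hJ (volume : Measure (ℝ × ℝ)) q kk (fun p => ‖zs (w + p.1) (t - p.2)‖ₑ) hq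
    meas_kk.aemeasurable hm.aemeasurable
  calc ‖zs (w + r) t‖ₑ ^ q
      ≤ (ENNReal.ofReal C * ∫⁻ p : ℝ × ℝ, kk p * ‖zs (w + p.1) (t - p.2)‖ₑ) ^ q :=
        ENNReal.rpow_le_rpow h1 (by linarith)
    _ = ENNReal.ofReal C ^ q * (∫⁻ p : ℝ × ℝ, kk p * ‖zs (w + p.1) (t - p.2)‖ₑ) ^ q :=
        ENNReal.mul_rpow_of_nonneg _ _ (by linarith)
    _ ≤ _ := by
        rw [mul_assoc]
        exact mul_le_mul_right h2 _

/-- translation, first form -/
lemma shift1 {X y : ℝ} (f : ℝ → ℝ≥0∞) (hX : 4 ≤ X) (hy : |y| ≤ X / 2) :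
    ∫⁻ t in Icc X (2 * X), f (t - y) ≤ ∫⁻ s in Icc (X / 2) (4 * X), f s := by
  rw [← lintegral_indicator measurableSet_Icc, ← lintegral_indicator measurableSet_Icc,
    ← lintegral_sub_right_eq_self ((Icc (X / 2) (4 * X)).indicator f) y]
  refine lintegral_mono fun t => ?_
  have hy' := abs_le.1 hy
  by_cases ht : t ∈ Icc X (2 * X)
  · have h2 : t - y ∈ Icc (X / 2) (4 * X) := ⟨by linarith [ht.1], by linarith [ht.2]⟩
    rw [indicator_of_mem ht, indicator_of_mem h2]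
  · rw [indicator_of_notMem ht]
    exact bot_le

/-- translation, second form -/
lemma shift2 {X t : ℝ} (f : ℝ → ℝ≥0∞) (hX : 4 ≤ X) (h1 : X ≤ t) (h2 : t ≤ 2 * X) :
    ∫⁻ y in Icc (-(X / 2)) (X / 2), f (t - y) ≤ ∫⁻ s in Icc (X / 2) (4 * X), f s := by
  rw [← lintegral_indicator measurableSet_Icc, ← lintegral_indicator measurableSet_Icc,
    ← lintegral_sub_left_eq_self ((Icc (X / 2) (4 * X)).indicator f) t]
  refine lintegral_mono fun y => ?_
  by_cases hy : y ∈ Icc (-(X / 2)) (X / 2)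
  · have h3 : t - y ∈ Icc (X / 2) (4 * X) := ⟨by linarith [hy.2], by linarith [hy.1]⟩
    rw [indicator_of_mem hy, indicator_of_mem h3]
  · rw [indicator_of_notMem hy]
    exact bot_le

end AVG_

open AVG_ in
theorem p_AVG (h_KER : T_KER) (h_JEN : T_JEN) (h_CON : T_CON) : T_AVG := by
  intro q δ hq hδ
  have hq0 : 0 ≤ q := by linarith
  obtain ⟨C0, hC0, hpk⟩ := powker hq h_KER h_JEN h_CON
  obtain ⟨c, hc, hcr⟩ := crude hq
  obtain ⟨C1, hC1, hta⟩ := real_tail hq hδ hc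
  -- the tails
  have bad : ∀ (X w s : ℝ) (p : ℝ × ℝ), 4 ≤ X → w ≤ 2 * Real.log X →
      ¬ (|p.1| ≤ δ * Real.log X ∧ |p.2| ≤ X / 2) →
        ENNReal.ofReal X * (kk p * ENNReal.ofReal ((c * X ^ 2 * Real.exp |p.1|) ^ q)) ≤
          ENNReal.ofReal C1 * (k1 p.1 * k2 p.2) := by
    intro X w s p hX hw hb
    have h1 := hta X p.1 p.2 hX hb
    have hX0 : 0 ≤ X := by linarith
    unfold kk k1 k2
    rw [← ENNReal.ofReal_mul (Real.exp_pos _).le, ← ENNReal.ofReal_mul hX0,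
      ← ENNReal.ofReal_mul (Real.exp_pos _).le, ← ENNReal.ofReal_mul hC1]
    exact ENNReal.ofReal_le_ofReal h1
  set KI : ℝ≥0∞ := ∫⁻ p : ℝ × ℝ, k1 p.1 * k2 p.2 with hKI
  set K1 : ℝ≥0∞ := ∫⁻ x, k1 x with hK1
  set D : ℝ≥0∞ := C0 * ((3 + ENNReal.ofReal C1) * (KI + K1)) with hD
  have hDt : D ≠ ⊤ := by
    refine ENNReal.mul_ne_top hC0 (ENNReal.mul_ne_top ?_ ?_)
    · exact ENNReal.add_ne_top.2 ⟨by norm_num, ENNReal.ofReal_ne_top⟩
    · exact ENNReal.add_ne_top.2 ⟨int_KK, int_k1⟩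
  refine ⟨D.toReal, ?_⟩
  intro X w J hX hw hJ
  have hX0 : 0 < X := by linarith
  rw [ENNReal.ofReal_toReal hDt]
  have hcov : ∀ x : ℝ, |x| ≤ δ * Real.log X →
      ∫⁻ s in Icc (X / 2) (4 * X), ‖zs (w + x) s‖ₑ ^ q ≤ 3 * J := by
    intro x hx
    refine cover _ J hX fun Y h1 h2 => hJ (w + x) Y ?_ h1 h2
    rwa [add_sub_cancel_left]
  constructor
  · intro r hr
    have hmeas : Measurable (Function.uncurry fun (t : ℝ) (p : ℝ × ℝ) =>
        kk p * ‖zs (w + p.1) (t - p.2)‖ₑ ^ q) := by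
      have hc : Continuous fun z : ℝ × (ℝ × ℝ) => zs (w + z.2.1) (z.1 - z.2.2) :=
        h_CON.comp (f := fun z : ℝ × (ℝ × ℝ) => (w + z.2.1, z.1 - z.2.2)) (by fun_prop)
      have hc2 : Measurable fun z : ℝ × (ℝ × ℝ) => ‖zs (w + z.2.1) (z.1 - z.2.2)‖ₑ ^ q :=
        hc.measurable.enorm.pow_const q
      have hk2 : Measurable fun z : ℝ × (ℝ × ℝ) => kk z.2 := meas_kk.comp measurable_snd
      exact hk2.mul hc2
    calc ∫⁻ t in Icc X (2 * X), ‖zs (w + r t) t‖ₑ ^ q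
        ≤ ∫⁻ t in Icc X (2 * X), C0 * ∫⁻ p : ℝ × ℝ, kk p * ‖zs (w + p.1) (t - p.2)‖ₑ ^ q :=
          lintegral_mono fun t => hpk w (r t) t (hr t)
      _ = C0 * ∫⁻ t in Icc X (2 * X), ∫⁻ p : ℝ × ℝ, kk p * ‖zs (w + p.1) (t - p.2)‖ₑ ^ q :=
          lintegral_const_mul' _ _ hC0
      _ = C0 * ∫⁻ p : ℝ × ℝ, ∫⁻ t in Icc X (2 * X), kk p * ‖zs (w + p.1) (t - p.2)‖ₑ ^ q := by
          rw [lintegral_lintegral_swap hmeas.aemeasurable]
      _ ≤ C0 * ∫⁻ p : ℝ × ℝ, (3 * J + ENNReal.ofReal C1) * (k1 p.1 * k2 p.2) := by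
          refine mul_le_mul_right (lintegral_mono fun p => ?_) _
          have hcm : ∫⁻ t in Icc X (2 * X), kk p * ‖zs (w + p.1) (t - p.2)‖ₑ ^ q =
              kk p * ∫⁻ t in Icc X (2 * X), ‖zs (w + p.1) (t - p.2)‖ₑ ^ q :=
            lintegral_const_mul' _ _ ENNReal.ofReal_ne_top
          rw [hcm]
          by_cases hg : |p.1| ≤ δ * Real.log X ∧ |p.2| ≤ X / 2
          · have h1 := (shift1 (fun s => ‖zs (w + p.1) s‖ₑ ^ q) hX hg.2).trans (hcov p.1 hg.1)
            calc kk p * ∫⁻ t in Icc X (2 * X), ‖zs (w + p.1) (t - p.2)‖ₑ ^ q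
                ≤ (k1 p.1 * k2 p.2) * (3 * J) := mul_le_mul' (kk_le p) h1
              _ = 3 * J * (k1 p.1 * k2 p.2) := mul_comm _ _
              _ ≤ _ := mul_le_mul_left le_self_add _
          · have h1 : ∫⁻ t in Icc X (2 * X), ‖zs (w + p.1) (t - p.2)‖ₑ ^ q ≤
                ENNReal.ofReal X * ENNReal.ofReal ((c * X ^ 2 * Real.exp |p.1|) ^ q) := by
              refine (lintegral_mono fun t => hcr X w p.1 (t - p.2) hX hw).trans ?_
              rw [lintegral_const, Measure.restrict_apply MeasurableSet.univ, univ_inter,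
                Real.volume_Icc, mul_comm]
              refine le_of_eq ?_
              congr 2
              ring
            calc kk p * ∫⁻ t in Icc X (2 * X), ‖zs (w + p.1) (t - p.2)‖ₑ ^ q
                ≤ kk p * (ENNReal.ofReal X *
                  ENNReal.ofReal ((c * X ^ 2 * Real.exp |p.1|) ^ q)) := mul_le_mul_right h1 _
              _ = ENNReal.ofReal X *
                  (kk p * ENNReal.ofReal ((c * X ^ 2 * Real.exp |p.1|) ^ q)) := by ring
              _ ≤ ENNReal.ofReal C1 * (k1 p.1 * k2 p.2) := bad X w 0 p hX hw hg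
              _ ≤ _ := mul_le_mul_left le_add_self _
      _ = C0 * ((3 * J + ENNReal.ofReal C1) * KI) := by
          rw [lintegral_const_mul]
          exact (meas_k1.comp measurable_fst).mul (meas_k2.comp measurable_snd)
      _ ≤ C0 * (((3 + ENNReal.ofReal C1) * (J + 1)) * (KI + K1)) := by
          refine mul_le_mul_right (mul_le_mul' ?_ le_self_add) _
          calc 3 * J + ENNReal.ofReal C1
              ≤ 3 * (J + 1) + ENNReal.ofReal C1 * (J + 1) := by
                refine add_le_add (mul_le_mul_right le_self_add _) ?_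
                calc ENNReal.ofReal C1 = ENNReal.ofReal C1 * 1 := (mul_one _).symm
                  _ ≤ _ := mul_le_mul_right le_add_self _
            _ = _ := by ring
      _ = D * (J + 1) := by rw [hD]; ring
  · intro t ht1 ht2
    have h0 := hpk w 0 t (by norm_num)
    rw [add_zero] at h0
    refine h0.trans ?_
    have hpt : ∀ p : ℝ × ℝ, kk p * ‖zs (w + p.1) (t - p.2)‖ₑ ^ q ≤
        (k1 p.1 * (if |p.1| ≤ δ * Real.log X then
          (Icc (-(X / 2)) (X / 2)).indicator (fun y => ‖zs (w + p.1) (t - y)‖ₑ ^ q) p.2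
          else 0)) + ENNReal.ofReal C1 * (k1 p.1 * k2 p.2) := by
      intro p
      by_cases hg : |p.1| ≤ δ * Real.log X ∧ |p.2| ≤ X / 2
      · have hm : p.2 ∈ Icc (-(X / 2)) (X / 2) := abs_le.1 hg.2
        rw [if_pos hg.1, indicator_of_mem hm]
        exact (mul_le_mul_left (kk_le1 p) _).trans le_self_add
      · have h1 := hcr X w p.1 (t - p.2) hX hw
        calc kk p * ‖zs (w + p.1) (t - p.2)‖ₑ ^ q
            ≤ kk p * ENNReal.ofReal ((c * X ^ 2 * Real.exp |p.1|) ^ q) := mul_le_mul_right h1 _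
          _ = 1 * (kk p * ENNReal.ofReal ((c * X ^ 2 * Real.exp |p.1|) ^ q)) := (one_mul _).symm
          _ ≤ ENNReal.ofReal X *
              (kk p * ENNReal.ofReal ((c * X ^ 2 * Real.exp |p.1|) ^ q)) := by
              refine mul_le_mul_left ?_ _
              rw [← ENNReal.ofReal_one]
              exact ENNReal.ofReal_le_ofReal (by linarith)
          _ ≤ ENNReal.ofReal C1 * (k1 p.1 * k2 p.2) := bad X w 0 p hX hw hg
          _ ≤ _ := le_add_self
    have hgood : ∫⁻ p : ℝ × ℝ, (k1 p.1 * (if |p.1| ≤ δ * Real.log X then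
          (Icc (-(X / 2)) (X / 2)).indicator (fun y => ‖zs (w + p.1) (t - y)‖ₑ ^ q) p.2
          else 0)) ≤ K1 * (3 * J) := by
      rw [Measure.volume_eq_prod]
      refine (lintegral_prod_le _).trans ?_
      rw [hK1, ← lintegral_mul_const _ meas_k1]
      refine lintegral_mono fun x => ?_
      dsimp only
      by_cases hx : |x| ≤ δ * Real.log X
      · simp only [if_pos hx]
        have hcm : ∫⁻ y, k1 x * (Icc (-(X / 2)) (X / 2)).indicator
            (fun y => ‖zs (w + x) (t - y)‖ₑ ^ q) y =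
            k1 x * ∫⁻ y, (Icc (-(X / 2)) (X / 2)).indicator
              (fun y => ‖zs (w + x) (t - y)‖ₑ ^ q) y :=
          lintegral_const_mul' _ _ ENNReal.ofReal_ne_top
        rw [hcm, lintegral_indicator measurableSet_Icc]
        exact mul_le_mul_right
          ((shift2 (fun s => ‖zs (w + x) s‖ₑ ^ q) hX ht1 ht2).trans (hcov x hx)) _
      · simp only [if_neg hx, mul_zero, lintegral_zero]
        exact bot_le
    calc C0 * ∫⁻ p : ℝ × ℝ, kk p * ‖zs (w + p.1) (t - p.2)‖ₑ ^ q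
        ≤ C0 * (K1 * (3 * J) + ENNReal.ofReal C1 * KI) := by
          refine mul_le_mul_right ?_ _
          refine (lintegral_mono hpt).trans ?_
          rw [lintegral_add_right]
          · refine add_le_add hgood (le_of_eq ?_)
            rw [lintegral_const_mul]
            exact (meas_k1.comp measurable_fst).mul (meas_k2.comp measurable_snd)
          · exact ((meas_k1.comp measurable_fst).mul (meas_k2.comp measurable_snd)).const_mul _
      _ ≤ C0 * (((3 + ENNReal.ofReal C1) * (J + 1)) * (KI + K1)) := by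
          refine mul_le_mul_right ?_ _
          have e : (3 + ENNReal.ofReal C1) * (J + 1) * (KI + K1) =
              (K1 * (3 * J) + ENNReal.ofReal C1 * KI) + (K1 * 3 + K1 * ENNReal.ofReal C1 * J +
                K1 * ENNReal.ofReal C1 + 3 * J * KI + 3 * KI + ENNReal.ofReal C1 * J * KI) := by
            ring
          rw [e]
          exact le_self_add
      _ = D * (J + 1) := by rw [hD]; ring

end Pool.Agent.PertQ
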