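import Pool.Agent.PertQ.INFQ
import Pool.Agent.DBN.WinSumC

/-!
# PertQ, INF1: the mean of order `q` gives the pointwise bound with a loss of `1/q`
-/

set_option autoImplicit false

namespace Pool.Agent.PertQ

open MeasureTheory Set Complex Pool.Agent.CW Pool.Agent.DBN Pool.Agent.PertZ
open scoped ENNReal

/-- the mean of order `q` gives the pointwise bound with a loss of `1/q` -/
def T_INF1 : Prop := ∀ q b a : ℝ, 1 ≤ q → 0 ≤ b → b ≤ 1 → 0 ≤ a → SumQ q b a →
  SumLe b (a + 1 / q)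


open INFQ_ in
theorem p_INF1 (h_AVG : T_AVG) : T_INF1 := by
  intro q b a hq1 hb0 hb1 ha hSq ε hε
  have hq0 : 0 < q := by linarith
  have hqi : 0 < 1 / q := by positivity
  obtain ⟨δ₀, hδ₀, C₁, hC₁⟩ := hSq (ε / 4) (by positivity)
  set δ₁ : ℝ := min δ₀ 1 with hδ₁
  have hδp : 0 < δ₁ := lt_min hδ₀ one_pos
  have hδ1 : δ₁ ≤ 1 := min_le_right _ _
  have hδ0 : δ₁ ≤ δ₀ := min_le_left _ _
  obtain ⟨C₂, hC₂⟩ := h_AVG q (δ₁ / 4) hq1 (by positivity)
  set e : ℝ := 1 + q * (a + ε / 4) with he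
  have he0 : 0 ≤ e := by positivity
  set T₀ : ℝ := max 4 (Real.exp (2 * (1 + δ₁) / δ₁)) with hT₀
  have hT₀4 : 4 ≤ T₀ := le_max_left _ _
  set C₃ : ℝ := |C₂| * (|C₁| * 2 ^ e + 1) with hC₃
  have hC₃0 : 0 ≤ C₃ := by positivity
  have hK0 : 0 ≤ Real.exp 1 * Nw.S32 := mul_nonneg (Real.exp_pos 1).le Nw.S32_nonneg
  refine ⟨δ₁ / 4, by positivity, Real.exp 1 * Nw.S32 * T₀ ^ (2 : ℝ) + C₃ ^ (1 / q),
    fun T N hT hN1 hN2 => ?_⟩
  have hT0 : 0 < T := by linarith
  have hT1 : 1 ≤ T := by linarith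
  have hN0 : 0 < N := lt_of_lt_of_le (Real.rpow_pos_of_pos hT0 _) hN1
  have hpow : 1 ≤ T ^ (a + 1 / q + ε) := Real.one_le_rpow hT1 (by positivity)
  rcases le_or_gt T T₀ with hsmall | hbig
  · have h1 : ‖zsum N T‖ ≤ Real.exp 1 * Nw.S32 * T₀ ^ (2 : ℝ) := by
      refine (Nw.norm_zsum_le hN0 T).trans (mul_le_mul_of_nonneg_left ?_ hK0)
      calc N ≤ T ^ (b + δ₁ / 4) := hN2
        _ ≤ T ^ (2 : ℝ) := Real.rpow_le_rpow_of_exponent_le hT1 (by linarith)
        _ ≤ T₀ ^ (2 : ℝ) := Real.rpow_le_rpow hT0.le hsmall (by norm_num)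
    have h2 : 0 ≤ C₃ ^ (1 / q) := Real.rpow_nonneg hC₃0 _
    have h3 : 0 ≤ Real.exp 1 * Nw.S32 * T₀ ^ (2 : ℝ) + C₃ ^ (1 / q) := by positivity
    nlinarith
  · set L : ℝ := Real.log T with hL
    have hT4 : 4 ≤ T := by linarith
    have hL1 : 2 * (1 + δ₁) ≤ δ₁ * L := by
      have h1 : Real.exp (2 * (1 + δ₁) / δ₁) ≤ T := (le_max_right _ _).trans hbig.le
      have h2 := (Real.le_log_iff_exp_le hT0).2 h1
      rw [div_le_iff₀ hδp] at h2
      linarith
    have hL0 : 0 < L := Real.log_pos (by linarith)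
    set w : ℝ := Real.log N with hw
    have hwe : Real.exp w = N := Real.exp_log hN0
    have hw1 : (b - δ₁ / 4) * L ≤ w := by
      have := Real.log_le_log (Real.rpow_pos_of_pos hT0 _) hN1
      rwa [Real.log_rpow hT0] at this
    have hw2 : w ≤ (b + δ₁ / 4) * L := by
      have := Real.log_le_log hN0 hN2
      rwa [Real.log_rpow hT0] at this
    have hlog2 : Real.log 2 ≤ 1 := by
      have := Real.log_two_lt_d9
      linarith
    set J : ℝ≥0∞ := ENNReal.ofReal (|C₁| * (2 * T) ^ e) with hJ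
    have hkey := (hC₂ T w J hT4 (by nlinarith) (fun w' Y hw' hY1 hY2 => by
      have hY0 : 0 < Y := by linarith
      have hY3 : 2 ≤ Y := by linarith
      have hy1 : L - 1 ≤ Real.log Y := by
        have h1 := Real.log_le_log (by positivity) hY1
        rw [Real.log_div hT0.ne' (by norm_num)] at h1
        linarith
      have hy2 : Real.log Y ≤ L + 1 := by
        have h1 := Real.log_le_log hY0 hY2
        rw [Real.log_mul (by norm_num) hT0.ne'] at h1
        linarith
      obtain ⟨g1, g2⟩ := win hb0 hb1 hδp hL1 hw1 hw2 hw' hy1 hy2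
      have hy0 : 0 ≤ Real.log Y := Real.log_nonneg (by linarith)
      have k1 : Y ^ (b - δ₀) ≤ Real.exp w' := by
        rw [Real.rpow_def_of_pos hY0]
        refine Real.exp_le_exp.2 (le_trans ?_ g1)
        rw [mul_comm]
        exact mul_le_mul_of_nonneg_right (by linarith) hy0
      have k2 : Real.exp w' ≤ Y ^ (b + δ₀) := by
        rw [Real.rpow_def_of_pos hY0]
        refine Real.exp_le_exp.2 (g2.trans ?_)
        rw [mul_comm (Real.log Y)]
        exact mul_le_mul_of_nonneg_right (by linarith) hy0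
      refine (hC₁ Y (Real.exp w') hY3 k1 k2).trans (ENNReal.ofReal_le_ofReal ?_)
      have k3 : Y ^ e ≤ (2 * T) ^ e := Real.rpow_le_rpow hY0.le hY2 he0
      calc C₁ * Y ^ e ≤ |C₁| * Y ^ e :=
            mul_le_mul_of_nonneg_right (le_abs_self _) (Real.rpow_nonneg hY0.le _)
        _ ≤ |C₁| * (2 * T) ^ e := mul_le_mul_of_nonneg_left k3 (abs_nonneg _))).2 T le_rfl
      (by linarith)
    have hzs : zs w T = zsum N T := by
      unfold zs
      rw [hwe]
    rw [hzs, enorm_rpow hq0.le] at hkey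
    have hTe : 1 ≤ T ^ e := Real.one_le_rpow hT1 he0
    have hreal : ‖zsum N T‖ ^ q ≤ C₃ * T ^ e := by
      have h1 : ENNReal.ofReal C₂ * (J + 1) ≤ ENNReal.ofReal (C₃ * T ^ e) := by
        calc ENNReal.ofReal C₂ * (J + 1) ≤ ENNReal.ofReal |C₂| * (J + ENNReal.ofReal 1) := by
              rw [ENNReal.ofReal_one]
              exact mul_le_mul_left (ENNReal.ofReal_le_ofReal (le_abs_self _)) _
          _ = ENNReal.ofReal (|C₂| * (|C₁| * (2 * T) ^ e + 1)) := by
              rw [hJ, ← ENNReal.ofReal_add (by positivity) zero_le_one,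
                ← ENNReal.ofReal_mul (abs_nonneg _)]
          _ ≤ ENNReal.ofReal (C₃ * T ^ e) := by
              refine ENNReal.ofReal_le_ofReal ?_
              rw [hC₃, mul_assoc]
              refine mul_le_mul_of_nonneg_left ?_ (abs_nonneg _)
              rw [Real.mul_rpow (by norm_num) hT0.le]
              nlinarith
      exact (ENNReal.ofReal_le_ofReal_iff (by positivity)).1 (hkey.trans h1)
    have hfin : ‖zsum N T‖ ≤ C₃ ^ (1 / q) * T ^ (a + 1 / q + ε) := by
      calc ‖zsum N T‖ = (‖zsum N T‖ ^ q) ^ (1 / q) := by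
            rw [← Real.rpow_mul (norm_nonneg _), mul_one_div_cancel hq0.ne', Real.rpow_one]
        _ ≤ (C₃ * T ^ e) ^ (1 / q) :=
            Real.rpow_le_rpow (by positivity) hreal (by positivity)
        _ = C₃ ^ (1 / q) * T ^ (e * (1 / q)) := by
            rw [Real.mul_rpow hC₃0 (by positivity), ← Real.rpow_mul hT0.le]
        _ ≤ C₃ ^ (1 / q) * T ^ (a + 1 / q + ε) := by
            refine mul_le_mul_of_nonneg_left ?_ (Real.rpow_nonneg hC₃0 _)
            refine Real.rpow_le_rpow_of_exponent_le hT1 ?_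
            have h1 : e * (1 / q) = 1 / q + (a + ε / 4) := by
              rw [he]
              field_simp
            rw [h1]
            linarith
    have h5 : 0 ≤ Real.exp 1 * Nw.S32 * T₀ ^ (2 : ℝ) * T ^ (a + 1 / q + ε) := by positivity
    nlinarith

end Pool.Agent.PertQ
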