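import Pool.Agent.PertQ.Targets2
import Pool.Agent.PertQ.INF1
import Pool.Agent.PertZ.FinL
import Pool.Agent.PertZ.DET2

/-!
# Assembly of the law for finite `q`
-/

set_option autoImplicit false

namespace Pool.Agent.PertQ

open MeasureTheory Set Complex Pool.Agent.CW Pool.Agent.DBN Pool.Agent.PertZ
open scoped ENNReal

/-- continuity of the mean -/
lemma cont_Dl (hA : P_SMA) {B : ℝ} (hB : 1 / 2 < B) : Continuous (Dl B) := by
  unfold Dl
  refine DET2_cont.sub ?_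
  rw [continuous_iff_continuousAt]
  intro t
  have h1 := (hA one' B hB (by simp [one']) (fun n => by
    unfold one'
    split_ifs <;> simp)).1 (1 / 2 + t * I) (by simp) (by simp; linarith)
  have h2 : ContinuousAt (fun t : ℝ => (1 / 2 + t * I : ℂ)) t := by fun_prop
  exact ContinuousAt.comp (f := fun t : ℝ => (1 / 2 + t * I : ℂ)) h1.continuousAt h2

/-- the set of exponents in the mean is a closed half line -/
lemma exponentQ {q : ℝ} (hq : 1 ≤ q) (F : ℝ → ℂ) (A₀ : ℝ) (h0 : 0 ≤ A₀) (h : ExpQ q A₀ F) :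
    ∃ e : ℝ, 0 ≤ e ∧ ∀ A : ℝ, 0 ≤ A → (ExpQ q A F ↔ e ≤ A) := by
  have hne : {A : ℝ | 0 ≤ A ∧ ExpQ q A F}.Nonempty := ⟨A₀, h0, h⟩
  have hbd : BddBelow {A : ℝ | 0 ≤ A ∧ ExpQ q A F} := ⟨0, fun x hx => hx.1⟩
  refine ⟨sInf {A : ℝ | 0 ≤ A ∧ ExpQ q A F}, Real.sInf_nonneg (fun x hx => hx.1), fun A hA =>
    ⟨fun h1 => csInf_le hbd ⟨hA, h1⟩, fun h1 ε hε => ?_⟩⟩
  obtain ⟨m, hm, hlt⟩ := exists_lt_of_csInf_lt hne
    (show sInf {A : ℝ | 0 ≤ A ∧ ExpQ q A F} < A + ε / 2 by linarith)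
  obtain ⟨C, hC⟩ := hm.2 (ε / 2) (by linarith)
  refine ⟨|C|, fun X hX => (hC X hX).trans (ENNReal.ofReal_le_ofReal ?_)⟩
  have h2 : X ^ (1 + q * (m + ε / 2)) ≤ X ^ (1 + q * (A + ε)) := by
    apply Real.rpow_le_rpow_of_exponent_le hX
    nlinarith
  have h3 : 0 ≤ X ^ (1 + q * (m + ε / 2)) := Real.rpow_nonneg (by linarith) _
  calc C * X ^ (1 + q * (m + ε / 2)) ≤ |C| * X ^ (1 + q * (m + ε / 2)) :=
        mul_le_mul_of_nonneg_right (le_abs_self _) h3
    _ ≤ |C| * X ^ (1 + q * (A + ε)) := mul_le_mul_of_nonneg_left h2 (abs_nonneg _)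

/-- the law for finite `q`; `ei` is the exponent for `q = ∞` -/
theorem asm (hSMA : P_SMA) (hREFQ : T_REFQ) (hINF1 : T_INF1) (hFINQ : T_FINQ) (hHOLQ : T_HOLQ)
    (hGSFQ : T_GSFQ) (hZSQ : T_ZSQ) (hGSBQ : T_GSBQ) (hSZQ : T_SZQ) (hBNDQ : T_BNDQ)
    (hLYA : T_LYA) (hGSB : P_GSB) (ei : ℝ → ℝ)
    (hei : ∀ B : ℝ, 1 / 2 < B → 0 ≤ ei B ∧ ∀ A : ℝ, 0 ≤ A → (ExpLe A (Dl B) ↔ ei B ≤ A)) :
    ∃ e : ℝ → ℝ → ℝ,
      (∀ q B : ℝ, 1 ≤ q → 1 / 2 < B → 0 ≤ e q B ∧
        (∀ A : ℝ, 0 ≤ A → (ExpQ q A (Dl B) ↔ e q B ≤ A)) ∧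
        (∀ A : ℝ, 0 ≤ A → (e q B ≤ A ↔
          ∀ b : ℝ, 0 ≤ b → b ≤ 1 → SumQ q b (A + max 0 (1 - B * b)))) ∧
        e q B ≤ ei B ∧ (∀ r : ℝ, q ≤ r → e q B ≤ e r B) ∧
        (∀ B' : ℝ, B ≤ B' → e q B ≤ e q B' ∧ e q B' ≤ e q B + (1 - B / B')) ∧
        (2 ≤ B → ∀ A : ℝ, 0 ≤ A → (e q B ≤ A ↔ ExpQ q A zl))) ∧
      (∀ (k : ℕ) (B : ℝ), 1 ≤ k → 1 ≤ B →
        e (2 * k) B ≤ max 0 (min ((1 - 1 / B) / 2) (1 / 4) - 1 / (2 * k))) ∧
      (∀ (k : ℕ) (q B : ℝ), 1 ≤ k → 1 ≤ q → q ≤ 2 * k → 1 / 2 < B → (1 ≤ 1 / B + 1 / k ∨ k ≤ 2) →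
        e q B = 0) ∧
      (∀ B q : ℝ, 1 / 2 < B → 1 ≤ q → ei B ≤ e q B + 1 / q ∧
        ∀ r : ℝ, q ≤ r → e r B ≤ e q B + (1 / q - 1 / r)) ∧
      (∀ B q r p θ : ℝ, 1 / 2 < B → 1 ≤ q → 1 ≤ r → 1 ≤ p → 0 ≤ θ → θ ≤ 1 →
        1 / p = (1 - θ) / q + θ / r → e p B ≤ (1 - θ) * e q B + θ * e r B) ∧
      ∀ B q p θ : ℝ, 1 / 2 < B → 1 ≤ q → 1 ≤ p → 0 ≤ θ → θ < 1 →
        1 / p = (1 - θ) / q → e p B ≤ (1 - θ) * e q B + θ * ei B := by
  have hex : ∀ q B : ℝ, ∃ e : ℝ, 1 ≤ q → 1 / 2 < B → 0 ≤ e ∧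
      ∀ A : ℝ, 0 ≤ A → (ExpQ q A (Dl B) ↔ e ≤ A) := by
    intro q B
    by_cases hq : 1 ≤ q ∧ 1 / 2 < B
    · obtain ⟨hi0, hi⟩ := hei B hq.2
      have h1 : ExpQ q (ei B) (Dl B) := hFINQ.2.1 q (ei B) (Dl B) hq.1 hi0 ((hi _ hi0).mpr le_rfl)
      obtain ⟨e, he0, he⟩ := exponentQ hq.1 (Dl B) (ei B) hi0 h1
      exact ⟨e, fun _ _ => ⟨he0, he⟩⟩
    · exact ⟨0, fun h1 h2 => absurd ⟨h1, h2⟩ hq⟩
  choose e he using hex
  have hself : ∀ q B : ℝ, 1 ≤ q → 1 / 2 < B → ExpQ q (e q B) (Dl B) := fun q B hq hB =>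
    ((he q B hq hB).2 _ (he q B hq hB).1).mpr le_rfl
  have hlaw : ∀ q B A : ℝ, 1 ≤ q → 1 / 2 < B → 0 ≤ A → (e q B ≤ A ↔
      ∀ b : ℝ, 0 ≤ b → b ≤ 1 → SumQ q b (A + max 0 (1 - B * b))) := by
    intro q B A hq hB hA
    rw [← (he q B hq hB).2 A hA]
    exact ⟨fun h => hGSFQ q B A hq hB hA (cont_Dl hSMA hB).measurable h,
      fun h => hGSBQ q B A hq hB hA h⟩
  have hmonoB : ∀ q B B' : ℝ, 1 ≤ q → 1 / 2 < B → B ≤ B' →
      e q B ≤ e q B' ∧ e q B' ≤ e q B + (1 - B / B') := by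
    intro q B B' hq hB hBB
    have hB' : 1 / 2 < B' := by linarith
    have hB0 : 0 < B := by linarith
    have hB0' : 0 < B' := by linarith
    have h1B : 0 ≤ 1 - B / B' := by
      rw [sub_nonneg, div_le_one hB0']
      exact hBB
    constructor
    · rw [hlaw q B _ hq hB (he q B' hq hB').1]
      intro b hb0 hb1
      have h1 := (hlaw q B' _ hq hB' (he q B' hq hB').1).mp le_rfl b hb0 hb1
      refine hFINQ.2.2.1 q b _ _ hq ?_ h1
      have h2 : 1 - B' * b ≤ 1 - B * b := by nlinarith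
      have h3 := max_le_max (le_refl (0 : ℝ)) h2
      linarith
    · rw [hlaw q B' _ hq hB' (by linarith [(he q B hq hB).1])]
      intro b hb0 hb1
      have h1 := (hlaw q B _ hq hB (he q B hq hB).1).mp le_rfl b hb0 hb1
      refine hFINQ.2.2.1 q b _ _ hq ?_ h1
      have h2 : max 0 (1 - B * b) ≤ (1 - B / B') + max 0 (1 - B' * b) := by
        apply max_le
        · have := le_max_left 0 (1 - B' * b)
          linarith
        · rcases le_total (B' * b) 1 with h3 | h3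
          · have h4 : (1 - B' * b) ≤ max 0 (1 - B' * b) := le_max_right _ _
            have h5 : b * (B' - B) ≤ 1 - B / B' := by
              have h6 : 1 - B / B' = (1 / B') * (B' - B) := by field_simp
              rw [h6]
              apply mul_le_mul_of_nonneg_right _ (by linarith)
              rw [le_div_iff₀ hB0']
              linarith
            nlinarith
          · have h4 : 0 ≤ max 0 (1 - B' * b) := le_max_left _ _
            have h5 : B / B' ≤ B * b := by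
              rw [div_le_iff₀ hB0']
              nlinarith
            linarith
      linarith
  have hmonoq : ∀ q r B : ℝ, 1 ≤ q → q ≤ r → 1 / 2 < B → e q B ≤ e r B := by
    intro q r B hq hqr hB
    have hr : 1 ≤ r := hq.trans hqr
    exact ((he q B hq hB).2 _ (he r B hr hB).1).mp
      (hHOLQ.1 q r _ _ hq hqr (he r B hr hB).1 (cont_Dl hSMA hB).measurable (hself r B hr hB))
  have hz : ∀ q B A : ℝ, 1 ≤ q → 2 ≤ B → 0 ≤ A → (e q B ≤ A ↔ ExpQ q A zl) := by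
    intro q B A hq hB2 hA
    have hB : 1 / 2 < B := by linarith
    rw [hlaw q B A hq hB hA]
    constructor
    · intro h
      refine hSZQ q A hq hA (fun b hb0 hb1 => ?_)
      have h1 := h (1 - b) (by linarith) (by linarith)
      have h2 : max 0 (1 - B * (1 - b)) = 0 := by
        apply max_eq_left
        nlinarith
      rw [h2, add_zero] at h1
      have h3 := hREFQ q (1 - b) A hq (by linarith) (by linarith) hA h1
      rwa [sub_sub_cancel] at h3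
    · intro h b hb0 hb1
      refine hFINQ.2.2.1 q b _ _ hq ?_ (hZSQ q A hq hA h b hb0 hb1)
      have := le_max_left 0 (1 - B * b)
      linarith
  have hbd0 : ∀ (k : ℕ) (B : ℝ), 1 ≤ k → 1 ≤ B →
      e (2 * k) B ≤ max 0 ((1 - 1 / B) / 2 - 1 / (2 * k)) := by
    intro k B hk hB
    have hk1 : (1 : ℝ) ≤ k := by exact_mod_cast hk
    rw [hlaw (2 * k) B _ (by linarith) (by linarith) (le_max_left _ _)]
    intro b hb0 hb1
    exact hBNDQ k hk B b hB hb0 hb1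
  have hbd : ∀ (k : ℕ) (B : ℝ), 1 ≤ k → 1 ≤ B →
      e (2 * k) B ≤ max 0 (min ((1 - 1 / B) / 2) (1 / 4) - 1 / (2 * k)) := by
    intro k B hk hB
    have hk1 : (1 : ℝ) ≤ k := by exact_mod_cast hk
    have hB0 : 0 < B := by linarith
    rcases le_total B 2 with hB2 | hB2
    · have h1 : min ((1 - 1 / B) / 2) (1 / 4) = (1 - 1 / B) / 2 := by
        apply min_eq_left
        have : 1 / 2 ≤ 1 / B := one_div_le_one_div_of_le hB0 hB2
        linarith
      rw [h1]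
      exact hbd0 k B hk hB
    · have h1 : min ((1 - 1 / B) / 2) (1 / 4) = 1 / 4 := by
        apply min_eq_right
        have : 1 / B ≤ 1 / 2 := one_div_le_one_div_of_le (by norm_num) hB2
        linarith
      rw [h1]
      have h2 := hbd0 k 2 hk (by norm_num)
      have h3 : ((1 : ℝ) - 1 / 2) / 2 = 1 / 4 := by norm_num
      rw [h3] at h2
      rw [hz (2 * k) B _ (by linarith) hB2 (le_max_left _ _)]
      exact (hz (2 * k) 2 _ (by linarith) le_rfl (le_max_left _ _)).mp h2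
  refine ⟨e, ?_, hbd, ?_, ?_, ?_, ?_⟩
  · intro q B hq hB
    refine ⟨(he q B hq hB).1, (he q B hq hB).2, fun A hA => hlaw q B A hq hB hA, ?_,
      fun r hr => hmonoq q r B hq hr hB, fun B' hBB => hmonoB q B B' hq hB hBB,
      fun hB2 A hA => hz q B A hq hB2 hA⟩
    obtain ⟨hi0, hi⟩ := hei B hB
    exact ((he q B hq hB).2 _ hi0).mp
      (hFINQ.2.1 q (ei B) (Dl B) hq hi0 ((hi _ hi0).mpr le_rfl))
  · intro k q B hk hq hqk hB hBk
    have hk1 : (1 : ℝ) ≤ k := by exact_mod_cast hk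
    refine le_antisymm ?_ (he q B hq hB).1
    refine (hmonoq q (2 * k) B hq hqk hB).trans ?_
    have e2 : 1 / (2 * (k : ℝ)) = (1 / k) / 2 := by field_simp
    rcases le_total B 1 with hB1 | hB1
    · refine (hmonoB (2 * k) B 1 (by linarith) hB hB1).1.trans ?_
      refine (hbd0 k 1 hk le_rfl).trans ?_
      apply max_le le_rfl
      have : 0 < 1 / (2 * (k : ℝ)) := by positivity
      rw [one_div_one, sub_self, zero_div, zero_sub]
      linarith
    · rcases hBk with hBk | hk2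
      · refine (hbd0 k B hk hB1).trans ?_
        apply max_le le_rfl
        rw [e2]
        linarith
      · refine (hbd k B hk hB1).trans ?_
        apply max_le le_rfl
        have h1 : min ((1 - 1 / B) / 2) (1 / 4) ≤ 1 / 4 := min_le_right _ _
        have h2 : (k : ℝ) ≤ 2 := by exact_mod_cast hk2
        have h3 : 1 / 2 ≤ 1 / (k : ℝ) := one_div_le_one_div_of_le (by linarith) h2
        rw [e2]
        linarith
  · intro B q hB hq
    have hq0 : 0 < q := by linarith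
    have hqi : 0 < 1 / q := by positivity
    have h0 := (he q B hq hB).1
    have h1 : ei B ≤ e q B + 1 / q := by
      refine ((hei B hB).2 _ (by linarith)).mp (hGSB B _ hB (by linarith) (fun b hb0 hb1 => ?_))
      have h2 := (hlaw q B _ hq hB h0).mp le_rfl b hb0 hb1
      have h3 := hINF1 q b _ hq hb0 hb1 (add_nonneg h0 (le_max_left _ _)) h2
      rwa [show e q B + 1 / q + max 0 (1 - B * b) = e q B + max 0 (1 - B * b) + 1 / q by ring]
    refine ⟨h1, fun r hr => ?_⟩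
    have hr1 : 1 ≤ r := hq.trans hr
    have hr0 : 0 < r := by linarith
    obtain ⟨hi0, hi⟩ := hei B hB
    have hθ0 : 0 ≤ 1 - q / r := by
      rw [sub_nonneg, div_le_one hr0]
      exact hr
    have hθ1 : 0 < q / r := by positivity
    have e1 : 1 / r = (1 - (1 - q / r)) / q := by field_simp; ring
    have h3 : 0 ≤ (1 - (1 - q / r)) * e q B + (1 - q / r) * ei B :=
      add_nonneg (mul_nonneg (by linarith) h0) (mul_nonneg hθ0 hi0)
    have h4 := ((he r B hr1 hB).2 _ h3).mp (hLYA.2 q r (1 - q / r) _ _ (Dl B) hq hr1 hθ0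
      (by linarith) e1 h0 hi0 (cont_Dl hSMA hB).measurable (hself q B hq hB)
      ((hi _ hi0).mpr le_rfl))
    have h5 : (1 - q / r) * ei B ≤ (1 - q / r) * (e q B + 1 / q) :=
      mul_le_mul_of_nonneg_left h1 hθ0
    have h6 : (1 - (1 - q / r)) * e q B + (1 - q / r) * (e q B + 1 / q) =
        e q B + (1 / q - 1 / r) := by
      field_simp
      ring
    linarith
  · intro B q r p θ hB hq hr hp hθ0 hθ1 hpq
    have h1 := (he q B hq hB).1
    have h2 := (he r B hr hB).1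
    have h3 : 0 ≤ (1 - θ) * e q B + θ * e r B :=
      add_nonneg (mul_nonneg (by linarith) h1) (mul_nonneg hθ0 h2)
    exact ((he p B hp hB).2 _ h3).mp (hLYA.1 q r p θ _ _ (Dl B) hq hr hp hθ0 hθ1 hpq h1 h2
      (cont_Dl hSMA hB).measurable (hself q B hq hB) (hself r B hr hB))
  · intro B q p θ hB hq hp hθ0 hθ1 hpq
    have h1 := (he q B hq hB).1
    obtain ⟨hi0, hi⟩ := hei B hB
    have h3 : 0 ≤ (1 - θ) * e q B + θ * ei B :=
      add_nonneg (mul_nonneg (by linarith) h1) (mul_nonneg hθ0 hi0)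
    exact ((he p B hp hB).2 _ h3).mp (hLYA.2 q p θ _ _ (Dl B) hq hp hθ0 hθ1 hpq h1 hi0
      (cont_Dl hSMA hB).measurable (hself q B hq hB) ((hi _ hi0).mpr le_rfl))

end Pool.Agent.PertQ
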