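import Pool.Agent.PertQ.Targets
import Pool.Agent.PertZ.BLG

/-!
# BLGI: Gaussian smoothed sums and the integral over a vertical line (helper67, from helper94)
-/

set_option autoImplicit false

namespace Pool.Agent.PertQ

open MeasureTheory ProbabilityTheory Set Filter Topology Complex Pool.Agent.CW Pool.Agent.DBN
open Pool.Agent.PertZ

theorem p_BLGI : T_BLGI := by
  intro b₀ l r hlr
  obtain ⟨E, hE⟩ : ∃ E : ℝ, E = Real.exp ((|l - b₀| + |r - b₀|) ^ 2) := ⟨_, rfl⟩
  obtain ⟨A, hA⟩ : ∃ A : ℝ, A = ∫ v : ℝ, Real.exp (-(1 / 2) * v ^ 2) := ⟨_, rfl⟩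
  have hE0 : 0 < E := by rw [hE]; positivity
  have hA0 : 0 ≤ A := by
    rw [hA]
    exact integral_nonneg fun v => (Real.exp_pos _).le
  have hEc : ∀ y v : ℝ, l ≤ y → y ≤ r → ‖BLG_k (y - b₀) v‖ ≤ E * Real.exp (-v ^ 2) := by
    intro y v h1 h2
    rw [BLG_norm, sub_eq_add_neg, Real.exp_add, hE]
    refine mul_le_mul_of_nonneg_right (Real.exp_le_exp.2 ?_) (Real.exp_pos _).le
    rw [← sq_abs]
    refine pow_le_pow_left₀ (abs_nonneg _) ?_ 2
    rw [abs_le]
    have a1 := neg_abs_le (l - b₀)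
    have a2 := le_abs_self (r - b₀)
    have a3 := abs_nonneg (l - b₀)
    have a4 := abs_nonneg (r - b₀)
    constructor <;> linarith
  refine ⟨E * (A + 2 * (r - l) + 1) + 1, by
    have : 0 ≤ E * (A + 2 * (r - l) + 1) := mul_nonneg hE0.le (by linarith)
    linarith, ?_⟩
  intro a σ L K' T N f hT hN hK' ha0 hsum hL hf hser
  obtain ⟨Q, hQ⟩ : ∃ Q : ℝ, Q = ∫ v in (T / 2)..(2 * T),
    Real.exp (-(v - T) ^ 2) * ‖f (((σ + l : ℝ) : ℂ) + v * I)‖ := ⟨_, rfl⟩
  have hT0 : 0 < T := by linarith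
  have hNr : 0 < N ^ r := Real.rpow_pos_of_pos hN r
  have hNl : 0 < N ^ l := Real.rpow_pos_of_pos hN l
  have hL0 : 0 ≤ L := (tsum_nonneg fun n => by positivity).trans hL
  have hNy : ∀ y : ℝ, l ≤ y → y ≤ r → N ^ y ≤ N ^ l + N ^ r := by
    intro y h1 h2
    rcases le_total 1 N with h3 | h3
    · have := Real.rpow_le_rpow_of_exponent_le h3 h2
      linarith
    · have := Real.rpow_le_rpow_of_exponent_ge hN h3 h1
      linarith
  obtain ⟨x, hx⟩ : ∃ x : ℕ → ℝ, x = fun n : ℕ => Real.log N - Real.log n := ⟨_, rfl⟩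
  obtain ⟨c, hc⟩ : ∃ c : ℕ → ℂ, c = fun n : ℕ => a n * (n : ℂ) ^ (-((σ : ℂ) + T * I)) := ⟨_, rfl⟩
  obtain ⟨b, hb⟩ : ∃ b : ℕ → ℝ, b = fun n : ℕ => ‖a n‖ * (n : ℝ) ^ (-(σ + r)) := ⟨_, rfl⟩
  have hbs : Summable b := by rw [hb]; exact hsum
  have hbL : ∑' n, b n ≤ L := by rw [hb]; exact hL
  have hb0 : ∀ n, 0 ≤ b n := fun n => by rw [hb]; positivity
  have hc0 : c 0 = 0 := by rw [hc]; simp [ha0]
  have hb00 : b 0 = 0 := by rw [hb]; simp [ha0]
  -- the size of the coefficients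
  have hcn : ∀ n, ‖c n * cexp (r * x n)‖ = b n * N ^ r := by
    intro n
    rcases Nat.eq_zero_or_pos n with rfl | hn
    · rw [hc0, hb00]
      simp
    · have hn' : (0 : ℝ) < n := by exact_mod_cast hn
      have e1 : ‖(n : ℂ) ^ (-((σ : ℂ) + T * I))‖ = (n : ℝ) ^ (-σ) := by
        rw [Complex.norm_natCast_cpow_of_pos hn]
        congr 1
        simp
      have e2 : ‖cexp (r * x n)‖ = N ^ r * (n : ℝ) ^ (-r) := by
        rw [Complex.norm_exp, hx, Real.rpow_def_of_pos hN, Real.rpow_def_of_pos hn', ← Real.exp_add]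
        congr 1
        simp only [mul_re, ofReal_re, ofReal_im, mul_zero, sub_zero]
        ring
      have e3 : (n : ℝ) ^ (-(σ + r)) = (n : ℝ) ^ (-σ) * (n : ℝ) ^ (-r) := by
        rw [← Real.rpow_add hn']
        congr 1
        ring
      rw [norm_mul, e2, hc, hb]
      simp only
      rw [norm_mul, e1, e3]
      ring
  -- the kernel
  have hnorm1 : ∀ (v y : ℝ), ‖cexp (v * y * I)‖ = 1 := by
    intro v y
    rw [← Complex.ofReal_mul, Complex.norm_exp_ofReal_mul_I]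
  obtain ⟨ka, hka⟩ : ∃ ka : ℝ → ℝ, ka = fun v : ℝ => ‖BLG_k (r - b₀) v‖ := ⟨_, rfl⟩
  have hkai : Integrable ka := by
    have h1 := (BLG_ker (r - b₀) 0).1.norm
    rw [hka]
    refine h1.congr (ae_of_all _ fun v => ?_)
    simp
  have hka0 : ∀ v, 0 ≤ ka v := fun v => by rw [hka]; positivity
  have hka1 : ∀ v, ka v ≤ E * Real.exp (-v ^ 2) := fun v => by
    rw [hka]
    exact hEc r v hlr.le le_rfl
  obtain ⟨G, hG⟩ : ∃ G : ℕ → ℝ → ℂ, G = fun (n : ℕ) (v : ℝ) => (c n * cexp (r * x n)) *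
    (cexp (v * x n * I) * BLG_k (r - b₀) v) := ⟨_, rfl⟩
  have hGi : ∀ n, Integrable (G n) := by
    intro n
    rw [hG]
    exact (BLG_ker (r - b₀) (x n)).1.const_mul _
  have hGn : ∀ n v, ‖G n v‖ = b n * N ^ r * ka v := by
    intro n v
    rw [hG, hka]
    simp only
    rw [norm_mul, hcn, norm_mul, hnorm1, one_mul]
  have hGs : Summable fun n => ∫ v, ‖G n v‖ := by
    have h1 : (fun n => ∫ v, ‖G n v‖) = fun n => b n * (N ^ r * ∫ v, ka v) := by
      funext n
      simp only [hGn]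
      rw [integral_const_mul]
      ring
    rw [h1]
    exact hbs.mul_right _
  have hsumG := hasSum_integral_of_summable_integral_norm hGi hGs
  -- the sum of the series on the line
  obtain ⟨S, hS⟩ : ∃ S : ℝ → ℂ,
    S = fun v : ℝ => ∑' n : ℕ, (c n * cexp (r * x n)) * cexp (v * x n * I) := ⟨_, rfl⟩
  have hbY : Summable fun n => b n * N ^ r := hbs.mul_right _
  have hSt : ∀ n (v : ℝ), ‖(c n * cexp (r * x n)) * cexp (v * x n * I)‖ ≤ b n * N ^ r := by
    intro n v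
    rw [norm_mul, hcn, hnorm1, mul_one]
  have hSc : Continuous S := by
    rw [hS]
    refine continuous_tsum (fun n => ?_) hbY (fun n v => hSt n v)
    fun_prop
  have hSn : ∀ v, ‖S v‖ ≤ L * N ^ r := by
    intro v
    rw [hS]
    have h1 := tsum_of_norm_bounded hbY.hasSum (fun n => hSt n v)
    refine h1.trans ?_
    rw [tsum_mul_right]
    exact mul_le_mul_of_nonneg_right hbL hNr.le
  have hFS : ∀ v, ∑' n, G n v = S v * BLG_k (r - b₀) v := by
    intro v
    rw [hG, hS]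
    simp only
    rw [← tsum_mul_right]
    refine tsum_congr fun n => ?_
    ring
  obtain ⟨F, hF⟩ : ∃ F : ℝ → ℂ, F = fun v : ℝ => S v * BLG_k (r - b₀) v := ⟨_, rfl⟩
  have hFc : Continuous F := by
    rw [hF]
    refine hSc.mul ?_
    unfold BLG_k
    fun_prop
  have hFn : ∀ v, ‖F v‖ ≤ L * N ^ r * ka v := by
    intro v
    rw [hF, hka]
    simp only
    rw [norm_mul]
    exact mul_le_mul_of_nonneg_right (hSn v) (by positivity)
  have hFi : Integrable F := Integrable.mono' (hkai.const_mul _) hFc.aestronglyMeasurable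
    (ae_of_all _ hFn)
  -- the full integral is the smoothed sum
  obtain ⟨W, hW⟩ : ∃ W : ℂ,
    W = ∑' n : ℕ, a n * (n : ℂ) ^ (-((σ : ℂ) + T * I)) * ((gw b₀ N n : ℝ) : ℂ) := ⟨_, rfl⟩
  have hfull : ∫ v, F v = (Real.sqrt Real.pi : ℂ) * W := by
    have h1 : ∫ v, F v = ∑' n, ∫ v, G n v := by
      rw [hsumG.tsum_eq]
      refine integral_congr_ae (ae_of_all _ fun v => ?_)
      simp only
      rw [hFS, hF]
    rw [h1, hW, ← tsum_mul_left]
    refine tsum_congr fun n => ?_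
    have h2 : ∫ v, G n v = (c n * cexp (r * x n)) *
        ((Real.sqrt Real.pi * Real.exp (-((r - b₀) * x n) - x n ^ 2 / 4) : ℝ) : ℂ) := by
      rw [hG]
      simp only
      rw [integral_const_mul, (BLG_ker (r - b₀) (x n)).2]
    rw [h2]
    rcases Nat.eq_zero_or_pos n with rfl | hn
    · rw [hc0, ha0]
      simp
    · have hn' : (0 : ℝ) < n := by exact_mod_cast hn
      have e1 : gw b₀ N n = Real.exp (r * x n + (-((r - b₀) * x n) - x n ^ 2 / 4)) := by
        unfold gw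
        rw [Real.rpow_def_of_pos (by positivity), ← Real.exp_add, hx]
        simp only
        rw [Real.log_div hN.ne' hn'.ne', Real.log_div hn'.ne' hN.ne']
        congr 1
        ring
      rw [e1, hc, Real.exp_add]
      push_cast
      ring
  -- the rectangle
  obtain ⟨g, hg⟩ : ∃ g : ℂ → ℂ, g = fun w : ℂ =>
    f ((σ : ℂ) + T * I + w) * cexp (w * Real.log N) * cexp ((w - b₀) ^ 2) := ⟨_, rfl⟩
  have hmem : ∀ w : ℂ, l ≤ w.re → w.re ≤ r → -(T / 2) ≤ w.im → w.im ≤ T →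
      AnalyticAt ℂ f ((σ : ℂ) + T * I + w) ∧ ‖f ((σ : ℂ) + T * I + w)‖ ≤ K' := by
    intro w h1 h2 h3 h4
    have e1 : ((σ : ℂ) + T * I + w).re = σ + w.re := by simp
    have e2 : ((σ : ℂ) + T * I + w).im = T + w.im := by simp
    exact hf _ (by rw [e1]; linarith) (by rw [e1]; linarith) (by rw [e2]; linarith)
      (by rw [e2]; linarith)
  have hdiff : DifferentiableOn ℂ g
      ((uIcc (⟨l, -(T / 2)⟩ : ℂ).re (⟨r, T⟩ : ℂ).re) ×ℂ
        (uIcc (⟨l, -(T / 2)⟩ : ℂ).im (⟨r, T⟩ : ℂ).im)) := by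
    intro w hw
    simp only [mem_reProdIm] at hw
    rw [uIcc_of_le hlr.le, uIcc_of_le (by linarith : -(T / 2) ≤ T)] at hw
    obtain ⟨⟨h1, h2⟩, ⟨h3, h4⟩⟩ := hw
    have hA := (hmem w h1 h2 h3 h4).1.differentiableAt
    rw [hg]
    have hA2 : DifferentiableAt ℂ (fun w : ℂ => f ((σ : ℂ) + T * I + w)) w :=
      DifferentiableAt.comp w hA ((differentiableAt_const _).add differentiableAt_id)
    have hB : DifferentiableAt ℂ (fun w : ℂ => cexp (w * Real.log N)) w := by fun_prop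
    have hD : DifferentiableAt ℂ (fun w : ℂ => cexp ((w - b₀) ^ 2)) w := by fun_prop
    exact ((hA2.mul hB).mul hD).differentiableWithinAt
  have hrect := Complex.integral_boundary_rect_eq_zero_of_differentiableOn g _ _ hdiff
  simp only [smul_eq_mul] at hrect
  -- norms
  have hgn : ∀ y v : ℝ, ‖g (y + v * I)‖ =
      ‖f ((σ : ℂ) + T * I + (y + v * I))‖ * N ^ y * ‖BLG_k (y - b₀) v‖ := by
    intro y v
    have e1 : ‖cexp (((y : ℂ) + v * I) * Real.log N)‖ = N ^ y := by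
      rw [Complex.norm_exp, Real.rpow_def_of_pos hN]
      congr 1
      simp
      ring
    have e2 : cexp (((y : ℂ) + v * I - b₀) ^ 2) = BLG_k (y - b₀) v := by
      unfold BLG_k
      congr 1
      push_cast
      ring
    rw [hg]
    simp only
    rw [norm_mul, norm_mul, e1, e2]
  have hhor : ∀ v : ℝ, -(T / 2) ≤ v → v ≤ T → T ^ 2 / 4 ≤ v ^ 2 →
      ‖∫ y in (l : ℝ)..r, g (y + v * I)‖ ≤
        K' * (N ^ l + N ^ r) * (E * Real.exp (-T ^ 2 / 8)) * (r - l) := by
    intro v hv1 hv2 hv3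
    have h1 : ∀ y ∈ uIoc (l : ℝ) r, ‖g (y + v * I)‖ ≤
        K' * (N ^ l + N ^ r) * (E * Real.exp (-T ^ 2 / 8)) := by
      intro y hy
      rw [uIoc_of_le hlr.le] at hy
      have hre : ((y : ℂ) + v * I).re = y := by simp
      have him : ((y : ℂ) + v * I).im = v := by simp
      have hm := (hmem ((y : ℂ) + v * I) (by rw [hre]; exact hy.1.le) (by rw [hre]; exact hy.2)
        (by rw [him]; exact hv1) (by rw [him]; exact hv2)).2
      rw [hgn]
      have e1 : N ^ y ≤ N ^ l + N ^ r := hNy y hy.1.le hy.2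
      have e2 : ‖BLG_k (y - b₀) v‖ ≤ E * Real.exp (-T ^ 2 / 8) := by
        refine (hEc y v hy.1.le hy.2).trans (mul_le_mul_of_nonneg_left ?_ hE0.le)
        refine Real.exp_le_exp.2 ?_
        have : 0 ≤ T ^ 2 := by positivity
        linarith
      have e3 : 0 ≤ N ^ y := (Real.rpow_pos_of_pos hN y).le
      exact mul_le_mul (mul_le_mul hm e1 e3 hK') e2 (norm_nonneg _) (by positivity)
    have h2 := intervalIntegral.norm_integral_le_of_norm_le_const h1
    refine h2.trans (le_of_eq ?_)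
    rw [abs_of_pos (by linarith)]
  have hQ0 : 0 ≤ Q := by
    rw [hQ]
    exact intervalIntegral.integral_nonneg (by linarith) fun v _ => by positivity
  have hsub : ∫ y in (-(T / 2))..T,
      Real.exp (-y ^ 2) * ‖f (((σ + l : ℝ) : ℂ) + ((T + y : ℝ) : ℂ) * I)‖ = Q := by
    have h1 := intervalIntegral.integral_comp_add_left (a := -(T / 2)) (b := T)
      (fun v : ℝ => Real.exp (-(v - T) ^ 2) * ‖f (((σ + l : ℝ) : ℂ) + (v : ℂ) * I)‖) T
    have e1 : T + -(T / 2) = T / 2 := by ring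
    have e2 : T + T = 2 * T := by ring
    rw [e1, e2, ← hQ] at h1
    rw [← h1]
    refine intervalIntegral.integral_congr fun y _ => ?_
    simp only [add_sub_cancel_left]
  have hfc : ContinuousOn (fun y : ℝ => Real.exp (-y ^ 2) *
      ‖f (((σ + l : ℝ) : ℂ) + ((T + y : ℝ) : ℂ) * I)‖) (uIcc (-(T / 2)) T) := by
    intro y hy
    rw [uIcc_of_le (by linarith : -(T / 2) ≤ T)] at hy
    have e1 : (((σ + l : ℝ) : ℂ) + ((T + y : ℝ) : ℂ) * I).re = σ + l := by simp
    have e2 : (((σ + l : ℝ) : ℂ) + ((T + y : ℝ) : ℂ) * I).im = T + y := by simp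
    have h1 := (hf _ (by rw [e1]) (by rw [e1]; linarith) (by rw [e2]; linarith [hy.1])
      (by rw [e2]; linarith [hy.2])).1.continuousAt
    have h2 : ContinuousAt (fun y : ℝ => ((σ + l : ℝ) : ℂ) + ((T + y : ℝ) : ℂ) * I) y := by
      fun_prop
    have h3 : ContinuousAt (fun y : ℝ => f (((σ + l : ℝ) : ℂ) + ((T + y : ℝ) : ℂ) * I)) y :=
      ContinuousAt.comp (f := fun y : ℝ => ((σ + l : ℝ) : ℂ) + ((T + y : ℝ) : ℂ) * I) h1 h2
    have h4 : ContinuousAt (fun y : ℝ => Real.exp (-y ^ 2)) y := by fun_prop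
    exact (h4.mul h3.norm).continuousWithinAt
  have hleft : ‖∫ y in (-(T / 2))..T, g ((l : ℝ) + y * I)‖ ≤ N ^ l * E * Q := by
    have h1 : ∀ y ∈ Ioc (-(T / 2)) T, ‖g ((l : ℝ) + y * I)‖ ≤
        N ^ l * E * (Real.exp (-y ^ 2) *
          ‖f (((σ + l : ℝ) : ℂ) + ((T + y : ℝ) : ℂ) * I)‖) := by
      intro y _
      rw [hgn]
      have e0 : (σ : ℂ) + T * I + ((l : ℝ) + y * I) =
          ((σ + l : ℝ) : ℂ) + ((T + y : ℝ) : ℂ) * I := by
        push_cast
        ring
      have e3 := hEc l y le_rfl hlr.le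
      rw [e0]
      calc ‖f (((σ + l : ℝ) : ℂ) + ((T + y : ℝ) : ℂ) * I)‖ * N ^ l * ‖BLG_k (l - b₀) y‖
          ≤ ‖f (((σ + l : ℝ) : ℂ) + ((T + y : ℝ) : ℂ) * I)‖ * N ^ l *
              (E * Real.exp (-y ^ 2)) :=
            mul_le_mul_of_nonneg_left e3 (by positivity)
        _ = _ := by ring
    have hii : IntervalIntegrable (fun y : ℝ => Real.exp (-y ^ 2) *
        ‖f (((σ + l : ℝ) : ℂ) + ((T + y : ℝ) : ℂ) * I)‖) volume (-(T / 2)) T :=
      hfc.intervalIntegrable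
    have h2 := intervalIntegral.norm_integral_le_of_norm_le (by linarith : -(T / 2) ≤ T)
      (ae_of_all _ h1) (hii.const_mul _)
    refine h2.trans (le_of_eq ?_)
    rw [intervalIntegral.integral_const_mul, hsub]
  -- the right side
  have hright : ∫ y in (-(T / 2))..T, g (r + y * I) = ∫ y in Ioc (-(T / 2)) T, F y := by
    rw [intervalIntegral.integral_of_le (by linarith)]
    refine setIntegral_congr_fun measurableSet_Ioc fun v hv => ?_
    rw [hg, hF]
    simp only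
    have e0 : cexp (((r : ℂ) + v * I - b₀) ^ 2) = BLG_k (r - b₀) v := by
      unfold BLG_k
      congr 1
      push_cast
      ring
    rw [e0]
    congr 1
    have e1 : ((σ : ℂ) + T * I + (r + v * I)).re = σ + r := by simp
    have e2 : ((σ : ℂ) + T * I + (r + v * I)).im = T + v := by simp
    rw [hser _ e1 (by rw [e2]; linarith [hv.1]) (by rw [e2]; linarith [hv.2]), hS]
    simp only
    rw [← tsum_mul_right]
    refine tsum_congr fun n => ?_
    rcases Nat.eq_zero_or_pos n with rfl | hn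
    · rw [hc0, ha0]
      simp
    · have hn' : (n : ℂ) ≠ 0 := by exact_mod_cast hn.ne'
      have e3 : -((σ : ℂ) + T * I + (r + v * I)) = -((σ : ℂ) + T * I) + -(r + v * I) := by ring
      have e4 : (n : ℂ) ^ (-((r : ℂ) + v * I)) = cexp (-((r + v * I) * Real.log n)) := by
        rw [Complex.cpow_def_of_ne_zero hn', Complex.natCast_log]
        congr 1
        ring
      rw [e3, Complex.cpow_add _ _ hn', e4, hc, hx]
      simp only
      have e5 : cexp (-(((r : ℂ) + v * I) * Real.log n)) * cexp ((r + v * I) * Real.log N) =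
          cexp (r * ((Real.log N - Real.log n : ℝ) : ℂ)) *
            cexp (v * ((Real.log N - Real.log n : ℝ) : ℂ) * I) := by
        rw [← Complex.exp_add, ← Complex.exp_add]
        congr 1
        push_cast
        ring
      linear_combination (a n * (n : ℂ) ^ (-((σ : ℂ) + T * I))) * e5
  -- the tail
  have htail : ‖∫ v in (Ioc (-(T / 2)) T)ᶜ, F v‖ ≤
      L * N ^ r * (E * Real.exp (-T ^ 2 / 8)) * A := by
    have h1 : ∀ v ∈ (Ioc (-(T / 2)) T)ᶜ, ‖F v‖ ≤
        L * N ^ r * (E * Real.exp (-T ^ 2 / 8)) * Real.exp (-(1 / 2) * v ^ 2) := by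
      intro v hv
      have hv2 : T ^ 2 / 4 ≤ v ^ 2 := by
        rw [mem_compl_iff, mem_Ioc, not_and_or, not_lt, not_le] at hv
        rcases hv with hv | hv
        · nlinarith
        · nlinarith
      have e1 : Real.exp (-v ^ 2) ≤ Real.exp (-T ^ 2 / 8) * Real.exp (-(1 / 2) * v ^ 2) := by
        rw [← Real.exp_add]
        refine Real.exp_le_exp.2 ?_
        linarith
      calc ‖F v‖ ≤ L * N ^ r * ka v := hFn v
        _ ≤ L * N ^ r * (E * (Real.exp (-T ^ 2 / 8) * Real.exp (-(1 / 2) * v ^ 2))) := by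
            refine mul_le_mul_of_nonneg_left ?_ (by positivity)
            exact (hka1 v).trans (mul_le_mul_of_nonneg_left e1 hE0.le)
        _ = _ := by ring
    have h2 : ‖∫ v in (Ioc (-(T / 2)) T)ᶜ, F v‖ ≤
        ∫ v in (Ioc (-(T / 2)) T)ᶜ,
          L * N ^ r * (E * Real.exp (-T ^ 2 / 8)) * Real.exp (-(1 / 2) * v ^ 2) :=
      norm_integral_le_of_norm_le (BLG_int.const_mul _).integrableOn
        ((ae_restrict_iff' measurableSet_Ioc.compl).2 (ae_of_all _ h1))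
    refine h2.trans ?_
    refine (setIntegral_le_integral (BLG_int.const_mul _)
      (ae_of_all _ fun y => ?_)).trans (le_of_eq ?_)
    · simp only [Pi.zero_apply]
      positivity
    · rw [integral_const_mul, hA]
  have hsplit := integral_add_compl (measurableSet_Ioc (a := -(T / 2)) (b := T)) hFi
  rw [hfull] at hsplit
  -- conclusion
  obtain ⟨J1, hJ1⟩ : ∃ J : ℂ, J = ∫ y in (l : ℝ)..r, g (y + ((-(T / 2) : ℝ) : ℂ) * I) := ⟨_, rfl⟩
  obtain ⟨J2, hJ2⟩ : ∃ J : ℂ, J = ∫ y in (l : ℝ)..r, g (y + (T : ℂ) * I) := ⟨_, rfl⟩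
  obtain ⟨J3, hJ3⟩ : ∃ J : ℂ, J = ∫ y in (-(T / 2))..T, g ((l : ℝ) + y * I) := ⟨_, rfl⟩
  obtain ⟨J4, hJ4⟩ : ∃ J : ℂ, J = ∫ y in (-(T / 2))..T, g (r + y * I) := ⟨_, rfl⟩
  obtain ⟨H, hH⟩ : ∃ H : ℝ, H = K' * (N ^ l + N ^ r) * (E * Real.exp (-T ^ 2 / 8)) * (r - l) :=
    ⟨_, rfl⟩
  have hb1 : ‖J1‖ ≤ H := by
    rw [hJ1, hH]
    exact hhor (-(T / 2)) le_rfl (by linarith) (by nlinarith)
  have hb2 : ‖J2‖ ≤ H := by
    rw [hJ2, hH]
    exact hhor T (by linarith) le_rfl (by nlinarith)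
  have hb3 : ‖J3‖ ≤ N ^ l * E * Q := by rw [hJ3]; exact hleft
  have hR : J1 - J2 + I * J4 - I * J3 = 0 := by
    rw [hJ1, hJ2, hJ3, hJ4]
    exact hrect
  have hJ4e : J4 = J3 + I * (J1 - J2) := by
    have hI : I * I = -1 := I_mul_I
    linear_combination (-I) * hR + (J4 - J3) * hI
  have hb4 : ‖J4‖ ≤ N ^ l * E * Q + 2 * H := by
    rw [hJ4e]
    refine (norm_add_le _ _).trans ?_
    rw [norm_mul, Complex.norm_I, one_mul]
    have := norm_sub_le J1 J2
    linarith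
  have hW1 : ‖(Real.sqrt Real.pi : ℂ) * W‖ ≤
      N ^ l * E * Q + 2 * H + L * N ^ r * (E * Real.exp (-T ^ 2 / 8)) * A := by
    rw [← hsplit, ← hright, ← hJ4]
    exact (norm_add_le _ _).trans (add_le_add hb4 htail)
  have hsp : 1 ≤ Real.sqrt Real.pi := by
    rw [Real.one_le_sqrt]
    linarith [Real.pi_gt_three]
  rw [norm_mul, Complex.norm_real, Real.norm_of_nonneg (by linarith)] at hW1
  have hW2 : ‖W‖ ≤ Real.sqrt Real.pi * ‖W‖ := le_mul_of_one_le_left (norm_nonneg _) hsp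
  rw [← hW, ← hQ]
  refine (hW2.trans hW1).trans ?_
  rw [hH]
  obtain ⟨X, hX⟩ : ∃ X : ℝ, X = Real.exp (-T ^ 2 / 8) := ⟨_, rfl⟩
  have hX0 : 0 < X := by rw [hX]; positivity
  rw [← hX]
  have hrl : 0 < r - l := by linarith
  have q1 : 0 ≤ (E * (A + 2 * (r - l)) + 1) * (N ^ l * Q) := by positivity
  have q2 : 0 ≤ (E * (2 * (r - l) + 1) + 1) * ((N ^ l + N ^ r) * L * X) := by positivity
  have q3 : 0 ≤ (E * (A + 1) + 1) * ((N ^ l + N ^ r) * K' * X) := by positivity
  have q4 : 0 ≤ E * A * (N ^ l * L * X) := by positivity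
  nlinarith [q1, q2, q3, q4]

end Pool.Agent.PertQ
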