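import Pool.Agent.PertQ.Targets

/-! BNDQ: the unconditional region. -/

set_option autoImplicit false

namespace Pool.Agent.PertQ

namespace BNDQ_

lemma ineq {B b c : ℝ} (hB : 1 ≤ B) (hb : 0 ≤ b) :
    max 0 ((1 - b) / 2 - c) ≤ max 0 ((1 - 1 / B) / 2 - c) + max 0 (1 - B * b) := by
  have hB0 : 0 < B := by linarith
  have h1 : 0 ≤ max 0 ((1 - 1 / B) / 2 - c) := le_max_left _ _
  have h2 : 0 ≤ max 0 (1 - B * b) := le_max_left _ _
  have h3 : (1 - 1 / B) / 2 - c ≤ max 0 ((1 - 1 / B) / 2 - c) := le_max_right _ _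
  have h4 : 1 - B * b ≤ max 0 (1 - B * b) := le_max_right _ _
  refine max_le (by linarith) ?_
  have h5 : (1 / B - b) / 2 ≤ max 0 (1 - B * b) := by
    rcases le_total (1 / B) b with h | h
    · linarith
    · refine le_trans ?_ h4
      have e : 1 - B * b = B * (1 / B - b) := by
        field_simp
      rw [e]
      nlinarith [sub_nonneg.2 h]
  linarith

end BNDQ_

theorem p_BNDQ (h_REFQ : T_REFQ) (h_MVQ : T_MVQ) (h_FINQ : T_FINQ) : T_BNDQ := by
  intro k hk B b hB hb hb1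
  have hk1 : (1 : ℝ) ≤ (k : ℝ) := by exact_mod_cast hk
  have h1 := h_MVQ k hk (1 - b) (by linarith) (by linarith)
  have h2 := h_REFQ (2 * k) (1 - b) _ (by linarith) (by linarith) (by linarith)
    (le_max_left _ _) h1
  rw [sub_sub_cancel] at h2
  exact h_FINQ.2.2.1 (2 * k) b _ _ (by linarith) (BNDQ_.ineq hB hb) h2

end Pool.Agent.PertQ
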