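import Pool.Agent.PertQ.Targets
import Pool.Agent.DBN.WinSumE

/-!
# PertQ, CON: joint continuity of the smoothed sums
-/

set_option autoImplicit false

namespace Pool.Agent.PertQ

open MeasureTheory Set Complex Pool.Agent.DBN Pool.Agent.DBN.Nw

namespace CON_

theorem cont_term (n : ℕ) : Continuous fun p : ℝ × ℝ => zt (Real.exp p.1) p.2 n := by
  have h : ((n + 1 : ℕ) : ℂ) ≠ 0 := by
    exact_mod_cast Nat.succ_ne_zero n
  have h1 : Continuous fun p : ℝ × ℝ => Real.log ((n + 1 : ℕ) / Real.exp p.1) := by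
    refine Continuous.log ?_ fun p => ?_
    · exact continuous_const.div (Real.continuous_exp.comp continuous_fst)
        fun p => (Real.exp_pos _).ne'
    · have h2 : (0 : ℝ) < ((n + 1 : ℕ) : ℝ) := by positivity
      exact (div_pos h2 (Real.exp_pos _)).ne'
  unfold zt
  refine Continuous.mul ?_ (Continuous.const_cpow (by fun_prop) (Or.inl h))
  exact Complex.continuous_ofReal.comp
    (Real.continuous_exp.comp (((h1.pow 2).neg).div_const 4))

end CON_

open CON_ in
theorem p_CON : T_CON := by
  unfold T_CON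
  rw [continuous_iff_continuousAt]
  intro p₀
  have hs : IsOpen {p : ℝ × ℝ | p.1 < p₀.1 + 1} := isOpen_lt continuous_fst continuous_const
  have hc : ContinuousOn (fun p : ℝ × ℝ => ∑' n, zt (Real.exp p.1) p.2 n)
      {p : ℝ × ℝ | p.1 < p₀.1 + 1} := by
    refine continuousOn_tsum (fun n => (cont_term n).continuousOn)
      (summable_32.mul_left (Real.exp 1 * Real.exp (p₀.1 + 1))) fun n p hp => ?_
    refine (norm_zt_le (Real.exp_pos _) _ _).trans ?_
    have h1 : Real.exp p.1 ≤ Real.exp (p₀.1 + 1) := Real.exp_le_exp.2 (le_of_lt hp)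
    gcongr
  exact hc.continuousAt (hs.mem_nhds (by show p₀.1 < p₀.1 + 1; linarith))

end Pool.Agent.PertQ
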