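import Pool.Agent.PertQ.Targets

/-!
# CVQ: convolution with a Gaussian in the mean of order `q` (helper38)
-/

set_option autoImplicit false

namespace Pool.Agent.PertQ

open MeasureTheory Set Complex Pool.Agent.CW Pool.Agent.DBN Pool.Agent.PertZ
open scoped ENNReal

namespace CVQ_

/-- the Gaussian kernel -/
noncomputable def g (x : ℝ) : ℝ≥0∞ := ENNReal.ofReal (Real.exp (-x ^ 2))

theorem g_meas : Measurable g := by unfold g; fun_prop

theorem g_int : ∫⁻ x, g x = ENNReal.ofReal (Real.sqrt Real.pi) := by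
  have h1 : Integrable fun x : ℝ => Real.exp (-(1 : ℝ) * x ^ 2) :=
    integrable_exp_neg_mul_sq one_pos
  have h2 := integral_gaussian 1
  rw [div_one] at h2
  rw [← h2, ofReal_integral_eq_lintegral_ofReal h1
    (Filter.Eventually.of_forall fun x => (Real.exp_pos _).le)]
  refine lintegral_congr fun x => ?_
  simp [g]

theorem g_right (T : ℝ) : ∫⁻ v, g (v - T) = ENNReal.ofReal (Real.sqrt Real.pi) := by
  rw [lintegral_sub_right_eq_self (fun v => g v) T, g_int]

theorem g_left (v : ℝ) : ∫⁻ T, g (v - T) = ENNReal.ofReal (Real.sqrt Real.pi) := by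
  rw [lintegral_sub_left_eq_self (fun v => g v) v, g_int]

end CVQ_

open CVQ_ in
theorem p_CVQ (h_JEN : T_JEN) : T_CVQ := by
  intro q hq
  have hq0 : 0 ≤ q := by linarith
  have hq1 : 0 ≤ q - 1 := by linarith
  set K : ℝ≥0∞ := ENNReal.ofReal (Real.sqrt Real.pi) with hK
  have hKt : K ≠ ⊤ := ENNReal.ofReal_ne_top
  have hK0 : K ≠ 0 := by
    rw [hK]; simp [Real.pi_pos]
  set D : ℝ≥0∞ := 2 ^ (q - 1) * (1 + K ^ q) with hD
  have hDt : D ≠ ⊤ := by
    refine ENNReal.mul_ne_top (ENNReal.rpow_ne_top_of_nonneg hq1 (by simp)) ?_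
    exact ENNReal.add_ne_top.2 ⟨by simp, ENNReal.rpow_ne_top_of_nonneg hq0 hKt⟩
  refine ⟨D.toReal, fun φ X hφ hX => ?_⟩
  rw [ENNReal.ofReal_toReal hDt]
  set S : Set ℝ := Icc (X / 2) (4 * X) with hS
  have hmeas2 : Measurable fun p : ℝ × ℝ => g (p.2 - p.1) * φ p.2 ^ q :=
    (g_meas.comp (measurable_snd.sub measurable_fst)).mul
      ((hφ.comp measurable_snd).pow_const q)
  have hinner : ∀ T ∈ Icc X (2 * X), (1 + ∫⁻ v in Icc (T / 2) (2 * T),
      ENNReal.ofReal (Real.exp (-(v - T) ^ 2)) * φ v) ^ q ≤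
      2 ^ (q - 1) * (1 + K ^ (q - 1) * ∫⁻ v in S, g (v - T) * φ v ^ q) := by
    intro T hT
    have h1 : ∫⁻ v in Icc (T / 2) (2 * T), ENNReal.ofReal (Real.exp (-(v - T) ^ 2)) * φ v ≤
        ∫⁻ v in S, g (v - T) * φ v := by
      refine lintegral_mono_set ?_
      rw [hS]
      exact Icc_subset_Icc (by linarith [hT.1]) (by linarith [hT.2])
    have h2 : (∫⁻ v in S, g (v - T) * φ v) ^ q ≤
        (∫⁻ v in S, g (v - T)) ^ (q - 1) * ∫⁻ v in S, g (v - T) * φ v ^ q :=
      h_JEN (volume.restrict S) q (fun v => g (v - T)) φ hq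
        (g_meas.comp (measurable_id.sub_const T)).aemeasurable hφ.aemeasurable
    have h3 : ∫⁻ v in S, g (v - T) ≤ K := by
      rw [hK, ← g_right T]
      exact setLIntegral_le_lintegral _ _
    calc (1 + ∫⁻ v in Icc (T / 2) (2 * T), ENNReal.ofReal (Real.exp (-(v - T) ^ 2)) * φ v) ^ q
        ≤ (1 + ∫⁻ v in S, g (v - T) * φ v) ^ q :=
          ENNReal.rpow_le_rpow (add_le_add le_rfl h1) hq0
      _ ≤ 2 ^ (q - 1) * (1 ^ q + (∫⁻ v in S, g (v - T) * φ v) ^ q) :=
          ENNReal.rpow_add_le_mul_rpow_add_rpow _ _ hq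
      _ ≤ 2 ^ (q - 1) * (1 + K ^ (q - 1) * ∫⁻ v in S, g (v - T) * φ v ^ q) := by
          rw [ENNReal.one_rpow]
          gcongr
          exact h2.trans (mul_le_mul' (ENNReal.rpow_le_rpow h3 hq1) le_rfl)
  have hswap : ∫⁻ T in Icc X (2 * X), ∫⁻ v in S, g (v - T) * φ v ^ q ≤
      K * ∫⁻ v in S, φ v ^ q := by
    rw [lintegral_lintegral_swap (f := fun T v => g (v - T) * φ v ^ q) hmeas2.aemeasurable,
      ← lintegral_const_mul K (hφ.pow_const q)]
    refine lintegral_mono fun v => ?_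
    calc ∫⁻ T in Icc X (2 * X), g (v - T) * φ v ^ q
        = (∫⁻ T in Icc X (2 * X), g (v - T)) * φ v ^ q :=
          lintegral_mul_const _ (g_meas.comp (measurable_const.sub measurable_id))
      _ ≤ K * φ v ^ q := by
          refine mul_le_mul' ?_ le_rfl
          rw [hK, ← g_left v]
          exact setLIntegral_le_lintegral _ _
  have hKq : K ^ (q - 1) * K = K ^ q := by
    conv_lhs => rw [← ENNReal.rpow_one K, ← ENNReal.rpow_mul, one_mul,
      ← ENNReal.rpow_add _ _ hK0 hKt]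
    congr 1; ring
  calc ∫⁻ T in Icc X (2 * X), (1 + ∫⁻ v in Icc (T / 2) (2 * T),
      ENNReal.ofReal (Real.exp (-(v - T) ^ 2)) * φ v) ^ q
      ≤ ∫⁻ T in Icc X (2 * X),
        2 ^ (q - 1) * (1 + K ^ (q - 1) * ∫⁻ v in S, g (v - T) * φ v ^ q) :=
        setLIntegral_mono' measurableSet_Icc hinner
    _ = 2 ^ (q - 1) * (volume (Icc X (2 * X)) +
        K ^ (q - 1) * ∫⁻ T in Icc X (2 * X), ∫⁻ v in S, g (v - T) * φ v ^ q) := by
        have hm : Measurable fun T : ℝ => ∫⁻ v in S, g (v - T) * φ v ^ q :=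
          hmeas2.lintegral_prod_right'
        have hm2 : Measurable fun T : ℝ =>
            1 + K ^ (q - 1) * ∫⁻ v in S, g (v - T) * φ v ^ q :=
          (hm.const_mul (K ^ (q - 1))).const_add 1
        rw [lintegral_const_mul _ hm2, lintegral_add_left measurable_const,
          lintegral_const_mul _ hm, setLIntegral_const, one_mul]
    _ ≤ 2 ^ (q - 1) * (ENNReal.ofReal X + K ^ q * ∫⁻ v in S, φ v ^ q) := by
        rw [Real.volume_Icc, ← hKq, mul_assoc]
        gcongr
        exact le_of_eq (by ring)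
    _ ≤ D * (ENNReal.ofReal X + ∫⁻ v in S, φ v ^ q) := by
        rw [hD, mul_assoc]
        gcongr
        rw [mul_add]
        refine add_le_add ?_ ?_
        · calc ENNReal.ofReal X = 1 * ENNReal.ofReal X := (one_mul _).symm
            _ ≤ _ := mul_le_mul' le_self_add le_rfl
        · exact mul_le_mul' le_add_self le_rfl

end Pool.Agent.PertQ
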