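import Pool.Agent.PertQ.Targets
import Pool.Agent.DBN.WinSumE

set_option autoImplicit false

namespace Pool.Agent.PertQ

open MeasureTheory Set Complex Pool.Agent.CW Pool.Agent.DBN Pool.Agent.PertZ
open scoped ENNReal

namespace CVTQ_

lemma mm_eq {q X : ℝ} (hq : 1 ≤ q) (hX : 0 ≤ X) {F : ℝ → ℂ} (hF : Continuous F) :
    mm q X F = ENNReal.ofReal (∫ t in X..(2 * X), ‖F t‖ ^ q) := by
  have hc : Continuous fun t => ‖F t‖ ^ q :=
    hF.norm.rpow_const fun t => Or.inr (by linarith)
  rw [intervalIntegral.integral_of_le (by linarith), ← integral_Icc_eq_integral_Ioc,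
    ofReal_integral_eq_lintegral_ofReal (hc.continuousOn.integrableOn_compact isCompact_Icc)
      (Filter.Eventually.of_forall fun t => by positivity)]
  unfold mm
  refine lintegral_congr fun t => ?_
  rw [← ofReal_norm, ENNReal.ofReal_rpow_of_nonneg (norm_nonneg _) (by linarith)]

lemma to_real {I C Y : ℝ} (hY : 0 ≤ Y) (h : ENNReal.ofReal I ≤ ENNReal.ofReal (C * Y)) :
    I ≤ |C| * Y := by
  have h1 : ENNReal.ofReal I ≤ ENNReal.ofReal (|C| * Y) :=
    h.trans (ENNReal.ofReal_le_ofReal (mul_le_mul_of_nonneg_right (le_abs_self C) hY))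
  exact (ENNReal.ofReal_le_ofReal_iff (by positivity)).1 h1

end CVTQ_

open CVTQ_ in
theorem p_CVTQ : T_CVTQ := by
  constructor
  · intro q A F hq hF
    unfold ExpQ
    refine forall_congr' fun ε => forall_congr' fun hε => ?_
    constructor
    · rintro ⟨C, hC⟩
      refine ⟨|C|, fun X hX => ?_⟩
      have h := hC X hX
      rw [mm_eq hq (by linarith) hF] at h
      exact to_real (by positivity) h
    · rintro ⟨C, hC⟩
      refine ⟨C, fun X hX => ?_⟩
      rw [mm_eq hq (by linarith) hF]
      exact ENNReal.ofReal_le_ofReal (hC X hX)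
  · intro q b a hq
    unfold SumQ
    refine forall_congr' fun ε => forall_congr' fun hε => ?_
    constructor
    · rintro ⟨δ, hδ, C, hC⟩
      refine ⟨δ, hδ, |C|, fun X N hX h1 h2 => ?_⟩
      have hN : 0 < N := lt_of_lt_of_le (by positivity) h1
      have h := hC X N hX h1 h2
      rw [mm_eq hq (by linarith) (Nw.continuous_zsum hN)] at h
      exact to_real (by positivity) h
    · rintro ⟨δ, hδ, C, hC⟩
      refine ⟨δ, hδ, C, fun X N hX h1 h2 => ?_⟩
      have hN : 0 < N := lt_of_lt_of_le (by positivity) h1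
      rw [mm_eq hq (by linarith) (Nw.continuous_zsum hN)]
      exact ENNReal.ofReal_le_ofReal (hC X N hX h1 h2)

end Pool.Agent.PertQ
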