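import Pool.Agent.PertQ.Targets
import Pool.Agent.DBN.WinSumC

/-! FINQ: pointwise bounds give bounds in the mean, monotonicity. -/

set_option autoImplicit false

namespace Pool.Agent.PertQ

open MeasureTheory Set Complex Pool.Agent.CW Pool.Agent.DBN Pool.Agent.PertZ
open scoped ENNReal

namespace FINQ_

/-- a pointwise bound on `[X, 2X]` -/
lemma mm_le {q X K s : ℝ} (hq : 1 ≤ q) (hX : 0 < X) (hK : 0 ≤ K) {F : ℝ → ℂ}
    (h : ∀ t ∈ Icc X (2 * X), ‖F t‖ ≤ K * X ^ s) :
    mm q X F ≤ ENNReal.ofReal (K ^ q * X ^ (1 + q * s)) := by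
  have h0 : 0 ≤ K * X ^ s := by positivity
  have hvol : volume (Icc X (2 * X)) = ENNReal.ofReal X := by
    rw [Real.volume_Icc]
    congr 1
    ring
  calc mm q X F ≤ ∫⁻ _t in Icc X (2 * X), ENNReal.ofReal (K * X ^ s) ^ q := by
        refine setLIntegral_mono' measurableSet_Icc fun t ht => ?_
        refine ENNReal.rpow_le_rpow ?_ (by linarith)
        rw [← ofReal_norm]
        exact ENNReal.ofReal_le_ofReal (h t ht)
    _ = ENNReal.ofReal (K * X ^ s) ^ q * ENNReal.ofReal X := by
        rw [lintegral_const, Measure.restrict_apply_univ, hvol]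
    _ = ENNReal.ofReal (K ^ q * X ^ (1 + q * s)) := by
        rw [ENNReal.ofReal_rpow_of_nonneg h0 (by linarith), ← ENNReal.ofReal_mul (by positivity)]
        congr 1
        rw [Real.mul_rpow hK (by positivity), ← Real.rpow_mul hX.le, Real.rpow_add hX,
          Real.rpow_one, mul_comm s q]
        ring

lemma sum_le {q b a : ℝ} (hq : 1 ≤ q) (ha : 0 ≤ a) (h : SumLe b a) : SumQ q b a := by
  intro ε hε
  obtain ⟨δ, hδ, C, hC⟩ := h ε hε
  set l : ℝ := Real.log 2 with hl
  have hl0 : 0 < l := Real.log_pos (by norm_num)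
  set x0 : ℝ := 2 * (|b| + δ) * l / δ with hx0
  set D : ℝ := Real.exp 1 * Nw.S32 with hD
  have hD0 : 0 ≤ D := mul_nonneg (Real.exp_pos _).le Nw.S32_nonneg
  set K : ℝ := |C| * 2 ^ (a + ε) + D * Real.exp (x0 * (|b| + δ)) with hK
  have hK0 : 0 ≤ K := by positivity
  refine ⟨δ / 2, by linarith, K ^ q, fun X N hX h1 h2 => ?_⟩
  have hX0 : 0 < X := by linarith
  have hX1 : 1 ≤ X := by linarith
  have hb := abs_nonneg b
  have hb1 := le_abs_self b
  have hb2 := neg_abs_le b
  have hXs : 1 ≤ X ^ (a + ε) := Real.one_le_rpow hX1 (by linarith)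
  refine mm_le hq hX0 hK0 fun t ht => ?_
  have ht0 : 0 < t := lt_of_lt_of_le hX0 ht.1
  rcases le_or_gt x0 (Real.log X) with hx | hx
  · -- large `X`
    have e1 : Real.log X ≤ Real.log t := Real.log_le_log hX0 ht.1
    have e2 : Real.log t ≤ Real.log X + l := by
      have := Real.log_le_log ht0 ht.2
      rw [Real.log_mul (by norm_num) hX0.ne'] at this
      linarith
    have e3 : (|b| + δ) * l ≤ δ / 2 * Real.log X := by
      have h3 : x0 * (δ / 2) = (|b| + δ) * l := by
        rw [hx0]
        field_simp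
      rw [← h3]
      nlinarith
    have e4 : t ^ (b - δ) ≤ N := by
      refine le_trans ?_ h1
      rw [Real.rpow_def_of_pos ht0, Real.rpow_def_of_pos hX0, Real.exp_le_exp]
      have h4 : (b - δ) * (Real.log t - Real.log X) ≤ (|b| + δ) * l := by
        have h5 : (b - δ) * (Real.log t - Real.log X) ≤
            (|b| + δ) * (Real.log t - Real.log X) := by
          refine mul_le_mul_of_nonneg_right (by linarith) (by linarith)
        have h6 : (|b| + δ) * (Real.log t - Real.log X) ≤ (|b| + δ) * l := by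
          refine mul_le_mul_of_nonneg_left (by linarith) (by positivity)
        linarith
      nlinarith
    have e5 : N ≤ t ^ (b + δ) := by
      refine h2.trans ?_
      rw [Real.rpow_def_of_pos ht0, Real.rpow_def_of_pos hX0, Real.exp_le_exp]
      have h4 : -((|b| + δ) * l) ≤ (b + δ) * (Real.log t - Real.log X) := by
        have h5 : -(|b| + δ) * (Real.log t - Real.log X) ≤
            (b + δ) * (Real.log t - Real.log X) := by
          refine mul_le_mul_of_nonneg_right (by linarith) (by linarith)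
        have h6 : (|b| + δ) * (Real.log t - Real.log X) ≤ (|b| + δ) * l := by
          refine mul_le_mul_of_nonneg_left (by linarith) (by positivity)
        linarith
      nlinarith
    have e6 := hC t N (hX.trans ht.1) e4 e5
    calc ‖zsum N t‖ ≤ C * t ^ (a + ε) := e6
      _ ≤ |C| * (2 * X) ^ (a + ε) := by
          refine mul_le_mul (le_abs_self C) ?_ (by positivity) (abs_nonneg C)
          exact Real.rpow_le_rpow ht0.le ht.2 (by linarith)
      _ = |C| * 2 ^ (a + ε) * X ^ (a + ε) := by
          rw [Real.mul_rpow (by norm_num) hX0.le]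
          ring
      _ ≤ K * X ^ (a + ε) := by
          refine mul_le_mul_of_nonneg_right ?_ (by positivity)
          rw [hK]
          have : 0 ≤ D * Real.exp (x0 * (|b| + δ)) := by positivity
          linarith
  · -- small `X`
    have hN : 0 < N := lt_of_lt_of_le (Real.rpow_pos_of_pos hX0 _) h1
    have hlX : 0 ≤ Real.log X := Real.log_nonneg hX1
    have e1 : N ≤ Real.exp (x0 * (|b| + δ)) := by
      refine h2.trans ?_
      rw [Real.rpow_def_of_pos hX0, Real.exp_le_exp]
      calc Real.log X * (b + δ / 2) ≤ Real.log X * (|b| + δ) :=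
            mul_le_mul_of_nonneg_left (by linarith) hlX
        _ ≤ x0 * (|b| + δ) := mul_le_mul_of_nonneg_right hx.le (by positivity)
    calc ‖zsum N t‖ ≤ D * N := Nw.norm_zsum_le hN t
      _ ≤ D * Real.exp (x0 * (|b| + δ)) := by gcongr
      _ ≤ K := by
          rw [hK]
          have : 0 ≤ |C| * 2 ^ (a + ε) := by positivity
          linarith
      _ = K * 1 := (mul_one K).symm
      _ ≤ K * X ^ (a + ε) := by gcongr

lemma exp_le {q A : ℝ} {F : ℝ → ℂ} (hq : 1 ≤ q) (hA : 0 ≤ A) (h : ExpLe A F) : ExpQ q A F := by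
  intro ε hε
  obtain ⟨C, hC⟩ := h ε hε
  refine ⟨(|C| * 3 ^ (A + ε)) ^ q, fun X hX => ?_⟩
  have hX0 : 0 < X := by linarith
  refine mm_le hq hX0 (by positivity) fun t ht => ?_
  have ht0 : 0 < t := lt_of_lt_of_le hX0 ht.1
  calc ‖F t‖ ≤ C * (1 + |t|) ^ (A + ε) := hC t
    _ ≤ |C| * (3 * X) ^ (A + ε) := by
        refine mul_le_mul (le_abs_self C) ?_ (by positivity) (abs_nonneg C)
        refine Real.rpow_le_rpow (by positivity) ?_ (by linarith)
        rw [abs_of_pos ht0]
        have := ht.2
        linarith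
    _ = |C| * 3 ^ (A + ε) * X ^ (A + ε) := by
        rw [Real.mul_rpow (by norm_num) hX0.le]
        ring

lemma mono {q a a' ε C X : ℝ} (hq : 1 ≤ q) (ha : a ≤ a') (hX : 1 ≤ X) :
    ENNReal.ofReal (C * X ^ (1 + q * (a + ε))) ≤
      ENNReal.ofReal (|C| * X ^ (1 + q * (a' + ε))) := by
  have hX0 : 0 < X := by linarith
  refine ENNReal.ofReal_le_ofReal ?_
  refine mul_le_mul (le_abs_self C) ?_ (by positivity) (abs_nonneg C)
  refine Real.rpow_le_rpow_of_exponent_le hX ?_
  have : q * (a + ε) ≤ q * (a' + ε) := mul_le_mul_of_nonneg_left (by linarith) (by linarith)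
  linarith

end FINQ_

open FINQ_ in
theorem p_FINQ : T_FINQ := by
  refine ⟨fun q b a hq ha h => sum_le hq ha h, fun q A F hq hA h => exp_le hq hA h, ?_, ?_⟩
  · intro q b a a' hq ha h ε hε
    obtain ⟨δ, hδ, C, hC⟩ := h ε hε
    exact ⟨δ, hδ, |C|, fun X N hX h1 h2 =>
      (hC X N hX h1 h2).trans (mono hq ha (by linarith))⟩
  · intro q A A' F hq hA h ε hε
    obtain ⟨C, hC⟩ := h ε hε
    exact ⟨|C|, fun X hX => (hC X hX).trans (mono hq hA hX)⟩

end Pool.Agent.PertQ
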