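import Pool.Agent.PertQ.Targets
import Pool.Agent.PertZ.TRF

/-!
# Block GBI: the mean is bounded by an average of the sums
-/

set_option autoImplicit false

namespace Pool.Agent.PertQ

open MeasureTheory Set Complex Pool.Agent.CW Pool.Agent.DBN Pool.Agent.PertZ
open scoped ENNReal

namespace GBI_

/-- the integral of IUB -/
noncomputable def II (c τ T u : ℝ) : ℝ≥0∞ :=
  ∫⁻ p : ℝ × ℝ, ENNReal.ofReal (Real.exp (-(c * |p.1 - u|) - τ * |p.2 - T|)) * ‖zs p.1 p.2‖ₑ

/-- the weight -/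
noncomputable def mw (B T u : ℝ) : ℝ := min 1 (Real.exp (B * u) / T)

theorem mw_pos {B T : ℝ} (hT : 0 < T) (u : ℝ) : 0 < mw B T u :=
  lt_min one_pos (by positivity)

theorem mw_meas (B T : ℝ) : Measurable (mw B T) := by
  unfold mw
  fun_prop

theorem mw_shift {B T : ℝ} (hB : 0 < B) (hT : 0 < T) (u x : ℝ) :
    mw B T u ≤ mw B T x * Real.exp (B * |x - u|) := by
  have h0 : 0 ≤ B * |x - u| := by positivity
  have h1 : 1 ≤ Real.exp (B * |x - u|) := Real.one_le_exp h0
  have h2 : Real.exp (B * u) / T ≤ Real.exp (B * x) / T * Real.exp (B * |x - u|) := by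
    rw [div_mul_eq_mul_div, ← Real.exp_add]
    refine div_le_div_of_nonneg_right (Real.exp_le_exp.2 ?_) hT.le
    have h3 : u - x ≤ |x - u| := by
      rw [abs_sub_comm]
      exact le_abs_self _
    nlinarith
  unfold mw
  rcases le_total 1 (Real.exp (B * x) / T) with h | h
  · rw [min_eq_left h]
    exact (min_le_left _ _).trans (by linarith)
  · rw [min_eq_right h]
    exact (min_le_right _ _).trans h2

/-- the bound of one block -/
theorem blk_le {B τ c Cg Cm : ℝ} (hCg : 0 < Cg)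
    (hGB : ∀ T u M : ℝ, 2 ≤ T → 0 ≤ M →
      (∀ v y : ℝ, ‖zsum (Real.exp (u + y)) (T - v)‖ ≤
        M * Real.exp (c * |y|) * Real.exp (τ * |v|)) →
      ‖blk B T u‖ ≤ Cg * min 1 (Real.exp (B * u) / T) * M)
    (hMX : ∀ w₀ t₀ w t : ℝ,
      ‖zs w t‖ₑ ≤ ENNReal.ofReal (Cm * Real.exp (c * |w - w₀| + τ * |t - t₀|)) *
        ∫⁻ p : ℝ × ℝ, ENNReal.ofReal (Real.exp (-(c * |p.1 - w₀|) - τ * |p.2 - t₀|)) *
          ‖zs p.1 p.2‖ₑ) {T : ℝ} (hT : 2 ≤ T) (u : ℝ) :
    ‖blk B T u‖ₑ ≤ ENNReal.ofReal (Cg * max Cm 1 * mw B T u) * II c τ T u := by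
  have hT0 : 0 < T := by linarith
  have hm := mw_pos (B := B) hT0 u
  have hC1 : 0 < max Cm 1 := lt_of_lt_of_le one_pos (le_max_right _ _)
  by_cases hI : II c τ T u = ⊤
  · rw [hI, ENNReal.mul_top]
    · exact le_top
    · rw [Ne, ENNReal.ofReal_eq_zero, not_le]
      positivity
  · set J : ℝ := (II c τ T u).toReal with hJ
    have hJ0 : 0 ≤ J := ENNReal.toReal_nonneg
    have hIJ : II c τ T u = ENNReal.ofReal J := (ENNReal.ofReal_toReal hI).symm
    have h1 := hGB T u (max Cm 1 * J) hT (by positivity) (by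
      intro v y
      have h2 := hMX u T (u + y) (T - v)
      have e1 : |u + y - u| = |y| := by
        congr 1
        ring
      have e2 : |T - v - T| = |v| := by
        rw [show T - v - T = -v by ring, abs_neg]
      rw [e1, e2] at h2
      have h3 : ‖zs (u + y) (T - v)‖ₑ ≤
          ENNReal.ofReal (max Cm 1 * Real.exp (c * |y| + τ * |v|)) * ENNReal.ofReal J := by
        refine h2.trans ?_
        rw [← hIJ]
        refine mul_le_mul' (ENNReal.ofReal_le_ofReal ?_) le_rfl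
        exact mul_le_mul_of_nonneg_right (le_max_left _ _) (Real.exp_pos _).le
      rw [← ENNReal.ofReal_mul (by positivity), ← ofReal_norm,
        ENNReal.ofReal_le_ofReal_iff (by positivity)] at h3
      refine h3.trans (le_of_eq ?_)
      rw [Real.exp_add]
      ring)
    rw [hIJ, ← ENNReal.ofReal_mul (by positivity), ← ofReal_norm]
    refine ENNReal.ofReal_le_ofReal (h1.trans (le_of_eq ?_))
    unfold mw
    ring

theorem lint_Iic {b : ℝ} (hb : 0 < b) :
    ∫⁻ u in Iic (0 : ℝ), ENNReal.ofReal (Real.exp (b * u)) = ENNReal.ofReal (1 / b) := by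
  rw [← ofReal_integral_eq_lintegral_ofReal (integrableOn_exp_mul_Iic hb 0)
    (Filter.Eventually.of_forall fun _ => (Real.exp_pos _).le), integral_exp_mul_Iic hb]
  simp

theorem lint_Ioi {b : ℝ} (hb : 0 < b) :
    ∫⁻ u in Ioi (0 : ℝ), ENNReal.ofReal (Real.exp (-b * u)) = ENNReal.ofReal (1 / b) := by
  rw [← ofReal_integral_eq_lintegral_ofReal (integrableOn_exp_mul_Ioi (by linarith) 0)
    (Filter.Eventually.of_forall fun _ => (Real.exp_pos _).le),
    integral_exp_mul_Ioi (by linarith)]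
  simp [neg_div_neg_eq]

theorem lint_abs {b : ℝ} (hb : 0 < b) (x : ℝ) :
    ∫⁻ u, ENNReal.ofReal (Real.exp (-(b * |x - u|))) = ENNReal.ofReal (2 / b) := by
  have h1 : ∫⁻ u, ENNReal.ofReal (Real.exp (-(b * |x - u|))) =
      ∫⁻ u, ENNReal.ofReal (Real.exp (-(b * |u|))) := by
    have h2 := lintegral_add_right_eq_self (μ := (volume : Measure ℝ))
      (fun u => ENNReal.ofReal (Real.exp (-(b * |u|)))) (-x)
    rw [← h2]
    refine lintegral_congr fun u => ?_
    congr 4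
    rw [abs_sub_comm]
    rfl
  rw [h1, ← lintegral_add_compl _ (measurableSet_Iic (a := (0 : ℝ))), compl_Iic]
  have h3 : ∫⁻ u in Iic (0 : ℝ), ENNReal.ofReal (Real.exp (-(b * |u|))) =
      ENNReal.ofReal (1 / b) := by
    rw [← lint_Iic hb]
    refine setLIntegral_congr_fun measurableSet_Iic ?_
    intro u hu
    simp only
    rw [abs_of_nonpos hu]
    congr 2
    ring
  have h4 : ∫⁻ u in Ioi (0 : ℝ), ENNReal.ofReal (Real.exp (-(b * |u|))) =
      ENNReal.ofReal (1 / b) := by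
    rw [← lint_Ioi hb]
    refine setLIntegral_congr_fun measurableSet_Ioi ?_
    intro u hu
    simp only
    rw [abs_of_pos hu]
    congr 2
    ring
  rw [h3, h4, ← ENNReal.ofReal_add (by positivity) (by positivity)]
  congr 1
  ring

theorem lint_mw {B T U : ℝ} (hB : 0 < B) (hT : 1 ≤ T) (hU : 0 ≤ U) :
    ∫⁻ u in Iic U, ENNReal.ofReal (mw B T u) ≤ ENNReal.ofReal (1 / B + U) := by
  rw [← Iic_union_Ioc_eq_Iic hU]
  refine (lintegral_union_le _ _ _).trans ?_
  rw [ENNReal.ofReal_add (by positivity) hU]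
  refine add_le_add ?_ ?_
  · rw [← lint_Iic hB]
    refine lintegral_mono fun u => ENNReal.ofReal_le_ofReal ?_
    refine (min_le_right _ _).trans ?_
    exact div_le_self (Real.exp_pos _).le hT
  · calc ∫⁻ u in Ioc 0 U, ENNReal.ofReal (mw B T u) ≤ ∫⁻ _ in Ioc 0 U, 1 := by
          refine lintegral_mono fun u => ?_
          rw [← ENNReal.ofReal_one]
          exact ENNReal.ofReal_le_ofReal (min_le_left _ _)
      _ = ENNReal.ofReal U := by simp

/-- Tonelli -/
theorem swap {B τ c T U : ℝ} (hCON : T_CON) (hB : 0 < B) (hc : B < c) (hT : 0 < T) :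
    ∫⁻ u in Iic U, ENNReal.ofReal (mw B T u) * ∫⁻ p in RR T,
      ENNReal.ofReal (Real.exp (-(c * |p.1 - u|) - τ * |p.2 - T|)) * ‖zs p.1 p.2‖ₑ ≤
    ENNReal.ofReal (2 / (c - B)) * ∫⁻ p in RR T,
      ENNReal.ofReal (mw B T p.1 * Real.exp (-(τ * |p.2 - T|))) * ‖zs p.1 p.2‖ₑ := by
  have hz : Measurable fun p : ℝ × ℝ => ‖zs p.1 p.2‖ₑ := hCON.measurable.enorm
  have hm := mw_meas B T
  have e1 : ∀ u : ℝ, ENNReal.ofReal (mw B T u) * ∫⁻ p in RR T,
      ENNReal.ofReal (Real.exp (-(c * |p.1 - u|) - τ * |p.2 - T|)) * ‖zs p.1 p.2‖ₑ =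
      ∫⁻ p in RR T, ENNReal.ofReal (mw B T u) *
        (ENNReal.ofReal (Real.exp (-(c * |p.1 - u|) - τ * |p.2 - T|)) * ‖zs p.1 p.2‖ₑ) := by
    intro u
    rw [lintegral_const_mul' _ _ ENNReal.ofReal_ne_top]
  simp_rw [e1]
  have hme : Measurable (fun q : ℝ × (ℝ × ℝ) => ENNReal.ofReal (mw B T q.1) *
      (ENNReal.ofReal (Real.exp (-(c * |q.2.1 - q.1|) - τ * |q.2.2 - T|)) *
        ‖zs q.2.1 q.2.2‖ₑ)) := by
    have h1 : Measurable fun q : ℝ × (ℝ × ℝ) => ENNReal.ofReal (mw B T q.1) :=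
      (hm.comp measurable_fst).ennreal_ofReal
    have h2 : Measurable fun q : ℝ × (ℝ × ℝ) =>
        ENNReal.ofReal (Real.exp (-(c * |q.2.1 - q.1|) - τ * |q.2.2 - T|)) := by
      refine Measurable.ennreal_ofReal ?_
      fun_prop
    have h3 : Measurable fun q : ℝ × (ℝ × ℝ) => ‖zs q.2.1 q.2.2‖ₑ := hz.comp measurable_snd
    exact h1.mul (h2.mul h3)
  rw [lintegral_lintegral_swap hme.aemeasurable]
  rw [← lintegral_const_mul' _ _ ENNReal.ofReal_ne_top]
  refine lintegral_mono fun p => ?_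
  have hcB : 0 < c - B := by linarith
  calc ∫⁻ u in Iic U, ENNReal.ofReal (mw B T u) *
        (ENNReal.ofReal (Real.exp (-(c * |p.1 - u|) - τ * |p.2 - T|)) * ‖zs p.1 p.2‖ₑ)
      ≤ ∫⁻ u, ENNReal.ofReal (mw B T u) *
        (ENNReal.ofReal (Real.exp (-(c * |p.1 - u|) - τ * |p.2 - T|)) * ‖zs p.1 p.2‖ₑ) :=
        setLIntegral_le_lintegral _ _
    _ ≤ ∫⁻ u, (ENNReal.ofReal (mw B T p.1 * Real.exp (-(τ * |p.2 - T|))) * ‖zs p.1 p.2‖ₑ) *
          ENNReal.ofReal (Real.exp (-((c - B) * |p.1 - u|))) := by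
        refine lintegral_mono fun u => ?_
        have h0 := mw_pos (B := B) hT u
        have h1 := mw_pos (B := B) hT p.1
        rw [← mul_assoc, ← ENNReal.ofReal_mul h0.le, mul_right_comm,
          ← ENNReal.ofReal_mul (by positivity)]
        refine mul_le_mul' (ENNReal.ofReal_le_ofReal ?_) le_rfl
        calc mw B T u * Real.exp (-(c * |p.1 - u|) - τ * |p.2 - T|)
            ≤ (mw B T p.1 * Real.exp (B * |p.1 - u|)) *
              Real.exp (-(c * |p.1 - u|) - τ * |p.2 - T|) :=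
              mul_le_mul_of_nonneg_right (mw_shift hB hT u p.1) (Real.exp_pos _).le
          _ = mw B T p.1 * Real.exp (-(τ * |p.2 - T|)) * Real.exp (-((c - B) * |p.1 - u|)) := by
              rw [mul_assoc, mul_assoc, ← Real.exp_add, ← Real.exp_add]
              congr 2
              ring
    _ = (ENNReal.ofReal (mw B T p.1 * Real.exp (-(τ * |p.2 - T|))) * ‖zs p.1 p.2‖ₑ) *
          ENNReal.ofReal (2 / (c - B)) := by
        rw [lintegral_const_mul _ (by fun_prop), lint_abs hcB]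
    _ = _ := mul_comm _ _

theorem log_bd {B K T ε : ℝ} (hB : 0 < B) (hK : 0 ≤ K) (hT : 1 ≤ T) (hε : 0 < ε) :
    T ^ (ε / 2) * (1 / B + K * Real.log T) ≤ T ^ ε * (1 / B + K * (2 / ε)) := by
  have hT0 : 0 < T := by linarith
  have h1 : Real.log T ≤ T ^ (ε / 2) * (2 / ε) := by
    refine (Real.log_le_rpow_div hT0.le (by positivity : 0 < ε / 2)).trans (le_of_eq ?_)
    field_simp
  have h2 : T ^ (ε / 2) * T ^ (ε / 2) = T ^ ε := by
    rw [← Real.rpow_add hT0]
    congr 1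
    ring
  have h3 : T ^ (ε / 2) ≤ T ^ ε := Real.rpow_le_rpow_of_exponent_le hT (by linarith)
  have h4 : T ^ (ε / 2) * (K * Real.log T) ≤ T ^ (ε / 2) * (K * (T ^ (ε / 2) * (2 / ε))) := by
    gcongr
  have h5 : T ^ (ε / 2) * (1 / B) ≤ T ^ ε * (1 / B) := by gcongr
  calc T ^ (ε / 2) * (1 / B + K * Real.log T) =
        T ^ (ε / 2) * (1 / B) + T ^ (ε / 2) * (K * Real.log T) := by ring
    _ ≤ T ^ ε * (1 / B) + T ^ (ε / 2) * (K * (T ^ (ε / 2) * (2 / ε))) := add_le_add h5 h4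
    _ = T ^ ε * (1 / B) + (T ^ (ε / 2) * T ^ (ε / 2)) * (K * (2 / ε)) := by ring
    _ = T ^ ε * (1 / B + K * (2 / ε)) := by
        rw [h2]
        ring

end GBI_

open GBI_ in
theorem p_GBI (hK : P_GBK) (hI : P_GID) (hA : P_SMA) (h_MAX : T_MAX) (h_IUB : T_IUB)
    (h_CON : T_CON) : T_GBI := by
  intro B hB2
  have hB : 0 < B := by linarith
  set K : ℝ := max 2 (1 / (B - 1 / 2)) with hKdef
  have hK2 : 2 ≤ K := le_max_left _ _
  have hK1 : 1 ≤ K * (B - 1 / 2) := by
    have h1 : 1 / (B - 1 / 2) ≤ K := le_max_right _ _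
    have h2 : 0 < B - 1 / 2 := by linarith
    rwa [div_le_iff₀ h2] at h1
  obtain ⟨τ, hτ, hGB⟩ := hK B hB2
  refine ⟨τ, hτ, fun ε hε => ?_⟩
  set c : ℝ := K + B + 2 with hc
  have hc0 : 0 < c := by positivity
  obtain ⟨Cg, hCg, hblk⟩ := hGB c hc0.le
  obtain ⟨Cm, hMX⟩ := h_MAX c τ hc0 hτ
  obtain ⟨Ci, hIU⟩ := h_IUB K c τ (ε / 2) hK2 (by linarith) hτ (by positivity)
  obtain ⟨CI, hCI⟩ := hI B K hB2 hK2 hK1
  obtain ⟨D₀, hD₀⟩ := TRF_mid hA B hB2 4
  set G : ℝ := Cg * max Cm 1 with hG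
  have hG0 : 0 < G := by positivity
  have hcB : 0 < c - B := by
    rw [hc]
    linarith
  refine ⟨|CI| + G * |Ci| * (1 / B + K * (2 / ε)) + G * (2 / (c - B)) + |D₀|,
    fun T hT => ?_⟩
  set CF : ℝ := |CI| + G * |Ci| * (1 / B + K * (2 / ε)) + G * (2 / (c - B)) + |D₀| with hCF
  have q1 : 0 ≤ |CI| := abs_nonneg _
  have q2 : 0 ≤ G * |Ci| * (1 / B + K * (2 / ε)) := by positivity
  have q3 : 0 ≤ G * (2 / (c - B)) := by positivity
  have q4 : 0 ≤ |D₀| := abs_nonneg _
  have hT0 : 0 < T := by linarith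
  have hT1 : 1 ≤ T := by linarith
  have hTε : 1 ≤ T ^ ε := Real.one_le_rpow hT1 hε.le
  rcases lt_or_ge T 4 with hT4 | hT4
  · have h1 : ‖Dl B T‖ ≤ D₀ := hD₀ T (by rw [abs_of_pos hT0]; linarith)
    have h2 : ‖Dl B T‖ ≤ CF * T ^ ε := by
      calc ‖Dl B T‖ ≤ CF * 1 := by
            rw [mul_one]
            refine (h1.trans (le_abs_self _)).trans ?_
            rw [hCF]
            linarith
        _ ≤ CF * T ^ ε := mul_le_mul_of_nonneg_left hTε (by rw [hCF]; positivity)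
    rw [← ofReal_norm]
    exact (ENNReal.ofReal_le_ofReal h2).trans le_self_add
  · set U : ℝ := K * Real.log T with hU
    have hlT : 0 ≤ Real.log T := Real.log_nonneg hT1
    have hU0 : 0 ≤ U := by positivity
    obtain ⟨hint, hdiff⟩ := hCI T (by linarith)
    rw [← hU] at hint hdiff
    -- the triangle inequality
    have hpi : (1 / (2 * √Real.pi) : ℝ) ≤ 1 := by
      have h1 : 1 ≤ √Real.pi := by
        rw [Real.one_le_sqrt]
        linarith [Real.pi_gt_three]
      rw [div_le_one (by positivity)]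
      linarith
    have hpi0 : (0 : ℝ) ≤ 1 / (2 * √Real.pi) := by positivity
    have hs1 : ‖Dl B T‖ₑ ≤ ENNReal.ofReal |CI| + ∫⁻ u in Iic U, ‖blk B T u‖ₑ := by
      calc ‖Dl B T‖ₑ = ‖(Dl B T - ((1 / (2 * √Real.pi) : ℝ) : ℂ) *
            ∫ u in Iic U, blk B T u) +
            ((1 / (2 * √Real.pi) : ℝ) : ℂ) * ∫ u in Iic U, blk B T u‖ₑ := by
              rw [sub_add_cancel]
        _ ≤ _ := enorm_add_le _ _
        _ ≤ ENNReal.ofReal |CI| + ∫⁻ u in Iic U, ‖blk B T u‖ₑ := by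
            refine add_le_add ?_ ?_
            · rw [← ofReal_norm]
              exact ENNReal.ofReal_le_ofReal (hdiff.trans (le_abs_self _))
            · rw [enorm_mul]
              have h2 : ‖((1 / (2 * √Real.pi) : ℝ) : ℂ)‖ₑ ≤ 1 := by
                rw [← ofReal_norm, Complex.norm_real, Real.norm_of_nonneg hpi0,
                  ← ENNReal.ofReal_one]
                exact ENNReal.ofReal_le_ofReal hpi
              calc _ ≤ 1 * ∫⁻ u in Iic U, ‖blk B T u‖ₑ :=
                    mul_le_mul' h2 (enorm_integral_le_lintegral_enorm _)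
                _ = _ := one_mul _
    -- the blocks
    have hs2 : ∀ u ∈ Iic U, ‖blk B T u‖ₑ ≤ ENNReal.ofReal (G * mw B T u) *
        (ENNReal.ofReal (|Ci| * T ^ (ε / 2)) + ∫⁻ p in RR T,
          ENNReal.ofReal (Real.exp (-(c * |p.1 - u|) - τ * |p.2 - T|)) * ‖zs p.1 p.2‖ₑ) := by
      intro u hu
      refine (blk_le hCg hblk hMX hT u).trans (mul_le_mul' le_rfl ?_)
      refine (hIU T u hT4 hu).trans (add_le_add (ENNReal.ofReal_le_ofReal ?_) le_rfl)
      exact mul_le_mul_of_nonneg_right (le_abs_self _) (by positivity)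
    have hs3 : ∫⁻ u in Iic U, ‖blk B T u‖ₑ ≤
        ENNReal.ofReal G * (∫⁻ u in Iic U, ENNReal.ofReal (mw B T u) *
          ENNReal.ofReal (|Ci| * T ^ (ε / 2))) +
        ENNReal.ofReal G * ∫⁻ u in Iic U, ENNReal.ofReal (mw B T u) * ∫⁻ p in RR T,
          ENNReal.ofReal (Real.exp (-(c * |p.1 - u|) - τ * |p.2 - T|)) * ‖zs p.1 p.2‖ₑ := by
      refine (setLIntegral_mono' measurableSet_Iic hs2).trans (le_of_eq ?_)
      rw [← mul_add, ← lintegral_add_left ((mw_meas B T).ennreal_ofReal.mul_const _),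
        ← lintegral_const_mul' _ _ ENNReal.ofReal_ne_top]
      refine lintegral_congr fun u => ?_
      rw [ENNReal.ofReal_mul hG0.le]
      ring
    have hs4 : ∫⁻ u in Iic U, ENNReal.ofReal (mw B T u) *
        ENNReal.ofReal (|Ci| * T ^ (ε / 2)) ≤
        ENNReal.ofReal (|Ci| * (T ^ ε * (1 / B + K * (2 / ε)))) := by
      rw [lintegral_mul_const' _ _ ENNReal.ofReal_ne_top]
      refine (mul_le_mul' (lint_mw hB hT1 hU0) le_rfl).trans ?_
      rw [← ENNReal.ofReal_mul (by positivity)]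
      refine ENNReal.ofReal_le_ofReal ?_
      have h5 := log_bd hB (by linarith : 0 ≤ K) hT1 hε
      calc (1 / B + U) * (|Ci| * T ^ (ε / 2)) =
            |Ci| * (T ^ (ε / 2) * (1 / B + K * Real.log T)) := by
              rw [hU]
              ring
        _ ≤ _ := mul_le_mul_of_nonneg_left h5 (abs_nonneg _)
    have hs5 := swap (τ := τ) (U := U) h_CON hB (show B < c by linarith) hT0
    refine hs1.trans ((add_le_add le_rfl (hs3.trans (add_le_add
      (mul_le_mul' le_rfl hs4) (mul_le_mul' le_rfl hs5)))).trans ?_)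
    rw [← add_assoc]
    refine add_le_add ?_ ?_
    · rw [← ENNReal.ofReal_mul hG0.le, ← ENNReal.ofReal_add (by positivity) (by positivity)]
      refine ENNReal.ofReal_le_ofReal ?_
      have h6 : |CI| ≤ |CI| * T ^ ε := le_mul_of_one_le_right q1 hTε
      have h7 : 0 ≤ (G * (2 / (c - B)) + |D₀|) * T ^ ε := by positivity
      calc |CI| + G * (|Ci| * (T ^ ε * (1 / B + K * (2 / ε))))
          ≤ |CI| * T ^ ε + G * (|Ci| * (T ^ ε * (1 / B + K * (2 / ε)))) +
            (G * (2 / (c - B)) + |D₀|) * T ^ ε := by linarith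
        _ = CF * T ^ ε := by
            rw [hCF]
            ring
    · rw [← mul_assoc, ← ENNReal.ofReal_mul hG0.le]
      refine mul_le_mul' (ENNReal.ofReal_le_ofReal ?_) (le_of_eq rfl)
      rw [hCF]
      linarith

end Pool.Agent.PertQ
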