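import Pool.Agent.PertQ.Targets
import Pool.Agent.PertZ.TRF
import Pool.Agent.PertZ.GBK

/-!
# Block GSBQ: from the smoothed sums to the mean, in the mean of order `q`
-/

set_option autoImplicit false

namespace Pool.Agent.PertQ

open MeasureTheory Set Complex Pool.Agent.CW Pool.Agent.DBN Pool.Agent.PertZ
open scoped ENNReal

namespace GSBQ_

/-- the domain -/
def S (X : ℝ) : Set (ℝ × ℝ) :=
  {p | 0 ≤ p.1 ∧ Real.exp p.1 ≤ p.2 ∧ X / 2 ≤ p.2 ∧ p.2 ≤ 4 * X}

/-- the kernel -/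
noncomputable def k (τ T : ℝ) (p : ℝ × ℝ) : ℝ≥0∞ :=
  ENNReal.ofReal (Real.exp (-(τ * |p.2 - T|)))

/-- the function -/
noncomputable def φ (B X : ℝ) (p : ℝ × ℝ) : ℝ≥0∞ :=
  ENNReal.ofReal (min 1 (Real.exp (B * p.1) / X)) * ‖zs p.1 p.2‖ₑ

theorem S_meas (X : ℝ) : MeasurableSet (S X) := by
  have h1 : MeasurableSet {p : ℝ × ℝ | 0 ≤ p.1} := measurableSet_le measurable_const measurable_fst
  have h2 : MeasurableSet {p : ℝ × ℝ | Real.exp p.1 ≤ p.2} :=
    measurableSet_le (Real.measurable_exp.comp measurable_fst) measurable_snd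
  have h3 : MeasurableSet {p : ℝ × ℝ | X / 2 ≤ p.2} :=
    measurableSet_le measurable_const measurable_snd
  have h4 : MeasurableSet {p : ℝ × ℝ | p.2 ≤ 4 * X} :=
    measurableSet_le measurable_snd measurable_const
  exact h1.inter (h2.inter (h3.inter h4))

theorem k_meas2 (τ : ℝ) : Measurable fun x : ℝ × (ℝ × ℝ) => k τ x.1 x.2 := by
  unfold k
  exact ENNReal.measurable_ofReal.comp (Continuous.measurable (by fun_prop))

theorem k_meas (τ T : ℝ) : Measurable (k τ T) := by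
  unfold k
  exact ENNReal.measurable_ofReal.comp (Continuous.measurable (by fun_prop))

theorem φ_meas (hc : Continuous fun p : ℝ × ℝ => zs p.1 p.2) (B X : ℝ) :
    Measurable (φ B X) := by
  unfold φ
  exact (ENNReal.measurable_ofReal.comp (Continuous.measurable (by fun_prop))).mul
    hc.enorm.measurable

/-- Fubini on `S` -/
theorem fub {X : ℝ} (hX : 0 < X) {f : ℝ × ℝ → ℝ≥0∞} (hf : Measurable f) {c : ℝ≥0∞}
    (h : ∀ w : ℝ, 0 ≤ w → ∫⁻ t, (S X).indicator f (w, t) ≤ c) :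
    ∫⁻ p in S X, f p ≤ c * ENNReal.ofReal (Real.log (4 * X)) := by
  rw [← lintegral_indicator (S_meas X), Measure.volume_eq_prod,
    lintegral_prod _ (hf.indicator (S_meas X)).aemeasurable]
  calc ∫⁻ w, ∫⁻ t, (S X).indicator f (w, t)
      ≤ ∫⁻ w, (Icc 0 (Real.log (4 * X))).indicator (fun _ => c) w := by
        refine lintegral_mono fun w => ?_
        by_cases hw : w ∈ Icc 0 (Real.log (4 * X))
        · rw [indicator_of_mem hw]
          exact h w hw.1
        · rw [indicator_of_notMem hw]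
          refine le_of_eq ?_
          have e : ∀ t, (S X).indicator f (w, t) = 0 := by
            intro t
            refine indicator_of_notMem (fun hs => hw ⟨hs.1, ?_⟩) _
            have h1 : Real.exp w ≤ 4 * X := hs.2.1.trans hs.2.2.2
            exact (Real.le_log_iff_exp_le (by positivity)).2 h1
          simp [e]
    _ = c * ENNReal.ofReal (Real.log (4 * X)) := by
        rw [lintegral_indicator measurableSet_Icc, setLIntegral_const, Real.volume_Icc, sub_zero]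

/-- the mass of the kernel -/
noncomputable def Kt (τ : ℝ) : ℝ≥0∞ := ∫⁻ y : ℝ, ENNReal.ofReal (Real.exp (-(τ * |y|)))

theorem Kt_lt {τ : ℝ} (hτ : 0 < τ) : Kt τ < ⊤ := by
  exact (GBK_exp_abs hτ).lintegral_lt_top

theorem k_int (τ T : ℝ) (w : ℝ) : ∫⁻ t, k τ T (w, t) = Kt τ := by
  unfold k Kt
  exact lintegral_sub_right_eq_self (fun y : ℝ => ENNReal.ofReal (Real.exp (-(τ * |y|)))) T

theorem k_int2 (τ : ℝ) (p : ℝ × ℝ) : ∫⁻ T, k τ T p = Kt τ := by
  unfold k Kt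
  exact lintegral_sub_left_eq_self (fun y : ℝ => ENNReal.ofReal (Real.exp (-(τ * |y|)))) p.2

theorem k_S {X τ : ℝ} (hX : 0 < X) (T : ℝ) :
    ∫⁻ p in S X, k τ T p ≤ Kt τ * ENNReal.ofReal (Real.log (4 * X)) := by
  refine fub hX (k_meas τ T) fun w _ => ?_
  rw [← k_int τ T w]
  exact lintegral_mono fun t => indicator_le_self _ _ _

/-! ### real inequalities -/

theorem prod_le {B X Y w : ℝ} (hX : 0 < X) (hY : 2 ≤ Y) (hYX : Y ≤ 2 * X) :
    min 1 (Real.exp (B * w) / X) * Y ^ (max 0 (1 - B * (w / Real.log Y))) ≤ 2 := by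
  have hY0 : 0 < Y := by linarith
  have hl : 0 < Real.log Y := Real.log_pos (by linarith)
  have hm0 : 0 ≤ min 1 (Real.exp (B * w) / X) := by positivity
  rcases le_total (1 - B * (w / Real.log Y)) 0 with h | h
  · rw [max_eq_left h, Real.rpow_zero, mul_one]
    exact (min_le_left _ _).trans (by norm_num)
  · rw [max_eq_right h]
    have e : Y ^ (1 - B * (w / Real.log Y)) = Y * Real.exp (-(B * w)) := by
      rw [Real.rpow_sub hY0, Real.rpow_one, Real.rpow_def_of_pos hY0, Real.exp_neg]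
      have : Real.log Y * (B * (w / Real.log Y)) = B * w := by field_simp
      rw [this]
      rfl
    rw [e]
    calc min 1 (Real.exp (B * w) / X) * (Y * Real.exp (-(B * w)))
        ≤ (Real.exp (B * w) / X) * (Y * Real.exp (-(B * w))) := by
          gcongr
          exact min_le_right _ _
      _ = Y / X * (Real.exp (B * w) * Real.exp (-(B * w))) := by ring
      _ = Y / X := by rw [← Real.exp_add, add_neg_cancel, Real.exp_zero, mul_one]
      _ ≤ 2 := by rwa [div_le_iff₀ hX]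

theorem num {q B A ε C X Y w : ℝ} (hq : 1 ≤ q) (hA : 0 ≤ A) (hε : 0 < ε) (hC : 0 ≤ C)
    (hX : 0 < X) (hY : 2 ≤ Y) (hYX : Y ≤ 2 * X) :
    min 1 (Real.exp (B * w) / X) ^ q *
      (C * Y ^ (1 + q * (A + max 0 (1 - B * (w / Real.log Y)) + ε))) ≤
      C * 2 ^ q * (2 * X) ^ (1 + q * (A + ε)) := by
  have hY0 : 0 < Y := by linarith
  set m := min 1 (Real.exp (B * w) / X) with hm
  set M := max 0 (1 - B * (w / Real.log Y)) with hM
  have hm0 : 0 ≤ m := by positivity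
  have h1 : Y ^ (1 + q * (A + M + ε)) = Y ^ (1 + q * (A + ε)) * (Y ^ M) ^ q := by
    rw [← Real.rpow_mul hY0.le, ← Real.rpow_add hY0]
    congr 1
    ring
  have h2 : m ^ q * (Y ^ M) ^ q ≤ 2 ^ q := by
    rw [← Real.mul_rpow hm0 (by positivity)]
    exact Real.rpow_le_rpow (by positivity) (prod_le hX hY hYX) (by linarith)
  calc m ^ q * (C * Y ^ (1 + q * (A + M + ε)))
      = C * (m ^ q * (Y ^ M) ^ q) * Y ^ (1 + q * (A + ε)) := by rw [h1]; ring
    _ ≤ C * 2 ^ q * (2 * X) ^ (1 + q * (A + ε)) := by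
        have h3 : 0 ≤ 1 + q * (A + ε) := by positivity
        gcongr

/-- one slice -/
theorem slice {q B A ε C X w : ℝ} (hq : 1 ≤ q) (hA : 0 ≤ A) (hε : 0 < ε)
    (hC : 0 ≤ C) (hu : ∀ X N : ℝ, 2 ≤ X → 1 ≤ N → N ≤ 3 * X ^ (1 : ℝ) →
      mm q X (zsum N) ≤ ENNReal.ofReal (C * X ^ (1 + q *
        (A + max 0 (1 - B * (Real.log N / Real.log X)) + ε)))) (hX : 4 ≤ X) (hw : 0 ≤ w) :
    ∫⁻ t, (S X).indicator (fun p => φ B X p ^ q) (w, t) ≤
      3 * ENNReal.ofReal (C * 2 ^ q * (2 * X) ^ (1 + q * (A + ε))) := by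
  set G : ℝ → ℝ≥0∞ := (Ici (Real.exp w)).indicator (fun t => φ B X (w, t) ^ q) with hG
  set c : ℝ≥0∞ := ENNReal.ofReal (C * 2 ^ q * (2 * X) ^ (1 + q * (A + ε))) with hc
  have hX0 : 0 < X := by linarith
  have hq0 : 0 ≤ q := by linarith
  have piece : ∀ Y : ℝ, 2 ≤ Y → Y ≤ 2 * X → ∫⁻ t in Icc Y (2 * Y), G t ≤ c := by
    intro Y hY hYX
    rcases lt_or_ge (2 * Y) (Real.exp w) with hlt | hge
    · calc ∫⁻ t in Icc Y (2 * Y), G t ≤ ∫⁻ t in Icc Y (2 * Y), 0 := by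
            refine setLIntegral_mono' measurableSet_Icc fun t ht => ?_
            rw [hG, indicator_of_notMem]
            rw [mem_Ici, not_le]
            exact ht.2.trans_lt hlt
        _ ≤ c := by simp
    · have hN : (1 : ℝ) ≤ Real.exp w := Real.one_le_exp hw
      have h1 := hu Y (Real.exp w) hY hN (by rw [Real.rpow_one]; linarith)
      rw [Real.log_exp] at h1
      set m := min 1 (Real.exp (B * w) / X) with hm
      have hm0 : 0 ≤ m := by positivity
      calc ∫⁻ t in Icc Y (2 * Y), G t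
          ≤ ∫⁻ t in Icc Y (2 * Y), ENNReal.ofReal (m ^ q) * ‖zsum (Real.exp w) t‖ₑ ^ q := by
            refine lintegral_mono fun t => (indicator_le_self _ _ _).trans (le_of_eq ?_)
            show (ENNReal.ofReal m * ‖zs w t‖ₑ) ^ q = _
            rw [ENNReal.mul_rpow_of_nonneg _ _ hq0, ENNReal.ofReal_rpow_of_nonneg hm0 hq0]
            rfl
        _ = ENNReal.ofReal (m ^ q) * mm q Y (zsum (Real.exp w)) :=
            lintegral_const_mul' _ _ ENNReal.ofReal_ne_top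
        _ ≤ ENNReal.ofReal (m ^ q) * ENNReal.ofReal (C * Y ^ (1 + q *
            (A + max 0 (1 - B * (w / Real.log Y)) + ε))) := by gcongr
        _ ≤ c := by
            rw [← ENNReal.ofReal_mul (by positivity)]
            exact ENNReal.ofReal_le_ofReal (num hq hA hε hC hX0 hY hYX)
  calc ∫⁻ t, (S X).indicator (fun p => φ B X p ^ q) (w, t)
      ≤ ∫⁻ t, (Icc (X / 2) (4 * X)).indicator G t := by
        refine lintegral_mono fun t => ?_
        by_cases hs : (w, t) ∈ S X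
        · rw [indicator_of_mem hs,
            indicator_of_mem (show t ∈ Icc (X / 2) (4 * X) from ⟨hs.2.2.1, hs.2.2.2⟩), hG,
            indicator_of_mem (show t ∈ Ici (Real.exp w) from hs.2.1)]
        · rw [indicator_of_notMem hs]
          exact zero_le
    _ = ∫⁻ t in Icc (X / 2) (4 * X), G t := lintegral_indicator measurableSet_Icc _
    _ ≤ ∫⁻ t in (Icc (X / 2) (2 * (X / 2)) ∪ Icc X (2 * X)) ∪ Icc (2 * X) (2 * (2 * X)), G t := by
        refine lintegral_mono_set fun t ht => ?_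
        rcases le_total t X with h | h
        · exact Or.inl (Or.inl ⟨ht.1, by linarith⟩)
        · rcases le_total t (2 * X) with h' | h'
          · exact Or.inl (Or.inr ⟨h, h'⟩)
          · exact Or.inr ⟨h', by linarith [ht.2]⟩
    _ ≤ (c + c) + c := by
        refine (lintegral_union_le _ _ _).trans (add_le_add ((lintegral_union_le _ _ _).trans
          (add_le_add ?_ ?_)) ?_)
        · exact piece _ (by linarith) (by linarith)
        · exact piece _ (by linarith) (by linarith)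
        · exact piece _ (by linarith) le_rfl
    _ = 3 * c := by ring

theorem pw_le {x q : ℝ} (hx : 0 ≤ x) : x ^ (q - 1) * x ≤ x ^ q := by
  rcases hx.eq_or_lt with h | h
  · rw [← h, mul_zero]
    exact Real.rpow_nonneg le_rfl _
  · refine le_of_eq ?_
    nth_rewrite 2 [← Real.rpow_one x]
    rw [← Real.rpow_add h]
    congr 1
    ring

/-- the final constants -/
theorem fin_real {q A ε C₁ C κ : ℝ} (hq : 1 ≤ q) (hA : 0 ≤ A) (hε : 0 < ε) (hC₁ : 0 ≤ C₁)
    (hC : 0 ≤ C) (hκ : 0 ≤ κ) : ∃ D : ℝ, 0 ≤ D ∧ ∀ X : ℝ, 4 ≤ X →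
      2 ^ (q - 1) * (C₁ * (2 * X) ^ ε) ^ q * X +
        2 ^ (q - 1) * C₁ ^ q * (κ * Real.log (4 * X)) ^ (q - 1) *
          (κ * (3 * (C * 2 ^ q * (2 * X) ^ (1 + q * (A + ε))) * Real.log (4 * X))) ≤
        D * X ^ (1 + q * (A + 2 * ε)) := by
  have hq0 : 0 ≤ q := by linarith
  refine ⟨2 ^ (q - 1) * C₁ ^ q * 2 ^ (ε * q) + 2 ^ (q - 1) * C₁ ^ q * (κ * (4 ^ ε / ε)) ^ q *
    (3 * C * 2 ^ q * 2 ^ (1 + q * (A + ε))), by positivity, fun X hX => ?_⟩
  have hX0 : 0 < X := by linarith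
  have hX1 : 1 ≤ X := by linarith
  set L := Real.log (4 * X) with hL
  have hL0 : 0 ≤ L := Real.log_nonneg (by linarith)
  have hLX : L ≤ 4 ^ ε / ε * X ^ ε := by
    calc L ≤ (4 * X) ^ ε / ε := Real.log_le_rpow_div (by positivity) hε
      _ = 4 ^ ε / ε * X ^ ε := by
          rw [Real.mul_rpow (by norm_num) hX0.le]
          ring
  have e1 : (C₁ * (2 * X) ^ ε) ^ q * X ≤ C₁ ^ q * 2 ^ (ε * q) * X ^ (1 + q * (A + 2 * ε)) := by
    rw [Real.mul_rpow hC₁ (by positivity), ← Real.rpow_mul (by positivity),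
      Real.mul_rpow (by norm_num) hX0.le]
    have h1 : X ^ (ε * q) * X ≤ X ^ (1 + q * (A + 2 * ε)) := by
      nth_rewrite 2 [← Real.rpow_one X]
      rw [← Real.rpow_add hX0]
      refine Real.rpow_le_rpow_of_exponent_le hX1 ?_
      nlinarith [mul_nonneg hq0 hA, mul_nonneg hq0 hε.le]
    calc C₁ ^ q * (2 ^ (ε * q) * X ^ (ε * q)) * X = C₁ ^ q * 2 ^ (ε * q) * (X ^ (ε * q) * X) := by
          ring
      _ ≤ _ := by gcongr
  have e2 : (κ * L) ^ (q - 1) * (κ * L) ≤ (κ * (4 ^ ε / ε)) ^ q * X ^ (q * ε) := by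
    calc (κ * L) ^ (q - 1) * (κ * L) ≤ (κ * L) ^ q := pw_le (by positivity)
      _ ≤ (κ * (4 ^ ε / ε * X ^ ε)) ^ q := by gcongr
      _ = (κ * (4 ^ ε / ε)) ^ q * X ^ (q * ε) := by
          rw [← mul_assoc, Real.mul_rpow (by positivity) (by positivity),
            ← Real.rpow_mul hX0.le, mul_comm ε q]
  have e3 : X ^ (q * ε) * (2 * X) ^ (1 + q * (A + ε)) =
      2 ^ (1 + q * (A + ε)) * X ^ (1 + q * (A + 2 * ε)) := by
    rw [Real.mul_rpow (by norm_num) hX0.le]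
    have h1 : X ^ (1 + q * (A + 2 * ε)) = X ^ (q * ε) * X ^ (1 + q * (A + ε)) := by
      rw [← Real.rpow_add hX0]
      congr 1
      ring
    rw [h1]
    ring
  have e4 : (κ * L) ^ (q - 1) * (κ * (3 * (C * 2 ^ q * (2 * X) ^ (1 + q * (A + ε))) * L)) ≤
      (κ * (4 ^ ε / ε)) ^ q * (3 * C * 2 ^ q * 2 ^ (1 + q * (A + ε))) *
        X ^ (1 + q * (A + 2 * ε)) := by
    calc (κ * L) ^ (q - 1) * (κ * (3 * (C * 2 ^ q * (2 * X) ^ (1 + q * (A + ε))) * L))
        = ((κ * L) ^ (q - 1) * (κ * L)) * (3 * (C * 2 ^ q * (2 * X) ^ (1 + q * (A + ε)))) := by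
          ring
      _ ≤ ((κ * (4 ^ ε / ε)) ^ q * X ^ (q * ε)) *
          (3 * (C * 2 ^ q * (2 * X) ^ (1 + q * (A + ε)))) := by gcongr
      _ = (κ * (4 ^ ε / ε)) ^ q * (3 * C * 2 ^ q) *
          (X ^ (q * ε) * (2 * X) ^ (1 + q * (A + ε))) := by ring
      _ = _ := by
          rw [e3]
          ring
  calc 2 ^ (q - 1) * (C₁ * (2 * X) ^ ε) ^ q * X + 2 ^ (q - 1) * C₁ ^ q * (κ * L) ^ (q - 1) *
          (κ * (3 * (C * 2 ^ q * (2 * X) ^ (1 + q * (A + ε))) * L))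
      = 2 ^ (q - 1) * ((C₁ * (2 * X) ^ ε) ^ q * X) + 2 ^ (q - 1) * C₁ ^ q *
        ((κ * L) ^ (q - 1) * (κ * (3 * (C * 2 ^ q * (2 * X) ^ (1 + q * (A + ε))) * L))) := by
        ring
    _ ≤ 2 ^ (q - 1) * (C₁ ^ q * 2 ^ (ε * q) * X ^ (1 + q * (A + 2 * ε))) +
        2 ^ (q - 1) * C₁ ^ q * ((κ * (4 ^ ε / ε)) ^ q *
          (3 * C * 2 ^ q * 2 ^ (1 + q * (A + ε))) * X ^ (1 + q * (A + 2 * ε))) := by gcongr
    _ = _ := by ring

theorem conv {q C₁ κ L X u v : ℝ} (hq : 1 ≤ q) (hu : 0 ≤ u) (hC : 0 ≤ C₁) (hκ : 0 ≤ κ)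
    (hL : 0 ≤ L) (hX : 0 ≤ X) (hv : 0 ≤ v) :
    2 ^ (q - 1) * (ENNReal.ofReal u) ^ q * ENNReal.ofReal X +
      2 ^ (q - 1) * ENNReal.ofReal C₁ ^ q * (ENNReal.ofReal κ * ENNReal.ofReal L) ^ (q - 1) *
        (ENNReal.ofReal κ * (3 * ENNReal.ofReal v * ENNReal.ofReal L)) =
    ENNReal.ofReal (2 ^ (q - 1) * u ^ q * X +
      2 ^ (q - 1) * C₁ ^ q * (κ * L) ^ (q - 1) * (κ * (3 * v * L))) := by
  have hq0 : 0 ≤ q := by linarith
  have hq1 : 0 ≤ q - 1 := by linarith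
  have h2 : ENNReal.ofReal ((2 : ℝ) ^ (q - 1)) = 2 ^ (q - 1) := by
    rw [← ENNReal.ofReal_rpow_of_nonneg (by norm_num) hq1, ENNReal.ofReal_ofNat]
  have h3 : ENNReal.ofReal (κ * (3 * v * L)) =
      ENNReal.ofReal κ * (3 * ENNReal.ofReal v * ENNReal.ofReal L) := by
    rw [ENNReal.ofReal_mul hκ, ENNReal.ofReal_mul (by positivity),
      ENNReal.ofReal_mul (by norm_num), ENNReal.ofReal_ofNat]
  have h4 : ENNReal.ofReal ((κ * L) ^ (q - 1)) =
      (ENNReal.ofReal κ * ENNReal.ofReal L) ^ (q - 1) := by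
    rw [← ENNReal.ofReal_rpow_of_nonneg (by positivity) hq1, ENNReal.ofReal_mul hκ]
  have h5 : ENNReal.ofReal (C₁ ^ q) = ENNReal.ofReal C₁ ^ q :=
    (ENNReal.ofReal_rpow_of_nonneg hC hq0).symm
  have h6 : ENNReal.ofReal (u ^ q) = ENNReal.ofReal u ^ q :=
    (ENNReal.ofReal_rpow_of_nonneg hu hq0).symm
  rw [ENNReal.ofReal_add (by positivity) (by positivity),
    ENNReal.ofReal_mul (p := 2 ^ (q - 1) * u ^ q) (by positivity),
    ENNReal.ofReal_mul (p := 2 ^ (q - 1)) (q := u ^ q) (by positivity),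
    ENNReal.ofReal_mul (p := 2 ^ (q - 1) * C₁ ^ q * (κ * L) ^ (q - 1)) (by positivity),
    ENNReal.ofReal_mul (p := 2 ^ (q - 1) * C₁ ^ q) (by positivity),
    ENNReal.ofReal_mul (p := 2 ^ (q - 1)) (q := C₁ ^ q) (by positivity), h2, h3, h4, h5, h6]

/-- the bound by the average on `S` -/
theorem ptw {B τ ε C X T : ℝ} (hε : 0 < ε) (hX : 4 ≤ X) (hT : T ∈ Icc X (2 * X))
    (h : ‖Dl B T‖ₑ ≤ ENNReal.ofReal (C * T ^ ε) + ENNReal.ofReal C * ∫⁻ p in RR T,
      ENNReal.ofReal (min 1 (Real.exp (B * p.1) / T) * Real.exp (-(τ * |p.2 - T|))) *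
        ‖zs p.1 p.2‖ₑ) :
    ‖Dl B T‖ₑ ≤ ENNReal.ofReal (|C| * (2 * X) ^ ε) +
      ENNReal.ofReal |C| * ∫⁻ p in S X, k τ T p * φ B X p := by
  have hX0 : 0 < X := by linarith
  have hT0 : 0 < T := by linarith [hT.1]
  refine h.trans (add_le_add (ENNReal.ofReal_le_ofReal ?_) (mul_le_mul' ?_ ?_))
  · have h1 : T ^ ε ≤ (2 * X) ^ ε := Real.rpow_le_rpow hT0.le hT.2 hε.le
    have h2 := le_abs_self C
    calc C * T ^ ε ≤ |C| * T ^ ε := by gcongr
      _ ≤ |C| * (2 * X) ^ ε := by gcongr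
  · exact ENNReal.ofReal_le_ofReal (le_abs_self C)
  · calc ∫⁻ p in RR T,
        ENNReal.ofReal (min 1 (Real.exp (B * p.1) / T) * Real.exp (-(τ * |p.2 - T|))) *
        ‖zs p.1 p.2‖ₑ ≤ ∫⁻ p in RR T, k τ T p * φ B X p := by
          refine lintegral_mono fun p => ?_
          unfold k φ
          rw [ENNReal.ofReal_mul (by positivity), mul_comm (ENNReal.ofReal (min 1 _)), mul_assoc]
          gcongr
          exact hT.1
      _ ≤ ∫⁻ p in S X, k τ T p * φ B X p := by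
          refine lintegral_mono_set fun p hp => ⟨hp.1, hp.2.1, ?_, ?_⟩
          · linarith [hp.2.2.1, hT.1]
          · linarith [hp.2.2.2, hT.2]

/-- the mean of the average -/
theorem mean {B τ X q : ℝ} (hJ : T_JEN) (hc : Continuous fun p : ℝ × ℝ => zs p.1 p.2)
    (hq : 1 ≤ q) (hX : 0 < X) (T : ℝ) :
    (∫⁻ p in S X, k τ T p * φ B X p) ^ q ≤
      (Kt τ * ENNReal.ofReal (Real.log (4 * X))) ^ (q - 1) *
        ∫⁻ p in S X, k τ T p * φ B X p ^ q := by
  refine (hJ (volume.restrict (S X)) q (k τ T) (φ B X) hq (k_meas τ T).aemeasurable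
    (φ_meas hc B X).aemeasurable).trans ?_
  gcongr
  exact k_S hX T

theorem swap {B τ X q : ℝ} (hc : Continuous fun p : ℝ × ℝ => zs p.1 p.2) :
    ∫⁻ T in Icc X (2 * X), ∫⁻ p in S X, k τ T p * φ B X p ^ q ≤
      Kt τ * ∫⁻ p in S X, φ B X p ^ q := by
  have hm : Measurable fun x : ℝ × (ℝ × ℝ) => k τ x.1 x.2 * φ B X x.2 ^ q :=
    (k_meas2 τ).mul (((φ_meas hc B X).comp measurable_snd).pow_const q)
  rw [lintegral_lintegral_swap hm.aemeasurable]
  calc ∫⁻ p in S X, ∫⁻ T in Icc X (2 * X), k τ T p * φ B X p ^ q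
      ≤ ∫⁻ p in S X, Kt τ * φ B X p ^ q := by
        refine lintegral_mono fun p => ?_
        have h1 : Measurable fun T => k τ T p := (k_meas2 τ).comp measurable_prodMk_right
        rw [lintegral_mul_const _ h1, ← k_int2 τ p]
        gcongr
        exact Measure.restrict_le_self
    _ = Kt τ * ∫⁻ p in S X, φ B X p ^ q :=
        lintegral_const_mul _ ((φ_meas hc B X).pow_const q)

end GSBQ_

open GSBQ_ in
/-- GSBQ. -/
theorem p_GSBQ (h_GBI : T_GBI) (h_JEN : T_JEN) (h_CON : T_CON) (h_UNIQ : T_UNIQ) : T_GSBQ := by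
  intro q B A hq hB hA hsum ε₀ hε₀
  obtain ⟨τ, hτ, hg⟩ := h_GBI B hB
  set ε := ε₀ / 2 with hε
  have hε0 : 0 < ε := by positivity
  have hq0 : 0 ≤ q := by linarith
  obtain ⟨Cg, hCg⟩ := hg ε hε0
  have hα : Continuous fun b : ℝ => A + max 0 (1 - B * b) := by fun_prop
  obtain ⟨Cu, hCu⟩ := h_UNIQ q 1 (fun b => A + max 0 (1 - B * b)) hq one_pos le_rfl hα hsum ε hε0
  have hu : ∀ X N : ℝ, 2 ≤ X → 1 ≤ N → N ≤ 3 * X ^ (1 : ℝ) →
      mm q X (zsum N) ≤ ENNReal.ofReal (|Cu| * X ^ (1 + q *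
        (A + max 0 (1 - B * (Real.log N / Real.log X)) + ε))) := by
    intro X N hX hN1 hN2
    refine (hCu X N hX hN1 hN2).trans (ENNReal.ofReal_le_ofReal ?_)
    have : 0 ≤ X ^ (1 + q * (A + max 0 (1 - B * (Real.log N / Real.log X)) + ε)) := by
      positivity
    exact mul_le_mul_of_nonneg_right (le_abs_self _) this
  set κ := (Kt τ).toReal with hκ
  have hκ0 : 0 ≤ κ := ENNReal.toReal_nonneg
  have hKκ : Kt τ = ENNReal.ofReal κ := (ENNReal.ofReal_toReal (Kt_lt hτ).ne).symm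
  obtain ⟨D, hD, hfin⟩ := fin_real hq hA hε0 (abs_nonneg Cg) (abs_nonneg Cu) hκ0
  obtain ⟨C₀, hC₀⟩ := TRF_mid p_SMA B hB 8
  refine ⟨D + |C₀| ^ q * 4, fun X hX => ?_⟩
  have hX0 : 0 < X := by linarith
  have hE : 1 + q * (A + 2 * ε) = 1 + q * (A + ε₀) := by rw [hε]; ring
  have hXe : 1 ≤ X ^ (1 + q * (A + ε₀)) := Real.one_le_rpow hX (by positivity)
  rcases le_total 4 X with h4 | h4
  · have hL0 : 0 ≤ Real.log (4 * X) := Real.log_nonneg (by linarith)
    set I : ℝ → ℝ≥0∞ := fun T => ∫⁻ p in S X, k τ T p * φ B X p ^ q with hI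
    set a : ℝ≥0∞ := ENNReal.ofReal (|Cg| * (2 * X) ^ ε) with ha
    set c : ℝ≥0∞ := ENNReal.ofReal |Cg| with hc
    set M : ℝ≥0∞ := Kt τ * ENNReal.ofReal (Real.log (4 * X)) with hM
    have hptw : ∀ T ∈ Icc X (2 * X), ‖Dl B T‖ₑ ^ q ≤
        2 ^ (q - 1) * a ^ q + 2 ^ (q - 1) * c ^ q * M ^ (q - 1) * I T := by
      intro T hT
      have h1 := ptw hε0 h4 hT (hCg T (by linarith [hT.1]))
      calc ‖Dl B T‖ₑ ^ q ≤ (a + c * ∫⁻ p in S X, k τ T p * φ B X p) ^ q :=
            ENNReal.rpow_le_rpow h1 hq0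
        _ ≤ 2 ^ (q - 1) * (a ^ q + (c * ∫⁻ p in S X, k τ T p * φ B X p) ^ q) :=
            ENNReal.rpow_add_le_mul_rpow_add_rpow _ _ hq
        _ = 2 ^ (q - 1) * (a ^ q + c ^ q * (∫⁻ p in S X, k τ T p * φ B X p) ^ q) := by
            rw [ENNReal.mul_rpow_of_nonneg _ _ hq0]
        _ ≤ 2 ^ (q - 1) * (a ^ q + c ^ q * (M ^ (q - 1) * I T)) := by
            gcongr
            exact mean h_JEN h_CON hq hX0 T
        _ = _ := by ring
    have hsl : ∫⁻ p in S X, φ B X p ^ q ≤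
        3 * ENNReal.ofReal (|Cu| * 2 ^ q * (2 * X) ^ (1 + q * (A + ε))) *
          ENNReal.ofReal (Real.log (4 * X)) :=
      fub hX0 ((φ_meas h_CON B X).pow_const q) fun w hw =>
        slice hq hA hε0 (abs_nonneg Cu) hu h4 hw
    calc mm q X (Dl B) ≤ ∫⁻ T in Icc X (2 * X), (2 ^ (q - 1) * a ^ q +
          2 ^ (q - 1) * c ^ q * M ^ (q - 1) * I T) :=
          setLIntegral_mono' measurableSet_Icc hptw
      _ = 2 ^ (q - 1) * a ^ q * ENNReal.ofReal X +
          2 ^ (q - 1) * c ^ q * M ^ (q - 1) * ∫⁻ T in Icc X (2 * X), I T := by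
          rw [lintegral_add_left measurable_const, setLIntegral_const, Real.volume_Icc,
            lintegral_const_mul']
          · congr 3
            ring
          · refine ENNReal.mul_ne_top (ENNReal.mul_ne_top ?_ ?_) ?_
            · exact (ENNReal.rpow_lt_top_of_nonneg (by linarith) (by simp)).ne
            · exact (ENNReal.rpow_lt_top_of_nonneg hq0 ENNReal.ofReal_ne_top).ne
            · exact (ENNReal.rpow_lt_top_of_nonneg (by linarith)
                (ENNReal.mul_ne_top (Kt_lt hτ).ne ENNReal.ofReal_ne_top)).ne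
      _ ≤ 2 ^ (q - 1) * a ^ q * ENNReal.ofReal X +
          2 ^ (q - 1) * c ^ q * M ^ (q - 1) * (Kt τ *
            (3 * ENNReal.ofReal (|Cu| * 2 ^ q * (2 * X) ^ (1 + q * (A + ε))) *
              ENNReal.ofReal (Real.log (4 * X)))) := by
          gcongr
          exact (swap h_CON).trans (by gcongr)
      _ = ENNReal.ofReal (2 ^ (q - 1) * (|Cg| * (2 * X) ^ ε) ^ q * X +
          2 ^ (q - 1) * |Cg| ^ q * (κ * Real.log (4 * X)) ^ (q - 1) *
          (κ * (3 * (|Cu| * 2 ^ q * (2 * X) ^ (1 + q * (A + ε))) * Real.log (4 * X)))) := by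
          rw [ha, hc, hM, hKκ]
          exact conv hq (by positivity) (abs_nonneg _) hκ0 hL0 hX0.le (by positivity)
      _ ≤ ENNReal.ofReal ((D + |C₀| ^ q * 4) * X ^ (1 + q * (A + ε₀))) := by
          refine ENNReal.ofReal_le_ofReal ((hfin X h4).trans ?_)
          rw [hE, add_mul]
          have : 0 ≤ |C₀| ^ q * 4 * X ^ (1 + q * (A + ε₀)) := by positivity
          linarith
  · calc mm q X (Dl B) ≤ ∫⁻ T in Icc X (2 * X), ENNReal.ofReal (|C₀| ^ q) := by
          refine setLIntegral_mono' measurableSet_Icc fun T hT => ?_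
          have h1 : ‖Dl B T‖ ≤ |C₀| :=
            (hC₀ T (by rw [abs_of_nonneg (by linarith [hT.1])]; linarith [hT.2])).trans
              (le_abs_self _)
          rw [← ofReal_norm, ENNReal.ofReal_rpow_of_nonneg (norm_nonneg _) hq0]
          exact ENNReal.ofReal_le_ofReal (Real.rpow_le_rpow (norm_nonneg _) h1 hq0)
      _ = ENNReal.ofReal (|C₀| ^ q * X) := by
          rw [setLIntegral_const, Real.volume_Icc, ENNReal.ofReal_mul (by positivity)]
          congr 2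
          ring
      _ ≤ ENNReal.ofReal ((D + |C₀| ^ q * 4) * X ^ (1 + q * (A + ε₀))) := by
          refine ENNReal.ofReal_le_ofReal ?_
          have h5 : 0 ≤ |C₀| ^ q := by positivity
          calc |C₀| ^ q * X ≤ |C₀| ^ q * 4 := by gcongr
            _ ≤ (D + |C₀| ^ q * 4) * 1 := by linarith
            _ ≤ _ := by gcongr

end Pool.Agent.PertQ
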