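import Pool.Agent.PertQ.Targets
import Pool.Agent.PertZ.GSF

/-!
# GSFI: from the mean to the smoothed sums, pointwise with the integral
-/

set_option autoImplicit false

namespace Pool.Agent.PertQ

open MeasureTheory Set Filter Topology Complex Pool.Agent.CW Pool.Agent.DBN Pool.Agent.PertZ
open scoped ENNReal

namespace GSFI_

/-- the first absolute moment of the Gaussian -/
noncomputable def K : ℝ≥0∞ := ∫⁻ x : ℝ, ‖x * Real.exp (-1 * x ^ 2)‖ₑ

theorem K_lt : K < ⊤ := (integrable_mul_exp_neg_mul_sq (b := 1) one_pos).hasFiniteIntegral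

/-- the integral on the right side -/
noncomputable def J (B T : ℝ) : ℝ≥0∞ :=
  ∫⁻ v in Icc (T / 2) (2 * T), ENNReal.ofReal (Real.exp (-(v - T) ^ 2)) * ‖Dl B v‖ₑ

theorem gauss_le (T : ℝ) (S : Set ℝ) :
    ∫⁻ v in S, ENNReal.ofReal (Real.exp (-(v - T) ^ 2) * |v - T|) ≤ K := by
  refine (setLIntegral_le_lintegral _ _).trans ?_
  have h1 : ∀ v : ℝ, ENNReal.ofReal (Real.exp (-(v - T) ^ 2) * |v - T|) =
      ‖(v - T) * Real.exp (-1 * (v - T) ^ 2)‖ₑ := by
    intro v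
    rw [Real.enorm_eq_ofReal_abs, abs_mul, Real.abs_exp, mul_comm, neg_one_mul]
  simp only [h1]
  rw [lintegral_sub_right_eq_self (fun x : ℝ => ‖x * Real.exp (-1 * x ^ 2)‖ₑ) T]
  exact le_rfl

/-- the interval integral -/
theorem int_le {B T : ℝ} (hT : 0 ≤ T) {Cs : ℝ} (hCs : 0 ≤ Cs) (F : ℝ → ℂ)
    (hF : ∀ v, T / 2 ≤ v → v ≤ 2 * T → ‖F v‖ ≤ ‖Dl B v‖ + Cs * |v - T|) :
    ENNReal.ofReal (∫ v in (T / 2)..(2 * T), Real.exp (-(v - T) ^ 2) * ‖F v‖) ≤
      J B T + ENNReal.ofReal Cs * K := by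
  rw [intervalIntegral.integral_of_le (by linarith)]
  have h0 : 0 ≤ ∫ v in Ioc (T / 2) (2 * T), Real.exp (-(v - T) ^ 2) * ‖F v‖ :=
    integral_nonneg fun v => by positivity
  have h1 := enorm_integral_le_lintegral_enorm (μ := volume.restrict (Ioc (T / 2) (2 * T)))
    (fun v => Real.exp (-(v - T) ^ 2) * ‖F v‖)
  rw [Real.enorm_eq_ofReal h0] at h1
  refine h1.trans ?_
  have h2 : ∫⁻ v in Ioc (T / 2) (2 * T), ‖Real.exp (-(v - T) ^ 2) * ‖F v‖‖ₑ ≤
      ∫⁻ v in Icc (T / 2) (2 * T), ‖Real.exp (-(v - T) ^ 2) * ‖F v‖‖ₑ :=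
    lintegral_mono_set Ioc_subset_Icc_self
  refine h2.trans ?_
  have h3 : ∫⁻ v in Icc (T / 2) (2 * T), ‖Real.exp (-(v - T) ^ 2) * ‖F v‖‖ₑ ≤
      ∫⁻ v in Icc (T / 2) (2 * T), (ENNReal.ofReal (Real.exp (-(v - T) ^ 2)) * ‖Dl B v‖ₑ +
        ENNReal.ofReal Cs * ENNReal.ofReal (Real.exp (-(v - T) ^ 2) * |v - T|)) := by
    refine setLIntegral_mono' measurableSet_Icc fun v hv => ?_
    rw [Real.enorm_eq_ofReal (by positivity), ← ofReal_norm,
      ← ENNReal.ofReal_mul (by positivity), ← ENNReal.ofReal_mul hCs,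
      ← ENNReal.ofReal_add (by positivity) (by positivity)]
    refine ENNReal.ofReal_le_ofReal ?_
    have h4 := mul_le_mul_of_nonneg_left (hF v hv.1 hv.2) (Real.exp_nonneg (-(v - T) ^ 2))
    linarith
  refine h3.trans ?_
  have hm : Measurable fun v : ℝ =>
      ENNReal.ofReal (Real.exp (-(v - T) ^ 2) * |v - T|) := by fun_prop
  rw [lintegral_add_right _ (hm.const_mul _), lintegral_const_mul _ hm]
  exact add_le_add le_rfl (mul_le_mul_right (gauss_le T _) _)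

/-- the main bound -/
theorem main (hG : T_BLGI) (hZ : P_ZST) {B : ℝ} (hB : 1 / 2 < B) (b : ℝ) :
    ∃ C : ℝ, 0 ≤ C ∧ ∀ T N : ℝ, 2 ≤ T → 0 < N → N ≤ T ^ 2 →
      ‖∑' n : ℕ, TRF_a B (((1 / 2 : ℝ) : ℂ) + T * I) n *
        (n : ℂ) ^ (-(((1 / 2 : ℝ) : ℂ) + T * I)) * ((gw b N n : ℝ) : ℂ)‖ₑ ≤
        ENNReal.ofReal C * (1 + J B T) := by
  obtain ⟨Cb, hCb0, hCb⟩ := hG b 0 1 zero_lt_one
  obtain ⟨Cz, hCz⟩ := hZ.2.1 (1 / 2) (by norm_num)
  set Cs : ℝ := ∑' n : ℕ, (n : ℝ) ^ (-(1 / 2 + B)) with hCs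
  have hCs0 : 0 ≤ Cs := tsum_nonneg fun n => Real.rpow_nonneg (Nat.cast_nonneg _) _
  set L : ℝ := ∑' n : ℕ, ‖one' n‖ * (n : ℝ) ^ (-(1 / 2 + 1 : ℝ)) with hLd
  have hL0 : 0 ≤ L := tsum_nonneg fun n => by positivity
  set D : ℝ := |Cz| * 3 + 2 * Cs with hD
  have hD0 : 0 ≤ D := by positivity
  have hK0 : 0 ≤ K.toReal := ENNReal.toReal_nonneg
  refine ⟨Cb * (1 + Cs * K.toReal + 256 * (L + D)), by positivity, ?_⟩
  intro T N hT hN hNT
  have hT0 : 0 < T := by linarith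
  have hT1 : 1 ≤ T := by linarith
  obtain ⟨s, hs⟩ : ∃ s : ℂ, s = ((1 / 2 : ℝ) : ℂ) + T * I := ⟨_, rfl⟩
  rw [← hs]
  have hsre : s.re = 1 / 2 := by simp [hs]
  have hs0 : 0 ≤ s.re := by rw [hsre]; norm_num
  have hsn : ‖s‖ ≤ 2 * T := by
    calc ‖s‖ ≤ ‖((1 / 2 : ℝ) : ℂ)‖ + ‖(T * I : ℂ)‖ := by
          rw [hs]
          exact norm_add_le _ _
      _ ≤ 2 * T := by
        rw [norm_mul, Complex.norm_I, mul_one, Complex.norm_real, Complex.norm_real,
          Real.norm_eq_abs, Real.norm_eq_abs, abs_of_pos hT0, abs_of_pos (by norm_num)]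
        linarith
  set K' : ℝ := D * T with hK'
  have hK'0 : 0 ≤ K' := by positivity
  have ha0 : TRF_a B s 0 = 0 := by simp [TRF_a, one']
  have hterm : ∀ n : ℕ, ‖TRF_a B s n‖ * (n : ℝ) ^ (-(1 / 2 + 1 : ℝ)) ≤
      ‖one' n‖ * (n : ℝ) ^ (-(1 / 2 + 1 : ℝ)) := by
    intro n
    refine mul_le_mul_of_nonneg_right ?_ (Real.rpow_nonneg (Nat.cast_nonneg _) _)
    unfold TRF_a
    rw [norm_mul]
    exact mul_le_of_le_one_right (norm_nonneg _) (TRF_quot B n hs0)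
  have hsum2 := SBD_.summ (p := 1 / 2 + 1) (by norm_num)
  have hsum : Summable (fun n : ℕ => ‖TRF_a B s n‖ * (n : ℝ) ^ (-(1 / 2 + 1 : ℝ))) :=
    Summable.of_nonneg_of_le (fun n => by positivity) hterm hsum2
  have h1 := hCb (TRF_a B s) (1 / 2) L K' T N
    (fun z => riemannZeta z - s * TRF_g B s z) hT hN hK'0 ha0 hsum
    (hsum.tsum_le_tsum hterm hsum2) ?_ ?_
  · rw [← hs] at h1
    rw [Real.rpow_zero, Real.rpow_one, one_mul] at h1
    have hI := int_le (B := B) hT0.le hCs0 (fun v : ℝ =>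
      riemannZeta (((1 / 2 + 0 : ℝ) : ℂ) + v * I) -
        s * TRF_g B s (((1 / 2 + 0 : ℝ) : ℂ) + v * I)) ?_
    · set W : ℝ := ∫ v in (T / 2)..(2 * T), Real.exp (-(v - T) ^ 2) *
        ‖riemannZeta (((1 / 2 + 0 : ℝ) : ℂ) + v * I) -
          s * TRF_g B s (((1 / 2 + 0 : ℝ) : ℂ) + v * I)‖ with hW
      have hW0 : 0 ≤ W := by
        rw [hW]
        exact intervalIntegral.integral_nonneg (by linarith) fun v _ => by positivity
      have e2 : (1 + N) * (L + K') * Real.exp (-T ^ 2 / 8) ≤ 256 * (L + D) := by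
        have e3 : L + K' ≤ (L + D) * T := by
          rw [hK']
          nlinarith
        have e4 : 1 + N ≤ 2 * T ^ 2 := by nlinarith
        calc (1 + N) * (L + K') * Real.exp (-T ^ 2 / 8)
            ≤ (2 * T ^ 2) * ((L + D) * T) * Real.exp (-T ^ 2 / 8) := by gcongr
          _ = 2 * (L + D) * (T ^ 3 * Real.exp (-T ^ 2 / 8)) := by ring
          _ ≤ 2 * (L + D) * 128 := by
            gcongr
            exact GSF_exp hT1
          _ = _ := by ring
      have h2 : ‖∑' n : ℕ, TRF_a B s n * (n : ℂ) ^ (-s) * ((gw b N n : ℝ) : ℂ)‖ ≤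
          Cb * (W + 256 * (L + D)) :=
        h1.trans (mul_le_mul_of_nonneg_left (by linarith) hCb0.le)
      rw [← ofReal_norm]
      refine (ENNReal.ofReal_le_ofReal h2).trans ?_
      rw [ENNReal.ofReal_mul hCb0.le, ENNReal.ofReal_mul hCb0.le, mul_assoc,
        ENNReal.ofReal_add hW0 (by positivity)]
      refine mul_le_mul_right ?_ _
      have hKr : K = ENNReal.ofReal K.toReal := (ENNReal.ofReal_toReal K_lt.ne).symm
      rw [ENNReal.ofReal_add (by positivity) (by positivity),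
        ENNReal.ofReal_add (by positivity) (by positivity), ENNReal.ofReal_mul hCs0,
        ENNReal.ofReal_one, ← hKr]
      calc ENNReal.ofReal W + ENNReal.ofReal (256 * (L + D))
          ≤ (J B T + ENNReal.ofReal Cs * K) + ENNReal.ofReal (256 * (L + D)) :=
            add_le_add hI le_rfl
        _ ≤ (J B T + ENNReal.ofReal Cs * K) + ENNReal.ofReal (256 * (L + D)) +
            (1 + ENNReal.ofReal Cs * K * J B T + ENNReal.ofReal (256 * (L + D)) * J B T) :=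
            le_self_add
        _ = _ := by ring
    · intro v h1 h2
      have hz0 : (((1 / 2 + 0 : ℝ) : ℂ) + v * I) = 1 / 2 + v * I := by
        push_cast
        ring
      rw [hz0]
      have hzre : (1 / 2 + v * I : ℂ).re = 1 / 2 := by simp
      have e2 : riemannZeta (1 / 2 + v * I) - Sm one' B (1 / 2 + v * I) = Dl B v := rfl
      have e4 := TRF_diff hB (s := s) (z := 1 / 2 + v * I) hs0 (by rw [hzre])
      have e3 : ‖(1 / 2 + v * I) - s‖ = |v - T| := by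
        have h5 : (1 / 2 + v * I) - s = ((v - T : ℝ) : ℂ) * I := by
          rw [hs]
          push_cast
          ring
        rw [h5, norm_mul, Complex.norm_I, mul_one, Complex.norm_real, Real.norm_eq_abs]
      rw [e3] at e4
      calc ‖riemannZeta (1 / 2 + v * I) - s * TRF_g B s (1 / 2 + v * I)‖
          = ‖(riemannZeta (1 / 2 + v * I) - Sm one' B (1 / 2 + v * I)) +
            (Sm one' B (1 / 2 + v * I) - s * TRF_g B s (1 / 2 + v * I))‖ := by
            congr 1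
            ring
        _ ≤ ‖Dl B v‖ + |v - T| * Cs := by
          rw [← e2]
          exact (norm_add_le _ _).trans (add_le_add le_rfl e4)
        _ = ‖Dl B v‖ + Cs * |v - T| := by ring
  · intro z h1 h2 h3 h4
    have hz1 : z ≠ 1 := by
      rintro rfl
      simp at h3
      linarith
    refine ⟨(DET2_zana hz1).sub (analyticAt_const.mul (GSF_an hs0 (by linarith))), ?_⟩
    have e1 : ‖riemannZeta z‖ ≤ |Cz| * (3 * T) := by
      have h5 := hCz z (by linarith) (by linarith) (by linarith)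
      rw [show (1 / 2 + 1 / 2 : ℝ) = 1 by norm_num, Real.rpow_one] at h5
      exact h5.trans (mul_le_mul (le_abs_self _) (by linarith) (by linarith) (abs_nonneg _))
    have e2 : ‖s * TRF_g B s z‖ ≤ 2 * T * Cs := by
      rw [norm_mul]
      exact mul_le_mul hsn (TRF_g_le hB hs0 (by linarith)) (norm_nonneg _) (by linarith)
    calc ‖riemannZeta z - s * TRF_g B s z‖ ≤ ‖riemannZeta z‖ + ‖s * TRF_g B s z‖ :=
          norm_sub_le _ _
      _ ≤ |Cz| * (3 * T) + 2 * T * Cs := add_le_add e1 e2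
      _ = K' := by rw [hK', hD]; ring
  · intro z hz _ _
    exact TRF_right hB hs0 (by rw [hz]; norm_num)

end GSFI_

theorem p_GSFI (h_BLGI : T_BLGI) (hZ : P_ZST) (_hA : P_SMA) : T_GSFI := by
  intro B hB
  obtain ⟨C₀, hC₀0, hC₀⟩ := GSFI_.main h_BLGI hZ hB 0
  obtain ⟨C₁, hC₁0, hC₁⟩ := GSFI_.main h_BLGI hZ hB B
  refine ⟨C₀ + 2 * C₁, fun T N hT hN0 hNT => ?_⟩
  have hT0 : 0 < T := by linarith
  obtain ⟨s, hs⟩ : ∃ s : ℂ, s = ((1 / 2 : ℝ) : ℂ) + T * I := ⟨_, rfl⟩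
  have hsre : s.re = 1 / 2 := by simp [hs]
  have hs0 : 0 ≤ s.re := by rw [hsre]; norm_num
  have hsn : ‖s‖ ≤ 2 * T := by
    calc ‖s‖ ≤ ‖((1 / 2 : ℝ) : ℂ)‖ + ‖(T * I : ℂ)‖ := by
          rw [hs]
          exact norm_add_le _ _
      _ ≤ 2 * T := by
        rw [norm_mul, Complex.norm_I, mul_one, Complex.norm_real, Complex.norm_real,
          Real.norm_eq_abs, Real.norm_eq_abs, abs_of_pos hT0, abs_of_pos (by norm_num)]
        linarith
  have ha0 : TRF_a B s 0 = 0 := by simp [TRF_a, one']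
  have hale := TRF_a_le B hs0
  have hz : zsum N T = (∑' n : ℕ, TRF_a B s n * (n : ℂ) ^ (-s) * ((gw 0 N n : ℝ) : ℂ)) +
      (s * ((N ^ (-B) : ℝ) : ℂ)) *
        ∑' n : ℕ, TRF_a B s n * (n : ℂ) ^ (-s) * ((gw B N n : ℝ) : ℂ) := by
    have h1 := GSF_sum (b := 0) hN0 ha0 hale T
    have h2 := (GSF_sum (b := B) hN0 ha0 hale T).mul_left (s * ((N ^ (-B) : ℝ) : ℂ))
    rw [← hs] at h1 h2
    rw [GSF_zsum hN0 T, ← hs, ← tsum_mul_left, ← h1.tsum_add h2]
    exact tsum_congr fun n => GSF_one hN0 hs0 _ n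
  have e0 := hC₀ T N hT hN0 hNT
  have e1 := hC₁ T N hT hN0 hNT
  rw [← hs] at e0 e1
  have hNB : 0 ≤ N ^ (-B) := Real.rpow_nonneg hN0.le _
  have hx : 0 ≤ T * N ^ (-B) := by positivity
  have e2 : ‖s * ((N ^ (-B) : ℝ) : ℂ)‖ₑ ≤ ENNReal.ofReal (2 * (T * N ^ (-B))) := by
    rw [← ofReal_norm, norm_mul, Complex.norm_real, Real.norm_of_nonneg hNB]
    refine ENNReal.ofReal_le_ofReal ?_
    calc ‖s‖ * N ^ (-B) ≤ (2 * T) * N ^ (-B) := mul_le_mul_of_nonneg_right hsn hNB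
      _ = _ := by ring
  rw [hz]
  change _ ≤ ENNReal.ofReal ((C₀ + 2 * C₁) * (1 + T * N ^ (-B))) * (1 + GSFI_.J B T)
  calc ‖(∑' n : ℕ, TRF_a B s n * (n : ℂ) ^ (-s) * ((gw 0 N n : ℝ) : ℂ)) +
        (s * ((N ^ (-B) : ℝ) : ℂ)) *
          ∑' n : ℕ, TRF_a B s n * (n : ℂ) ^ (-s) * ((gw B N n : ℝ) : ℂ)‖ₑ
      ≤ ENNReal.ofReal C₀ * (1 + GSFI_.J B T) + ENNReal.ofReal (2 * (T * N ^ (-B))) *
          (ENNReal.ofReal C₁ * (1 + GSFI_.J B T)) := by
        refine (enorm_add_le _ _).trans (add_le_add e0 ?_)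
        rw [enorm_mul]
        exact mul_le_mul' e2 e1
    _ = ENNReal.ofReal (C₀ + 2 * (T * N ^ (-B)) * C₁) * (1 + GSFI_.J B T) := by
        rw [ENNReal.ofReal_add hC₀0 (by positivity),
          ENNReal.ofReal_mul (p := 2 * (T * N ^ (-B))) (by positivity)]
        ring
    _ ≤ _ := by
        refine mul_le_mul_left (ENNReal.ofReal_le_ofReal ?_) _
        nlinarith [mul_nonneg hC₀0 hx, mul_nonneg hC₁0 hx]

end Pool.Agent.PertQ
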