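import Pool.Agent.PertQ.Targets

set_option autoImplicit false

/-!
# PertQ: GSFQ, from the mean to the sums in the mean of order `q`
-/

namespace Pool.Agent.PertQ

open MeasureTheory Set Complex Pool.Agent.CW Pool.Agent.DBN Pool.Agent.PertZ
open scoped ENNReal

namespace GSFQ_

/-- `[X/2, 4X]` is covered by three dyadic intervals. -/
theorem cover (X : ℝ) (g : ℝ → ℝ≥0∞) :
    ∫⁻ v in Icc (X / 2) (4 * X), g v ≤ (∫⁻ v in Icc (X / 2) (2 * (X / 2)), g v) +
      ((∫⁻ v in Icc X (2 * X), g v) + ∫⁻ v in Icc (2 * X) (2 * (2 * X)), g v) := by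
  have hsub : Icc (X / 2) (4 * X) ⊆ Icc (X / 2) (2 * (X / 2)) ∪
      (Icc X (2 * X) ∪ Icc (2 * X) (2 * (2 * X))) := by
    intro v hv
    rcases le_total v X with h | h
    · left
      exact ⟨hv.1, by linarith⟩
    · right
      rcases le_total v (2 * X) with h' | h'
      · left
        exact ⟨h, h'⟩
      · right
        exact ⟨h', by linarith [hv.2]⟩
  refine (lintegral_mono_set hsub).trans ?_
  refine (lintegral_union_le _ _ _).trans ?_
  gcongr
  exact lintegral_union_le _ _ _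

end GSFQ_

open GSFQ_ in
theorem p_GSFQ (h_CVQ : T_CVQ) (h_GSFI : T_GSFI) : T_GSFQ := by
  intro q B A hq hB hA hmeas hexp b hb0 hb1 ε hε
  obtain ⟨C1, h1⟩ := h_GSFI B hB
  obtain ⟨C2, h2⟩ := h_CVQ q hq
  obtain ⟨C3, h3⟩ := hexp (ε / 2) (half_pos hε)
  have hB0 : 0 < B := by linarith
  have hq0 : 0 < q := by linarith
  obtain ⟨m, hm⟩ : ∃ m : ℝ, m = max 0 (1 - B * b) := ⟨_, rfl⟩
  have hm0 : 0 ≤ m := by rw [hm]; exact le_max_left _ _
  have hm1 : 1 - B * b ≤ m := by rw [hm]; exact le_max_right _ _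
  obtain ⟨e, he⟩ : ∃ e : ℝ, e = 1 + q * (A + ε / 2) := ⟨_, rfl⟩
  have he1 : 1 ≤ e := by
    rw [he]
    have : 0 ≤ q * (A + ε / 2) := by positivity
    linarith
  rw [← hm]
  refine ⟨min 1 (ε / (2 * B)), lt_min one_pos (by positivity),
    (3 * |C1|) ^ q * |C2| * (1 + 3 * |C3| * 2 ^ e), fun X N hX hN1 hN2 => ?_⟩
  obtain ⟨d, hd⟩ : ∃ d : ℝ, d = min 1 (ε / (2 * B)) := ⟨_, rfl⟩
  rw [← hd] at hN1 hN2
  have hd1 : d ≤ 1 := by rw [hd]; exact min_le_left _ _
  have hd2 : B * d ≤ ε / 2 := by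
    have : d ≤ ε / (2 * B) := by rw [hd]; exact min_le_right _ _
    calc B * d ≤ B * (ε / (2 * B)) := by gcongr
      _ = ε / 2 := by field_simp
  have hX0 : 0 < X := by linarith
  have hX1 : 1 ≤ X := by linarith
  have hN0 : 0 < N := lt_of_lt_of_le (Real.rpow_pos_of_pos hX0 _) hN1
  -- the factor
  have hfac : ∀ T ∈ Icc X (2 * X), C1 * (1 + T * N ^ (-B)) ≤ 3 * |C1| * X ^ (m + ε / 2) := by
    intro T hT
    have hT0 : 0 < T := by linarith [hT.1]
    have e1 : N ^ (-B) ≤ X ^ (-(B * b) + B * d) := by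
      have : N ^ (-B) ≤ (X ^ (b - d)) ^ (-B) :=
        Real.rpow_le_rpow_of_nonpos (Real.rpow_pos_of_pos hX0 _) hN1 (by linarith)
      refine this.trans (le_of_eq ?_)
      rw [← Real.rpow_mul hX0.le]
      congr 1
      ring
    have e2 : T * N ^ (-B) ≤ 2 * X ^ (m + ε / 2) := by
      calc T * N ^ (-B) ≤ (2 * X) * X ^ (-(B * b) + B * d) := by
            gcongr
            exact hT.2
        _ = 2 * X ^ (1 + (-(B * b) + B * d)) := by
            rw [Real.rpow_add hX0 1, Real.rpow_one]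
            ring
        _ ≤ 2 * X ^ (m + ε / 2) := by
            refine mul_le_mul_of_nonneg_left ?_ (by norm_num)
            exact Real.rpow_le_rpow_of_exponent_le hX1 (by linarith)
    have e3 : 1 ≤ X ^ (m + ε / 2) := Real.one_le_rpow hX1 (by positivity)
    have e4 : 0 ≤ 1 + T * N ^ (-B) := by positivity
    calc C1 * (1 + T * N ^ (-B)) ≤ |C1| * (1 + T * N ^ (-B)) := by
          gcongr
          exact le_abs_self _
      _ ≤ |C1| * (X ^ (m + ε / 2) + 2 * X ^ (m + ε / 2)) := by gcongr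
      _ = 3 * |C1| * X ^ (m + ε / 2) := by ring
  -- the power of a length is at most the square of the height
  have hNT : ∀ T ∈ Icc X (2 * X), N ≤ T ^ 2 := by
    intro T hT
    calc N ≤ X ^ (b + d) := hN2
      _ ≤ X ^ (2 : ℝ) := Real.rpow_le_rpow_of_exponent_le hX1 (by linarith)
      _ = X ^ 2 := Real.rpow_two X
      _ ≤ T ^ 2 := by
          gcongr
          exact hT.1
  -- one dyadic interval
  have hY : ∀ Y : ℝ, 1 ≤ Y → Y ≤ 2 * X → mm q Y (Dl B) ≤ ENNReal.ofReal (|C3| * (2 * X) ^ e) := by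
    intro Y hY1 hY2
    refine (h3 Y hY1).trans (ENNReal.ofReal_le_ofReal ?_)
    rw [← he]
    have hY0 : 0 ≤ Y := by linarith
    calc C3 * Y ^ e ≤ |C3| * Y ^ e := by
          gcongr
          exact le_abs_self _
      _ ≤ |C3| * (2 * X) ^ e := by gcongr
  have hcov : ∫⁻ v in Icc (X / 2) (4 * X), ‖Dl B v‖ₑ ^ q ≤
      ENNReal.ofReal (3 * (|C3| * (2 * X) ^ e)) := by
    refine (cover X _).trans ?_
    have a1 := hY (X / 2) (by linarith) (by linarith)
    have a2 := hY X hX1 (by linarith)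
    have a3 := hY (2 * X) (by linarith) le_rfl
    simp only [mm] at a1 a2 a3
    refine (add_le_add a1 (add_le_add a2 a3)).trans (le_of_eq ?_)
    rw [← ENNReal.ofReal_add (by positivity) (by positivity),
      ← ENNReal.ofReal_add (by positivity) (by positivity)]
    congr 1
    ring
  have hK : ENNReal.ofReal (3 * |C1| * X ^ (m + ε / 2)) ^ q =
      ENNReal.ofReal ((3 * |C1| * X ^ (m + ε / 2)) ^ q) :=
    ENNReal.ofReal_rpow_of_nonneg (by positivity) hq0.le
  calc mm q X (zsum N) ≤ ∫⁻ T in Icc X (2 * X),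
        ENNReal.ofReal (3 * |C1| * X ^ (m + ε / 2)) ^ q *
          (1 + ∫⁻ v in Icc (T / 2) (2 * T),
            ENNReal.ofReal (Real.exp (-(v - T) ^ 2)) * ‖Dl B v‖ₑ) ^ q := by
        unfold mm
        refine setLIntegral_mono' measurableSet_Icc fun T hT => ?_
        rw [← ENNReal.mul_rpow_of_nonneg _ _ hq0.le]
        refine ENNReal.rpow_le_rpow ?_ hq0.le
        refine (h1 T N (by linarith [hT.1]) hN0 (hNT T hT)).trans ?_
        exact mul_le_mul_left (ENNReal.ofReal_le_ofReal (hfac T hT)) _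
    _ = ENNReal.ofReal (3 * |C1| * X ^ (m + ε / 2)) ^ q * ∫⁻ T in Icc X (2 * X),
          (1 + ∫⁻ v in Icc (T / 2) (2 * T),
            ENNReal.ofReal (Real.exp (-(v - T) ^ 2)) * ‖Dl B v‖ₑ) ^ q := by
        rw [lintegral_const_mul']
        exact ENNReal.rpow_ne_top_of_nonneg hq0.le ENNReal.ofReal_ne_top
    _ ≤ ENNReal.ofReal (3 * |C1| * X ^ (m + ε / 2)) ^ q * (ENNReal.ofReal C2 *
          (ENNReal.ofReal X + ∫⁻ v in Icc (X / 2) (4 * X), ‖Dl B v‖ₑ ^ q)) := by
        gcongr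
        exact h2 (fun v => ‖Dl B v‖ₑ) X hmeas.enorm hX0
    _ ≤ ENNReal.ofReal ((3 * |C1| * X ^ (m + ε / 2)) ^ q) * (ENNReal.ofReal |C2| *
          (ENNReal.ofReal X + ENNReal.ofReal (3 * (|C3| * (2 * X) ^ e)))) := by
        rw [hK]
        gcongr
        exact le_abs_self _
    _ = ENNReal.ofReal ((3 * |C1| * X ^ (m + ε / 2)) ^ q *
          (|C2| * (X + 3 * (|C3| * (2 * X) ^ e)))) := by
        rw [← ENNReal.ofReal_add hX0.le (by positivity),
          ← ENNReal.ofReal_mul (abs_nonneg C2), ← ENNReal.ofReal_mul (by positivity)]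
    _ ≤ ENNReal.ofReal ((3 * |C1|) ^ q * |C2| * (1 + 3 * |C3| * 2 ^ e) *
          X ^ (1 + q * (A + m + ε))) := by
        refine ENNReal.ofReal_le_ofReal ?_
        have e5 : X ≤ X ^ e := by
          calc X = X ^ (1 : ℝ) := (Real.rpow_one X).symm
            _ ≤ X ^ e := Real.rpow_le_rpow_of_exponent_le hX1 he1
        have e6 : (3 * |C1| * X ^ (m + ε / 2)) ^ q =
            (3 * |C1|) ^ q * X ^ (q * (m + ε / 2)) := by
          rw [Real.mul_rpow (by positivity) (by positivity), ← Real.rpow_mul hX0.le, mul_comm q]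
        have e7 : X ^ (1 + q * (A + m + ε)) = X ^ (q * (m + ε / 2)) * X ^ e := by
          rw [← Real.rpow_add hX0, he]
          congr 1
          ring
        have e8 : (2 * X) ^ e = 2 ^ e * X ^ e := Real.mul_rpow (by norm_num) hX0.le
        rw [e6, e7, e8]
        calc (3 * |C1|) ^ q * X ^ (q * (m + ε / 2)) *
              (|C2| * (X + 3 * (|C3| * (2 ^ e * X ^ e))))
            ≤ (3 * |C1|) ^ q * X ^ (q * (m + ε / 2)) *
              (|C2| * (X ^ e + 3 * (|C3| * (2 ^ e * X ^ e)))) := by gcongr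
          _ = _ := by ring

end Pool.Agent.PertQ
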