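import Pool.Agent.PertQ.Targets
import Pool.Agent.DBN.WinSumE

/-!
# PertQ, HOLQ: monotonicity in the order of the mean
-/

set_option autoImplicit false

namespace Pool.Agent.PertQ

open MeasureTheory Set Pool.Agent.DBN Pool.Agent.DBN.Nw
open scoped ENNReal

namespace HOLQ_

theorem holder (hJ : T_JEN) {q r X : ℝ} (hq : 1 ≤ q) (hqr : q ≤ r) (hX : 0 ≤ X) {F : ℝ → ℂ}
    (hF : Measurable F) :
    mm q X F ^ (r / q) ≤ ENNReal.ofReal (X ^ (r / q - 1)) * mm r X F := by
  have hq0 : 0 < q := by linarith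
  have h1 : 1 ≤ r / q := by
    rw [le_div_iff₀ hq0]
    linarith
  have h := hJ (volume.restrict (Icc X (2 * X))) (r / q) (fun _ => 1) (fun t => ‖F t‖ₑ ^ q) h1
    aemeasurable_const (hF.enorm.pow_const q).aemeasurable
  simp only [one_mul, ← ENNReal.rpow_mul, mul_div_cancel₀ r hq0.ne', lintegral_one,
    Measure.restrict_apply MeasurableSet.univ, univ_inter, Real.volume_Icc] at h
  have h2 : 2 * X - X = X := by ring
  rw [h2, ENNReal.ofReal_rpow_of_nonneg hX (by linarith)] at h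
  exact h

theorem conv (hJ : T_JEN) {q r X e C : ℝ} (hq : 1 ≤ q) (hqr : q ≤ r) (hX : 1 ≤ X) {F : ℝ → ℂ}
    (hF : Measurable F) (h : mm r X F ≤ ENNReal.ofReal (C * X ^ (1 + r * e))) :
    mm q X F ≤ ENNReal.ofReal ((max C 0) ^ (q / r) * X ^ (1 + q * e)) := by
  have hq0 : 0 < q := by linarith
  have hr0 : 0 < r := by linarith
  have hX0 : 0 < X := by linarith
  have hC : 0 ≤ max C 0 := le_max_right _ _
  have h1 : mm q X F ^ (r / q) ≤ ENNReal.ofReal (max C 0 * X ^ (r / q + r * e)) := by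
    refine (holder hJ hq hqr hX0.le hF).trans ?_
    refine (mul_le_mul_right h _).trans ?_
    rw [← ENNReal.ofReal_mul (by positivity)]
    refine ENNReal.ofReal_le_ofReal ?_
    have h2 : X ^ (r / q + r * e) = X ^ (r / q - 1) * X ^ (1 + r * e) := by
      rw [← Real.rpow_add hX0]
      congr 1
      ring
    rw [h2]
    have h3 : 0 ≤ X ^ (r / q - 1) * X ^ (1 + r * e) := by positivity
    calc X ^ (r / q - 1) * (C * X ^ (1 + r * e)) = C * (X ^ (r / q - 1) * X ^ (1 + r * e)) := by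
          ring
      _ ≤ _ := mul_le_mul_of_nonneg_right (le_max_left _ _) h3
  have h4 : mm q X F = (mm q X F ^ (r / q)) ^ (q / r) := by
    rw [← ENNReal.rpow_mul]
    have h5 : r / q * (q / r) = 1 := by
      field_simp
    rw [h5, ENNReal.rpow_one]
  rw [h4]
  refine (ENNReal.rpow_le_rpow h1 (by positivity)).trans ?_
  rw [ENNReal.ofReal_rpow_of_nonneg (by positivity) (by positivity)]
  refine ENNReal.ofReal_le_ofReal (le_of_eq ?_)
  rw [Real.mul_rpow hC (by positivity), ← Real.rpow_mul hX0.le]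
  congr 2
  field_simp

end HOLQ_

open HOLQ_ in
theorem p_HOLQ (h_JEN : T_JEN) : T_HOLQ := by
  refine ⟨?_, ?_⟩
  · intro q r A F hq hqr _ hF hE ε hε
    obtain ⟨C, hC⟩ := hE ε hε
    exact ⟨(max C 0) ^ (q / r), fun X hX => conv h_JEN hq hqr hX hF (hC X hX)⟩
  · intro q r b a hq hqr _ hS ε hε
    obtain ⟨δ, hδ, C, hC⟩ := hS ε hε
    refine ⟨δ, hδ, (max C 0) ^ (q / r), fun X N hX h1 h2 => ?_⟩
    have hN : 0 < N := lt_of_lt_of_le (Real.rpow_pos_of_pos (by linarith) _) h1
    exact conv h_JEN hq hqr (by linarith) (continuous_zsum hN).measurable (hC X N hX h1 h2)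

end Pool.Agent.PertQ
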