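import Pool.Agent.PertQ.Targets
import Pool.Agent.DBN.WinSumC

/-!
# PertQ, INFQ: all means give the pointwise bound
-/

set_option autoImplicit false

namespace Pool.Agent.PertQ

open MeasureTheory Set Complex Pool.Agent.CW Pool.Agent.DBN Pool.Agent.PertZ
open scoped ENNReal

namespace INFQ_

/-- the length `exp w'` stays in the window when the height changes by a factor `2` -/
theorem win {b δ L w w' y : ℝ} (hb0 : 0 ≤ b) (hb1 : b ≤ 1) (hδ : 0 < δ)
    (hL : 2 * (1 + δ) ≤ δ * L) (h1 : (b - δ / 4) * L ≤ w) (h2 : w ≤ (b + δ / 4) * L)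
    (h3 : |w' - w| ≤ δ / 4 * L) (hy1 : L - 1 ≤ y) (hy2 : y ≤ L + 1) :
    (b - δ) * y ≤ w' ∧ w' ≤ (b + δ) * y := by
  obtain ⟨h4, h5⟩ := abs_le.1 h3
  constructor
  · have h6 : (b - δ) * (y - L) ≤ 1 + δ := by
      rcases le_total 0 (b - δ) with h | h
      · nlinarith
      · nlinarith
    nlinarith
  · have h6 : -(1 + δ) ≤ (b + δ) * (y - L) := by nlinarith
    nlinarith

theorem enorm_rpow {z : ℂ} {q : ℝ} (hq : 0 ≤ q) :
    ‖z‖ₑ ^ q = ENNReal.ofReal (‖z‖ ^ q) := by
  rw [← ofReal_norm, ENNReal.ofReal_rpow_of_nonneg (norm_nonneg _) hq]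

end INFQ_

open INFQ_ in
theorem p_INFQ (h_AVG : T_AVG) : T_INFQ := by
  intro b a hb0 hb1 ha hS ε hε
  obtain ⟨q, hq1, hqQ, hSq⟩ := hS (4 / ε)
  have hq0 : 0 < q := by linarith
  have hqε : 1 / q ≤ ε / 4 := by
    rw [div_le_iff₀ hε] at hqQ
    rw [div_le_iff₀ hq0]
    linarith
  obtain ⟨δ₀, hδ₀, C₁, hC₁⟩ := hSq (ε / 4) (by positivity)
  set δ₁ : ℝ := min δ₀ 1 with hδ₁
  have hδp : 0 < δ₁ := lt_min hδ₀ one_pos
  have hδ1 : δ₁ ≤ 1 := min_le_right _ _
  have hδ0 : δ₁ ≤ δ₀ := min_le_left _ _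
  obtain ⟨C₂, hC₂⟩ := h_AVG q (δ₁ / 4) hq1 (by positivity)
  set e : ℝ := 1 + q * (a + ε / 4) with he
  have he0 : 0 ≤ e := by positivity
  set T₀ : ℝ := max 4 (Real.exp (2 * (1 + δ₁) / δ₁)) with hT₀
  have hT₀4 : 4 ≤ T₀ := le_max_left _ _
  set C₃ : ℝ := |C₂| * (|C₁| * 2 ^ e + 1) with hC₃
  have hC₃0 : 0 ≤ C₃ := by positivity
  have hK0 : 0 ≤ Real.exp 1 * Nw.S32 := mul_nonneg (Real.exp_pos 1).le Nw.S32_nonneg
  refine ⟨δ₁ / 4, by positivity, Real.exp 1 * Nw.S32 * T₀ ^ (2 : ℝ) + C₃ ^ (1 / q),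
    fun T N hT hN1 hN2 => ?_⟩
  have hT0 : 0 < T := by linarith
  have hT1 : 1 ≤ T := by linarith
  have hN0 : 0 < N := lt_of_lt_of_le (Real.rpow_pos_of_pos hT0 _) hN1
  have hpow : 1 ≤ T ^ (a + ε) := Real.one_le_rpow hT1 (by positivity)
  rcases le_or_gt T T₀ with hsmall | hbig
  · have h1 : ‖zsum N T‖ ≤ Real.exp 1 * Nw.S32 * T₀ ^ (2 : ℝ) := by
      refine (Nw.norm_zsum_le hN0 T).trans (mul_le_mul_of_nonneg_left ?_ hK0)
      calc N ≤ T ^ (b + δ₁ / 4) := hN2
        _ ≤ T ^ (2 : ℝ) := Real.rpow_le_rpow_of_exponent_le hT1 (by linarith)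
        _ ≤ T₀ ^ (2 : ℝ) := Real.rpow_le_rpow hT0.le hsmall (by norm_num)
    have h2 : 0 ≤ C₃ ^ (1 / q) := Real.rpow_nonneg hC₃0 _
    have h3 : 0 ≤ Real.exp 1 * Nw.S32 * T₀ ^ (2 : ℝ) + C₃ ^ (1 / q) := by positivity
    nlinarith
  · set L : ℝ := Real.log T with hL
    have hT4 : 4 ≤ T := by linarith
    have hL1 : 2 * (1 + δ₁) ≤ δ₁ * L := by
      have h1 : Real.exp (2 * (1 + δ₁) / δ₁) ≤ T := (le_max_right _ _).trans hbig.le
      have h2 := (Real.le_log_iff_exp_le hT0).2 h1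
      rw [div_le_iff₀ hδp] at h2
      linarith
    have hL0 : 0 < L := Real.log_pos (by linarith)
    set w : ℝ := Real.log N with hw
    have hwe : Real.exp w = N := Real.exp_log hN0
    have hw1 : (b - δ₁ / 4) * L ≤ w := by
      have := Real.log_le_log (Real.rpow_pos_of_pos hT0 _) hN1
      rwa [Real.log_rpow hT0] at this
    have hw2 : w ≤ (b + δ₁ / 4) * L := by
      have := Real.log_le_log hN0 hN2
      rwa [Real.log_rpow hT0] at this
    have hlog2 : Real.log 2 ≤ 1 := by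
      have := Real.log_two_lt_d9
      linarith
    set J : ℝ≥0∞ := ENNReal.ofReal (|C₁| * (2 * T) ^ e) with hJ
    have hkey := (hC₂ T w J hT4 (by nlinarith) (fun w' Y hw' hY1 hY2 => by
      have hY0 : 0 < Y := by linarith
      have hY3 : 2 ≤ Y := by linarith
      have hy1 : L - 1 ≤ Real.log Y := by
        have h1 := Real.log_le_log (by positivity) hY1
        rw [Real.log_div hT0.ne' (by norm_num)] at h1
        linarith
      have hy2 : Real.log Y ≤ L + 1 := by
        have h1 := Real.log_le_log hY0 hY2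
        rw [Real.log_mul (by norm_num) hT0.ne'] at h1
        linarith
      obtain ⟨g1, g2⟩ := win hb0 hb1 hδp hL1 hw1 hw2 hw' hy1 hy2
      have hy0 : 0 ≤ Real.log Y := Real.log_nonneg (by linarith)
      have k1 : Y ^ (b - δ₀) ≤ Real.exp w' := by
        rw [Real.rpow_def_of_pos hY0]
        refine Real.exp_le_exp.2 (le_trans ?_ g1)
        rw [mul_comm]
        exact mul_le_mul_of_nonneg_right (by linarith) hy0
      have k2 : Real.exp w' ≤ Y ^ (b + δ₀) := by
        rw [Real.rpow_def_of_pos hY0]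
        refine Real.exp_le_exp.2 (g2.trans ?_)
        rw [mul_comm (Real.log Y)]
        exact mul_le_mul_of_nonneg_right (by linarith) hy0
      refine (hC₁ Y (Real.exp w') hY3 k1 k2).trans (ENNReal.ofReal_le_ofReal ?_)
      have k3 : Y ^ e ≤ (2 * T) ^ e := Real.rpow_le_rpow hY0.le hY2 he0
      calc C₁ * Y ^ e ≤ |C₁| * Y ^ e :=
            mul_le_mul_of_nonneg_right (le_abs_self _) (Real.rpow_nonneg hY0.le _)
        _ ≤ |C₁| * (2 * T) ^ e := mul_le_mul_of_nonneg_left k3 (abs_nonneg _))).2 T le_rfl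
      (by linarith)
    have hzs : zs w T = zsum N T := by
      unfold zs
      rw [hwe]
    rw [hzs, enorm_rpow hq0.le] at hkey
    have hTe : 1 ≤ T ^ e := Real.one_le_rpow hT1 he0
    have hreal : ‖zsum N T‖ ^ q ≤ C₃ * T ^ e := by
      have h1 : ENNReal.ofReal C₂ * (J + 1) ≤ ENNReal.ofReal (C₃ * T ^ e) := by
        calc ENNReal.ofReal C₂ * (J + 1) ≤ ENNReal.ofReal |C₂| * (J + ENNReal.ofReal 1) := by
              rw [ENNReal.ofReal_one]
              exact mul_le_mul_left (ENNReal.ofReal_le_ofReal (le_abs_self _)) _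
          _ = ENNReal.ofReal (|C₂| * (|C₁| * (2 * T) ^ e + 1)) := by
              rw [hJ, ← ENNReal.ofReal_add (by positivity) zero_le_one,
                ← ENNReal.ofReal_mul (abs_nonneg _)]
          _ ≤ ENNReal.ofReal (C₃ * T ^ e) := by
              refine ENNReal.ofReal_le_ofReal ?_
              rw [hC₃, mul_assoc]
              refine mul_le_mul_of_nonneg_left ?_ (abs_nonneg _)
              rw [Real.mul_rpow (by norm_num) hT0.le]
              nlinarith
      exact (ENNReal.ofReal_le_ofReal_iff (by positivity)).1 (hkey.trans h1)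
    have hfin : ‖zsum N T‖ ≤ C₃ ^ (1 / q) * T ^ (a + ε) := by
      calc ‖zsum N T‖ = (‖zsum N T‖ ^ q) ^ (1 / q) := by
            rw [← Real.rpow_mul (norm_nonneg _), mul_one_div_cancel hq0.ne', Real.rpow_one]
        _ ≤ (C₃ * T ^ e) ^ (1 / q) :=
            Real.rpow_le_rpow (by positivity) hreal (by positivity)
        _ = C₃ ^ (1 / q) * T ^ (e * (1 / q)) := by
            rw [Real.mul_rpow hC₃0 (by positivity), ← Real.rpow_mul hT0.le]
        _ ≤ C₃ ^ (1 / q) * T ^ (a + ε) := by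
            refine mul_le_mul_of_nonneg_left ?_ (Real.rpow_nonneg hC₃0 _)
            refine Real.rpow_le_rpow_of_exponent_le hT1 ?_
            have h1 : e * (1 / q) = 1 / q + (a + ε / 4) := by
              rw [he]
              field_simp
            rw [h1]
            linarith
    have h5 : 0 ≤ Real.exp 1 * Nw.S32 * T₀ ^ (2 : ℝ) * T ^ (a + ε) := by positivity
    nlinarith

end Pool.Agent.PertQ
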