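import Pool.Agent.PertQ.Targets
import Pool.Agent.PertZ.GSB

/-!
# MP_4e5e8a_nt, PertQ, target IUB: sums shorter than one or longer than the height are negligible
-/

set_option autoImplicit false

namespace Pool.Agent.PertQ

open MeasureTheory Set Complex Pool.Agent.CW Pool.Agent.DBN Pool.Agent.PertZ
open scoped ENNReal

namespace IUB_

lemma int_abs {a : ℝ} (ha : 0 < a) : Integrable fun x : ℝ => Real.exp (-(a * |x|)) := by
  rw [← integrableOn_univ, ← Iic_union_Ioi (a := (0 : ℝ))]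
  refine IntegrableOn.union ?_ ?_
  · refine (integrableOn_exp_mul_Iic ha 0).congr_fun (fun x hx => ?_) measurableSet_Iic
    simp only
    rw [abs_of_nonpos hx]
    congr 1
    ring
  · refine (exp_neg_integrableOn_Ioi 0 ha).congr_fun (fun x hx => ?_) measurableSet_Ioi
    simp only
    rw [abs_of_pos hx]
    congr 1
    ring

lemma lint_abs {a : ℝ} (ha : 0 < a) : ∃ A : ℝ, 0 ≤ A ∧ ∀ u : ℝ,
    ∫⁻ x : ℝ, ENNReal.ofReal (Real.exp (-(a * |x - u|))) = ENNReal.ofReal A := by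
  refine ⟨∫ x : ℝ, Real.exp (-(a * |x|)), integral_nonneg fun x => (Real.exp_pos _).le,
    fun u => ?_⟩
  rw [lintegral_sub_right_eq_self (fun x => ENNReal.ofReal (Real.exp (-(a * |x|)))) u,
    ofReal_integral_eq_lintegral_ofReal (int_abs ha)
      (Filter.Eventually.of_forall fun x => (Real.exp_pos _).le)]

lemma pt (hL : P_GZL) {K c τ ε : ℝ} (hK : 2 ≤ K) (hc : K + 2 ≤ c) (hτ : 0 < τ) (hε : 0 < ε) :
    ∃ C : ℝ, 0 ≤ C ∧ ∀ T u : ℝ, 4 ≤ T → u ≤ K * Real.log T → ∀ p : ℝ × ℝ, p ∉ RR T →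
      Real.exp (-(c * |p.1 - u|) - τ * |p.2 - T|) * ‖zs p.1 p.2‖ ≤
        C * T ^ ε * (Real.exp (-(1 / 2 * |p.1 - u|)) * Real.exp (-(τ / 2 * |p.2 - T|))) := by
  obtain ⟨C₃, h₃⟩ := hL (K + 2) ε (by linarith) hε
  obtain ⟨D₀, hD₀⟩ : ∃ D₀ : ℝ, D₀ = Real.exp 1 * Nw.S32 := ⟨_, rfl⟩
  have hD : 0 ≤ D₀ := by
    rw [hD₀]
    exact mul_nonneg (Real.exp_pos _).le Nw.S32_nonneg
  obtain ⟨k₁, hk₁⟩ : ∃ k₁ : ℝ, k₁ = -K - K * Real.log (τ / 2 / (2 * K)) := ⟨_, rfl⟩
  obtain ⟨k₂, hk₂⟩ : ∃ k₂ : ℝ, k₂ = K / 2 * ((K + 2) * Real.log 2) := ⟨_, rfl⟩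
  have h2A : (0 : ℝ) < 2 ^ ε := by positivity
  refine ⟨D₀ * Real.exp k₁ + D₀ + |C₃| * 2 ^ ε + D₀ * Real.exp k₂, by positivity,
    fun T u hT hu p hp => ?_⟩
  have hT0 : 0 < T := by linarith
  obtain ⟨X, hX⟩ : ∃ X : ℝ, X = |p.1 - u| := ⟨_, rfl⟩
  obtain ⟨Y, hY⟩ : ∃ Y : ℝ, Y = |p.2 - T| := ⟨_, rfl⟩
  have hX0 : 0 ≤ X := by rw [hX]; exact abs_nonneg _
  have hY0 : 0 ≤ Y := by rw [hY]; exact abs_nonneg _
  have hxX : p.1 - u ≤ X := by rw [hX]; exact le_abs_self _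
  rw [← hX, ← hY]
  have hP1 : 1 ≤ T ^ ε := Real.one_le_rpow (by linarith) hε.le
  have hcr := GSB_crude (Real.exp p.1) p.2 (Real.exp_pos _)
  rw [← hD₀] at hcr
  have hG : Real.exp (-(1 / 2 * X)) * Real.exp (-(τ / 2 * Y)) =
      Real.exp (-(1 / 2 * X) - τ / 2 * Y) := by
    rw [← Real.exp_add]
    congr 1
  rw [hG]
  have hG0 := Real.exp_pos (-(1 / 2 * X) - τ / 2 * Y)
  have hcX : X * (c - 1) ≥ X / 2 := by nlinarith
  -- it suffices to bound by one of the four parts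
  have suff : ∀ d : ℝ, 0 ≤ d →
      d ≤ D₀ * Real.exp k₁ + D₀ + |C₃| * 2 ^ ε + D₀ * Real.exp k₂ → ∀ Z : ℝ,
      Z ≤ d * T ^ ε * Real.exp (-(1 / 2 * X) - τ / 2 * Y) →
      Z ≤ (D₀ * Real.exp k₁ + D₀ + |C₃| * 2 ^ ε + D₀ * Real.exp k₂) * T ^ ε *
        Real.exp (-(1 / 2 * X) - τ / 2 * Y) := by
    intro d hd hdd Z hZ
    refine hZ.trans ?_
    gcongr
  have hA1 : 0 ≤ D₀ * Real.exp k₁ := by positivity
  have hA2 : 0 ≤ |C₃| * 2 ^ ε := by positivity
  have hA3 : 0 ≤ D₀ * Real.exp k₂ := by positivity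
  -- the crude bound
  have crude : ∀ k : ℝ, p.1 - c * X - τ * Y ≤ k - 1 / 2 * X - τ / 2 * Y →
      Real.exp (-(c * X) - τ * Y) * ‖zs p.1 p.2‖ ≤
        D₀ * Real.exp k * T ^ ε * Real.exp (-(1 / 2 * X) - τ / 2 * Y) := by
    intro k hk
    calc Real.exp (-(c * X) - τ * Y) * ‖zs p.1 p.2‖
        ≤ Real.exp (-(c * X) - τ * Y) * (D₀ * Real.exp p.1) := by
          gcongr
          exact hcr
      _ = D₀ * Real.exp (p.1 - c * X - τ * Y) := by
          have e : p.1 - c * X - τ * Y = -(c * X) - τ * Y + p.1 := by ring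
          rw [e, Real.exp_add]
          ring
      _ ≤ D₀ * Real.exp (k + (-(1 / 2 * X) - τ / 2 * Y)) := by
          gcongr
          linarith
      _ = D₀ * Real.exp k * 1 * Real.exp (-(1 / 2 * X) - τ / 2 * Y) := by
          rw [Real.exp_add]
          ring
      _ ≤ D₀ * Real.exp k * T ^ ε * Real.exp (-(1 / 2 * X) - τ / 2 * Y) := by gcongr
  rcases le_or_gt (T / 2) Y with hYT | hYT
  · -- (a)
    refine suff _ hA1 (by linarith) _ (crude k₁ ?_)
    have h2 := GSB_pow (K := K) (τ := τ / 2) (by linarith) (by linarith) hT0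
    rw [← hk₁] at h2
    have h3 : τ / 2 * (T / 2) ≤ τ / 2 * Y := by gcongr
    nlinarith
  · rw [hY, abs_lt] at hYT
    have hp2 : T / 2 ≤ p.2 := by linarith [hYT.1]
    have hp2' : p.2 ≤ 2 * T := by linarith [hYT.2]
    have hp22 : 2 ≤ p.2 := by linarith
    have hp20 : 0 < p.2 := by linarith
    have hmono : Real.exp (-(c * X) - τ * Y) ≤ Real.exp (-(1 / 2 * X) - τ / 2 * Y) := by
      rw [Real.exp_le_exp]
      nlinarith
    rcases lt_or_ge p.1 0 with h0 | h0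
    · -- (b)
      have h1 : D₀ * Real.exp p.1 ≤ D₀ * 1 := by
        gcongr
        exact Real.exp_le_one_iff.2 h0.le
      refine suff D₀ hD (by linarith) _ ?_
      calc Real.exp (-(c * X) - τ * Y) * ‖zs p.1 p.2‖
          ≤ Real.exp (-(1 / 2 * X) - τ / 2 * Y) * (D₀ * 1) := by
            gcongr
            exact hcr.trans h1
        _ = D₀ * 1 * Real.exp (-(1 / 2 * X) - τ / 2 * Y) := by ring
        _ ≤ D₀ * T ^ ε * Real.exp (-(1 / 2 * X) - τ / 2 * Y) := by gcongr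
    · have hlt : p.2 < Real.exp p.1 := by
        by_contra hcon
        exact hp ⟨h0, not_lt.1 hcon, hp2, hp2'⟩
      rcases le_or_gt (Real.exp p.1) (p.2 ^ (K + 2)) with hN | hN
      · -- (c)
        have h1 := h₃ p.2 (Real.exp p.1) hp22 hlt.le hN
        have h2 : ‖zs p.1 p.2‖ ≤ |C₃| * (2 ^ ε * T ^ ε) := by
          refine h1.trans ?_
          rw [← Real.mul_rpow (by norm_num) hT0.le]
          calc C₃ * p.2 ^ ε ≤ |C₃| * p.2 ^ ε := by
                gcongr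
                exact le_abs_self _
            _ ≤ |C₃| * (2 * T) ^ ε := by gcongr
        refine suff _ hA2 (by linarith) _ ?_
        calc Real.exp (-(c * X) - τ * Y) * ‖zs p.1 p.2‖
            ≤ Real.exp (-(1 / 2 * X) - τ / 2 * Y) * (|C₃| * (2 ^ ε * T ^ ε)) := by gcongr
          _ = |C₃| * 2 ^ ε * T ^ ε * Real.exp (-(1 / 2 * X) - τ / 2 * Y) := by ring
      · -- (d)
        refine suff _ hA3 (by linarith) _ (crude k₂ ?_)
        have h1 : (K + 2) * Real.log p.2 < p.1 := by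
          have h2 := Real.log_lt_log (by positivity) hN
          rwa [Real.log_rpow hp20, Real.log_exp] at h2
        have h2 : Real.log T - Real.log 2 ≤ Real.log p.2 := by
          rw [← Real.log_div hT0.ne' (by norm_num)]
          exact Real.log_le_log (by positivity) hp2
        have h6 : (K + 2) * (Real.log T - Real.log 2) ≤ (K + 2) * Real.log p.2 := by
          gcongr
        have h7 : 2 * Real.log T ≤ X + (K + 2) * Real.log 2 := by nlinarith
        have h8 : K / 2 * (2 * Real.log T) ≤ K / 2 * (X + (K + 2) * Real.log 2) := by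
          gcongr
        nlinarith [mul_nonneg hτ.le hY0]

lemma RR_meas (T : ℝ) : MeasurableSet (RR T) := by
  have h1 : RR T = {p : ℝ × ℝ | 0 ≤ p.1} ∩ ({p : ℝ × ℝ | Real.exp p.1 ≤ p.2} ∩
      ({p : ℝ × ℝ | T / 2 ≤ p.2} ∩ {p : ℝ × ℝ | p.2 ≤ 2 * T})) := by
    ext p
    rfl
  rw [h1]
  refine (measurableSet_le measurable_const measurable_fst).inter
    ((measurableSet_le (Real.measurable_exp.comp measurable_fst) measurable_snd).inter
    ((measurableSet_le measurable_const measurable_snd).inter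
    (measurableSet_le measurable_snd measurable_const)))

end IUB_

open IUB_ in
/-- IUB -/
theorem p_IUB (hL : P_GZL) : T_IUB := by
  intro K c τ ε hK hc hτ hε
  obtain ⟨C, hC0, h⟩ := pt hL hK hc hτ hε
  obtain ⟨A1, hA1, h1⟩ := lint_abs (a := 1 / 2) (by norm_num)
  obtain ⟨A2, hA2, h2⟩ := lint_abs (a := τ / 2) (by linarith)
  refine ⟨C * A1 * A2, fun T u hT hu => ?_⟩
  have hT0 : 0 < T := by linarith
  have hm := RR_meas T
  rw [← lintegral_add_compl _ hm, add_comm]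
  refine add_le_add ?_ le_rfl
  have hpt : ∀ p ∈ (RR T)ᶜ,
      ENNReal.ofReal (Real.exp (-(c * |p.1 - u|) - τ * |p.2 - T|)) * ‖zs p.1 p.2‖ₑ ≤
      ENNReal.ofReal (C * T ^ ε) * (ENNReal.ofReal (Real.exp (-(1 / 2 * |p.1 - u|))) *
        ENNReal.ofReal (Real.exp (-(τ / 2 * |p.2 - T|)))) := by
    intro p hp
    have h3 := h T u hT hu p hp
    rw [← ofReal_norm, ← ENNReal.ofReal_mul (Real.exp_pos _).le,
      ← ENNReal.ofReal_mul (Real.exp_pos _).le, ← ENNReal.ofReal_mul (by positivity)]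
    exact ENNReal.ofReal_le_ofReal h3
  have hm1 : Measurable fun x : ℝ => ENNReal.ofReal (Real.exp (-(1 / 2 * |x - u|))) := by
    fun_prop
  have hm2 : Measurable fun x : ℝ => ENNReal.ofReal (Real.exp (-(τ / 2 * |x - T|))) := by
    fun_prop
  calc ∫⁻ p in (RR T)ᶜ,
        ENNReal.ofReal (Real.exp (-(c * |p.1 - u|) - τ * |p.2 - T|)) * ‖zs p.1 p.2‖ₑ
      ≤ ∫⁻ p in (RR T)ᶜ,
        ENNReal.ofReal (C * T ^ ε) * (ENNReal.ofReal (Real.exp (-(1 / 2 * |p.1 - u|))) *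
          ENNReal.ofReal (Real.exp (-(τ / 2 * |p.2 - T|)))) := setLIntegral_mono' hm.compl hpt
    _ ≤ ∫⁻ p : ℝ × ℝ,
        ENNReal.ofReal (C * T ^ ε) * (ENNReal.ofReal (Real.exp (-(1 / 2 * |p.1 - u|))) *
          ENNReal.ofReal (Real.exp (-(τ / 2 * |p.2 - T|)))) := setLIntegral_le_lintegral _ _
    _ = ENNReal.ofReal (C * T ^ ε) * (ENNReal.ofReal A1 * ENNReal.ofReal A2) := by
        rw [lintegral_const_mul' _ _ ENNReal.ofReal_ne_top, Measure.volume_eq_prod,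
          lintegral_prod_mul hm1.aemeasurable hm2.aemeasurable, h1, h2]
    _ = ENNReal.ofReal (C * A1 * A2 * T ^ ε) := by
        rw [← ENNReal.ofReal_mul hA1, ← ENNReal.ofReal_mul (by positivity)]
        congr 1
        ring

end Pool.Agent.PertQ
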