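import Pool.Agent.PertQ.Targets

set_option autoImplicit false

namespace Pool.Agent.PertQ

open MeasureTheory Set
open scoped ENNReal

theorem p_JEN : T_JEN := by
  intro α _ μ q k φ hq hk hφ
  rcases hq.eq_or_lt with h | h
  · subst h
    simp
  have hq0 : (0 : ℝ) < q := by linarith
  have hq1 : (0 : ℝ) < q - 1 := by linarith
  have hc : (q / (q - 1)).HolderConjugate q := by
    rw [Real.holderConjugate_iff]
    refine ⟨by rw [lt_div_iff₀ hq1]; linarith, ?_⟩
    field_simp
    ring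
  have e0 : ∀ x : ℝ≥0∞, x ^ (1 - 1 / q) * x ^ (1 / q) = x := by
    intro x
    rw [← ENNReal.rpow_add_of_nonneg]
    · rw [sub_add_cancel, ENNReal.rpow_one]
    · rw [sub_nonneg, div_le_one hq0]; exact h.le
    · positivity
  have key := ENNReal.lintegral_mul_le_Lp_mul_Lq μ hc
    (f := fun x => k x ^ (1 - 1 / q)) (g := fun x => k x ^ (1 / q) * φ x)
    (hk.pow_const _) ((hk.pow_const _).mul hφ)
  have e1 : ∀ x, ((fun x => k x ^ (1 - 1 / q)) * fun x => k x ^ (1 / q) * φ x) x = k x * φ x := by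
    intro x
    simp only [Pi.mul_apply]
    rw [← mul_assoc, e0]
  have e2 : ∀ x, (k x ^ (1 - 1 / q)) ^ (q / (q - 1)) = k x := by
    intro x
    rw [← ENNReal.rpow_mul]
    have : (1 - 1 / q) * (q / (q - 1)) = 1 := by field_simp
    rw [this, ENNReal.rpow_one]
  have e3 : ∀ x, (k x ^ (1 / q) * φ x) ^ q = k x * φ x ^ q := by
    intro x
    rw [ENNReal.mul_rpow_of_nonneg _ _ hq0.le, ← ENNReal.rpow_mul, one_div_mul_cancel hq0.ne',
      ENNReal.rpow_one]
  simp only [e1, e2, e3] at key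
  refine (ENNReal.rpow_le_rpow key hq0.le).trans ?_
  rw [ENNReal.mul_rpow_of_nonneg _ _ hq0.le, ← ENNReal.rpow_mul, ← ENNReal.rpow_mul,
    one_div_mul_cancel hq0.ne', ENNReal.rpow_one]
  have : 1 / (q / (q - 1)) * q = q - 1 := by field_simp
  rw [this]

end Pool.Agent.PertQ
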