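import Pool.Agent.PertQ.Targets
import Pool.Agent.PertZ.GBK

set_option autoImplicit false

/-!
# PertQ, block KER (MP_4e5e8a_nt, helper75): reproducing formula for the smoothed sums
-/

namespace Pool.Agent.PertQ

open MeasureTheory Set Complex Pool.Agent.CW Pool.Agent.DBN Pool.Agent.PertZ
open scoped ENNReal

namespace KER_

/-- the constant of the Fourier integral of the Gaussian -/
noncomputable def K : ℂ := (Real.pi / (2 : ℂ)) ^ (1 / 2 : ℂ)

lemma K_ne : K ≠ 0 := by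
  have h : (Real.pi / (2 : ℂ)) ≠ 0 := by
    have : (Real.pi : ℂ) ≠ 0 := by exact_mod_cast Real.pi_ne_zero
    exact div_ne_zero this two_ne_zero
  unfold K
  rw [Complex.cpow_def_of_ne_zero h]
  exact Complex.exp_ne_zero _

lemma pow_shift (n : ℕ) (t v : ℝ) :
    ((n + 1 : ℕ) : ℂ) ^ (-(1 / 2 + ((t - v : ℝ) : ℂ) * I) : ℂ) =
      ((n + 1 : ℕ) : ℂ) ^ (-(1 / 2 + t * I) : ℂ) *
        exp (((v * Real.log (n + 1 : ℝ) : ℝ) : ℂ) * I) := by
  have hn : ((n + 1 : ℕ) : ℂ) ≠ 0 := by exact_mod_cast Nat.succ_ne_zero n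
  have hlog : Complex.log ((n + 1 : ℕ) : ℂ) = ((Real.log (n + 1 : ℝ) : ℝ) : ℂ) := by
    rw [Complex.ofReal_log (by positivity)]
    push_cast
    rfl
  rw [Complex.cpow_def_of_ne_zero hn, Complex.cpow_def_of_ne_zero hn, hlog, ← Complex.exp_add]
  congr 1
  push_cast
  ring

lemma gauss_int : Integrable fun v : ℝ => Real.exp (-2 * v ^ 2) :=
  integrable_exp_neg_mul_sq (b := 2) (by norm_num)

lemma gauss_four (x : ℝ) : ∫ v : ℝ, ((Real.exp (-2 * v ^ 2) : ℝ) : ℂ) *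
    exp (((v * x : ℝ) : ℂ) * I) = K * ((Real.exp (-x ^ 2 / 8) : ℝ) : ℂ) := by
  have h := fourierIntegral_gaussian (b := 2) (by norm_num) (x : ℂ)
  have e1 : (∫ v : ℝ, ((Real.exp (-2 * v ^ 2) : ℝ) : ℂ) * exp (((v * x : ℝ) : ℂ) * I)) =
      ∫ v : ℝ, exp (I * x * v) * exp (-2 * (v : ℂ) ^ 2) := by
    refine integral_congr_ae (Filter.Eventually.of_forall fun v => ?_)
    simp only
    rw [Complex.ofReal_exp, mul_comm]
    congr 1
    · congr 1
      push_cast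
      ring
    · congr 1
      push_cast
      ring
  rw [e1, h]
  unfold K
  congr 1
  rw [Complex.ofReal_exp]
  congr 1
  push_cast
  ring

lemma two (u t : ℝ) : K * zsum (Real.exp u) t =
    ∫ v : ℝ, ((Real.exp (-2 * v ^ 2) : ℝ) : ℂ) * exp (((-(v * u) : ℝ) : ℂ) * I) *
      GBK_Z u (t - v) := by
  let G : ℕ → ℝ → ℂ := fun n v =>
    ((Real.exp (-2 * v ^ 2) : ℝ) : ℂ) * exp (((-(v * u) : ℝ) : ℂ) * I) *
      (((Real.exp (-(Real.log (n + 1 : ℝ) - u) ^ 2 / 8) : ℝ) : ℂ) *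
        ((n + 1 : ℕ) : ℂ) ^ (-(1 / 2 + ((t - v : ℝ) : ℂ) * I) : ℂ))
  have hGnorm : ∀ n v, ‖G n v‖ = Real.exp (-2 * v ^ 2) *
      ((n + 1 : ℝ) ^ (-(1 / 2) : ℝ) * Real.exp (-(Real.log (n + 1 : ℝ) - u) ^ 2 / 8)) := by
    intro n v
    show ‖_ * _‖ = _
    rw [norm_mul, norm_mul, norm_mul, GBK_norm_c, Complex.norm_exp_ofReal_mul_I, mul_one,
      Complex.norm_real, Real.norm_of_nonneg (Real.exp_pos _).le, Complex.norm_real,
      Real.norm_of_nonneg (Real.exp_pos _).le]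
    ring
  have hGform : ∀ n v, G n v = (((Real.exp (-(Real.log (n + 1 : ℝ) - u) ^ 2 / 8) : ℝ) : ℂ) *
      ((n + 1 : ℕ) : ℂ) ^ (-(1 / 2 + t * I) : ℂ)) *
      (((Real.exp (-2 * v ^ 2) : ℝ) : ℂ) *
        exp (((v * (Real.log (n + 1 : ℝ) - u) : ℝ) : ℂ) * I)) := by
    intro n v
    show _ * _ = _
    rw [pow_shift]
    have h1 : exp (((v * (Real.log (n + 1 : ℝ) - u) : ℝ) : ℂ) * I) =
        exp (((v * Real.log (n + 1 : ℝ) : ℝ) : ℂ) * I) * exp (((-(v * u) : ℝ) : ℂ) * I) := by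
      rw [← Complex.exp_add]
      congr 1
      push_cast
      ring
    rw [h1]
    ring
  have hGint : ∀ n, Integrable (G n) := by
    intro n
    have hc : Continuous (G n) := by
      have h1 : G n = fun v => (((Real.exp (-(Real.log (n + 1 : ℝ) - u) ^ 2 / 8) : ℝ) : ℂ) *
        ((n + 1 : ℕ) : ℂ) ^ (-(1 / 2 + t * I) : ℂ)) *
        (((Real.exp (-2 * v ^ 2) : ℝ) : ℂ) *
          exp (((v * (Real.log (n + 1 : ℝ) - u) : ℝ) : ℂ) * I)) := funext fun v => hGform n v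
      rw [h1]
      apply Continuous.mul continuous_const
      fun_prop
    refine (gauss_int.mul_const
      ((n + 1 : ℝ) ^ (-(1 / 2) : ℝ) * Real.exp (-(Real.log (n + 1 : ℝ) - u) ^ 2 / 8))).mono'
      hc.aestronglyMeasurable (Filter.Eventually.of_forall fun v => ?_)
    rw [hGnorm]
  have hGs : Summable fun n => ∫ v, ‖G n v‖ := by
    have h1 : (fun n => ∫ v, ‖G n v‖) = fun n : ℕ => (∫ v : ℝ, Real.exp (-2 * v ^ 2)) *
        ((n + 1 : ℝ) ^ (-(1 / 2) : ℝ) * Real.exp (-(Real.log (n + 1 : ℝ) - u) ^ 2 / 8)) := by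
      funext n
      simp only [hGnorm]
      rw [integral_mul_const]
    rw [h1]
    exact (GBK_sum u).mul_left _
  have h := hasSum_integral_of_summable_integral_norm hGint hGs
  have h2 : (fun v => ∑' n, G n v) = fun v : ℝ =>
      ((Real.exp (-2 * v ^ 2) : ℝ) : ℂ) * exp (((-(v * u) : ℝ) : ℂ) * I) *
        GBK_Z u (t - v) := by
    funext v
    rw [GBK_Z, ← tsum_mul_left]
  have h1 : (fun n => ∫ v, G n v) = fun n : ℕ => K *
      ((Real.exp (-(Real.log ((n + 1 : ℕ) / Real.exp u)) ^ 2 / 4) : ℂ) *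
        ((n + 1 : ℕ) : ℂ) ^ (-(1 / 2 + t * I) : ℂ)) := by
    funext n
    simp only [hGform]
    rw [integral_const_mul, gauss_four]
    have e1 : Real.log (((n + 1 : ℕ) : ℝ) / Real.exp u) = Real.log (n + 1 : ℝ) - u := by
      rw [Real.log_div (by positivity) (Real.exp_pos _).ne', Real.log_exp]
      push_cast
      rfl
    rw [e1]
    have e2 : ((Real.exp (-(Real.log (n + 1 : ℝ) - u) ^ 2 / 4) : ℝ) : ℂ) =
        ((Real.exp (-(Real.log (n + 1 : ℝ) - u) ^ 2 / 8) : ℝ) : ℂ) *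
          ((Real.exp (-(Real.log (n + 1 : ℝ) - u) ^ 2 / 8) : ℝ) : ℂ) := by
      rw [← Complex.ofReal_mul, ← Real.exp_add]
      congr 2
      ring
    rw [e2]
    ring
  rw [h1, h2] at h
  rw [← h.tsum_eq, tsum_mul_left]
  rfl

/-- the norm bounds in the extended nonnegative reals -/
lemma one_le (u T : ℝ) : ‖GBK_Z u T‖ₑ ≤
    ∫⁻ y : ℝ, ENNReal.ofReal (Real.exp (-y ^ 2 / 4)) * ‖zs (u + y) T‖ₑ := by
  have h1 : ‖GBK_Z u T‖ₑ ≤ ‖((√(2 * Real.pi) : ℝ) : ℂ) * GBK_Z u T‖ₑ := by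
    rw [← ofReal_norm, ← ofReal_norm]
    apply ENNReal.ofReal_le_ofReal
    rw [norm_mul, Complex.norm_real, Real.norm_of_nonneg (Real.sqrt_nonneg _)]
    have h2 : 1 ≤ √(2 * Real.pi) := by
      rw [Real.one_le_sqrt]
      have := Real.pi_gt_three
      linarith
    exact le_mul_of_one_le_left (norm_nonneg _) h2
  refine h1.trans ?_
  rw [GBK_Z_eq]
  refine (enorm_integral_le_lintegral_enorm _).trans (le_of_eq ?_)
  refine lintegral_congr fun y => ?_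
  rw [enorm_mul]
  congr 1
  rw [← ofReal_norm, Complex.norm_real, Real.norm_of_nonneg (Real.exp_pos _).le]

lemma two_le (u t : ℝ) : ‖zs u t‖ₑ ≤ ENNReal.ofReal ‖K‖⁻¹ *
    ∫⁻ v : ℝ, ENNReal.ofReal (Real.exp (-2 * v ^ 2)) * ‖GBK_Z u (t - v)‖ₑ := by
  have hK : 0 < ‖K‖ := norm_pos_iff.2 K_ne
  have h1 : ‖K * zsum (Real.exp u) t‖ₑ ≤
      ∫⁻ v : ℝ, ENNReal.ofReal (Real.exp (-2 * v ^ 2)) * ‖GBK_Z u (t - v)‖ₑ := by
    rw [two]
    refine (enorm_integral_le_lintegral_enorm _).trans (le_of_eq ?_)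
    refine lintegral_congr fun v => ?_
    rw [enorm_mul, enorm_mul]
    congr 1
    rw [← ofReal_norm, Complex.norm_real, Real.norm_of_nonneg (Real.exp_pos _).le,
      ← ofReal_norm (exp _), Complex.norm_exp_ofReal_mul_I, ENNReal.ofReal_one, mul_one]
  calc ‖zs u t‖ₑ = ENNReal.ofReal ‖K‖⁻¹ * ‖K * zsum (Real.exp u) t‖ₑ := by
        rw [enorm_mul, ← mul_assoc, ← ofReal_norm K, ← ENNReal.ofReal_mul (by positivity),
          inv_mul_cancel₀ hK.ne', ENNReal.ofReal_one, one_mul]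
        rfl
    _ ≤ _ := by gcongr

end KER_

open KER_ in
theorem p_KER (hcon : T_CON) : T_KER := by
  refine ⟨‖K‖⁻¹ * Real.exp (1 / 4), ?_⟩
  intro w r t hr
  have hr2 : r ^ 2 ≤ 1 := by
    have := abs_le.1 hr
    nlinarith
  have hmeas : Measurable fun p : ℝ × ℝ =>
      ENNReal.ofReal (Real.exp (-p.1 ^ 2 / 8 - p.2 ^ 2)) * ‖zs (w + p.1) (t - p.2)‖ₑ := by
    have hc : Continuous fun p : ℝ × ℝ => zs (w + p.1) (t - p.2) := by
      have h1 : Continuous fun p : ℝ × ℝ => (w + p.1, t - p.2) := by fun_prop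
      have h0 : Continuous fun p : ℝ × ℝ => zs p.1 p.2 := hcon
      have h2 := h0.comp h1
      simpa only [Function.comp_def] using h2
    refine Measurable.mul ?_ hc.enorm.measurable
    fun_prop
  have hprod : ∫⁻ p : ℝ × ℝ, ENNReal.ofReal (Real.exp (-p.1 ^ 2 / 8 - p.2 ^ 2)) *
      ‖zs (w + p.1) (t - p.2)‖ₑ = ∫⁻ v : ℝ, ∫⁻ y : ℝ,
        ENNReal.ofReal (Real.exp (-y ^ 2 / 8 - v ^ 2)) * ‖zs (w + y) (t - v)‖ₑ := by
    rw [Measure.volume_eq_prod, lintegral_prod_symm _ hmeas.aemeasurable]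
  rw [hprod]
  calc ‖zs (w + r) t‖ₑ ≤ ENNReal.ofReal ‖K‖⁻¹ * ∫⁻ v : ℝ,
        ENNReal.ofReal (Real.exp (-2 * v ^ 2)) * ‖GBK_Z (w + r) (t - v)‖ₑ := two_le _ _
    _ ≤ ENNReal.ofReal ‖K‖⁻¹ * ∫⁻ v : ℝ, ENNReal.ofReal (Real.exp (1 / 4)) *
        ∫⁻ y : ℝ, ENNReal.ofReal (Real.exp (-y ^ 2 / 8 - v ^ 2)) *
          ‖zs (w + y) (t - v)‖ₑ := by
        refine mul_le_mul_right (lintegral_mono fun v => ?_) _
        have h1 : ‖GBK_Z (w + r) (t - v)‖ₑ ≤
            ∫⁻ y : ℝ, ENNReal.ofReal (Real.exp (-(y - r) ^ 2 / 4)) * ‖zs (w + y) (t - v)‖ₑ := by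
          refine (one_le _ _).trans (le_of_eq ?_)
          rw [← lintegral_add_right_eq_self (fun y : ℝ =>
            ENNReal.ofReal (Real.exp (-(y - r) ^ 2 / 4)) * ‖zs (w + y) (t - v)‖ₑ) r]
          refine lintegral_congr fun y => ?_
          have e1 : y + r - r = y := by ring
          have e2 : w + (y + r) = w + r + y := by ring
          rw [e1, e2]
        calc ENNReal.ofReal (Real.exp (-2 * v ^ 2)) * ‖GBK_Z (w + r) (t - v)‖ₑ
            ≤ ENNReal.ofReal (Real.exp (-2 * v ^ 2)) *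
              ∫⁻ y : ℝ, ENNReal.ofReal (Real.exp (-(y - r) ^ 2 / 4)) *
                ‖zs (w + y) (t - v)‖ₑ := by gcongr
          _ = ∫⁻ y : ℝ, ENNReal.ofReal (Real.exp (-2 * v ^ 2)) *
              (ENNReal.ofReal (Real.exp (-(y - r) ^ 2 / 4)) * ‖zs (w + y) (t - v)‖ₑ) :=
              (lintegral_const_mul' _ _ ENNReal.ofReal_ne_top).symm
          _ ≤ ∫⁻ y : ℝ, ENNReal.ofReal (Real.exp (1 / 4)) *
              (ENNReal.ofReal (Real.exp (-y ^ 2 / 8 - v ^ 2)) * ‖zs (w + y) (t - v)‖ₑ) := by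
              refine lintegral_mono fun y => ?_
              rw [← mul_assoc, ← mul_assoc, ← ENNReal.ofReal_mul (Real.exp_pos _).le,
                ← ENNReal.ofReal_mul (Real.exp_pos _).le, ← Real.exp_add, ← Real.exp_add]
              refine mul_le_mul_left (ENNReal.ofReal_le_ofReal (Real.exp_le_exp.2 ?_)) _
              nlinarith [sq_nonneg (y - 2 * r), sq_nonneg v]
          _ = _ := lintegral_const_mul' _ _ ENNReal.ofReal_ne_top
    _ = _ := by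
        rw [lintegral_const_mul' _ _ ENNReal.ofReal_ne_top, ← mul_assoc,
          ENNReal.ofReal_mul (by positivity)]

end Pool.Agent.PertQ
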