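import Pool.Agent.PertQ.Targets2

/-!
# Target LYA: Lyapunov's inequality
-/

set_option autoImplicit false

namespace Pool.Agent.PertQ

open MeasureTheory Set Complex Pool.Agent.CW Pool.Agent.DBN Pool.Agent.PertZ
open scoped ENNReal

namespace LYA_

lemma pow_le {C X a s : ℝ} (hX : 0 < X) (hs : 0 ≤ s) {m : ℝ≥0∞}
    (hm : m ≤ ENNReal.ofReal (C * X ^ a)) :
    m ^ s ≤ ENNReal.ofReal (|C| ^ s * X ^ (a * s)) := by
  have h0 : 0 ≤ |C| * X ^ a := by positivity
  calc m ^ s ≤ ENNReal.ofReal (|C| * X ^ a) ^ s := by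
        refine ENNReal.rpow_le_rpow (hm.trans (ENNReal.ofReal_le_ofReal ?_)) hs
        gcongr
        exact le_abs_self C
    _ = ENNReal.ofReal (|C| ^ s * X ^ (a * s)) := by
        rw [ENNReal.ofReal_rpow_of_nonneg h0 hs, Real.mul_rpow (abs_nonneg C) (by positivity),
          ← Real.rpow_mul hX.le]

end LYA_

theorem p_LYA : T_LYA := by
  refine ⟨?_, ?_⟩
  · intro q r p θ A A' F hq hr hp h0 h1 hpqr hA hA' hF hQ hR ε hε
    obtain ⟨C₁, h₁⟩ := hQ ε hε
    obtain ⟨C₂, h₂⟩ := hR ε hε
    have hq0 : 0 < q := by linarith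
    have hr0 : 0 < r := by linarith
    have hp0 : 0 < p := by linarith
    have hθ : 0 ≤ 1 - θ := by linarith
    have hqs : q * ((1 - θ) * p / q) = (1 - θ) * p := by field_simp
    have hrs : r * (θ * p / r) = θ * p := by field_simp
    have hss : (1 - θ) * p / q + θ * p / r = 1 := by
      have : (1 - θ) * p / q + θ * p / r = p * ((1 - θ) / q + θ / r) := by ring
      rw [this, ← hpqr]
      field_simp
    have hs0 : 0 ≤ (1 - θ) * p / q := by positivity
    have hs'0 : 0 ≤ θ * p / r := by positivity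
    generalize (1 - θ) * p / q = s at hqs hss hs0
    generalize θ * p / r = s' at hrs hss hs'0
    refine ⟨|C₁| ^ s * |C₂| ^ s', fun X hX => ?_⟩
    have hX0 : 0 < X := by linarith
    have e1 : mm p X F ≤ (mm q X F) ^ s * (mm r X F) ^ s' := by
      unfold mm
      refine le_trans (le_of_eq ?_) (ENNReal.lintegral_mul_norm_pow_le
        (hF.enorm.pow_const q).aemeasurable (hF.enorm.pow_const r).aemeasurable hs0 hs'0 hss)
      refine lintegral_congr fun t => ?_
      rw [← ENNReal.rpow_mul, ← ENNReal.rpow_mul,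
        ← ENNReal.rpow_add_of_nonneg _ _ (by positivity) (by positivity), hqs, hrs]
      congr 1
      ring
    calc mm p X F ≤ (mm q X F) ^ s * (mm r X F) ^ s' := e1
      _ ≤ ENNReal.ofReal (|C₁| ^ s * X ^ ((1 + q * (A + ε)) * s)) *
          ENNReal.ofReal (|C₂| ^ s' * X ^ ((1 + r * (A' + ε)) * s')) :=
        mul_le_mul' (LYA_.pow_le hX0 hs0 (h₁ X hX)) (LYA_.pow_le hX0 hs'0 (h₂ X hX))
      _ = _ := by
        rw [← ENNReal.ofReal_mul (by positivity)]
        congr 1
        have e2 : (1 + q * (A + ε)) * s + (1 + r * (A' + ε)) * s' =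
            1 + p * ((1 - θ) * A + θ * A' + ε) := by
          linear_combination hss + (A + ε) * hqs + (A' + ε) * hrs
        rw [← e2, Real.rpow_add hX0]
        ring
  · intro q p θ A A' F hq hp h0 h1 hpq hA hA' hF hQ hE ε hε
    obtain ⟨C₁, h₁⟩ := hQ ε hε
    obtain ⟨C₂, h₂⟩ := hE ε hε
    have hq0 : 0 < q := by linarith
    have hp0 : 0 < p := by linarith
    have hqp : q = (1 - θ) * p := by
      field_simp at hpq
      linarith
    refine ⟨|C₁| * ((|C₂| * 3 ^ (A' + ε)) ^ (θ * p)), fun X hX => ?_⟩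
    have hX0 : 0 < X := by linarith
    have hs0 : 0 ≤ θ * p := by positivity
    have e1 : mm p X F ≤ ENNReal.ofReal (|C₂| * (3 * X) ^ (A' + ε)) ^ (θ * p) * mm q X F := by
      unfold mm
      rw [← lintegral_const_mul _ (hF.enorm.pow_const q)]
      refine setLIntegral_mono ((hF.enorm.pow_const q).const_mul _) fun t ht => ?_
      have hp1 : p = θ * p + q := by rw [hqp]; ring
      conv_lhs => rw [hp1]
      rw [ENNReal.rpow_add_of_nonneg _ _ hs0 hq0.le]
      gcongr
      rw [← ofReal_norm]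
      refine ENNReal.ofReal_le_ofReal ((h₂ t).trans ?_)
      have ht0 : 0 ≤ t := hX0.le.trans ht.1
      have ht2 := ht.2
      have hA'ε : 0 ≤ A' + ε := by linarith
      rw [abs_of_nonneg ht0]
      calc C₂ * (1 + t) ^ (A' + ε) ≤ |C₂| * (1 + t) ^ (A' + ε) := by
            gcongr
            exact le_abs_self C₂
        _ ≤ |C₂| * (3 * X) ^ (A' + ε) := by
            gcongr
            linarith
    have e3 : mm q X F ≤ ENNReal.ofReal (|C₁| * X ^ (1 + q * (A + ε))) := by
      refine (h₁ X hX).trans (ENNReal.ofReal_le_ofReal ?_)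
      gcongr
      exact le_abs_self C₁
    calc mm p X F ≤ ENNReal.ofReal (|C₂| * (3 * X) ^ (A' + ε)) ^ (θ * p) * mm q X F := e1
      _ ≤ ENNReal.ofReal (|C₂| * (3 * X) ^ (A' + ε)) ^ (θ * p) *
          ENNReal.ofReal (|C₁| * X ^ (1 + q * (A + ε))) := by gcongr
      _ = _ := by
        rw [ENNReal.ofReal_rpow_of_nonneg (by positivity) hs0,
          ← ENNReal.ofReal_mul (by positivity)]
        congr 1
        have e2 : (A' + ε) * (θ * p) + (1 + q * (A + ε)) =
            1 + p * ((1 - θ) * A + θ * A' + ε) := by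
          rw [hqp]
          ring
        have e4 : (|C₂| * (3 * X) ^ (A' + ε)) ^ (θ * p) =
            (|C₂| * 3 ^ (A' + ε)) ^ (θ * p) * X ^ ((A' + ε) * (θ * p)) := by
          rw [Real.mul_rpow (by norm_num) hX0.le, ← mul_assoc,
            Real.mul_rpow (by positivity) (by positivity), ← Real.rpow_mul hX0.le]
        rw [← e2, Real.rpow_add hX0 ((A' + ε) * (θ * p)) (1 + q * (A + ε)), e4]
        ring

end Pool.Agent.PertQ
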