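import Pool.Agent.PertQ.Targets

set_option autoImplicit false

/-! PertQ, MAX: maximal function of the smoothed sums. -/

namespace Pool.Agent.PertQ

open MeasureTheory Set Complex Pool.Agent.CW Pool.Agent.DBN Pool.Agent.PertZ
open scoped ENNReal

namespace MAX_

/-- the substitution `(y, v) ↦ (w + y, t - v)` -/
theorem subst (w t : ℝ) (g : ℝ × ℝ → ℝ≥0∞) :
    ∫⁻ p : ℝ × ℝ, g (w + p.1, t - p.2) = ∫⁻ p : ℝ × ℝ, g p := by
  have hmp : MeasurePreserving (Prod.map (fun y : ℝ => w + y) (fun v : ℝ => t - v))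
      (volume : Measure (ℝ × ℝ)) volume :=
    (measurePreserving_add_left volume w).prod (volume.measurePreserving_sub_left t)
  have hem : MeasurableEmbedding (Prod.map (fun y : ℝ => w + y) (fun v : ℝ => t - v)) :=
    ((MeasurableEquiv.addLeft w).prodCongr (MeasurableEquiv.subLeft t)).measurableEmbedding
  exact hmp.lintegral_comp_emb hem g

theorem expo {c τ : ℝ} (w₀ t₀ w t a b : ℝ) (hc : 0 < c) (hτ : 0 < τ) :
    -(a - w) ^ 2 / 8 - (t - b) ^ 2 ≤ (2 * c ^ 2 + τ ^ 2 / 4) +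
      (c * |w - w₀| + τ * |t - t₀|) + (-(c * |a - w₀|) - τ * |b - t₀|) := by
  have h1 : |a - w₀| ≤ |a - w| + |w - w₀| := abs_sub_le _ _ _
  have h2 : |b - t₀| ≤ |t - b| + |t - t₀| := by
    rw [abs_sub_comm t b]
    exact abs_sub_le _ _ _
  have h3 : (a - w) ^ 2 = |a - w| ^ 2 := (sq_abs _).symm
  have h4 : (t - b) ^ 2 = |t - b| ^ 2 := (sq_abs _).symm
  rw [h3, h4]
  have h5 := mul_le_mul_of_nonneg_left h1 hc.le
  have h6 := mul_le_mul_of_nonneg_left h2 hτ.le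
  nlinarith [sq_nonneg (|a - w| - 4 * c), sq_nonneg (|t - b| - τ / 2)]

end MAX_

open MAX_ in
theorem p_MAX (h_KER : T_KER) : T_MAX := by
  obtain ⟨C0, h0⟩ := h_KER
  intro c τ hc hτ
  refine ⟨|C0| * Real.exp (2 * c ^ 2 + τ ^ 2 / 4), ?_⟩
  intro w₀ t₀ w t
  have h1 := h0 w 0 t (by simp)
  simp only [add_zero] at h1
  have h2 : ∫⁻ p : ℝ × ℝ, ENNReal.ofReal (Real.exp (-p.1 ^ 2 / 8 - p.2 ^ 2)) *
      ‖zs (w + p.1) (t - p.2)‖ₑ = ∫⁻ p : ℝ × ℝ,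
        ENNReal.ofReal (Real.exp (-(p.1 - w) ^ 2 / 8 - (t - p.2) ^ 2)) * ‖zs p.1 p.2‖ₑ := by
    rw [← subst w t (fun p => ENNReal.ofReal (Real.exp (-(p.1 - w) ^ 2 / 8 - (t - p.2) ^ 2)) *
      ‖zs p.1 p.2‖ₑ)]
    refine lintegral_congr fun p => ?_
    simp only [add_sub_cancel_left, sub_sub_cancel]
  rw [h2] at h1
  set L : ℝ := c * |w - w₀| + τ * |t - t₀| with hL
  calc ‖zs w t‖ₑ ≤ ENNReal.ofReal C0 * ∫⁻ p : ℝ × ℝ,
        ENNReal.ofReal (Real.exp (-(p.1 - w) ^ 2 / 8 - (t - p.2) ^ 2)) * ‖zs p.1 p.2‖ₑ := h1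
    _ ≤ ENNReal.ofReal |C0| * ∫⁻ p : ℝ × ℝ,
        ENNReal.ofReal (Real.exp (2 * c ^ 2 + τ ^ 2 / 4) * Real.exp L) *
        (ENNReal.ofReal (Real.exp (-(c * |p.1 - w₀|) - τ * |p.2 - t₀|)) * ‖zs p.1 p.2‖ₑ) := by
        refine mul_le_mul' (ENNReal.ofReal_le_ofReal (le_abs_self _))
          (lintegral_mono fun p => ?_)
        simp only []
        rw [← mul_assoc, ← ENNReal.ofReal_mul (by positivity), ← Real.exp_add, ← Real.exp_add]
        exact mul_le_mul' (ENNReal.ofReal_le_ofReal (Real.exp_le_exp.2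
          (expo w₀ t₀ w t p.1 p.2 hc hτ))) le_rfl
    _ = ENNReal.ofReal (|C0| * Real.exp (2 * c ^ 2 + τ ^ 2 / 4) * Real.exp L) *
        ∫⁻ p : ℝ × ℝ, ENNReal.ofReal (Real.exp (-(c * |p.1 - w₀|) - τ * |p.2 - t₀|)) *
        ‖zs p.1 p.2‖ₑ := by
        rw [lintegral_const_mul' _ _ ENNReal.ofReal_ne_top, ← mul_assoc,
          ← ENNReal.ofReal_mul (abs_nonneg _), mul_assoc |C0|]

end Pool.Agent.PertQ
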