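import Pool.Agent.PertQ.Targets
import Pool.Agent.Ben.P_SUML

/-!
# MVQ: mean values of the smoothed sums
-/

set_option autoImplicit false

namespace Pool.Agent.PertQ

open MeasureTheory Set Complex Pool.Agent.CW Pool.Agent.DBN Pool.Agent.PertZ
open scoped ENNReal

namespace MVQ_

/-- upper bound of the moment by an integral -/
theorem mm_le {k : ℕ} {X R : ℝ} (hX : 0 ≤ X) {F : ℝ → ℂ} {g : ℝ → ℝ} (hg : Continuous g)
    (h : ∀ t ∈ Icc X (2 * X), ‖F t‖ ^ (2 * k) ≤ g t) (hR : ∫ t in X..(2 * X), g t ≤ R) :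
    mm (2 * k) X F ≤ ENNReal.ofReal R := by
  have h1 : mm (2 * k) X F ≤ ∫⁻ t in Icc X (2 * X), ENNReal.ofReal (g t) := by
    refine setLIntegral_mono' measurableSet_Icc fun t ht => ?_
    rw [← ofReal_norm, ENNReal.ofReal_rpow_of_nonneg (norm_nonneg _) (by positivity)]
    refine ENNReal.ofReal_le_ofReal (le_trans (le_of_eq ?_) (h t ht))
    rw [← Real.rpow_natCast]
    push_cast
    rfl
  refine h1.trans ?_
  have h2 : IntegrableOn g (Icc X (2 * X)) := hg.continuousOn.integrableOn_Icc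
  have h3 : 0 ≤ᵐ[volume.restrict (Icc X (2 * X))] g := by
    refine ae_restrict_of_forall_mem measurableSet_Icc fun t ht => ?_
    exact (pow_nonneg (norm_nonneg (F t)) (2 * k)).trans (h t ht)
  rw [← ofReal_integral_eq_lintegral_ofReal h2 h3, integral_Icc_eq_integral_Ioc,
    ← intervalIntegral.integral_of_le (by linarith)]
  exact ENNReal.ofReal_le_ofReal hR

/-- the crude case -/
theorem mm_const {k : ℕ} {X B : ℝ} (hX : 0 ≤ X) {F : ℝ → ℂ}
    (h : ∀ t ∈ Icc X (2 * X), ‖F t‖ ≤ B) : mm (2 * k) X F ≤ ENNReal.ofReal (X * B ^ (2 * k)) := by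
  refine mm_le hX (g := fun _ => B ^ (2 * k)) continuous_const (fun t ht => ?_) ?_
  · exact pow_le_pow_left₀ (norm_nonneg _) (h t ht) _
  · rw [intervalIntegral.integral_const, smul_eq_mul]
    refine le_of_eq ?_
    ring

theorem gs_cont (M : ℕ) (y : ℝ) : Continuous fun s : ℝ => Pool.Agent.Ben.gs M s y := by
  unfold Pool.Agent.Ben.gs Pool.Agent.Ben.e
  fun_prop

/-- the integral of the Gaussian sums in the variable `t / (2 π)` -/
theorem gs_int {k : ℕ} {η C₀ : ℝ}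
    (hC₀ : ∀ (T y : ℝ) (M : ℕ), 1 ≤ T → 1 ≤ M →
      ∫ t in T..(2 * T), ‖Pool.Agent.Ben.gs M t y‖ ^ (2 * k) ≤
        C₀ * (M : ℝ) ^ (k + η) * (T + (M : ℝ) ^ k))
    {X : ℝ} (hX : 2 * Real.pi ≤ X) (y : ℝ) {M : ℕ} (hM : 1 ≤ M) :
    ∫ t in X..(2 * X), ‖Pool.Agent.Ben.gs M (t / (2 * Real.pi)) y‖ ^ (2 * k) ≤
      2 * Real.pi * (|C₀| * (M : ℝ) ^ (k + η) * (X + (M : ℝ) ^ k)) := by
  have hpi := Real.pi_gt_three
  have hc : (2 * Real.pi) ≠ 0 := by positivity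
  have e1 := intervalIntegral.integral_comp_div (a := X) (b := 2 * X)
    (fun s => ‖Pool.Agent.Ben.gs M s y‖ ^ (2 * k)) hc
  rw [e1, smul_eq_mul]
  have hT : 1 ≤ X / (2 * Real.pi) := by
    rw [le_div_iff₀ (by positivity)]
    linarith
  have hT2 : X / (2 * Real.pi) ≤ X := div_le_self (by linarith) (by linarith)
  have e2 : 2 * X / (2 * Real.pi) = 2 * (X / (2 * Real.pi)) := by ring
  rw [e2]
  refine mul_le_mul_of_nonneg_left ((hC₀ _ y M hT hM).trans ?_) (by positivity)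
  have h0 : 0 ≤ (M : ℝ) ^ (k + η) := by positivity
  have h1 : C₀ * (M : ℝ) ^ (k + η) ≤ |C₀| * (M : ℝ) ^ (k + η) :=
    mul_le_mul_of_nonneg_right (le_abs_self _) h0
  refine mul_le_mul h1 (by linarith) (by positivity) (by positivity)

/-- the size of the bound -/
theorem size {k : ℕ} (hk : 1 ≤ k) {b ε η a X N : ℝ} {M : ℕ} (hb1 : b ≤ 1)
    (hη0 : 0 < η) (hη1 : η ≤ 1) (hη2 : η ≤ ε / 8) (ha0 : 0 ≤ a)
    (ha : (k : ℝ) * b ≤ 1 + 2 * k * a) (hX : 2 ≤ X) (hN1 : 1 ≤ N) (hN2 : N ≤ X ^ (b + η))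
    (hM : (M : ℝ) ≤ N * X ^ (2 * η)) :
    (M : ℝ) ^ (k + η) * (X + (M : ℝ) ^ k) ≤ N ^ k * (2 * X ^ (1 + 2 * k * (a + ε))) := by
  have hX0 : 0 < X := by linarith
  have hX1 : 1 ≤ X := by linarith
  have hN0 : 0 < N := by linarith
  have hkR : (1 : ℝ) ≤ k := by exact_mod_cast hk
  have hM0 : (0 : ℝ) ≤ M := Nat.cast_nonneg M
  have h1 : (M : ℝ) ^ (k + η) ≤ N ^ k * X ^ (2 * η + 2 * η * (k + η)) := by
    have h2 : (M : ℝ) ^ (k + η) ≤ (N * X ^ (2 * η)) ^ (k + η) :=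
      Real.rpow_le_rpow hM0 hM (by positivity)
    refine h2.trans ?_
    rw [Real.mul_rpow hN0.le (by positivity), Real.rpow_add hN0, Real.rpow_natCast,
      ← Real.rpow_mul hX0.le, mul_assoc]
    refine mul_le_mul_of_nonneg_left ?_ (by positivity)
    rw [Real.rpow_add hX0]
    refine mul_le_mul_of_nonneg_right ?_ (by positivity)
    calc N ^ η ≤ (X ^ (b + η)) ^ η := Real.rpow_le_rpow hN0.le hN2 hη0.le
      _ = X ^ ((b + η) * η) := (Real.rpow_mul hX0.le _ _).symm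
      _ ≤ X ^ (2 * η) := Real.rpow_le_rpow_of_exponent_le hX1 (by nlinarith)
  have h3 : X + (M : ℝ) ^ k ≤ 2 * X ^ (1 + 2 * k * a + 3 * k * η) := by
    have h4 : X ≤ X ^ (1 + 2 * k * a + 3 * k * η) := by
      calc X = X ^ (1 : ℝ) := (Real.rpow_one X).symm
        _ ≤ _ := Real.rpow_le_rpow_of_exponent_le hX1 (by
          have : 0 ≤ 2 * (k : ℝ) * a + 3 * k * η := by positivity
          linarith)
    have h5 : (M : ℝ) ^ k ≤ X ^ (1 + 2 * k * a + 3 * k * η) := by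
      calc (M : ℝ) ^ k ≤ (N * X ^ (2 * η)) ^ k := pow_le_pow_left₀ hM0 hM k
        _ ≤ (X ^ (b + η) * X ^ (2 * η)) ^ k := by
          refine pow_le_pow_left₀ (by positivity) ?_ k
          exact mul_le_mul_of_nonneg_right hN2 (by positivity)
        _ = X ^ ((b + η + 2 * η) * k) := by
          rw [← Real.rpow_add hX0, ← Real.rpow_natCast, ← Real.rpow_mul hX0.le]
        _ ≤ _ := Real.rpow_le_rpow_of_exponent_le hX1 (by linarith)
    linarith
  calc (M : ℝ) ^ (k + η) * (X + (M : ℝ) ^ k) ≤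
        (N ^ k * X ^ (2 * η + 2 * η * (k + η))) * (2 * X ^ (1 + 2 * k * a + 3 * k * η)) :=
        mul_le_mul h1 h3 (by positivity) (by positivity)
    _ = N ^ k * (2 * X ^ (2 * η + 2 * η * (k + η) + (1 + 2 * k * a + 3 * k * η))) := by
        rw [Real.rpow_add hX0 (2 * η + 2 * η * (k + η))]
        ring
    _ ≤ _ := by
        refine mul_le_mul_of_nonneg_left (mul_le_mul_of_nonneg_left
          (Real.rpow_le_rpow_of_exponent_le hX1 ?_) (by norm_num)) (by positivity)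
        have h6 : η * η ≤ k * η := mul_le_mul_of_nonneg_right (hη1.trans hkR) hη0.le
        have h7 : η ≤ k * η := le_mul_of_one_le_left hη0.le hkR
        have h8 : (k : ℝ) * η ≤ k * (ε / 8) := mul_le_mul_of_nonneg_left hη2 (by positivity)
        have h9 : 0 ≤ (k : ℝ) * ε := by
          have : 0 < ε := by linarith
          positivity
        nlinarith

end MVQ_

open MVQ_

theorem p_MVQ (h_GK : T_GK) (h_TAIL : Pool.Agent.Ben.T_TAIL) : T_MVQ := by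
  intro k hk b hb0 hb1 ε hε
  have hpi := Real.pi_gt_three
  have hpi0 := Real.pi_pos
  have hkR : (1 : ℝ) ≤ k := by exact_mod_cast hk
  obtain ⟨η, hη0, hη1, hη2⟩ : ∃ η : ℝ, 0 < η ∧ η ≤ 1 ∧ η ≤ ε / 8 :=
    ⟨min 1 (ε / 8), lt_min one_pos (by positivity), min_le_left _ _, min_le_right _ _⟩
  obtain ⟨T₀, hT₀⟩ := h_TAIL η hη0
  obtain ⟨C₀, hC₀⟩ := h_GK k hk η hη0
  obtain ⟨a, had, ha0, ha⟩ : ∃ a : ℝ, max 0 (b / 2 - 1 / (2 * (k : ℝ))) = a ∧ 0 ≤ a ∧
      (k : ℝ) * b ≤ 1 + 2 * k * a := by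
    refine ⟨_, rfl, le_max_left _ _, ?_⟩
    have h1 : b / 2 - 1 / (2 * (k : ℝ)) ≤ max 0 (b / 2 - 1 / (2 * (k : ℝ))) := le_max_right _ _
    have h2 := mul_le_mul_of_nonneg_left h1 (by positivity : (0 : ℝ) ≤ 2 * k)
    have h3 : 2 * (k : ℝ) * (b / 2 - 1 / (2 * (k : ℝ))) = k * b - 1 := by
      field_simp
    linarith
  rw [had]
  have hS := Pool.Agent.DBN.Nw.S32_nonneg
  obtain ⟨S, hSd, hS0⟩ : ∃ S : ℝ, Real.exp 1 * Pool.Agent.DBN.Nw.S32 = S ∧ 0 ≤ S :=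
    ⟨_, rfl, by positivity⟩
  obtain ⟨X₁, hX₁a, hX₁b⟩ : ∃ X₁ : ℝ, T₀ ≤ X₁ ∧ 2 * Real.pi ≤ X₁ :=
    ⟨max T₀ (2 * Real.pi), le_max_left _ _, le_max_right _ _⟩
  have hX₁0 : 0 < X₁ := by linarith
  obtain ⟨D, hD, hD0⟩ : ∃ D : ℝ, Real.exp (1 / 4) ^ (2 * k) * 2 ^ (2 * k) = D ∧ 0 < D :=
    ⟨_, rfl, by positivity⟩
  obtain ⟨C, hCa, hCb, hCc⟩ : ∃ C : ℝ, X₁ * (S * X₁ ^ 2) ^ (2 * k) ≤ C ∧
      (S * Real.exp 1) ^ (2 * k) ≤ C ∧ D * (4 * Real.pi * |C₀| + 1) ≤ C := by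
    refine ⟨X₁ * (S * X₁ ^ 2) ^ (2 * k) + (S * Real.exp 1) ^ (2 * k) +
      D * (4 * Real.pi * |C₀| + 1), ?_, ?_, ?_⟩ <;>
    · have h1 : 0 ≤ X₁ * (S * X₁ ^ 2) ^ (2 * k) := by positivity
      have h2 : 0 ≤ (S * Real.exp 1) ^ (2 * k) := by positivity
      have h3 : 0 ≤ D * (4 * Real.pi * |C₀| + 1) := by positivity
      linarith
  refine ⟨η, hη0, C, fun X N hX2 hNl hNu => ?_⟩
  have hX0 : 0 < X := by linarith
  have hX1 : 1 ≤ X := by linarith
  have hN0 : 0 < N := lt_of_lt_of_le (by positivity) hNl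
  have hz := Pool.Agent.DBN.Nw.norm_zsum_le hN0
  rw [hSd] at hz
  have hC0 : 0 ≤ C := le_trans (by positivity) hCb
  have hexp0 : 0 ≤ 2 * (k : ℝ) * (a + ε) := by positivity
  have hXE : X ≤ X ^ (1 + 2 * k * (a + ε)) := by
    calc X = X ^ (1 : ℝ) := (Real.rpow_one X).symm
      _ ≤ _ := Real.rpow_le_rpow_of_exponent_le hX1 (by linarith)
  have hNX2 : N ≤ X ^ 2 := by
    calc N ≤ X ^ (b + η) := hNu
      _ ≤ X ^ (2 : ℝ) := Real.rpow_le_rpow_of_exponent_le hX1 (by linarith)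
      _ = X ^ 2 := Real.rpow_two X
  rcases le_total X X₁ with hXX | hXX
  · have h1 : ∀ t ∈ Icc X (2 * X), ‖zsum N t‖ ≤ S * X₁ ^ 2 := by
      intro t _
      refine (hz t).trans (mul_le_mul_of_nonneg_left (hNX2.trans ?_) hS0)
      exact pow_le_pow_left₀ hX0.le hXX 2
    refine (mm_const hX0.le h1).trans (ENNReal.ofReal_le_ofReal ?_)
    have h2 : X * (S * X₁ ^ 2) ^ (2 * k) ≤ X₁ * (S * X₁ ^ 2) ^ (2 * k) :=
      mul_le_mul_of_nonneg_right hXX (by positivity)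
    refine (h2.trans hCa).trans ?_
    exact le_mul_of_one_le_right hC0 (hX1.trans hXE)
  rcases le_total N (Real.exp 1) with hNe | hNe
  · have h1 : ∀ t ∈ Icc X (2 * X), ‖zsum N t‖ ≤ S * Real.exp 1 := fun t _ =>
      (hz t).trans (mul_le_mul_of_nonneg_left hNe hS0)
    refine (mm_const hX0.le h1).trans (ENNReal.ofReal_le_ofReal ?_)
    rw [mul_comm]
    exact mul_le_mul hCb hXE hX0.le hC0
  -- the main case
  obtain ⟨N₁, hN₁⟩ : ∃ N₁ : ℝ, N / Real.exp 1 = N₁ := ⟨_, rfl⟩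
  have he1 : (2 : ℝ) ≤ Real.exp 1 := by
    have := Real.add_one_le_exp (1 : ℝ)
    linarith
  have hN₁1 : 1 ≤ N₁ := by
    rw [← hN₁, le_div_iff₀ (Real.exp_pos _)]
    linarith
  have hN1 : 1 ≤ N := by linarith
  have hN₁2 : 2 * N₁ ≤ N := by
    have : N = N₁ * Real.exp 1 := by
      rw [← hN₁]
      field_simp
    nlinarith
  have hXd : 1 ≤ (2 * X) ^ η := Real.one_le_rpow (by linarith) hη0.le
  have hNXd : 1 ≤ N₁ * (2 * X) ^ η := by nlinarith
  obtain ⟨M, hM⟩ : ∃ M : ℕ, ⌈N₁ * (2 * X) ^ η⌉₊ = M := ⟨_, rfl⟩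
  have hM1 : N₁ * (2 * X) ^ η ≤ M := by
    rw [← hM]
    exact Nat.le_ceil _
  have hM2 : (M : ℝ) < N₁ * (2 * X) ^ η + 1 := by
    rw [← hM]
    exact Nat.ceil_lt_add_one (by positivity)
  have h2X : (2 * X) ^ η ≤ X ^ (2 * η) := by
    calc (2 * X) ^ η ≤ (X * X) ^ η := Real.rpow_le_rpow (by positivity) (by nlinarith) hη0.le
      _ = X ^ (2 * η) := by
        rw [Real.mul_rpow hX0.le hX0.le, ← Real.rpow_add hX0]
        congr 1
        ring
  have hM3 : (M : ℝ) ≤ N * X ^ (2 * η) := by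
    calc (M : ℝ) ≤ 2 * N₁ * (2 * X) ^ η := by linarith
      _ ≤ N * X ^ (2 * η) := mul_le_mul hN₁2 h2X (by positivity) hN0.le
  have hM4 : 1 ≤ M := by
    have : (1 : ℝ) ≤ M := hNXd.trans hM1
    exact_mod_cast this
  obtain ⟨y, hy⟩ : ∃ y : ℝ, Real.log (N / Real.exp 1) = y := ⟨_, rfl⟩
  have hNk : 0 < N ^ k := by positivity
  have hpt : ∀ t ∈ Icc X (2 * X), ‖zsum N t‖ ^ (2 * k) ≤
      D / N ^ k * (‖Pool.Agent.Ben.gs M (t / (2 * Real.pi)) y‖ ^ (2 * k) +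
        (X ^ η) ^ (2 * k)) := by
    intro t ht
    have ht0 : 0 < t := lt_of_lt_of_le hX0 ht.1
    have hMt : N₁ * t ^ η ≤ (M : ℝ) + 1 := by
      have h1 : t ^ η ≤ (2 * X) ^ η := Real.rpow_le_rpow ht0.le ht.2 hη0.le
      have h2 : N₁ * t ^ η ≤ N₁ * (2 * X) ^ η :=
        mul_le_mul_of_nonneg_left h1 (by linarith)
      linarith
    obtain ⟨hs, hB⟩ := hT₀ t N₁ ((hX₁a.trans hXX).trans ht.1) hN₁1 M hMt
    rw [← hN₁] at hs hB
    have hmain := Pool.Agent.Ben.SUML_split hN0 t M (le_refl _) hs hB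
    have hgs : (∑ n ∈ Finset.Icc 1 M, Pool.Agent.Ben.e (t / (2 * Real.pi) * Real.log n) *
        (Real.exp (-(Real.log n - Real.log (N / Real.exp 1)) ^ 2 / 4) : ℝ)) =
        Pool.Agent.Ben.gs M (t / (2 * Real.pi)) y := by
      rw [← hy]
      rfl
    rw [hgs] at hmain
    have h5 : N / Real.exp 1 / t ≤ X ^ η := by
      rw [hN₁, div_le_iff₀ ht0]
      have h6 : N₁ ≤ N := by linarith
      have h7 : N ≤ X ^ η * X := by
        calc N ≤ X ^ (b + η) := hNu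
          _ ≤ X ^ (η + 1) := Real.rpow_le_rpow_of_exponent_le hX1 (by linarith)
          _ = X ^ η * X := by rw [Real.rpow_add hX0, Real.rpow_one]
      have h8 : X ^ η * X ≤ X ^ η * t := mul_le_mul_of_nonneg_left ht.1 (by positivity)
      linarith
    have hsN : 0 < √N := Real.sqrt_pos.2 hN0
    have h9 : ‖zsum N t‖ ≤ Real.exp (1 / 4) / √N *
        (‖Pool.Agent.Ben.gs M (t / (2 * Real.pi)) y‖ + X ^ η) :=
      hmain.trans (mul_le_mul_of_nonneg_left (by linarith) (by positivity))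
    refine (pow_le_pow_left₀ (norm_nonneg _) h9 (2 * k)).trans ?_
    have h10 : (‖Pool.Agent.Ben.gs M (t / (2 * Real.pi)) y‖ + X ^ η) ^ (2 * k) ≤
        2 ^ (2 * k) * (‖Pool.Agent.Ben.gs M (t / (2 * Real.pi)) y‖ ^ (2 * k) +
          (X ^ η) ^ (2 * k)) := by
      refine (add_pow_le (norm_nonneg _) (by positivity) (2 * k)).trans ?_
      refine mul_le_mul_of_nonneg_right ?_ (by positivity)
      exact pow_le_pow_right₀ (by norm_num) (by omega)
    have h11 : (Real.exp (1 / 4) / √N) ^ (2 * k) = Real.exp (1 / 4) ^ (2 * k) / N ^ k := by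
      rw [div_pow, pow_mul (√N), Real.sq_sqrt hN0.le]
    rw [mul_pow, h11, ← hD]
    calc Real.exp (1 / 4) ^ (2 * k) / N ^ k *
          (‖Pool.Agent.Ben.gs M (t / (2 * Real.pi)) y‖ + X ^ η) ^ (2 * k) ≤
          Real.exp (1 / 4) ^ (2 * k) / N ^ k *
          (2 ^ (2 * k) * (‖Pool.Agent.Ben.gs M (t / (2 * Real.pi)) y‖ ^ (2 * k) +
            (X ^ η) ^ (2 * k))) := mul_le_mul_of_nonneg_left h10 (by positivity)
      _ = _ := by ring
  have hcg : Continuous fun t : ℝ => ‖Pool.Agent.Ben.gs M (t / (2 * Real.pi)) y‖ ^ (2 * k) :=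
    (((gs_cont M y).comp (continuous_id.div_const _)).norm).pow _
  refine mm_le hX0.le (g := fun t => D / N ^ k *
    (‖Pool.Agent.Ben.gs M (t / (2 * Real.pi)) y‖ ^ (2 * k) + (X ^ η) ^ (2 * k)))
    (continuous_const.mul (hcg.add continuous_const)) hpt ?_
  rw [intervalIntegral.integral_const_mul, intervalIntegral.integral_add
    (hcg.intervalIntegrable _ _) (continuous_const.intervalIntegrable _ _),
    intervalIntegral.integral_const, smul_eq_mul]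
  have hI := gs_int hC₀ (hX₁b.trans hXX) y hM4
  have hsz := size hk hb1 hη0 hη1 hη2 ha0 ha hX2 hN1 hNu hM3
  obtain ⟨E, hE⟩ : ∃ E : ℝ, X ^ (1 + 2 * k * (a + ε)) = E := ⟨_, rfl⟩
  rw [hE] at hsz ⊢
  have hE0 : 0 ≤ E := by
    rw [← hE]
    positivity
  have hI2 : ∫ t in X..(2 * X), ‖Pool.Agent.Ben.gs M (t / (2 * Real.pi)) y‖ ^ (2 * k) ≤
      N ^ k * (4 * Real.pi * |C₀| * E) := by
    refine hI.trans ?_
    calc 2 * Real.pi * (|C₀| * (M : ℝ) ^ (k + η) * (X + (M : ℝ) ^ k)) =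
          2 * Real.pi * |C₀| * ((M : ℝ) ^ (k + η) * (X + (M : ℝ) ^ k)) := by ring
      _ ≤ 2 * Real.pi * |C₀| * (N ^ k * (2 * E)) :=
        mul_le_mul_of_nonneg_left hsz (by positivity)
      _ = _ := by ring
  have hJ : (2 * X - X) * (X ^ η) ^ (2 * k) ≤ N ^ k * E := by
    have h1 : (2 * X - X) * (X ^ η) ^ (2 * k) = X ^ (1 + η * (2 * k)) := by
      rw [Real.rpow_add hX0, Real.rpow_one, Real.rpow_mul hX0.le, ← Real.rpow_natCast]
      push_cast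
      ring
    have h2 : X ^ (1 + η * (2 * k)) ≤ E := by
      rw [← hE]
      refine Real.rpow_le_rpow_of_exponent_le hX1 ?_
      have h3 : 2 * (k : ℝ) * η ≤ 2 * k * (a + ε) :=
        mul_le_mul_of_nonneg_left (by linarith) (by positivity)
      linarith
    rw [h1]
    refine h2.trans (le_mul_of_one_le_left hE0 ?_)
    exact one_le_pow₀ hN1
  calc D / N ^ k * ((∫ t in X..(2 * X),
        ‖Pool.Agent.Ben.gs M (t / (2 * Real.pi)) y‖ ^ (2 * k)) +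
        (2 * X - X) * (X ^ η) ^ (2 * k)) ≤
        D / N ^ k * (N ^ k * (4 * Real.pi * |C₀| * E) + N ^ k * E) :=
        mul_le_mul_of_nonneg_left (add_le_add hI2 hJ) (by positivity)
    _ = D * (4 * Real.pi * |C₀| + 1) * E := by
        field_simp
    _ ≤ C * E := mul_le_mul_of_nonneg_right hCc hE0

end Pool.Agent.PertQ
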