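import Pool.Agent.PertZ.FinL
import Pool.Agent.PertZ.TLR
import Pool.Agent.PertZ.FIK
import Pool.Agent.PertZ.BL
import Pool.Agent.PertZ.REP
import Pool.Agent.PertZ.SUPI
import Pool.Agent.PertZ.ZST
import Pool.Agent.PertZ.SMA
import Pool.Agent.PertZ.SBD
import Pool.Agent.PertZ.DET2
import Pool.Agent.PertZ.HOE
import Pool.Agent.PertZ.FLU
import Pool.Agent.PertZ.MEX
import Pool.Agent.PertZ.WOR1
import Pool.Agent.PertZ.WOR2
import Pool.Agent.PertZ.PQ2
import Pool.Agent.PertZ.PR1T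
import Pool.Agent.PertZ.PLOGT
import Pool.Agent.PertZ.PR2T
import Pool.Agent.PertZ.PEU
import Pool.Agent.PertZ.PFL
import Pool.Agent.PertZ.PRIT
import Pool.Agent.PertZ.FIL
import Pool.Agent.PertZ.BLV
import Pool.Agent.PertZ.REV
import Pool.Agent.PertZ.HP
import Pool.Agent.PertZ.DETX
import Pool.Agent.PertZ.GAP
import Pool.Agent.PertZ.GAPL
import Pool.Agent.PertZ.DETY
import Pool.Agent.PertZ.BLW
import Pool.Agent.PertZ.REVK
import Pool.Agent.PertZ.LPS
import Pool.Agent.PertZ.TRF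
import Pool.Agent.PertZ.GSF
import Pool.Agent.PertZ.GSB
import Pool.Agent.PertZ.GZL
import Pool.Agent.PertZ.BLG
import Pool.Agent.PertZ.GBK
import Pool.Agent.PertZ.GID

/-!
# The pointwise exponent (the column `q = ∞`)
-/

set_option autoImplicit false

namespace Pool.Agent.PertQ

open Complex MeasureTheory ProbabilityTheory Set Pool.Agent.CW Pool.Agent.PertZ

/-- the set of growth exponents of a function is a closed half line -/
lemma exponent (F : ℝ → ℂ) (A₀ : ℝ) (h0 : 0 ≤ A₀) (h : ExpLe A₀ F) : ∃ e : ℝ, 0 ≤ e ∧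
    ∀ A : ℝ, 0 ≤ A → (ExpLe A F ↔ e ≤ A) := by
  have hne : {A : ℝ | 0 ≤ A ∧ ExpLe A F}.Nonempty := ⟨A₀, h0, h⟩
  have hbd : BddBelow {A : ℝ | 0 ≤ A ∧ ExpLe A F} := ⟨0, fun x hx => hx.1⟩
  refine ⟨sInf {A : ℝ | 0 ≤ A ∧ ExpLe A F}, Real.sInf_nonneg (fun x hx => hx.1), fun A hA =>
    ⟨fun h1 => csInf_le hbd ⟨hA, h1⟩, fun h1 ε hε => ?_⟩⟩
  obtain ⟨m, hm, hlt⟩ := exists_lt_of_csInf_lt hne
    (show sInf {A : ℝ | 0 ≤ A ∧ ExpLe A F} < A + ε / 2 by linarith)
  obtain ⟨C, hC⟩ := hm.2 (ε / 2) (by linarith)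
  refine ⟨max C 0, fun t => (hC t).trans ?_⟩
  have h2 : (1 : ℝ) ≤ 1 + |t| := by linarith [abs_nonneg t]
  calc C * (1 + |t|) ^ (m + ε / 2) ≤ max C 0 * (1 + |t|) ^ (m + ε / 2) :=
        mul_le_mul_of_nonneg_right (le_max_left _ _) (by positivity)
    _ ≤ max C 0 * (1 + |t|) ^ (A + ε) :=
        mul_le_mul_of_nonneg_left (Real.rpow_le_rpow_of_exponent_le h2 (by linarith))
          (le_max_right _ _)

/-- the exponent for `q = ∞` -/
theorem old : ∃ e : ℝ → ℝ,
    (∀ B : ℝ, 1 / 2 < B → 0 ≤ e B ∧ ∀ A : ℝ, 0 ≤ A → (ExpLe A (Dl B) ↔ e B ≤ A)) ∧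
    (∀ B B' : ℝ, 1 / 2 < B → B ≤ B' → e B ≤ e B' ∧ e B' ≤ e B + (1 - B / B')) ∧
    (∀ B A : ℝ, 2 ≤ B → 0 ≤ A → (e B ≤ A ↔ LineBound A)) ∧
    (∀ B A : ℝ, 1 / 2 < B → 0 ≤ A → (e B ≤ A ↔
      ∀ b : ℝ, 0 ≤ b → b ≤ 1 → Pool.Agent.DBN.SumLe b (A + max 0 (1 - B * b)))) ∧
    (∀ B : ℝ, 1 ≤ B → e B ≤ (1 - 1 / B) / 2) ∧
    ∀ B : ℝ, 1 / 2 < B → B ≤ 1 → e B = 0 := by
  have zst := p_ZST
  have sma := p_SMA
  have bl := p_BL p_FIK
  have supi := p_SUPI p_REP
  have det2 : P_DET2 := p_DET2 p_TLR zst (p_SBD bl supi zst) sma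
  have flu : P_FLU := @p_FLU @p_HOE
  have detx : P_DETX := p_DETX zst (p_BLV p_FIL) (p_HP p_REV) sma
  have gap : P_GAP := @p_GAP @flu @p_MEX sma
  have gapl : P_GAPL := @p_GAPL @flu @p_MEX sma
  have dety : P_DETY := p_DETY zst (p_BLV p_FIL) (p_HP p_REV) sma
  have trf : P_TRF := p_TRF p_TLR zst (p_BLW p_FIL) (p_LPS p_REVK) sma
  have hx : ∀ B : ℝ, 1 / 2 < B → ExpLe (max 0 (0 + 1 / 2 * (1 - 1 / B))) (Dl B) := fun B hB =>
    detx B (1 / 2) 0 hB (by norm_num) le_rfl FINL_one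
  have hex : ∀ B : ℝ, ∃ e : ℝ, 1 / 2 < B → 0 ≤ e ∧ ∀ A : ℝ, 0 ≤ A → (ExpLe A (Dl B) ↔ e ≤ A) := by
    intro B
    by_cases hB : 1 / 2 < B
    · obtain ⟨e, he0, he⟩ := exponent (Dl B) _ (le_max_left _ _) (hx B hB)
      exact ⟨e, fun _ => ⟨he0, he⟩⟩
    · exact ⟨0, fun h => absurd h hB⟩
  choose e he using hex
  have hself : ∀ B : ℝ, 1 / 2 < B → ExpLe (e B) (Dl B) := fun B hB =>
    ((he B hB).2 _ (he B hB).1).mpr le_rfl
  have htwo : ∀ B A : ℝ, 2 < B → 0 ≤ A → (e B ≤ A ↔ LineBound A) := by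
    intro B A hB2 hA
    have hB : 1 / 2 < B := by linarith
    rw [← (he B hB).2 A hA]
    constructor
    · intro h
      exact det2 B A hB2 hA h
    · intro h
      have h' : LineAt (1 / 2 + 0) A := by
        rw [add_zero]
        exact (FINL_mu hA).mpr h
      have := detx B 0 A hB le_rfl (by norm_num) h'
      simpa [max_eq_right hA] using this
  have hmono : ∀ B B' : ℝ, 1 / 2 < B → B ≤ B' → e B ≤ e B' ∧ e B' ≤ e B + (1 - B / B') := by
    intro B B' hB hBB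
    have hB' : 1 / 2 < B' := by linarith
    have hB0 : 0 < B := by linarith
    have hB0' : 0 < B' := by linarith
    have h1 := trf B B' (e B') hB hB' (he B' hB').1 (hself B' hB')
    have h2 := trf B' B (e B) hB' hB (he B hB).1 (hself B hB)
    have e1 : max 0 (1 - B' / B) = 0 := by
      apply max_eq_left
      rw [sub_nonpos, one_le_div hB0]
      exact hBB
    have e2 : max 0 (1 - B / B') = 1 - B / B' := by
      apply max_eq_right
      rw [sub_nonneg, div_le_one hB0']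
      exact hBB
    rw [e1, add_zero] at h1
    rw [e2] at h2
    refine ⟨((he B hB).2 _ (he B' hB').1).mp h1, ((he B' hB').2 _ ?_).mp h2⟩
    have : 0 ≤ 1 - B / B' := by rw [← e2]; exact le_max_left _ _
    linarith [(he B hB).1]
  have gsf : P_GSF := p_GSF p_BLG zst sma
  have gsb : P_GSB := p_GSB p_GBK (p_GID sma) (p_GZL p_BLG)
  have htwo' : ∀ B A : ℝ, 2 ≤ B → 0 ≤ A → (e B ≤ A ↔ LineBound A) := by
    intro B A hB2 hA0
    rcases eq_or_lt_of_le hB2 with h | h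
    · subst h
      constructor
      · intro h
        have hA : 0 ≤ A := (he 2 (by norm_num)).1.trans h
        -- use the exponents slightly above `2`
        intro ε hε
        obtain ⟨B, hB, hBε⟩ : ∃ B : ℝ, 2 < B ∧ 1 - 2 / B ≤ ε / 2 := by
          refine ⟨2 + min 1 ε, by linarith [lt_min one_pos hε], ?_⟩
          have h3 : 0 < min 1 ε := lt_min one_pos hε
          have h4 : min 1 ε ≤ ε := min_le_right _ _
          rw [show (1 : ℝ) - 2 / (2 + min 1 ε) = min 1 ε / (2 + min 1 ε) by field_simp; ring]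
          rw [div_le_div_iff₀ (by linarith) (by norm_num)]
          nlinarith
        have h5 : e B ≤ A + ε / 2 := by linarith [(hmono 2 B (by norm_num) hB.le).2]
        obtain ⟨C, hC⟩ := (htwo B (A + ε / 2) hB (by linarith)).mp h5 (ε / 2) (by linarith)
        refine ⟨C, fun t => ?_⟩
        have := hC t
        rwa [show A + ε / 2 + ε / 2 = A + ε by ring] at this
      · intro h
        exact (hmono 2 3 (by norm_num) (by norm_num)).1.trans ((htwo 3 A (by norm_num) hA0).mpr h)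
    · exact htwo B A h hA0
  refine ⟨e, he, hmono, htwo', ?_, ?_, ?_⟩
  · intro B A hB hA
    rw [← (he B hB).2 A hA]
    exact ⟨fun h => gsf B A hB hA h, fun h => gsb B A hB hA h⟩
  · intro B hB1
    have hB : 1 / 2 < B := by linarith
    have h1 := ((he B hB).2 _ (le_max_left _ _)).mp (hx B hB)
    have h2 : max 0 (0 + 1 / 2 * (1 - 1 / B)) = (1 - 1 / B) / 2 := by
      rw [max_eq_right]
      · ring
      · have : 1 / B ≤ 1 := by
          rw [div_le_one (by linarith)]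
          exact hB1
        linarith
    rwa [h2] at h1
  · intro B hB hB1
    have h1 := ((he B hB).2 _ (le_max_left _ _)).mp (hx B hB)
    have h2 : max 0 (0 + 1 / 2 * (1 - 1 / B)) = 0 := by
      apply max_eq_left
      have : 1 ≤ 1 / B := by
        rw [le_div_iff₀ (by linarith)]
        linarith
      linarith
    rw [h2] at h1
    exact le_antisymm h1 (he B hB).1

end Pool.Agent.PertQ
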