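import Pool.Agent.PertQ.Targets
import Pool.Agent.DBN.WinSumE

/-! REFP: reflection of the smoothed sums, pointwise. -/

set_option autoImplicit false

namespace Pool.Agent.PertQ

open MeasureTheory Set Complex Pool.Agent.CW Pool.Agent.DBN Pool.Agent.PertZ
open scoped ENNReal

theorem p_REFP : T_REFP := by
  obtain ⟨C, T₀, hC, hT₀, H⟩ := win_zsum
  refine ⟨C ^ 2 + C, T₀ + Real.exp 60, by linarith [Real.exp_pos 60],
    fun t N ht hN1 hN2 => ?_⟩
  have hpi := Real.pi_pos
  have hexp := Real.exp_pos 60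
  have ht0 : 0 < t := by linarith
  have ht1 : 1 ≤ t := by linarith
  set T : ℝ := t + Real.pi / 8 with hT
  have hTt : t ≤ T := by linarith
  have hT0 : 0 < T := by linarith
  have hN0 : 0 < N := lt_of_lt_of_le (Real.rpow_pos_of_pos ht0 _) hN1
  obtain ⟨hp0, hp2⟩ := Nw.log_two_pi
  have hlt : 60 ≤ Real.log t := by
    rw [Real.le_log_iff_exp_le ht0]
    linarith
  have hlT : Real.log t ≤ Real.log T := Real.log_le_log ht0 hTt
  have h1 : -(1 / 30) * Real.log t ≤ Real.log N := by
    rw [← Real.log_rpow ht0]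
    exact Real.log_le_log (Real.rpow_pos_of_pos ht0 _) hN1
  have h2 : Real.log N ≤ (1 + 1 / 30) * Real.log t := by
    rw [← Real.log_rpow ht0]
    exact Real.log_le_log hN0 hN2
  set M : ℝ := √(T / (2 * Real.pi)) with hM
  have hM0 : 0 < M := Real.sqrt_pos.2 (by positivity)
  have hMM : M * M = T / (2 * Real.pi) := Real.mul_self_sqrt (by positivity)
  have hlM : Real.log M = (Real.log T - Real.log (2 * Real.pi)) / 2 := by
    rw [hM, Real.log_sqrt (by positivity), Real.log_div hT0.ne' (by positivity)]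
  set ω : ℝ := Real.log (N / M) with hω
  have hωe : ω = Real.log N - Real.log M := by rw [hω, Real.log_div hN0.ne' hM0.ne']
  have hωa : |ω| ≤ 11 / 20 * Real.log T := by
    rw [hωe, hlM, abs_le]
    constructor <;> linarith
  have e1 : Real.exp ω * M = N := by
    rw [hω, Real.exp_log (by positivity)]
    field_simp
  have e2 : Real.exp (-ω) * M = T / (2 * Real.pi * N) := by
    rw [Real.exp_neg, hω, Real.exp_log (by positivity), inv_div, div_mul_eq_mul_div, hMM]
    field_simp
  have e3 : T - Real.pi / 8 = t := by rw [hT]; ring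
  have hTT : T₀ ≤ T := by linarith
  have a1 := (H T ω hTT hωa).2
  have a2 := (H T (-ω) hTT (by rw [abs_neg]; exact hωa)).1
  rw [norm_win_neg] at a2
  rw [← hM, e1, e3] at a1
  rw [← hM, e2, e3] at a2
  have hs : 0 < size T := by rw [size]; positivity
  have hT1 : T ^ (-(1 / 20) : ℝ) ≤ 1 :=
    Real.rpow_le_one_of_one_le_of_nonpos (by linarith) (by norm_num)
  have hZ := norm_nonneg (zsum (T / (2 * Real.pi * N)) t)
  set Z : ℝ := ‖zsum (T / (2 * Real.pi * N)) t‖ with hZd
  have hC0 : 0 < C := by linarith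
  have a2' : ‖win ω T‖ ≤ C * size T * (Z + 1) := a2.trans (by gcongr)
  have a3 : size T * ‖zsum N t‖ ≤ size T * ((C ^ 2 + C) * (Z + 1)) := by
    calc size T * ‖zsum N t‖ ≤ C * (‖win ω T‖ + size T * T ^ (-(1 / 20) : ℝ)) := a1
      _ ≤ C * (C * size T * (Z + 1) + size T * 1) := by gcongr
      _ = size T * (C ^ 2 * (Z + 1) + C) := by ring
      _ ≤ _ := by
          gcongr
          nlinarith
  exact le_of_mul_le_mul_left a3 hs

end Pool.Agent.PertQ
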