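import Pool.Agent.PertQ.Targets
import Pool.Agent.DBN.WinSumC

set_option autoImplicit false

/-!
# PertQ: REFQ, reflection in the mean
-/

namespace Pool.Agent.PertQ

open MeasureTheory Set Complex Pool.Agent.CW Pool.Agent.DBN Pool.Agent.PertZ
open scoped ENNReal

namespace REFQ_

/-- the constant in the `q`-th power of a bound `C (x + 1)` -/
noncomputable def kc (q C : ℝ) : ℝ≥0∞ := ENNReal.ofReal |C| ^ q * 2 ^ (q - 1)

theorem kc_ne_top (q C : ℝ) (hq : 1 ≤ q) : kc q C ≠ ⊤ := by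
  have h1 : ENNReal.ofReal |C| ^ q ≠ ⊤ :=
    ENNReal.rpow_ne_top_of_nonneg (by linarith) ENNReal.ofReal_ne_top
  have h2 : (2 : ℝ≥0∞) ^ (q - 1) ≠ ⊤ :=
    ENNReal.rpow_ne_top_of_nonneg (by linarith) (by simp)
  exact ENNReal.mul_ne_top h1 h2

theorem pt (q C : ℝ) (hq : 1 ≤ q) (z u : ℂ) (h : ‖z‖ ≤ C * (‖u‖ + 1)) :
    ‖z‖ₑ ^ q ≤ kc q C * (‖u‖ₑ ^ q + 1) := by
  have h1 : ‖z‖ₑ ≤ ENNReal.ofReal |C| * (‖u‖ₑ + 1) := by
    have h2 : ‖z‖ ≤ |C| * (‖u‖ + 1) :=
      h.trans (mul_le_mul_of_nonneg_right (le_abs_self C) (by positivity))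
    calc ‖z‖ₑ = ENNReal.ofReal ‖z‖ := (ofReal_norm z).symm
      _ ≤ ENNReal.ofReal (|C| * (‖u‖ + 1)) := ENNReal.ofReal_le_ofReal h2
      _ = ENNReal.ofReal |C| * (‖u‖ₑ + 1) := by
          rw [ENNReal.ofReal_mul (abs_nonneg C), ENNReal.ofReal_add (norm_nonneg u) zero_le_one,
            ENNReal.ofReal_one, ofReal_norm]
  have hq0 : 0 ≤ q := by linarith
  calc ‖z‖ₑ ^ q ≤ (ENNReal.ofReal |C| * (‖u‖ₑ + 1)) ^ q := ENNReal.rpow_le_rpow h1 hq0
    _ = ENNReal.ofReal |C| ^ q * (‖u‖ₑ + 1) ^ q := ENNReal.mul_rpow_of_nonneg _ _ hq0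
    _ ≤ ENNReal.ofReal |C| ^ q * (2 ^ (q - 1) * (‖u‖ₑ ^ q + 1 ^ q)) := by
        gcongr
        exact ENNReal.rpow_add_le_mul_rpow_add_rpow _ _ hq
    _ = kc q C * (‖u‖ₑ ^ q + 1) := by
        rw [ENNReal.one_rpow, kc, mul_assoc]

theorem vol (X : ℝ) : volume (Icc X (2 * X)) = ENNReal.ofReal X := by
  rw [Real.volume_Icc]
  congr 1
  ring

theorem intg (q C X : ℝ) (hq : 1 ≤ q) (f g : ℝ → ℂ)
    (h : ∀ t ∈ Icc X (2 * X), ‖f t‖ ≤ C * (‖g t‖ + 1)) :
    mm q X f ≤ kc q C * ((∫⁻ t in Icc X (2 * X), ‖g t‖ₑ ^ q) + ENNReal.ofReal X) := by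
  calc mm q X f ≤ ∫⁻ t in Icc X (2 * X), kc q C * (‖g t‖ₑ ^ q + 1) :=
        setLIntegral_mono' measurableSet_Icc (fun t ht => pt q C hq _ _ (h t ht))
    _ = kc q C * ∫⁻ t in Icc X (2 * X), (‖g t‖ₑ ^ q + 1) :=
        lintegral_const_mul' _ _ (kc_ne_top q C hq)
    _ = kc q C * ((∫⁻ t in Icc X (2 * X), ‖g t‖ₑ ^ q) + ENNReal.ofReal X) := by
        rw [lintegral_add_right _ measurable_const, setLIntegral_const, vol, one_mul]

theorem small (q D X : ℝ) (hq : 1 ≤ q) (f : ℝ → ℂ)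
    (h : ∀ t, ‖f t‖ ≤ D) : mm q X f ≤ ENNReal.ofReal (D ^ q * X) := by
  have hD : 0 ≤ D := (norm_nonneg _).trans (h 0)
  have hq0 : 0 ≤ q := by linarith
  calc mm q X f ≤ ∫⁻ _t in Icc X (2 * X), ENNReal.ofReal (D ^ q) := by
        refine setLIntegral_mono' measurableSet_Icc (fun t _ => ?_)
        rw [← ofReal_norm, ENNReal.ofReal_rpow_of_nonneg (norm_nonneg _) hq0]
        exact ENNReal.ofReal_le_ofReal (Real.rpow_le_rpow (norm_nonneg _) (h t) hq0)
    _ = ENNReal.ofReal (D ^ q * X) := by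
        rw [setLIntegral_const, vol, ← ENNReal.ofReal_mul (Real.rpow_nonneg hD q)]

/-- the inequalities between the exponents -/
theorem expo {b δ₁ δ δ₂ L l w w' n : ℝ} (hb0 : 0 ≤ b) (hb1 : b ≤ 1) (hδ₁ : 0 < δ₁)
    (hδ : δ ≤ δ₁ / 4) (hδ₂ : δ₂ = δ₁ / 4) (hL : 2 * (3 + δ₁) / δ₁ ≤ L)
    (hl1 : L - 1 ≤ l) (hl2 : l ≤ L + 1) {c : ℝ} (hc0 : 0 ≤ c) (hc2 : c ≤ 2)
    (hw : w = L - n - c) (hn1 : (1 - b - δ) * L ≤ n) (hn2 : n ≤ (1 - b + δ) * L)
    (hw1 : |w' - w| ≤ δ₂ * L) : (b - δ₁) * l ≤ w' ∧ w' ≤ (b + δ₁) * l := by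
  obtain ⟨h1, h2⟩ := abs_le.1 hw1
  have hL0 : 0 < L := lt_of_lt_of_le (by positivity) hL
  have h3 : 2 * (3 + δ₁) ≤ L * δ₁ := by
    rw [div_le_iff₀ hδ₁] at hL
    linarith
  have h4 : δ * L ≤ δ₁ / 4 * L := mul_le_mul_of_nonneg_right hδ hL0.le
  have h5 : (b + δ₁) * (L - 1) ≤ (b + δ₁) * l :=
    mul_le_mul_of_nonneg_left hl1 (by linarith)
  have h6 : (b - δ₁) * l ≤ (b - δ₁) * L + (1 + δ₁) := by
    have h7 : (b - δ₁) * (l - L) ≤ |b - δ₁| * |l - L| := by
      rw [← abs_mul]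
      exact le_abs_self _
    have h8 : |l - L| ≤ 1 := abs_le.2 ⟨by linarith, by linarith⟩
    have h9 : |b - δ₁| ≤ 1 + δ₁ := abs_le.2 ⟨by linarith, by linarith⟩
    have h10 : |b - δ₁| * |l - L| ≤ (1 + δ₁) * 1 :=
      mul_le_mul h9 h8 (abs_nonneg _) (by linarith)
    nlinarith
  subst hδ₂
  constructor
  · nlinarith
  · nlinarith

end REFQ_

open REFQ_ in
theorem p_REFQ (h_AVG : T_AVG) (h_REFP : T_REFP) : T_REFQ := by
  intro q b a hq hb0 hb1 ha hS ε hε
  obtain ⟨δ₁, hδ₁, C₁, hC₁⟩ := hS ε hε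
  obtain ⟨CR, T₀, hT₀, hR⟩ := h_REFP
  obtain ⟨CA, hA⟩ := h_AVG q (δ₁ / 4) hq (by positivity)
  have hq0 : 0 ≤ q := by linarith
  set e : ℝ := 1 + q * (a + ε) with he
  have he1 : 1 ≤ e := by
    have : 0 ≤ q * (a + ε) := by positivity
    linarith
  set δ : ℝ := min (δ₁ / 4) (1 / 30) with hδ
  have hδ0 : 0 < δ := by
    rw [hδ]
    positivity
  have hδa : δ ≤ δ₁ / 4 := min_le_left _ _
  have hδb : δ ≤ 1 / 30 := min_le_right _ _
  -- the threshold
  set X₀ : ℝ := max (max T₀ 4) (Real.exp (2 * (3 + δ₁) / δ₁)) with hX₀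
  -- the crude bound
  set D : ℝ := |Real.exp 1 * Nw.S32| with hD
  have hDn : 0 ≤ D := abs_nonneg _
  have hcr : ∀ N T : ℝ, 0 < N → ‖zsum N T‖ ≤ D * N := fun N T hN =>
    (Nw.norm_zsum_le hN T).trans (mul_le_mul_of_nonneg_right (le_abs_self _) hN.le)
  set k : ℝ := (kc q CR).toReal with hk
  have hk0 : 0 ≤ k := ENNReal.toReal_nonneg
  have hkk : kc q CR = ENNReal.ofReal k := (ENNReal.ofReal_toReal (kc_ne_top q CR hq)).symm
  set Cbig : ℝ := k * (|CA| * (|C₁| * 2 ^ e + 1) + 1) with hCbig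
  set Csm : ℝ := (D * X₀ ^ (2 : ℝ)) ^ q with hCsm
  have hCbig0 : 0 ≤ Cbig := by positivity
  have hX₀4 : 4 ≤ X₀ := (le_max_right T₀ 4).trans (le_max_left _ _)
  have hCsm0 : 0 ≤ Csm := by positivity
  refine ⟨δ, hδ0, Cbig + Csm, ?_⟩
  intro X N hX hN1 hN2
  have hX0 : 0 < X := by linarith
  have hX1 : 1 ≤ X := by linarith
  have hN0 : 0 < N := lt_of_lt_of_le (Real.rpow_pos_of_pos hX0 _) hN1
  have hXe : 0 ≤ X ^ e := Real.rpow_nonneg hX0.le e
  have hXXe : X ≤ X ^ e := by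
    calc X = X ^ (1 : ℝ) := (Real.rpow_one X).symm
      _ ≤ X ^ e := Real.rpow_le_rpow_of_exponent_le hX1 he1
  have h1Xe : 1 ≤ X ^ e := hX1.trans hXXe
  rcases lt_or_ge X X₀ with hlt | hge
  · -- small heights
    have h1 : ∀ t, ‖zsum N t‖ ≤ D * X₀ ^ (2 : ℝ) := by
      intro t
      refine (hcr N t hN0).trans (mul_le_mul_of_nonneg_left ?_ hDn)
      calc N ≤ X ^ (1 - b + δ) := hN2
        _ ≤ X ^ (2 : ℝ) := Real.rpow_le_rpow_of_exponent_le hX1 (by linarith)
        _ ≤ X₀ ^ (2 : ℝ) := Real.rpow_le_rpow hX0.le hlt.le (by norm_num)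
    refine (small q _ X hq _ h1).trans (ENNReal.ofReal_le_ofReal ?_)
    calc (D * X₀ ^ (2 : ℝ)) ^ q * X = Csm * X := by rw [hCsm]
      _ ≤ Csm * X ^ e := mul_le_mul_of_nonneg_left hXXe hCsm0
      _ ≤ (Cbig + Csm) * X ^ e := mul_le_mul_of_nonneg_right (by linarith) hXe
  · -- large heights
    have hXT : T₀ ≤ X := ((le_max_left T₀ 4).trans (le_max_left _ _)).trans hge
    have hX4 : 4 ≤ X := hX₀4.trans hge
    have hLX : 2 * (3 + δ₁) / δ₁ ≤ Real.log X := by
      rw [Real.le_log_iff_exp_le hX0]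
      exact (le_max_right _ _).trans hge
    set L : ℝ := Real.log X with hL
    have hL0 : 0 < L := Real.log_pos (by linarith)
    set w : ℝ := Real.log (X / (2 * Real.pi * N)) + 1 / 2 with hw
    have hpi : 0 < Real.pi := Real.pi_pos
    have hlogw : w = L - Real.log N - (Real.log (2 * Real.pi) - 1 / 2) := by
      rw [hw, Real.log_div hX0.ne' (by positivity), Real.log_mul (by positivity) hN0.ne']
      ring
    have hc1 : 1 ≤ Real.log (2 * Real.pi) := by
      rw [Real.le_log_iff_exp_le (by positivity)]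
      have := Real.exp_one_lt_d9
      have := Real.pi_gt_three
      linarith
    have hc2 : Real.log (2 * Real.pi) ≤ 2 := by
      rw [Real.log_le_iff_le_exp (by positivity)]
      have h1 := Real.exp_one_gt_d9
      have h2 := Real.pi_lt_d2
      have h3 : Real.exp 2 = Real.exp 1 * Real.exp 1 := by
        rw [← Real.exp_add]
        norm_num
      rw [h3]
      nlinarith
    have hn1 : (1 - b - δ) * L ≤ Real.log N := by
      have := Real.log_le_log (Real.rpow_pos_of_pos hX0 _) hN1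
      rwa [Real.log_rpow hX0] at this
    have hn2 : Real.log N ≤ (1 - b + δ) * L := by
      have := Real.log_le_log hN0 hN2
      rwa [Real.log_rpow hX0] at this
    -- the function r
    set r : ℝ → ℝ := fun t => if t ∈ Icc X (2 * X) then
      Real.log ((t + Real.pi / 8) / X) - 1 / 2 else 0 with hr
    have hr1 : ∀ t, |r t| ≤ 1 := by
      intro t
      simp only [hr]
      split_ifs with ht
      · have h1 : 1 ≤ (t + Real.pi / 8) / X := by
          rw [le_div_iff₀ hX0]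
          linarith [ht.1]
        have h2 : (t + Real.pi / 8) / X ≤ 2.2 := by
          rw [div_le_iff₀ hX0]
          have := Real.pi_lt_four
          linarith [ht.2]
        have h3 : 0 ≤ Real.log ((t + Real.pi / 8) / X) := Real.log_nonneg h1
        have h4 : Real.log ((t + Real.pi / 8) / X) ≤ 1 := by
          rw [Real.log_le_iff_le_exp (by linarith)]
          have := Real.exp_one_gt_d9
          linarith
        exact abs_le.2 ⟨by linarith, by linarith⟩
      · simp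
    have hkey : ∀ t ∈ Icc X (2 * X), ‖zsum N t‖ ≤ CR * (‖zs (w + r t) t‖ + 1) := by
      intro t ht
      have h1 : (t + Real.pi / 8) / (2 * Real.pi * N) = Real.exp (w + r t) := by
        have h2 : w + r t = Real.log (X / (2 * Real.pi * N)) +
            Real.log ((t + Real.pi / 8) / X) := by
          simp only [hr, if_pos ht]
          rw [hw]
          ring
        have htp : 0 < t + Real.pi / 8 := by linarith [ht.1]
        rw [h2, Real.exp_add, Real.exp_log (by positivity), Real.exp_log (by positivity)]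
        field_simp
      have ht0 : 0 < t := lt_of_lt_of_le hX0 ht.1
      have h3 : t ^ (-(1 / 30) : ℝ) ≤ N := by
        calc t ^ (-(1 / 30) : ℝ) ≤ X ^ (-(1 / 30) : ℝ) :=
              Real.rpow_le_rpow_of_nonpos hX0 ht.1 (by norm_num)
          _ ≤ X ^ (1 - b - δ) := Real.rpow_le_rpow_of_exponent_le hX1 (by linarith)
          _ ≤ N := hN1
      have h4 : N ≤ t ^ (1 + 1 / 30 : ℝ) := by
        calc N ≤ X ^ (1 - b + δ) := hN2
          _ ≤ X ^ (1 + 1 / 30 : ℝ) := Real.rpow_le_rpow_of_exponent_le hX1 (by linarith)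
          _ ≤ t ^ (1 + 1 / 30 : ℝ) := Real.rpow_le_rpow hX0.le ht.1 (by norm_num)
      have h5 := hR t N (hXT.trans ht.1) h3 h4
      rw [h1] at h5
      exact h5
    -- AVG
    have hw2 : w ≤ 2 * Real.log X := by
      rw [hlogw, ← hL]
      have h1 : δ * L ≤ 1 * L := mul_le_mul_of_nonneg_right (by linarith) hL0.le
      have h2 : b * L ≤ 1 * L := mul_le_mul_of_nonneg_right hb1 hL0.le
      nlinarith
    set Jr : ℝ := |C₁| * (2 * X) ^ e with hJr
    have hJr0 : 0 ≤ Jr := by positivity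
    have hJ : ∀ w' Y : ℝ, |w' - w| ≤ δ₁ / 4 * Real.log X → X / 2 ≤ Y → Y ≤ 2 * X →
        mm q Y (zs w') ≤ ENNReal.ofReal Jr := by
      intro w' Y hw' hY1 hY2
      have hY0 : 0 < Y := by linarith
      have hl1 : L - 1 ≤ Real.log Y := by
        have h1 : Real.log (X / 2) ≤ Real.log Y := Real.log_le_log (by positivity) hY1
        rw [Real.log_div hX0.ne' (by norm_num)] at h1
        have := Real.log_two_lt_d9
        linarith
      have hl2 : Real.log Y ≤ L + 1 := by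
        have h1 : Real.log Y ≤ Real.log (2 * X) := Real.log_le_log hY0 hY2
        rw [Real.log_mul (by norm_num) hX0.ne'] at h1
        have := Real.log_two_lt_d9
        linarith
      obtain ⟨h1, h2⟩ := expo hb0 hb1 hδ₁ hδa rfl hLX hl1 hl2 (by linarith) (by linarith) hlogw
        hn1 hn2 hw'
      have h3 : Y ^ (b - δ₁) ≤ Real.exp w' := by
        rw [Real.rpow_def_of_pos hY0, Real.exp_le_exp]
        linarith
      have h4 : Real.exp w' ≤ Y ^ (b + δ₁) := by
        rw [Real.rpow_def_of_pos hY0, Real.exp_le_exp]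
        linarith
      refine (hC₁ Y (Real.exp w') (by linarith) h3 h4).trans (ENNReal.ofReal_le_ofReal ?_)
      calc C₁ * Y ^ (1 + q * (a + ε)) ≤ |C₁| * Y ^ e :=
            mul_le_mul_of_nonneg_right (le_abs_self _) (Real.rpow_nonneg hY0.le _)
        _ ≤ |C₁| * (2 * X) ^ e := mul_le_mul_of_nonneg_left
            (Real.rpow_le_rpow hY0.le hY2 (by linarith)) (abs_nonneg _)
    have hav := (hA X w (ENNReal.ofReal Jr) hX4 hw2 hJ).1 r hr1
    have h1 := intg q CR X hq (zsum N) (fun t => zs (w + r t) t) hkey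
    have h2 : ENNReal.ofReal CA * (ENNReal.ofReal Jr + 1) ≤
        ENNReal.ofReal (|CA| * (Jr + 1)) := by
      rw [ENNReal.ofReal_mul (p := |CA|) (abs_nonneg _), ENNReal.ofReal_add hJr0 zero_le_one,
        ENNReal.ofReal_one]
      exact mul_le_mul_left (ENNReal.ofReal_le_ofReal (le_abs_self _)) _
    calc mm q X (zsum N) ≤ kc q CR * ((∫⁻ t in Icc X (2 * X), ‖zs (w + r t) t‖ₑ ^ q) +
          ENNReal.ofReal X) := h1
      _ ≤ ENNReal.ofReal k * (ENNReal.ofReal (|CA| * (Jr + 1)) + ENNReal.ofReal X) := by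
          rw [hkk]
          gcongr
          exact hav.trans h2
      _ = ENNReal.ofReal (k * (|CA| * (Jr + 1) + X)) := by
          rw [ENNReal.ofReal_mul hk0, ENNReal.ofReal_add (by positivity) hX0.le]
      _ ≤ ENNReal.ofReal ((Cbig + Csm) * X ^ e) := by
          refine ENNReal.ofReal_le_ofReal ?_
          have h3 : (2 * X) ^ e = 2 ^ e * X ^ e := Real.mul_rpow (by norm_num) hX0.le
          have h4 : |CA| * (Jr + 1) + X ≤ (|CA| * (|C₁| * 2 ^ e + 1) + 1) * X ^ e := by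
            rw [hJr, h3]
            have h5 : |CA| * 1 ≤ |CA| * X ^ e := mul_le_mul_of_nonneg_left h1Xe (abs_nonneg _)
            nlinarith
          calc k * (|CA| * (Jr + 1) + X) ≤ k * ((|CA| * (|C₁| * 2 ^ e + 1) + 1) * X ^ e) :=
                mul_le_mul_of_nonneg_left h4 hk0
            _ = Cbig * X ^ e := by
                rw [hCbig]
                ring
            _ ≤ (Cbig + Csm) * X ^ e := mul_le_mul_of_nonneg_right (by linarith) hXe

end Pool.Agent.PertQ
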