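import Pool.Agent.DBN.SumBlock
import Pool.Agent.DBN.Vdc3

/-!
# The exponent `1 / 6`
-/

set_option autoImplicit false

namespace Pool.Agent.PertQ

open Complex Finset Pool.Agent.DBN

/-- the smoothed zeta sums are `O(T ^ (1/6 + ε))`, from the second and third derivative tests -/
theorem sumLe_sixth_of
    (zsec : ∃ C : ℝ, 1 ≤ C ∧ ∀ (N M : ℕ) (T : ℝ), 1 ≤ N → M ≤ N → 1 ≤ T →
      ‖∑ n ∈ range M, exp (-(T * Real.log (N + n) : ℝ) * I)‖ ≤ C * (√T + N / √T))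
    (zthird : ∃ C : ℝ, 1 ≤ C ∧ ∀ (N M : ℕ) (T : ℝ), 1 ≤ N → M ≤ N → 1 ≤ T →
      ‖∑ n ∈ range M, exp (-(T * Real.log (N + n) : ℝ) * I)‖ ≤
        C * ((N : ℝ) ^ (1 / 2 : ℝ) * T ^ (1 / 6 : ℝ) + N * T ^ (-(1 / 6) : ℝ)))
    (α : ℝ) (h1 : α ≤ 1) : SumLe α (1 / 6) := by
  obtain ⟨C₂, hC₂, h₂⟩ := zsec
  obtain ⟨C₃, hC₃, h₃⟩ := zthird
  intro ε hε
  refine ⟨ε, hε, 12 * Real.exp 11 * (2 * (C₂ + C₃)), fun T N hT hN1 hN2 => ?_⟩
  have hT0 : 0 < T := by linarith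
  have hT1 : 1 ≤ T := by linarith
  have hN : 0 < N := lt_of_lt_of_le (Real.rpow_pos_of_pos hT0 _) hN1
  have hsN : √N ≤ T ^ ((α + ε) / 2) := by
    rw [Real.sqrt_eq_rpow]
    refine (Real.rpow_le_rpow hN.le hN2 (by norm_num)).trans ?_
    rw [← Real.rpow_mul hT0.le]
    apply le_of_eq
    congr 1
    ring
  have hsN' : 1 / √N ≤ T ^ (-((α - ε) / 2)) := by
    rw [Real.rpow_neg hT0.le, one_div]
    refine inv_anti₀ (Real.rpow_pos_of_pos hT0 _) ?_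
    rw [Real.sqrt_eq_rpow]
    refine le_trans ?_ (Real.rpow_le_rpow (Real.rpow_nonneg hT0.le _) hN1 (by norm_num))
    rw [← Real.rpow_mul hT0.le]
    apply le_of_eq
    congr 1
    ring
  set a : ℝ := 1 / 6 with ha
  have hP : 0 < T ^ (a + ε) := Real.rpow_pos_of_pos hT0 _
  have hE : 0 < Real.exp 11 := Real.exp_pos _
  have hsN0 : 0 < √N := Real.sqrt_pos.mpr hN
  rcases le_total α (1 / 3) with hα | hα
  · -- trivial bound
    have hb := zsum_le (T := T) (A := 1) (B := 0) (D := 0) hN zero_le_one le_rfl le_rfl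
      (fun K M hK hM => by
        have h4 : ‖∑ n ∈ range M, exp (-(T * Real.log (K + n) : ℝ) * I)‖ ≤
            ∑ n ∈ range M, (1 : ℝ) := by
          refine norm_sum_le_of_le _ fun n _ => ?_
          rw [show (-((T * Real.log ((K : ℝ) + n) : ℝ) : ℂ) * I) =
            ((-(T * Real.log ((K : ℝ) + n)) : ℝ) : ℂ) * I by push_cast; ring,
            Complex.norm_exp_ofReal_mul_I]
        rw [sum_const, card_range, nsmul_eq_mul, mul_one] at h4
        have h5 : (M : ℝ) ≤ K := by exact_mod_cast hM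
        linarith)
    have h6 : √N ≤ T ^ (a + ε) := hsN.trans
      (Real.rpow_le_rpow_of_exponent_le hT1 (by rw [ha]; nlinarith))
    calc ‖zsum N T‖ ≤ 12 * Real.exp 11 * (1 * √N + 0 / √N + 0) := hb
      _ = 12 * Real.exp 11 * √N := by ring
      _ ≤ 12 * Real.exp 11 * (2 * (C₂ + C₃) * T ^ (a + ε)) := by
          refine mul_le_mul_of_nonneg_left ?_ (by positivity)
          nlinarith
      _ = 12 * Real.exp 11 * (2 * (C₂ + C₃)) * T ^ (a + ε) := by ring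
  rcases le_total α (2 / 3) with hα' | hα'
  · -- third derivative
    have hTm : 0 < T ^ (-(1 / 6) : ℝ) := Real.rpow_pos_of_pos hT0 _
    have hTp : 0 < T ^ (1 / 6 : ℝ) := Real.rpow_pos_of_pos hT0 _
    have hb := zsum_le (T := T) (A := C₃ * T ^ (-(1 / 6) : ℝ)) (B := 0) (D := C₃ * T ^ (1 / 6 : ℝ))
      hN (by positivity) le_rfl (by positivity)
      (fun K M hK hM => by
        have h4 := h₃ K M T hK hM hT1
        rw [← Real.sqrt_eq_rpow] at h4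
        refine h4.trans (le_of_eq ?_)
        ring)
    have h5 : T ^ (-(1 / 6) : ℝ) * √N ≤ T ^ (a + ε) := by
      calc T ^ (-(1 / 6) : ℝ) * √N ≤ T ^ (-(1 / 6) : ℝ) * T ^ ((α + ε) / 2) := by gcongr
        _ = T ^ (-(1 / 6) + (α + ε) / 2) := by rw [Real.rpow_add hT0]
        _ ≤ T ^ (a + ε) := Real.rpow_le_rpow_of_exponent_le hT1 (by rw [ha]; nlinarith)
    have h6 : T ^ (1 / 6 : ℝ) ≤ T ^ (a + ε) :=
      Real.rpow_le_rpow_of_exponent_le hT1 (by rw [ha]; nlinarith)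
    calc ‖zsum N T‖ ≤ 12 * Real.exp 11 *
          (C₃ * T ^ (-(1 / 6) : ℝ) * √N + 0 / √N + C₃ * T ^ (1 / 6 : ℝ)) := hb
      _ = 12 * Real.exp 11 * (C₃ * (T ^ (-(1 / 6) : ℝ) * √N + T ^ (1 / 6 : ℝ))) := by ring
      _ ≤ 12 * Real.exp 11 * (C₃ * (T ^ (a + ε) + T ^ (a + ε))) := by gcongr
      _ ≤ 12 * Real.exp 11 * (2 * (C₂ + C₃) * T ^ (a + ε)) := by
          refine mul_le_mul_of_nonneg_left ?_ (by positivity)
          nlinarith
      _ = 12 * Real.exp 11 * (2 * (C₂ + C₃)) * T ^ (a + ε) := by ring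
  · -- second derivative
    have hsT : 0 < √T := Real.sqrt_pos.mpr hT0
    have hb := zsum_le (T := T) (A := C₂ / √T) (B := C₂ * √T) (D := 0)
      hN (by positivity) (by positivity) le_rfl
      (fun K M hK hM => by
        refine (h₂ K M T hK hM hT1).trans (le_of_eq ?_)
        ring)
    have e1 : √T = T ^ (1 / 2 : ℝ) := Real.sqrt_eq_rpow T
    have e2 : 1 / √T = T ^ (-(1 / 2) : ℝ) := by
      rw [e1, Real.rpow_neg hT0.le, one_div]
    have h5 : 1 / √T * √N ≤ T ^ (a + ε) := by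
      rw [e2]
      calc T ^ (-(1 / 2) : ℝ) * √N ≤ T ^ (-(1 / 2) : ℝ) * T ^ ((α + ε) / 2) := by gcongr
        _ = T ^ (-(1 / 2) + (α + ε) / 2) := by rw [Real.rpow_add hT0]
        _ ≤ T ^ (a + ε) := Real.rpow_le_rpow_of_exponent_le hT1 (by rw [ha]; nlinarith)
    have h6 : √T * (1 / √N) ≤ T ^ (a + ε) := by
      rw [e1]
      calc T ^ (1 / 2 : ℝ) * (1 / √N) ≤ T ^ (1 / 2 : ℝ) * T ^ (-((α - ε) / 2)) := by gcongr
        _ = T ^ (1 / 2 + -((α - ε) / 2)) := by rw [Real.rpow_add hT0]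
        _ ≤ T ^ (a + ε) := Real.rpow_le_rpow_of_exponent_le hT1 (by rw [ha]; nlinarith)
    calc ‖zsum N T‖ ≤ 12 * Real.exp 11 * (C₂ / √T * √N + C₂ * √T / √N + 0) := hb
      _ = 12 * Real.exp 11 * (C₂ * (1 / √T * √N + √T * (1 / √N))) := by ring
      _ ≤ 12 * Real.exp 11 * (C₂ * (T ^ (a + ε) + T ^ (a + ε))) := by gcongr
      _ ≤ 12 * Real.exp 11 * (2 * (C₂ + C₃) * T ^ (a + ε)) := by
          refine mul_le_mul_of_nonneg_left ?_ (by positivity)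
          nlinarith
      _ = 12 * Real.exp 11 * (2 * (C₂ + C₃)) * T ^ (a + ε) := by ring

theorem sumLe_sixth (α : ℝ) (h1 : α ≤ 1) : SumLe α (1 / 6) :=
  sumLe_sixth_of zsec zthird α h1

lemma sumLe_weaken {α a b : ℝ} (h : SumLe α a) (hab : a ≤ b) : SumLe α b := by
  intro ε hε
  obtain ⟨δ, hδ, C, h1⟩ := h ε hε
  refine ⟨δ, hδ, |C|, fun T N hT h2 h3 => (h1 T N hT h2 h3).trans ?_⟩
  have h4 : T ^ (a + ε) ≤ T ^ (b + ε) :=
    Real.rpow_le_rpow_of_exponent_le (by linarith) (by linarith)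
  have h5 : 0 ≤ T ^ (a + ε) := by positivity
  calc C * T ^ (a + ε) ≤ |C| * T ^ (a + ε) := by gcongr; exact le_abs_self C
    _ ≤ _ := by gcongr

/-- the pointwise exponent is at most `1 / 6` -/
theorem le_sixth {e : ℝ → ℝ} (hlaw : ∀ B A : ℝ, 1 / 2 < B → 0 ≤ A → (e B ≤ A ↔
    ∀ b : ℝ, 0 ≤ b → b ≤ 1 → SumLe b (A + max 0 (1 - B * b)))) (B : ℝ) (hB : 1 / 2 < B) :
    e B ≤ 1 / 6 :=
  (hlaw B (1 / 6) hB (by norm_num)).mpr fun b _ h =>
    sumLe_weaken (sumLe_sixth b h) (by linarith [le_max_left 0 (1 - B * b)])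

end Pool.Agent.PertQ
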