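import Pool.Agent.PertQ.Targets
import Pool.Agent.DBN.WinSumC

/-!
# PertQ, SZQ: from the short sums to zeta in the mean of order `q`
-/

set_option autoImplicit false

namespace Pool.Agent.PertQ

open Complex MeasureTheory Set
open Pool.Agent.CW Pool.Agent.DBN Pool.Agent.PertZ Pool.Agent.Ben

namespace SZQ_

/-- Jensen -/
theorem m_jensen {q L : ℝ} (hq : 1 ≤ q) (hL : 0 < L) {z : ℝ → ℝ} (hz : Continuous z)
    (h0 : ∀ v, 0 ≤ z v) :
    (∫ v in (0 : ℝ)..L, z v) ^ q ≤ L ^ (q - 1) * ∫ v in (0 : ℝ)..L, z v ^ q := by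
  set J : ℝ := ∫ v in (0 : ℝ)..L, z v with hJ
  have hJ0 : 0 ≤ J := intervalIntegral.integral_nonneg hL.le fun v _ => h0 v
  have hzq : Continuous fun v => z v ^ q := hz.rpow_const fun v => Or.inr (by linarith)
  rcases hJ0.eq_or_lt with h | h
  · rw [← h, Real.zero_rpow (by linarith)]
    have h1 : 0 ≤ ∫ v in (0 : ℝ)..L, z v ^ q :=
      intervalIntegral.integral_nonneg hL.le fun v _ => Real.rpow_nonneg (h0 v) q
    positivity
  · set m : ℝ := J / L with hm
    have hm0 : 0 < m := by positivity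
    have hpt : ∀ v, m ^ q * (1 + q * (z v / m - 1)) ≤ z v ^ q := by
      intro v
      have h2 : 0 ≤ z v / m := div_nonneg (h0 v) hm0.le
      have h1 := one_add_mul_self_le_rpow_one_add (s := z v / m - 1) (by linarith) hq
      rw [add_sub_cancel, Real.div_rpow (h0 v) hm0.le, le_div_iff₀ (by positivity)] at h1
      linarith
    have hc : Continuous fun v => m ^ q * (1 + q * (z v / m - 1)) := by fun_prop
    have h2 : ∫ v in (0 : ℝ)..L, m ^ q * (1 + q * (z v / m - 1)) ≤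
        ∫ v in (0 : ℝ)..L, z v ^ q :=
      intervalIntegral.integral_mono_on hL.le (hc.intervalIntegrable _ _)
        (hzq.intervalIntegrable _ _) fun v _ => hpt v
    have h3 : ∫ v in (0 : ℝ)..L, m ^ q * (1 + q * (z v / m - 1)) = m ^ q * L := by
      have e1 : (fun v => m ^ q * (1 + q * (z v / m - 1))) =
          fun v => m ^ q * (1 - q) + (m ^ q * q / m) * z v := by
        funext v
        field_simp
        ring
      have i1 : IntervalIntegrable (fun _ : ℝ => m ^ q * (1 - q)) volume 0 L :=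
        continuous_const.intervalIntegrable _ _
      have i2 : IntervalIntegrable (fun v : ℝ => m ^ q * q / m * z v) volume 0 L :=
        (continuous_const.mul hz).intervalIntegrable _ _
      rw [e1, intervalIntegral.integral_add i1 i2, intervalIntegral.integral_const,
        intervalIntegral.integral_const_mul, smul_eq_mul, ← hJ]
      have e2 : J = m * L := by
        rw [hm]
        field_simp
      rw [e2]
      field_simp
      ring
    have h4 : J ^ q = L ^ (q - 1) * (m ^ q * L) := by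
      have e2 : J = m * L := by
        rw [hm]
        field_simp
      rw [e2, Real.mul_rpow hm0.le hL.le, Real.rpow_sub hL, Real.rpow_one]
      field_simp
    rw [h4]
    rw [h3] at h2
    gcongr

theorem m_two {x y q : ℝ} (hq : 1 ≤ q) (hx : 0 ≤ x) (hy : 0 ≤ y) :
    (x + y) ^ q ≤ 2 ^ q * (x ^ q + y ^ q) := by
  rcases le_total x y with h | h
  · calc (x + y) ^ q ≤ (2 * y) ^ q := by
          apply Real.rpow_le_rpow (by positivity) (by linarith) (by linarith)
      _ = 2 ^ q * y ^ q := Real.mul_rpow (by norm_num) hy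
      _ ≤ _ := by
        have : 0 ≤ x ^ q := Real.rpow_nonneg hx q
        gcongr
        linarith
  · calc (x + y) ^ q ≤ (2 * x) ^ q := by
          apply Real.rpow_le_rpow (by positivity) (by linarith) (by linarith)
      _ = 2 ^ q * x ^ q := Real.mul_rpow (by norm_num) hx
      _ ≤ _ := by
        have : 0 ≤ y ^ q := Real.rpow_nonneg hy q
        gcongr
        linarith

theorem m_log {η T : ℝ} (hη : 0 < η) (hT : 1 ≤ T) :
    1 + Real.log (2 * T) ≤ (1 + 2 ^ η / η) * T ^ η := by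
  have h1 : Real.log (2 * T) ≤ (2 * T) ^ η / η := Real.log_le_rpow_div (by linarith) hη
  have h2 : (2 * T) ^ η = 2 ^ η * T ^ η := Real.mul_rpow (by norm_num) (by linarith)
  have h3 : 1 ≤ T ^ η := Real.one_le_rpow hT hη.le
  rw [h2] at h1
  calc 1 + Real.log (2 * T) ≤ T ^ η + 2 ^ η * T ^ η / η := by linarith
    _ = _ := by ring

theorem m_zeta_cont : Continuous fun t : ℝ => ‖riemannZeta (1 / 2 + t * I)‖ := by
  refine Continuous.norm (continuous_iff_continuousAt.mpr fun t => ?_)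
  have h : (1 / 2 + t * I : ℂ) ≠ 1 := by
    intro h
    have := congrArg Complex.re h
    norm_num at this
  have h1 : ContinuousAt (fun t : ℝ => (1 / 2 + t * I : ℂ)) t := by fun_prop
  exact ContinuousAt.comp (f := fun t : ℝ => (1 / 2 + t * I : ℂ))
    (differentiableAt_riemannZeta h).continuousAt h1

/-- joint continuity -/
theorem m_cont :
    Continuous fun p : ℝ × ℝ => Pool.Agent.DBN.zsum (Real.exp p.1) p.2 := by
  rw [continuous_iff_continuousAt]
  intro p₀
  have hopen : IsOpen {p : ℝ × ℝ | p.1 < p₀.1 + 1} := isOpen_lt continuous_fst continuous_const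
  have hc : ContinuousOn (fun p : ℝ × ℝ => ∑' n, Pool.Agent.DBN.Nw.zt (Real.exp p.1) p.2 n)
      {p : ℝ × ℝ | p.1 < p₀.1 + 1} := by
    refine continuousOn_tsum (fun n => ?_)
      (Pool.Agent.DBN.Nw.summable_32.mul_left (Real.exp 1 * Real.exp (p₀.1 + 1)))
      (fun n p hp => ?_)
    · apply Continuous.continuousOn
      unfold Pool.Agent.DBN.Nw.zt
      have h : ((n + 1 : ℕ) : ℂ) ≠ 0 := by exact_mod_cast Nat.succ_ne_zero n
      refine Continuous.mul ?_ (Continuous.const_cpow (by fun_prop) (Or.inl h))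
      have e1 : ∀ p : ℝ × ℝ, Real.log (((n + 1 : ℕ) : ℝ) / Real.exp p.1) =
          Real.log ((n + 1 : ℕ) : ℝ) - p.1 := by
        intro p
        rw [Real.log_div (by positivity) (Real.exp_pos _).ne', Real.log_exp]
      simp only [e1]
      fun_prop
    · refine (Pool.Agent.DBN.Nw.norm_zt_le (Real.exp_pos _) _ _).trans ?_
      have hp' : p.1 ≤ p₀.1 + 1 := le_of_lt hp
      gcongr
  have h2 : (fun p : ℝ × ℝ => Pool.Agent.DBN.zsum (Real.exp p.1) p.2) =
      fun p : ℝ × ℝ => ∑' n, Pool.Agent.DBN.Nw.zt (Real.exp p.1) p.2 n := by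
    funext p
    rfl
  rw [h2]
  exact hc.continuousAt (hopen.mem_nhds (by simp))

/-- Jensen and Fubini -/
theorem m_abs {q C₁ Λ L T K : ℝ} {f : ℝ → ℝ} {Z : ℝ → ℝ → ℝ} (hq : 1 ≤ q)
    (hC₁ : 0 ≤ C₁) (hL0 : 0 < L) (hΛ0 : 0 < Λ) (hT0 : 0 < T) (hfc : Continuous f)
    (hf0 : ∀ t, 0 ≤ f t) (hZ0 : ∀ t v, 0 ≤ Z t v)
    (hZc : Continuous fun p : ℝ × ℝ => Z p.1 p.2)
    (h : ∀ t, T ≤ t → t ≤ 2 * T → f t ≤ C₁ * (Λ + ∫ v in (0 : ℝ)..L, Z t v))
    (hK : ∀ v, 0 ≤ v → v ≤ L → ∫ t in T..(2 * T), Z t v ^ q ≤ K) :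
    ∫ t in T..(2 * T), f t ^ q ≤ C₁ ^ q * 2 ^ q * (T * Λ ^ q + L ^ q * K) := by
  have hq0 : 0 < q := by linarith
  have hTT : T ≤ 2 * T := by linarith
  have hfqc : Continuous fun t => f t ^ q := hfc.rpow_const fun t => Or.inr hq0.le
  have hZqc : Continuous fun p : ℝ × ℝ => Z p.1 p.2 ^ q :=
    hZc.rpow_const fun t => Or.inr hq0.le
  have hZv : ∀ t, Continuous (Z t) := fun t =>
    hZc.comp (by fun_prop : Continuous fun v : ℝ => ((t, v) : ℝ × ℝ))
  have hpt : ∀ t, T ≤ t → t ≤ 2 * T →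
      f t ^ q ≤ C₁ ^ q * 2 ^ q * (Λ ^ q + L ^ (q - 1) * ∫ v in (0 : ℝ)..L, Z t v ^ q) := by
    intro t ht1 ht2
    have h5 : 0 ≤ ∫ v in (0 : ℝ)..L, Z t v :=
      intervalIntegral.integral_nonneg hL0.le fun v _ => hZ0 t v
    have h6 := h t ht1 ht2
    have h7 := m_jensen hq hL0 (hZv t) (hZ0 t)
    have h8 := m_two hq hΛ0.le h5
    have h9 : 0 ≤ C₁ ^ q := by positivity
    have h10 : (0 : ℝ) ≤ 2 ^ q := by positivity
    calc f t ^ q ≤ (C₁ * (Λ + ∫ v in (0 : ℝ)..L, Z t v)) ^ q :=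
          Real.rpow_le_rpow (hf0 t) h6 hq0.le
      _ = C₁ ^ q * (Λ + ∫ v in (0 : ℝ)..L, Z t v) ^ q :=
        Real.mul_rpow hC₁ (by linarith)
      _ ≤ C₁ ^ q * (2 ^ q * (Λ ^ q + (∫ v in (0 : ℝ)..L, Z t v) ^ q)) :=
        mul_le_mul_of_nonneg_left h8 h9
      _ ≤ C₁ ^ q * (2 ^ q * (Λ ^ q + L ^ (q - 1) * ∫ v in (0 : ℝ)..L, Z t v ^ q)) :=
        mul_le_mul_of_nonneg_left
          (mul_le_mul_of_nonneg_left (add_le_add_right h7 _) h10) h9
      _ = _ := by ring
  have hWc : Continuous fun t : ℝ => ∫ v in (0 : ℝ)..L, Z t v ^ q :=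
    intervalIntegral.continuous_parametric_intervalIntegral_of_continuous' hZqc 0 L
  have i1 : IntervalIntegrable (fun _ : ℝ => Λ ^ q) volume T (2 * T) :=
    continuous_const.intervalIntegrable _ _
  have i2 : IntervalIntegrable (fun t : ℝ => L ^ (q - 1) * ∫ v in (0 : ℝ)..L, Z t v ^ q)
      volume T (2 * T) := (continuous_const.mul hWc).intervalIntegrable _ _
  have h1 : ∫ t in T..(2 * T), f t ^ q ≤ ∫ t in T..(2 * T),
      C₁ ^ q * 2 ^ q * (Λ ^ q + L ^ (q - 1) * ∫ v in (0 : ℝ)..L, Z t v ^ q) :=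
    intervalIntegral.integral_mono_on hTT (hfqc.intervalIntegrable _ _)
      ((i1.add i2).const_mul _) fun t ht => hpt t ht.1 ht.2
  rw [intervalIntegral.integral_const_mul, intervalIntegral.integral_add i1 i2,
    intervalIntegral.integral_const, intervalIntegral.integral_const_mul, smul_eq_mul] at h1
  have hswap : ∫ t in T..(2 * T), ∫ v in (0 : ℝ)..L, Z t v ^ q =
      ∫ v in (0 : ℝ)..L, ∫ t in T..(2 * T), Z t v ^ q := by
    refine intervalIntegral_intervalIntegral_swap (F := fun t v => Z t v ^ q) ?_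
    have h2 : IsCompact (uIcc T (2 * T) ×ˢ uIcc (0 : ℝ) L) := isCompact_uIcc.prod isCompact_uIcc
    refine (ContinuousOn.integrableOn_compact h2 hZqc.continuousOn).mono_set ?_
    exact prod_mono uIoc_subset_uIcc uIoc_subset_uIcc
  have hin : ∫ v in (0 : ℝ)..L, ∫ t in T..(2 * T), Z t v ^ q ≤ L * K := by
    have hVc : Continuous fun v : ℝ => ∫ t in T..(2 * T), Z t v ^ q :=
      intervalIntegral.continuous_parametric_intervalIntegral_of_continuous'
        (f := fun v t => Z t v ^ q)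
        (hZqc.comp (by fun_prop : Continuous fun p : ℝ × ℝ => ((p.2, p.1) : ℝ × ℝ))) T (2 * T)
    have h2 : ∫ v in (0 : ℝ)..L, ∫ t in T..(2 * T), Z t v ^ q ≤ ∫ v in (0 : ℝ)..L, K :=
      intervalIntegral.integral_mono_on hL0.le (hVc.intervalIntegrable _ _)
        (continuous_const.intervalIntegrable _ _) fun v hv => hK v hv.1 hv.2
    rw [intervalIntegral.integral_const, smul_eq_mul, sub_zero] at h2
    exact h2
  have hLq : L ^ q = L ^ (q - 1) * L := by
    rw [Real.rpow_sub hL0, Real.rpow_one]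
    field_simp
  refine h1.trans ?_
  apply mul_le_mul_of_nonneg_left _ (by positivity)
  rw [hLq, hswap, mul_assoc]
  have h3 : 2 * T - T = T := by ring
  rw [h3]
  exact add_le_add_right (mul_le_mul_of_nonneg_left hin (by positivity)) _

/-- the exponents -/
theorem m_num {q ε a T C₁ C₂ Λ L A : ℝ} (hq0 : 0 < q) (ha : 0 ≤ a) (hε : 0 < ε)
    (hC₁ : 0 ≤ C₁) (hC₂ : 0 ≤ C₂) (hL0 : 0 < L) (hA0 : 0 ≤ A) (hLΛ : L ≤ Λ) (hT1 : 1 ≤ T)
    (hΛA : Λ ≤ A * T ^ (ε / 4)) :
    C₁ ^ q * 2 ^ q * (T * Λ ^ q + L ^ q * (C₂ * T ^ (1 + q * (a + ε / 4)))) ≤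
      C₁ ^ q * 2 ^ q * (1 + C₂) * A ^ q * T ^ (1 + q * (a + ε)) := by
  have hT0 : 0 < T := by linarith
  have hΛ0 : 0 < Λ := hL0.trans_le hLΛ
  have hTe : T ≤ T ^ (1 + q * (a + ε / 4)) := by
    calc T = T ^ (1 : ℝ) := (Real.rpow_one T).symm
      _ ≤ _ := Real.rpow_le_rpow_of_exponent_le hT1 (by
          have : 0 ≤ q * (a + ε / 4) := by positivity
          linarith)
  have hLΛq : L ^ q ≤ Λ ^ q := Real.rpow_le_rpow hL0.le hLΛ hq0.le
  have hΛq : Λ ^ q ≤ A ^ q * T ^ (q * ε / 4) := by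
    calc Λ ^ q ≤ (A * T ^ (ε / 4)) ^ q := Real.rpow_le_rpow hΛ0.le hΛA hq0.le
      _ = A ^ q * T ^ (q * ε / 4) := by
        rw [Real.mul_rpow hA0 (by positivity), ← Real.rpow_mul hT0.le]
        congr 2
        ring
  have hexp : T ^ (q * ε / 4) * T ^ (1 + q * (a + ε / 4)) ≤ T ^ (1 + q * (a + ε)) := by
    rw [← Real.rpow_add hT0]
    apply Real.rpow_le_rpow_of_exponent_le hT1
    nlinarith [mul_pos hq0 hε]
  set X : ℝ := T ^ (1 + q * (a + ε / 4)) with hX
  have hX0 : 0 < X := by positivity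
  calc C₁ ^ q * 2 ^ q * (T * Λ ^ q + L ^ q * (C₂ * X))
    _ ≤ C₁ ^ q * 2 ^ q * (X * Λ ^ q + Λ ^ q * (C₂ * X)) := by gcongr
    _ = C₁ ^ q * 2 ^ q * (1 + C₂) * (Λ ^ q * X) := by ring
    _ ≤ C₁ ^ q * 2 ^ q * (1 + C₂) * (A ^ q * T ^ (q * ε / 4) * X) := by gcongr
    _ = C₁ ^ q * 2 ^ q * (1 + C₂) * A ^ q * (T ^ (q * ε / 4) * X) := by ring
    _ ≤ _ := by gcongr

/-- moments as lower integrals -/
theorem conv {F : ℝ → ℂ} (hF : Continuous F) {q a b : ℝ} (hq : 1 ≤ q) (hab : a ≤ b) :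
    ∫⁻ t in Icc a b, ‖F t‖ₑ ^ q = ENNReal.ofReal (∫ t in a..b, ‖F t‖ ^ q) := by
  have hc : Continuous fun t => ‖F t‖ ^ q := hF.norm.rpow_const fun t => Or.inr (by linarith)
  rw [intervalIntegral.integral_of_le hab, ← integral_Icc_eq_integral_Ioc,
    ofReal_integral_eq_lintegral_ofReal (hc.continuousOn.integrableOn_compact isCompact_Icc)
      (Filter.Eventually.of_forall fun t => Real.rpow_nonneg (norm_nonneg _) q)]
  refine lintegral_congr fun t => ?_
  rw [← ENNReal.ofReal_rpow_of_nonneg (norm_nonneg _) (by linarith), ofReal_norm]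

/-- fixed `v` -/
theorem fix (h_UNIQ : T_UNIQ) {q A : ℝ} (hq : 1 ≤ q) (hA : 0 ≤ A)
    (hS : ∀ b : ℝ, 0 ≤ b → b ≤ 1 / 2 → SumQ q b A) {ε : ℝ} (hε : 0 < ε) :
    ∃ C : ℝ, 0 ≤ C ∧ ∀ T : ℝ, 4 ≤ T → ∀ v : ℝ, 0 ≤ v → v ≤ Real.log (2 * T) / 2 →
      ∫ t in T..(2 * T), ‖Pool.Agent.DBN.zsum (Real.exp v) (t - Real.pi / 8)‖ ^ q ≤
        C * T ^ (1 + q * (A + ε)) := by
  have hpi0 := Real.pi_pos
  have hpi := Real.pi_le_four
  have hq0 : 0 < q := by linarith
  obtain ⟨C, hC⟩ := h_UNIQ q (1 / 2) (fun _ => A) hq (by norm_num) (by norm_num)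
    continuous_const hS ε hε
  refine ⟨2 * |C|, by positivity, fun T hT v hv0 hv => ?_⟩
  set N : ℝ := Real.exp v with hN
  have hN0 : 0 < N := Real.exp_pos _
  have hN1 : 1 ≤ N := Real.one_le_exp hv0
  have hT0 : 0 < T := by linarith
  have hzc : Continuous (zsum N) := by
    have h1 : Continuous fun t : ℝ => ((v, t) : ℝ × ℝ) := by fun_prop
    have h2 := m_cont.comp h1
    simp only [Function.comp_def] at h2
    rw [← hN] at h2
    exact h2
  have hzqc : Continuous fun t => ‖zsum N t‖ ^ q :=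
    hzc.norm.rpow_const fun t => Or.inr hq0.le
  have key : ∀ Y : ℝ, T / 2 ≤ Y → Y ≤ T →
      ∫ s in Y..(2 * Y), ‖zsum N s‖ ^ q ≤ |C| * T ^ (1 + q * (A + ε)) := by
    intro Y h1 h2
    have hY : 2 ≤ Y := by linarith
    have hN2 : N ≤ 3 * Y ^ (1 / 2 : ℝ) := by
      have h3 : N ≤ (2 * T) ^ (1 / 2 : ℝ) := by
        rw [hN, Real.rpow_def_of_pos (by positivity)]
        apply Real.exp_le_exp.2
        linarith
      have h4 : (2 * T) ^ (1 / 2 : ℝ) ≤ (4 * Y) ^ (1 / 2 : ℝ) :=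
        Real.rpow_le_rpow (by positivity) (by linarith) (by norm_num)
      have h5 : (4 * Y) ^ (1 / 2 : ℝ) = 2 * Y ^ (1 / 2 : ℝ) := by
        rw [Real.mul_rpow (by norm_num) (by linarith)]
        congr 1
        rw [show (4 : ℝ) = 2 ^ (2 : ℝ) by norm_num, ← Real.rpow_mul (by norm_num)]
        norm_num
      have h6 : 0 ≤ Y ^ (1 / 2 : ℝ) := Real.rpow_nonneg (by linarith) _
      linarith
    have h3 := hC Y N hY hN1 hN2
    rw [mm, conv hzc hq (by linarith)] at h3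
    have h4 : C * Y ^ (1 + q * (A + ε)) ≤ |C| * T ^ (1 + q * (A + ε)) := by
      have h7 : 0 ≤ 1 + q * (A + ε) := by positivity
      calc C * Y ^ (1 + q * (A + ε)) ≤ |C| * Y ^ (1 + q * (A + ε)) :=
            mul_le_mul_of_nonneg_right (le_abs_self _) (Real.rpow_nonneg (by linarith) _)
        _ ≤ _ := mul_le_mul_of_nonneg_left (Real.rpow_le_rpow (by linarith) h2 h7)
            (abs_nonneg _)
    have h5 : 0 ≤ |C| * T ^ (1 + q * (A + ε)) := by positivity
    exact (ENNReal.ofReal_le_ofReal_iff h5).1 (h3.trans (ENNReal.ofReal_le_ofReal h4))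
  have e1 : ∫ t in T..(2 * T), ‖zsum N (t - Real.pi / 8)‖ ^ q =
      ∫ s in (T - Real.pi / 8)..(2 * T - Real.pi / 8), ‖zsum N s‖ ^ q :=
    intervalIntegral.integral_comp_sub_right (fun s => ‖zsum N s‖ ^ q) (Real.pi / 8)
  have e2 : ∫ s in (T - Real.pi / 8)..(2 * T - Real.pi / 8), ‖zsum N s‖ ^ q ≤
      ∫ s in (T / 2)..(2 * T), ‖zsum N s‖ ^ q :=
    intervalIntegral.integral_mono_interval (by linarith) (by linarith) (by linarith)
      (Filter.Eventually.of_forall fun s => Real.rpow_nonneg (norm_nonneg _) q)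
      (hzqc.intervalIntegrable _ _)
  have e3 : ∫ s in (T / 2)..(2 * T), ‖zsum N s‖ ^ q =
      (∫ s in (T / 2)..(2 * (T / 2)), ‖zsum N s‖ ^ q) + ∫ s in T..(2 * T), ‖zsum N s‖ ^ q := by
    rw [show 2 * (T / 2) = T by ring]
    exact (intervalIntegral.integral_add_adjacent_intervals (hzqc.intervalIntegrable _ _)
      (hzqc.intervalIntegrable _ _)).symm
  have e4 := key (T / 2) le_rfl (by linarith)
  have e5 := key T (by linarith) le_rfl
  rw [e1]
  rw [e3] at e2
  linarith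

/-- the moments of zeta as interval integrals -/
theorem real (h_PT : Pool.Agent.Ben.M_PT) (h_UNIQ : T_UNIQ) {q a : ℝ} (hq : 1 ≤ q) (ha : 0 ≤ a)
    (hS : ∀ b : ℝ, 0 ≤ b → b ≤ 1 / 2 → SumQ q b a) {ε : ℝ} (hε : 0 < ε) :
    ∃ C : ℝ, ∀ T : ℝ, 1 ≤ T →
      ∫ t in T..(2 * T), ‖riemannZeta (1 / 2 + t * I)‖ ^ q ≤ C * T ^ (1 + q * (a + ε)) := by
  have hq0 : 0 < q := by linarith
  obtain ⟨C₁, T₁, hC₁, hT₁, hζ⟩ := h_PT
  obtain ⟨C₂, hC₂, hZ⟩ := fix h_UNIQ hq ha hS (ε := ε / 4) (by positivity)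
  have hfc : Continuous fun t : ℝ => ‖riemannZeta (1 / 2 + t * I)‖ := m_zeta_cont
  have hfqc : Continuous fun t : ℝ => ‖riemannZeta (1 / 2 + t * I)‖ ^ q :=
    hfc.rpow_const fun t => Or.inr hq0.le
  have hs0 : 0 ≤ 1 + q * (a + ε) := by positivity
  obtain ⟨B, hB⟩ := (isCompact_Icc (a := (1 : ℝ))
    (b := 2 * max T₁ 4)).exists_bound_of_continuousOn hfqc.continuousOn
  have hT₃2 : 2 ≤ max T₁ 4 := hT₁.trans (le_max_left _ _)
  have hA0 : 0 ≤ 1 + (2 : ℝ) ^ (ε / 4) / (ε / 4) := by positivity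
  have hK0 : 0 ≤ C₁ ^ q * 2 ^ q * (1 + C₂) * (1 + (2 : ℝ) ^ (ε / 4) / (ε / 4)) ^ q := by
    positivity
  refine ⟨|B| * max T₁ 4 +
    C₁ ^ q * 2 ^ q * (1 + C₂) * (1 + (2 : ℝ) ^ (ε / 4) / (ε / 4)) ^ q, fun T hT1 => ?_⟩
  have hT0 : 0 < T := by linarith
  have hTT : T ≤ 2 * T := by linarith
  have hTs : 1 ≤ T ^ (1 + q * (a + ε)) := Real.one_le_rpow hT1 hs0
  have hX : 0 ≤ |B| * max T₁ 4 := mul_nonneg (abs_nonneg _) (by linarith)
  rcases le_total T (max T₁ 4) with hTT₃ | hTT₃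
  · have h1 : ∫ t in T..(2 * T), ‖riemannZeta (1 / 2 + t * I)‖ ^ q ≤ ∫ t in T..(2 * T), |B| :=
      intervalIntegral.integral_mono_on hTT (hfqc.intervalIntegrable _ _)
        (continuous_const.intervalIntegrable _ _) fun t ht => by
          have h2 := hB t ⟨hT1.trans ht.1, ht.2.trans (by linarith)⟩
          rw [Real.norm_of_nonneg (Real.rpow_nonneg (norm_nonneg _) q)] at h2
          exact h2.trans (le_abs_self _)
    rw [intervalIntegral.integral_const, smul_eq_mul] at h1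
    have h2 : (2 * T - T) * |B| ≤ |B| * max T₁ 4 := by
      rw [show (2 * T - T) * |B| = |B| * T by ring]
      exact mul_le_mul_of_nonneg_left hTT₃ (abs_nonneg _)
    exact (h1.trans (h2.trans (le_add_of_nonneg_right hK0))).trans
      (le_mul_of_one_le_right (add_nonneg hX hK0) hTs)
  · have hTa : T₁ ≤ T := (le_max_left _ _).trans hTT₃
    have hTb : 4 ≤ T := (le_max_right _ _).trans hTT₃
    have hlog : 0 < Real.log (2 * T) := Real.log_pos (by linarith)
    have hL0 : 0 < Real.log (2 * T) / 2 := by linarith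
    have hLΛ : Real.log (2 * T) / 2 ≤ 1 + Real.log (2 * T) := by linarith
    have hΛ0 : 0 < 1 + Real.log (2 * T) := by linarith
    have hε4 : 0 < ε / 4 := by linarith
    have hΛA := m_log hε4 hT1
    have hZc : Continuous fun p : ℝ × ℝ =>
        ‖Pool.Agent.DBN.zsum (Real.exp p.2) (p.1 - Real.pi / 8)‖ := by
      have h1 : Continuous fun p : ℝ × ℝ => ((p.2, p.1 - Real.pi / 8) : ℝ × ℝ) := by fun_prop
      exact (m_cont.comp h1).norm
    have hpt : ∀ t, T ≤ t → t ≤ 2 * T → ‖riemannZeta (1 / 2 + t * I)‖ ≤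
        C₁ * (1 + Real.log (2 * T) + ∫ v in (0 : ℝ)..(Real.log (2 * T) / 2),
          ‖Pool.Agent.DBN.zsum (Real.exp v) (t - Real.pi / 8)‖) := by
      intro t ht1 ht2
      have ht0 : 0 < t := by linarith
      have h1 := hζ t (hTa.trans ht1)
      have h2 : Real.log t ≤ Real.log (2 * T) := Real.log_le_log ht0 ht2
      have h3 : 0 ≤ Real.log t := Real.log_nonneg (by linarith)
      have hZv : Continuous fun v : ℝ =>
          ‖Pool.Agent.DBN.zsum (Real.exp v) (t - Real.pi / 8)‖ := by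
        have h5 : Continuous fun v : ℝ => ((v, t - Real.pi / 8) : ℝ × ℝ) := by fun_prop
        exact (m_cont.comp h5).norm
      have h4 : ∫ v in (0 : ℝ)..(Real.log t / 2),
          ‖Pool.Agent.DBN.zsum (Real.exp v) (t - Real.pi / 8)‖ ≤
          ∫ v in (0 : ℝ)..(Real.log (2 * T) / 2),
            ‖Pool.Agent.DBN.zsum (Real.exp v) (t - Real.pi / 8)‖ :=
        intervalIntegral.integral_mono_interval le_rfl (by linarith) (by linarith)
          (Filter.Eventually.of_forall fun v => norm_nonneg _)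
          (hZv.intervalIntegrable _ _)
      refine h1.trans (mul_le_mul_of_nonneg_left ?_ hC₁)
      linarith
    have hmain := m_abs (Z := fun t v =>
      ‖Pool.Agent.DBN.zsum (Real.exp v) (t - Real.pi / 8)‖) hq hC₁ hL0 hΛ0 hT0 hfc
      (fun t => norm_nonneg _) (fun t v => norm_nonneg _) hZc hpt
      (fun v h1 h2 => hZ T hTb v h1 h2)
    refine hmain.trans ((m_num hq0 ha hε hC₁ hC₂ hL0 hA0 hLΛ hT1 hΛA).trans ?_)
    exact mul_le_mul_of_nonneg_right (le_add_of_nonneg_left hX) (by linarith)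

end SZQ_

open SZQ_ in
/-- from the short sums to zeta in the mean of order `q` -/
theorem p_SZQ (h_PT : Pool.Agent.Ben.M_PT) (h_UNIQ : T_UNIQ) (_h_JEN : T_JEN)
    (_h_CON : T_CON) : T_SZQ := by
  intro q a hq ha hS ε hε
  obtain ⟨C, hC⟩ := SZQ_.real h_PT h_UNIQ hq ha hS hε
  have hzl : Continuous zl := by
    refine continuous_iff_continuousAt.mpr fun t => ?_
    have h : (1 / 2 + t * I : ℂ) ≠ 1 := by
      intro h
      have := congrArg Complex.re h
      norm_num at this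
    have h1 : ContinuousAt (fun t : ℝ => (1 / 2 + t * I : ℂ)) t := by fun_prop
    exact ContinuousAt.comp (f := fun t : ℝ => (1 / 2 + t * I : ℂ))
      (differentiableAt_riemannZeta h).continuousAt h1
  refine ⟨C, fun X hX => ?_⟩
  rw [mm, SZQ_.conv hzl hq (by linarith)]
  exact ENNReal.ofReal_le_ofReal (hC X hX)

end Pool.Agent.PertQ
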