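import Pool.Agent.PertQ.Targets

set_option autoImplicit false

/-!
# TRNQ: small perturbations do not change the exponents in the mean
-/

namespace Pool.Agent.PertQ

open MeasureTheory Set Complex
open scoped ENNReal

namespace TRNQ_

theorem real_le {q A ε C X : ℝ} (hq : 1 ≤ q) (hA : 0 ≤ A) (hC : 0 ≤ C) (hX : 1 ≤ X) :
    (C * (3 * X) ^ ε) ^ q * X ≤ (C * 3 ^ ε) ^ q * X ^ (1 + q * (A + ε)) := by
  have hX0 : 0 < X := by linarith
  have e1 : (C * (3 * X) ^ ε) ^ q = (C * 3 ^ ε) ^ q * X ^ (ε * q) := by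
    rw [Real.mul_rpow (by norm_num) hX0.le, ← mul_assoc, Real.mul_rpow (by positivity)
      (by positivity), ← Real.rpow_mul hX0.le]
  have e2 : X ^ (ε * q) * X = X ^ (ε * q + 1) := by
    rw [Real.rpow_add hX0, Real.rpow_one]
  have e3 : X ^ (ε * q + 1) ≤ X ^ (1 + q * (A + ε)) := by
    refine Real.rpow_le_rpow_of_exponent_le hX ?_
    nlinarith
  rw [e1, mul_assoc, e2]
  exact mul_le_mul_of_nonneg_left e3 (by positivity)

end TRNQ_

open TRNQ_ in
theorem p_TRNQ : T_TRNQ := by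
  intro q A F G hq hA hFG hG ε hε
  obtain ⟨C1, h1⟩ := hFG ε hε
  obtain ⟨C2, h2⟩ := hG ε hε
  have hC1 : 0 ≤ C1 := by
    have h3 := h1 0
    rw [abs_zero, add_zero, Real.one_rpow, mul_one] at h3
    exact (norm_nonneg _).trans h3
  refine ⟨2 ^ (q - 1) * ((C1 * 3 ^ ε) ^ q + |C2|), fun X hX => ?_⟩
  have hX0 : 0 < X := by linarith
  have hq0 : 0 ≤ q := by linarith
  obtain ⟨M, hM⟩ : ∃ M : ℝ, M = (C1 * (3 * X) ^ ε) ^ q := ⟨_, rfl⟩
  have hM0 : 0 ≤ M := by rw [hM]; positivity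
  have hpt : ∀ t ∈ Icc X (2 * X), ‖F t‖ₑ ^ q ≤
      2 ^ (q - 1) * (ENNReal.ofReal M + ‖G t‖ₑ ^ q) := by
    intro t ht
    have h3 : ‖F t‖ₑ ≤ ‖F t - G t‖ₑ + ‖G t‖ₑ := by
      calc ‖F t‖ₑ = ‖(F t - G t) + G t‖ₑ := by rw [sub_add_cancel]
        _ ≤ _ := enorm_add_le _ _
    have h4 : ‖F t - G t‖ₑ ^ q ≤ ENNReal.ofReal M := by
      have h5 : ‖F t - G t‖ ≤ C1 * (3 * X) ^ ε := by
        refine (h1 t).trans (mul_le_mul_of_nonneg_left ?_ hC1)
        refine Real.rpow_le_rpow (by positivity) ?_ hε.le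
        rw [abs_of_nonneg (by linarith [ht.1])]
        linarith [ht.2]
      rw [← ofReal_norm, hM, ENNReal.ofReal_rpow_of_nonneg (norm_nonneg _) hq0]
      exact ENNReal.ofReal_le_ofReal (Real.rpow_le_rpow (norm_nonneg _) h5 hq0)
    calc ‖F t‖ₑ ^ q ≤ (‖F t - G t‖ₑ + ‖G t‖ₑ) ^ q := ENNReal.rpow_le_rpow h3 hq0
      _ ≤ 2 ^ (q - 1) * (‖F t - G t‖ₑ ^ q + ‖G t‖ₑ ^ q) :=
          ENNReal.rpow_add_le_mul_rpow_add_rpow _ _ hq
      _ ≤ _ := by gcongr
  have h2q : (2 : ℝ≥0∞) ^ (q - 1) ≠ ⊤ :=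
    ENNReal.rpow_ne_top_of_nonneg (by linarith) (by norm_num)
  have hmain : mm q X F ≤ 2 ^ (q - 1) * (ENNReal.ofReal M * ENNReal.ofReal X + mm q X G) := by
    calc mm q X F ≤ ∫⁻ t in Icc X (2 * X), 2 ^ (q - 1) * (ENNReal.ofReal M + ‖G t‖ₑ ^ q) :=
          setLIntegral_mono' measurableSet_Icc hpt
      _ = 2 ^ (q - 1) * ∫⁻ t in Icc X (2 * X), (ENNReal.ofReal M + ‖G t‖ₑ ^ q) :=
          lintegral_const_mul' _ _ h2q
      _ = 2 ^ (q - 1) * ((∫⁻ _ in Icc X (2 * X), ENNReal.ofReal M) + mm q X G) := by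
          rw [lintegral_add_left measurable_const]
          rfl
      _ = _ := by
          rw [setLIntegral_const, Real.volume_Icc]
          congr 4
          ring
  refine hmain.trans ?_
  have h5 : mm q X G ≤ ENNReal.ofReal (|C2| * X ^ (1 + q * (A + ε))) :=
    (h2 X hX).trans (ENNReal.ofReal_le_ofReal
      (mul_le_mul_of_nonneg_right (le_abs_self C2) (by positivity)))
  have h6 : (2 : ℝ≥0∞) ^ (q - 1) = ENNReal.ofReal (2 ^ (q - 1)) := by
    rw [← ENNReal.ofReal_rpow_of_pos (by norm_num : (0 : ℝ) < 2)]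
    norm_num
  rw [h6]
  calc ENNReal.ofReal (2 ^ (q - 1)) * (ENNReal.ofReal M * ENNReal.ofReal X + mm q X G) ≤
        ENNReal.ofReal (2 ^ (q - 1)) * (ENNReal.ofReal (M * X) +
          ENNReal.ofReal (|C2| * X ^ (1 + q * (A + ε)))) := by
        rw [ENNReal.ofReal_mul hM0]
        gcongr
    _ = ENNReal.ofReal (2 ^ (q - 1) * (M * X + |C2| * X ^ (1 + q * (A + ε)))) := by
        rw [← ENNReal.ofReal_add (by positivity) (by positivity),
          ← ENNReal.ofReal_mul (by positivity)]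
    _ ≤ _ := by
        refine ENNReal.ofReal_le_ofReal ?_
        have h7 := real_le (ε := ε) hq hA hC1 hX
        rw [← hM] at h7
        have h8 : (0 : ℝ) < 2 ^ (q - 1) := by positivity
        calc 2 ^ (q - 1) * (M * X + |C2| * X ^ (1 + q * (A + ε))) ≤
              2 ^ (q - 1) * ((C1 * 3 ^ ε) ^ q * X ^ (1 + q * (A + ε)) +
                |C2| * X ^ (1 + q * (A + ε))) :=
              mul_le_mul_of_nonneg_left (by linarith) h8.le
          _ = _ := by ring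

end Pool.Agent.PertQ
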