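import Pool.Agent.PertZ.Defs7
import Pool.Agent.Ben.Targets8

/-!
# MP_4e5e8a_nt, RandomPerturbation with moments (helper72): targets

The `q`-th moment exponent of the randomly perturbed zeta function. `Dl B t` is the mean of the
perturbed zeta function at `1/2 + i t` (`Pool.Agent.PertZ`), `zsum N t` the smoothed zeta sum of
length `N` (`Pool.Agent.DBN`), `zl t = ζ(1/2 + i t)` (`Pool.Agent.CW`). LAW: `Dl B` has the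
exponent `A` in the mean of order `q` iff for all `b ∈ [0, 1]` the sums of length `X ^ b` have the
exponent `A + max 0 (1 - B b)` in the mean of order `q`.

One job = one target `T_X`, proved as `theorem p_X (h_Y : T_Y) .. : T_X` in the NEW file
`Pool/Agent/PertQ/X.lean` (import this file and what you need of PertZ, DBN, Ben; not CW), helper
lemmas in the namespace `X_`. All integrals of moments are `lintegral`s, so no integrability is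
needed; `‖z‖ₑ = ENNReal.ofReal ‖z‖`. Crude bound: `Pool.Agent.DBN.Nw.norm_zsum_le` (or
`GSB_crude` in PertZ/GSB.lean): `‖zsum N t‖ ≤ C N`.
-/

set_option autoImplicit false

namespace Pool.Agent.PertQ

open MeasureTheory Set Complex Pool.Agent.CW Pool.Agent.DBN Pool.Agent.PertZ
open scoped ENNReal

/-- the smoothed sum with centre `w` on the logarithmic scale, at the height `t` -/
noncomputable def zs (w t : ℝ) : ℂ := zsum (Real.exp w) t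

/-- `∫_X^{2X} ‖F t‖^q dt` -/
noncomputable def mm (q X : ℝ) (F : ℝ → ℂ) : ℝ≥0∞ := ∫⁻ t in Icc X (2 * X), ‖F t‖ₑ ^ q

/-- `F` has the exponent `A` in the mean of order `q` -/
def ExpQ (q A : ℝ) (F : ℝ → ℂ) : Prop :=
  ∀ ε : ℝ, 0 < ε → ∃ C : ℝ, ∀ X : ℝ, 1 ≤ X →
    mm q X F ≤ ENNReal.ofReal (C * X ^ (1 + q * (A + ε)))

/-- the smoothed sums of length `X ^ (b + o(1))` have the exponent `a` in the mean of order `q` -/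
def SumQ (q b a : ℝ) : Prop :=
  ∀ ε : ℝ, 0 < ε → ∃ δ : ℝ, 0 < δ ∧ ∃ C : ℝ, ∀ X N : ℝ, 2 ≤ X →
    X ^ (b - δ) ≤ N → N ≤ X ^ (b + δ) →
      mm q X (zsum N) ≤ ENNReal.ofReal (C * X ^ (1 + q * (a + ε)))

/-! ## A. Tools -/

/-- JEN. Jensen's inequality. PROOF. `q = 1` trivial. `q > 1`: Hölder
(`ENNReal.lintegral_mul_le_Lp_mul_Lq` with the exponents `q / (q - 1)` and `q`) for
`k^(1 - 1/q) * (k^(1/q) φ)`. -/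
def T_JEN : Prop := ∀ {α : Type} [MeasurableSpace α] (μ : Measure α) (q : ℝ) (k φ : α → ℝ≥0∞),
  1 ≤ q → AEMeasurable k μ → AEMeasurable φ μ →
    (∫⁻ x, k x * φ x ∂μ) ^ q ≤ (∫⁻ x, k x ∂μ) ^ (q - 1) * ∫⁻ x, k x * φ x ^ q ∂μ

/-- CON. Joint continuity. PROOF. `continuous_zsum` and `norm_zt_le` in DBN/WinSumE.lean,
WinSumC.lean: on `|p.1| < R` the terms are at most `e * exp R * (n + 1)^(-3/2)`
(`continuousOn_tsum`, then the sets `{|p.1| < R}` are open and cover). -/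
def T_CON : Prop := Continuous fun p : ℝ × ℝ => zs p.1 p.2

/-- KER. Reproducing formula. PROOF. `exp(-x²/8) = (2π)^(-1/2) ∫ exp(-y²/4) exp(-(x-y)²/4) dy`
(`GBK_gauss` in PertZ/GBK.lean) and `exp(-x²/8) = (2/π)^(1/2) ∫ exp(-2v²) e^(ivx) dv`, so
`exp(-x²/4) = c ∫∫ exp(-y²/4 - 2v²) e^(ivx) exp(-(x-y)²/4) dy dv`. With `x = log n - (w + r)`
and the sum over `n` (absolutely convergent: `∑ n^(-1/2) exp(-x²/8)`, `GBK_sum`; compare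
`GBK_Z_eq`, `GBK_blk`):
`zs (w + r) t = c ∫∫ exp(-y²/4 - 2v²) e^(-iv(w+r)) zs (w + r + y) (t - v) dy dv`. Norms, the
substitution `y' = y + r`, and `(y' - r)² ≥ y'²/2 - 1`. -/
def T_KER : Prop := ∃ C : ℝ, ∀ w r t : ℝ, |r| ≤ 1 →
  ‖zs (w + r) t‖ₑ ≤ ENNReal.ofReal C * ∫⁻ p : ℝ × ℝ,
    ENNReal.ofReal (Real.exp (-p.1 ^ 2 / 8 - p.2 ^ 2)) * ‖zs (w + p.1) (t - p.2)‖ₑ

/-- MAX (from KER). PROOF. KER with `r = 0`, the measure preserving substitution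
`(y, v) ↦ (w + y, t - v)`, and `-x²/8 ≤ -c|x| + 2c²`, `-v² ≤ -τ|v| + τ²/4`,
`-c|p.1 - w| ≤ -c|p.1 - w₀| + c|w - w₀|`, the same for `τ`. -/
def T_MAX : Prop := ∀ c τ : ℝ, 0 < c → 0 < τ → ∃ C : ℝ, ∀ w₀ t₀ w t : ℝ,
  ‖zs w t‖ₑ ≤ ENNReal.ofReal (C * Real.exp (c * |w - w₀| + τ * |t - t₀|)) *
    ∫⁻ p : ℝ × ℝ, ENNReal.ofReal (Real.exp (-(c * |p.1 - w₀|) - τ * |p.2 - t₀|)) *
      ‖zs p.1 p.2‖ₑ

/-- AVG (from KER, JEN, CON). PROOF. KER, `q`-th power, JEN with the kernel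
`exp(-p.1²/8 - p.2²)`, Tonelli with the integral over `t ∈ [X, 2X]` (first part). If
`|p.1| ≤ δ log X` and `|p.2| ≤ X/2`: `∫_{t ∈ [X,2X]} ‖zs (w + p.1) (t - p.2)‖^q` is at most the
sum of the three `mm q Y`, `Y = X/2, X, 2X`, so `≤ 3 J`. Otherwise the crude bound
`‖zs (w + p.1) _‖ ≤ C X² exp|p.1|`: for `|p.1| > δ log X`,
`X (C X² e^|p.1|)^q exp(-p.1²/8) ≤ C' exp(-p.1²/16)` as `log X < |p.1|/δ`; for `|p.2| > X/2` use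
`exp(-p.2²) ≤ exp(-X²/8) exp(-p.2²/2)`. Second part: the same without the integral over `t`,
`∫_{|p.2| ≤ X/2} ‖zs (w + p.1) (t - p.2)‖^q dp.2 ≤ 3 J`. -/
def T_AVG : Prop := ∀ q δ : ℝ, 1 ≤ q → 0 < δ → ∃ C : ℝ, ∀ (X w : ℝ) (J : ℝ≥0∞), 4 ≤ X →
  w ≤ 2 * Real.log X →
  (∀ w' Y : ℝ, |w' - w| ≤ δ * Real.log X → X / 2 ≤ Y → Y ≤ 2 * X → mm q Y (zs w') ≤ J) →
  (∀ r : ℝ → ℝ, (∀ t, |r t| ≤ 1) →
    ∫⁻ t in Icc X (2 * X), ‖zs (w + r t) t‖ₑ ^ q ≤ ENNReal.ofReal C * (J + 1)) ∧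
  ∀ t : ℝ, X ≤ t → t ≤ 2 * X → ‖zs w t‖ₑ ^ q ≤ ENNReal.ofReal C * (J + 1)

/-! ## B. Properties of the exponents of the sums -/

/-- REFP. Reflection, pointwise. PROOF. `Pool.Agent.DBN.win_zsum` (WinSumC.lean, two-sided) and
`norm_win_neg` (WinSumE.lean) at the height `T = t + π/8`, `ω = log (N / √(T/2π))`; `-ω` belongs to
the length `T/(2πN)`. `|ω| ≤ (11/20) log T` for large `t`, `T^(-1/20) ≤ 1`. -/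
def T_REFP : Prop := ∃ C T₀ : ℝ, 2 ≤ T₀ ∧ ∀ t N : ℝ, T₀ ≤ t → t ^ (-(1 / 30) : ℝ) ≤ N →
  N ≤ t ^ (1 + 1 / 30 : ℝ) →
    ‖zsum N t‖ ≤ C * (‖zsum ((t + Real.pi / 8) / (2 * Real.pi * N)) t‖ + 1)

/-- REFQ (from AVG, REFP). Reflection in the mean. PROOF. `δ₁, C₁` from `SumQ q b a` for `ε`;
`δ = min (δ₁/4) (1/40)`. `N ∈ [X^(1-b-δ), X^(1-b+δ)]`, `X ≥ X₀`. REFP for `t ∈ [X, 2X]`, and
`(t + π/8)/(2πN) = exp (w + r t)`, `w = log (X/(2πN)) + 1/2`, `r t = log ((t + π/8)/X) - 1/2`,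
`|r t| ≤ 1` (redefine `r t = 0` outside `[X, 2X]`). AVG with `δ₁/4` for its `δ`: for
`|w' - w| ≤ (δ₁/4) log X`, `X/2 ≤ Y ≤ 2X` the length `exp w'` is in `[Y^(b-δ₁), Y^(b+δ₁)]` if
`X ≥ X₀`, so `J = ofReal (C X^(1+q(a+ε)))`. `X < X₀`: crude bound. -/
def T_REFQ : Prop := ∀ q b a : ℝ, 1 ≤ q → 0 ≤ b → b ≤ 1 → 0 ≤ a → SumQ q b a → SumQ q (1 - b) a

/-- INFQ (from AVG). All means give the pointwise bound. PROOF. Given `ε`, `q ≥ 4/ε` with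
`SumQ q b a`; AVG, second part, `X = t`: `‖zsum N t‖^q ≤ C (t^(1+q(a+ε/4)) + 1)`. Small `t`:
crude bound. -/
def T_INFQ : Prop := ∀ b a : ℝ, 0 ≤ b → b ≤ 1 → 0 ≤ a →
  (∀ Q : ℝ, ∃ q : ℝ, 1 ≤ q ∧ Q ≤ q ∧ SumQ q b a) → SumLe b a

/-- FINQ. Pointwise bounds give bounds in the mean; monotonicity. PROOF. Immediate (the length of
`Icc X (2X)` is `X`; `‖F t‖ ≤ |C| (3X)^(A+ε)` on it). -/
def T_FINQ : Prop :=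
  (∀ q b a : ℝ, 1 ≤ q → 0 ≤ a → SumLe b a → SumQ q b a) ∧
  (∀ (q A : ℝ) (F : ℝ → ℂ), 1 ≤ q → 0 ≤ A → ExpLe A F → ExpQ q A F) ∧
  (∀ q b a a' : ℝ, 1 ≤ q → a ≤ a' → SumQ q b a → SumQ q b a') ∧
  ∀ (q A A' : ℝ) (F : ℝ → ℂ), 1 ≤ q → A ≤ A' → ExpQ q A F → ExpQ q A' F

/-- HOLQ (from JEN). PROOF. JEN with `k = 1` on `Icc X (2X)` and the exponent `r/q`:
`(∫ ‖F‖^q)^(r/q) ≤ X^(r/q - 1) ∫ ‖F‖^r`. For the second part `zsum N` is continuous for `N > 0`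
(`continuous_zsum`). -/
def T_HOLQ : Prop :=
  (∀ (q r A : ℝ) (F : ℝ → ℂ), 1 ≤ q → q ≤ r → 0 ≤ A → Measurable F → ExpQ r A F → ExpQ q A F) ∧
  ∀ q r b a : ℝ, 1 ≤ q → q ≤ r → 0 ≤ a → SumQ r b a → SumQ q b a

/-- TRNQ. PROOF. `‖F‖^q ≤ 2^q (‖F - G‖^q + ‖G‖^q)`, the first function is at most the measurable
function `C^q (1 + |t|)^(qε) ≤ C^q (3X)^(qε)`. -/
def T_TRNQ : Prop := ∀ (q A : ℝ) (F G : ℝ → ℂ), 1 ≤ q → 0 ≤ A →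
  (∀ ε : ℝ, 0 < ε → ∃ C : ℝ, ∀ t : ℝ, ‖F t - G t‖ ≤ C * (1 + |t|) ^ ε) → ExpQ q A G → ExpQ q A F

/-- CVTQ. PROOF. For continuous `F`:
`ofReal (∫ t in X..2X, ‖F t‖^q) = mm q X F` (`ofReal_integral_eq_lintegral_ofReal`), and
`ofReal x ≤ ofReal y ↔ x ≤ y` for `y ≥ 0`, `ofReal x ≤ ofReal y → x ≤ max y 0`. -/
def T_CVTQ : Prop :=
  (∀ (q A : ℝ) (F : ℝ → ℂ), 1 ≤ q → Continuous F → (ExpQ q A F ↔
    ∀ ε : ℝ, 0 < ε → ∃ C : ℝ, ∀ X : ℝ, 1 ≤ X →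
      ∫ t in X..(2 * X), ‖F t‖ ^ q ≤ C * X ^ (1 + q * (A + ε)))) ∧
  ∀ q b a : ℝ, 1 ≤ q → (SumQ q b a ↔
    ∀ ε : ℝ, 0 < ε → ∃ δ : ℝ, 0 < δ ∧ ∃ C : ℝ, ∀ X N : ℝ, 2 ≤ X →
      X ^ (b - δ) ≤ N → N ≤ X ^ (b + δ) →
        ∫ t in X..(2 * X), ‖zsum N t‖ ^ q ≤ C * X ^ (1 + q * (a + ε)))

/-- UNIQ. Uniformity in the length. PROOF. Template `GSB_loc`, `GSB_unif` in PertZ/GSB.lean
(`IsCompact.induction_on`). Near `b ∈ [0, β]`: `δ, C` from `SumQ q b (α b)` for `ε/2`, and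
`|α b' - α b| ≤ ε/2` for `|b' - b| < δ'`. This covers a neighbourhood of `[0, β]`, so
`log N / log X ≤ β + log 3 / log X` is fine for `X ≥ X₀`. `2 ≤ X < X₀`: crude bound (`α` is bounded
on a compact interval). -/
def T_UNIQ : Prop := ∀ (q β : ℝ) (α : ℝ → ℝ), 1 ≤ q → 0 < β → β ≤ 1 → Continuous α →
  (∀ b : ℝ, 0 ≤ b → b ≤ β → SumQ q b (α b)) → ∀ ε : ℝ, 0 < ε → ∃ C : ℝ, ∀ X N : ℝ, 2 ≤ X →
    1 ≤ N → N ≤ 3 * X ^ β →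
      mm q X (zsum N) ≤
        ENNReal.ofReal (C * X ^ (1 + q * (α (Real.log N / Real.log X) + ε)))

/-! ## C. The mean `Dl B` and the sums -/

/-- BLGI. As `p_BLG` (PertZ/BLG.lean), but the integral over the left side of the rectangle is
kept instead of being estimated by `K₀ + K₁ |v - T|`. PROOF. That of BLG.lean. -/
def T_BLGI : Prop := ∀ b l r : ℝ, l < r → ∃ C : ℝ, 0 < C ∧
  ∀ (a : ℕ → ℂ) (σ L K' T N : ℝ) (f : ℂ → ℂ), 2 ≤ T → 0 < N → 0 ≤ K' →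
    a 0 = 0 → Summable (fun n : ℕ => ‖a n‖ * (n : ℝ) ^ (-(σ + r))) →
    ∑' n : ℕ, ‖a n‖ * (n : ℝ) ^ (-(σ + r)) ≤ L →
    (∀ z : ℂ, σ + l ≤ z.re → z.re ≤ σ + r → T / 2 ≤ z.im → z.im ≤ 2 * T →
      AnalyticAt ℂ f z ∧ ‖f z‖ ≤ K') →
    (∀ z : ℂ, z.re = σ + r → T / 2 ≤ z.im → z.im ≤ 2 * T →
      f z = ∑' n : ℕ, a n * (n : ℂ) ^ (-z)) →
    ‖∑' n : ℕ, a n * (n : ℂ) ^ (-((σ : ℂ) + T * I)) * ((gw b N n : ℝ) : ℂ)‖ ≤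
      C * (N ^ l * (∫ v in (T / 2)..(2 * T),
          Real.exp (-(v - T) ^ 2) * ‖f (((σ + l : ℝ) : ℂ) + v * I)‖) +
        (N ^ l + N ^ r) * (L + K') * Real.exp (-T ^ 2 / 8))

/-- GSFI (from BLGI, `P_ZST`, `P_SMA`). PROOF. That of `GSF_main` and `p_GSF` (PertZ/GSF.lean):
BLGI with `a = TRF_a B s`, `f z = ζ z - s * TRF_g B s z`, `σ = 1/2`, `l = 0`, `r = 1`, `b = 0` and
`b = B`; `‖f (1/2 + i v)‖ ≤ ‖Dl B v‖ + Cs |v - T|` (`TRF_diff`),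
`∫ exp(-(v-T)²) |v - T| dv ≤ 1`;
`zsum N T = ∑ a n n^(-s) gw 0 N n + s N^(-B) ∑ a n n^(-s) gw B N n`.
The interval integral of the continuous function `exp(-(v-T)²) ‖f‖` is a lintegral. -/
def T_GSFI : Prop := ∀ B : ℝ, 1 / 2 < B → ∃ C : ℝ, ∀ T N : ℝ, 2 ≤ T → 0 < N → N ≤ T ^ 2 →
  ‖zsum N T‖ₑ ≤ ENNReal.ofReal (C * (1 + T * N ^ (-B))) *
    (1 + ∫⁻ v in Icc (T / 2) (2 * T), ENNReal.ofReal (Real.exp (-(v - T) ^ 2)) * ‖Dl B v‖ₑ)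

/-- ZSI (from BLGI, `P_ZST`). PROOF. BLGI with `a = one'`, `f = ζ`, `σ = 1/2`, `l = 0`, `r = 1`,
`b = 0` (`gw 0 N n = exp(-(log (n/N))²/4)`; see PertZ/GZL.lean: `GZL_sum`, `GZL_zeta`).
`‖ζ‖ ≤ C T` on the rectangle by `P_ZST` (second part). -/
def T_ZSI : Prop := ∃ C : ℝ, ∀ T N : ℝ, 2 ≤ T → 0 < N → N ≤ T ^ 2 →
  ‖zsum N T‖ₑ ≤ ENNReal.ofReal C *
    (1 + ∫⁻ v in Icc (T / 2) (2 * T), ENNReal.ofReal (Real.exp (-(v - T) ^ 2)) * ‖zl v‖ₑ)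

/-- CVQ (from JEN). Convolution with a Gaussian in the mean. PROOF.
`(1 + x)^q ≤ 2^q (1 + x^q)`, JEN with `k = exp(-(v-T)²)` on `Icc (T/2) (2T)` (`∫ k ≤ √π`),
Tonelli. -/
def T_CVQ : Prop := ∀ q : ℝ, 1 ≤ q → ∃ C : ℝ, ∀ (φ : ℝ → ℝ≥0∞) (X : ℝ), Measurable φ → 0 < X →
  ∫⁻ T in Icc X (2 * X), (1 + ∫⁻ v in Icc (T / 2) (2 * T),
      ENNReal.ofReal (Real.exp (-(v - T) ^ 2)) * φ v) ^ q ≤
    ENNReal.ofReal C * (ENNReal.ofReal X + ∫⁻ v in Icc (X / 2) (4 * X), φ v ^ q)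

/-- GSFQ (from CVQ, GSFI). From the mean to the sums. PROOF. GSFI for `T ∈ [X, 2X]`, CVQ with
`φ v = ‖Dl B v‖ₑ` (measurable by hypothesis), `[X/2, 4X]` is covered by `[Y, 2Y]`,
`Y = X/2, X, 2X ≥ 1`. For `N ≥ X^(b-δ)`, `B δ ≤ ε/2`:
`1 + T N^(-B) ≤ 3 X^(max 0 (1 - B b) + ε/2)`. `N ≤ X^(b+δ) ≤ X²` for `δ ≤ 1`. -/
def T_GSFQ : Prop := ∀ q B A : ℝ, 1 ≤ q → 1 / 2 < B → 0 ≤ A → Measurable (Dl B) →
  ExpQ q A (Dl B) → ∀ b : ℝ, 0 ≤ b → b ≤ 1 → SumQ q b (A + max 0 (1 - B * b))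

/-- ZSQ (from CVQ, ZSI). As GSFQ. `zl` is continuous (`1/2 + i t ≠ 1`,
`differentiableAt_riemannZeta`). -/
def T_ZSQ : Prop := ∀ q A : ℝ, 1 ≤ q → 0 ≤ A → ExpQ q A zl →
  ∀ b : ℝ, 0 ≤ b → b ≤ 1 → SumQ q b A

/-- the set of the `(log of the) lengths` up to the height, near the height `T` -/
def RR (T : ℝ) : Set (ℝ × ℝ) :=
  {p | 0 ≤ p.1 ∧ Real.exp p.1 ≤ p.2 ∧ T / 2 ≤ p.2 ∧ p.2 ≤ 2 * T}

/-- IUB (from `P_GZL`). Sums shorter than `1` or longer than the height are negligible. PROOF.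
Split the complement of `RR T` (see `GSB_M` in PertZ/GSB.lean for all estimates).
(a) `p.2 ∉ [T/2, 2T]`: `|p.2 - T| ≥ T/2`, crude bound `C e^p.1`,
`∫ exp(-c|p.1 - u| + p.1) dp.1 ≤ C e^u ≤ C T^K` and `∫_{|p.2 - T| ≥ T/2} exp(-τ|p.2 - T|) ≤
(2/τ) exp(-τT/2)`. (b) `p.2 ∈ [T/2, 2T]`, `p.1 < 0`: `‖zs‖ ≤ C`. (c) `p.2 < e^p.1 ≤ p.2^(K+2)`:
`P_GZL`, `‖zs‖ ≤ C (2T)^ε`. (d) `e^p.1 > p.2^(K+2)`: `p.1 - u ≥ 2 log T - (K+2) log 2`, and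
`exp(p.1 - c(p.1 - u)) = e^u exp(-(c-1)(p.1-u)) ≤ C exp(-(p.1-u)/2)` as `c - 1 ≥ K + 1`
(`exp(-(K/2)(p.1-u)) ≤ C T^(-K)`; `c - 1 - K/2 ≥ 1/2`). `lintegral`s of
`exp(-c|x|)` are `2/c`. -/
def T_IUB : Prop := ∀ K c τ ε : ℝ, 2 ≤ K → K + 2 ≤ c → 0 < τ → 0 < ε → ∃ C : ℝ, ∀ T u : ℝ,
  4 ≤ T → u ≤ K * Real.log T →
    ∫⁻ p : ℝ × ℝ, ENNReal.ofReal (Real.exp (-(c * |p.1 - u|) - τ * |p.2 - T|)) * ‖zs p.1 p.2‖ₑ ≤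
      ENNReal.ofReal (C * T ^ ε) + ∫⁻ p in RR T,
        ENNReal.ofReal (Real.exp (-(c * |p.1 - u|) - τ * |p.2 - T|)) * ‖zs p.1 p.2‖ₑ

/-- GBI (from `P_GBK`, `P_GID`, MAX, IUB). The mean is bounded by an average of the sums. PROOF.
`K = max 2 (1/(B - 1/2))`, `τ` from `P_GBK`, `c = K + B + 2`. Let `I u` be the left side of IUB.
MAX with `(w₀, t₀) = (u, T)`: `‖zs (u + y) (T - v)‖ ≤ C (I u) exp(c|y|) exp(τ|v|)`, so if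
`I u < ∞` `P_GBK` gives `‖blk B T u‖ₑ ≤ ofReal (C min 1 (e^(Bu)/T)) * I u` (and it is trivial if
`I u = ∞`). `P_GID`: `‖Dl B T‖ₑ ≤ ofReal C + ∫⁻_{u ≤ K log T} ‖blk B T u‖ₑ`. IUB with `ε/2`,
`∫⁻_{u ≤ K log T} min 1 (e^(Bu)/T) ≤ 1/B + K log T`, and (Tonelli)
`∫⁻_u min 1 (e^(Bu)/T) exp(-c|p.1 - u|) ≤ min 1 (e^(B p.1)/T) ∫⁻ exp(-(c - B)|p.1 - u|)`.
`2 ≤ T < 4`: `Dl B` is bounded there (`p_DETX` with `h = 1/2`, `m = 0` and `FINL_one`, as in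
`RandomPerturbation.lean`; or see GSB.lean, `TRF_red`). -/
def T_GBI : Prop := ∀ B : ℝ, 1 / 2 < B → ∃ τ : ℝ, 0 < τ ∧ ∀ ε : ℝ, 0 < ε → ∃ C : ℝ, ∀ T : ℝ,
  2 ≤ T → ‖Dl B T‖ₑ ≤ ENNReal.ofReal (C * T ^ ε) + ENNReal.ofReal C * ∫⁻ p in RR T,
    ENNReal.ofReal (min 1 (Real.exp (B * p.1) / T) * Real.exp (-(τ * |p.2 - T|))) *
      ‖zs p.1 p.2‖ₑ

/-- GSBQ (from GBI, JEN, CON, UNIQ). From the sums to the mean. PROOF. `α b = A + max 0 (1 - B b)`,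
UNIQ with `β = 1`. Let `X ≥ 2`, `T ∈ [X, 2X]`: GBI; `(x + y)^q ≤ 2^q (x^q + y^q)`; JEN on
`S = {0 ≤ p.1, e^p.1 ≤ p.2, X/2 ≤ p.2 ≤ 4X} ⊇ RR T` (`p.1 ≤ log 4X`) with
`k = exp(-τ|p.2 - T|)`, `∫⁻ k ≤ (2/τ) log 4X`, `φ = min 1 (e^(B p.1)/X) ‖zs p‖`; Tonelli,
`∫⁻_T k ≤ 2/τ`. There remains
`C (log 4X)^(q-1) ∫⁻_{0 ≤ w ≤ log 4X} min(1, e^(Bw)/X)^q ∫⁻_{t ∈ [X/2,4X], t ≥ e^w} ‖zs w t‖^q`;
cover `[X/2, 4X]` by `[Y, 2Y]`, `Y = X/2, X, 2X`; if `w ≤ log 2Y` then UNIQ at `Y ≥ 2` (`X ≥ 4`)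
gives `C Y^(1+q(A+ε)) max(1, Y e^(-Bw))^q`, and `min(1, e^(Bw)/X) max(1, Y e^(-Bw)) ≤ 2`. So
`≤ C (log 4X)^q X^(1+q(A+ε))`. `1 ≤ X < 4`: `Dl B` is bounded on `[1, 8]` (`p_DETX`). -/
def T_GSBQ : Prop := ∀ q B A : ℝ, 1 ≤ q → 1 / 2 < B → 0 ≤ A →
  (∀ b : ℝ, 0 ≤ b → b ≤ 1 → SumQ q b (A + max 0 (1 - B * b))) → ExpQ q A (Dl B)

/-! ## D. Zeta and the sums -/

/-- SZQ (from `M_PT`, UNIQ, JEN, CON). From short sums to zeta. PROOF. `Pool.Agent.Ben.M_PT`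
(proved: `p_MPT`) for `T ∈ [X, 2X]`, upper limit `L = log (2X)/2` (monotone), as a lintegral;
`(x+y+z)^q ≤ 3^q (..)`, JEN with `k = 1` on `[0, L]`, Tonelli; for fixed `v ∈ [0, L]`
`∫⁻_{T ∈ [X,2X]} ‖zsum (e^v) (T - π/8)‖^q ≤ mm q (X/2) + mm q X`, and `e^v ≤ √(2X) ≤
3 (X/2)^(1/2)`: UNIQ with `β = 1/2`, `α = A`. Small `X`: `zl` is bounded on compact sets. -/
def T_SZQ : Prop := ∀ q A : ℝ, 1 ≤ q → 0 ≤ A →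
  (∀ b : ℝ, 0 ≤ b → b ≤ 1 / 2 → SumQ q b A) → ExpQ q A zl

/-! ## E. The mean value theorem and the unconditional region -/

/-- GK. The moment of order `2k` of finite Gaussian sums. PROOF. `P_MGF.lean` (Ben) for general
`k`: `gs M t y ^ k = ∑_{m ≤ M^k} e (t log m) c_m` with `0 ≤ c_m ≤ C_k m^ε'`, by induction on `k`:
multiply by `gs M t y`, `c'_m = ∑_{a b = m, b ≤ M} c_a w_b ≤ #(divisors m) C_k m^ε'`, divisor bound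
`#(divisors m) ≤ C m^ε'` (as in `P_MGF.lean`). Then `MTWO_upper` (`P_MTWO.lean`):
`∫ ‖.‖² ≤ C² M^(2kε') M^k (T + 2 M^k (1 + log M^k))`. -/
def T_GK : Prop := ∀ k : ℕ, 1 ≤ k → ∀ ε : ℝ, 0 < ε → ∃ C : ℝ, ∀ (T y : ℝ) (M : ℕ), 1 ≤ T →
  1 ≤ M → ∫ t in T..(2 * T), ‖Pool.Agent.Ben.gs M t y‖ ^ (2 * k) ≤
    C * (M : ℝ) ^ (k + ε) * (T + (M : ℝ) ^ k)

/-- MVQ (from GK, `T_TAIL`). PROOF. See `P_MZ.lean` and `P_GSUML.lean`, `P_SUML.lean`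
(`SUML_split`): for `N ≥ e` and `M = ⌈N e⁻¹ X^d⌉₊`
`‖zsum N t‖ ≤ e^(1/4) N^(-1/2) (‖gs M (t/2π) (log N - 1)‖ + 1)`, so with GK
`∫_X^{2X} ‖zsum N t‖^(2k) ≤ C N^(-k) (M^(k+ε') (X + M^k) + X) ≤ C X^(ε'') (X + N^k)` and
`N^k ≤ X^(k(b+δ))`, `max 1 (k b) = 1 + 2k max 0 (b/2 - 1/(2k))`. `N < e`: crude bound. -/
def T_MVQ : Prop := ∀ k : ℕ, 1 ≤ k → ∀ b : ℝ, 0 ≤ b → b ≤ 1 →
  SumQ (2 * k) b (max 0 (b / 2 - 1 / (2 * k)))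

/-- BNDQ (from REFQ, MVQ, FINQ). PROOF. MVQ at `1 - b` and REFQ:
`SumQ (2k) b (max 0 ((1 - b)/2 - 1/(2k)))`; FINQ (monotonicity) and
`(1 - b)/2 ≤ (1 - 1/B)/2 + max 0 (1 - B b)` (`b ≥ 1/B` clear; `b < 1/B`:
`(1/B - b)/2 ≤ B (1/B - b)`). -/
def T_BNDQ : Prop := ∀ k : ℕ, 1 ≤ k → ∀ B b : ℝ, 1 ≤ B → 0 ≤ b → b ≤ 1 →
  SumQ (2 * k) b (max 0 ((1 - 1 / B) / 2 - 1 / (2 * k)) + max 0 (1 - B * b))

end Pool.Agent.PertQ
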