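import Pool.Agent.PertQ.Targets

/-!
# RandomPerturbation with moments: convexity in `1/q` (targets)
-/

set_option autoImplicit false

namespace Pool.Agent.PertQ

open MeasureTheory Set Complex Pool.Agent.CW Pool.Agent.DBN Pool.Agent.PertZ
open scoped ENNReal

/-- LYA. Lyapunov's inequality. PROOF. (1) `s = (1 - θ) p / q`, `s' = θ p / r`, `s + s' = 1`,
`‖F‖^p = (‖F‖^q)^s (‖F‖^r)^s'`, so `∫ ‖F‖^p ≤ (∫ ‖F‖^q)^s (∫ ‖F‖^r)^s'` (Hölder,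
`ENNReal.lintegral_mul_le_Lp_mul_Lq` with exponents `1/s`, `1/s'`; the cases `θ = 0, 1` are
trivial), exponent `s (1 + q (A + ε)) + s' (1 + r (A' + ε)) = 1 + p ((1-θ) A + θ A' + ε)`.
(2) `‖F t‖^p ≤ ‖F t‖^q (C (3X)^(A'+ε))^(p-q)` for `t ∈ [X, 2X]`. -/
def T_LYA : Prop :=
  (∀ (q r p θ A A' : ℝ) (F : ℝ → ℂ), 1 ≤ q → 1 ≤ r → 1 ≤ p → 0 ≤ θ → θ ≤ 1 →
    1 / p = (1 - θ) / q + θ / r → 0 ≤ A → 0 ≤ A' → Measurable F →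
    ExpQ q A F → ExpQ r A' F → ExpQ p ((1 - θ) * A + θ * A') F) ∧
  ∀ (q p θ A A' : ℝ) (F : ℝ → ℂ), 1 ≤ q → 1 ≤ p → 0 ≤ θ → θ < 1 →
    1 / p = (1 - θ) / q → 0 ≤ A → 0 ≤ A' → Measurable F →
    ExpQ q A F → ExpLe A' F → ExpQ p ((1 - θ) * A + θ * A') F

end Pool.Agent.PertQ
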