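import Pool.Agent.PertQ.Targets
import Pool.Agent.PertZ.GSB

/-!
# PertQ, block UNIQ: uniformity in the length
-/

set_option autoImplicit false

namespace Pool.Agent.PertQ

open MeasureTheory Set Complex Filter Topology Pool.Agent.CW Pool.Agent.DBN Pool.Agent.PertZ
open scoped ENNReal

namespace UNIQ_

/-- a bound with a nonnegative constant on a set of exponents -/
def PP (q ε : ℝ) (α : ℝ → ℝ) (U : Set ℝ) (C : ℝ) : Prop :=
  ∀ X b : ℝ, 2 ≤ X → b ∈ U →
    mm q X (zsum (X ^ b)) ≤ ENNReal.ofReal (C * X ^ (1 + q * (α b + ε)))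

theorem PP.mono {q ε : ℝ} {α : ℝ → ℝ} {U V : Set ℝ} {C C' : ℝ} (h : PP q ε α U C) (hV : V ⊆ U)
    (hC : C ≤ C') : PP q ε α V C' := by
  intro X b hX hb
  have hX0 : 0 < X := by linarith
  refine (h X b hX (hV hb)).trans (ENNReal.ofReal_le_ofReal ?_)
  exact mul_le_mul_of_nonneg_right hC (Real.rpow_pos_of_pos hX0 _).le

/-- local uniformity -/
theorem loc {q ε b : ℝ} {α : ℝ → ℝ} (hq : 1 ≤ q) (hα : Continuous α) (hε : 0 < ε)
    (h : SumQ q b (α b)) : ∃ δ : ℝ, 0 < δ ∧ ∃ C : ℝ, 0 ≤ C ∧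
      PP q ε α (Ioo (b - δ) (b + δ)) C := by
  obtain ⟨δ₁, hδ₁, C₁, h1⟩ := h (ε / 2) (by positivity)
  obtain ⟨δ₂, hδ₂, h2⟩ := Metric.continuousAt_iff.1 (hα.continuousAt (x := b)) (ε / 2)
    (by positivity)
  refine ⟨min δ₁ δ₂, lt_min hδ₁ hδ₂, |C₁|, abs_nonneg _, fun X b' hX hb => ?_⟩
  have hX1 : 1 ≤ X := by linarith
  have hX0 : 0 < X := by linarith
  have e1 : min δ₁ δ₂ ≤ δ₁ := min_le_left _ _
  have e2 : min δ₁ δ₂ ≤ δ₂ := min_le_right _ _
  have h3 := h1 X (X ^ b') hX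
    (Real.rpow_le_rpow_of_exponent_le hX1 (by linarith [hb.1]))
    (Real.rpow_le_rpow_of_exponent_le hX1 (by linarith [hb.2]))
  refine h3.trans (ENNReal.ofReal_le_ofReal ?_)
  have h4 : |α b' - α b| < ε / 2 := by
    have := h2 (x := b') (by
      rw [Real.dist_eq, abs_lt]
      constructor <;> linarith [hb.1, hb.2])
    rwa [Real.dist_eq] at this
  have h5 := (abs_lt.1 h4).1
  calc C₁ * X ^ (1 + q * (α b + ε / 2)) ≤ |C₁| * X ^ (1 + q * (α b + ε / 2)) :=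
        mul_le_mul_of_nonneg_right (le_abs_self _) (Real.rpow_pos_of_pos hX0 _).le
    _ ≤ |C₁| * X ^ (1 + q * (α b' + ε)) := by
        apply mul_le_mul_of_nonneg_left _ (abs_nonneg _)
        apply Real.rpow_le_rpow_of_exponent_le hX1
        nlinarith

/-- a neighbourhood of `[0, β]` -/
theorem nbd {q β ε : ℝ} {α : ℝ → ℝ} (hq : 1 ≤ q) (hβ : 0 < β) (hα : Continuous α)
    (hε : 0 < ε) (h : ∀ b : ℝ, 0 ≤ b → b ≤ β → SumQ q b (α b)) :
    ∃ η : ℝ, 0 < η ∧ ∃ C : ℝ, 0 ≤ C ∧ PP q ε α (Ico 0 (β + η)) C := by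
  have key : ∃ U : Set ℝ, IsOpen U ∧ Icc 0 β ⊆ U ∧ ∃ C : ℝ, 0 ≤ C ∧ PP q ε α U C := by
    refine IsCompact.induction_on (s := Icc (0 : ℝ) β)
      (p := fun s => ∃ U : Set ℝ, IsOpen U ∧ s ⊆ U ∧ ∃ C : ℝ, 0 ≤ C ∧ PP q ε α U C)
      isCompact_Icc ?_ ?_ ?_ ?_
    · exact ⟨∅, isOpen_empty, Subset.rfl, 0, le_rfl, fun _ _ _ hb => absurd hb
        (Set.notMem_empty _)⟩
    · rintro s t hst ⟨U, hU, h1, h2⟩
      exact ⟨U, hU, hst.trans h1, h2⟩
    · rintro s t ⟨U, hU, h1, C, hC, h2⟩ ⟨U', hU', h1', C', hC', h2'⟩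
      refine ⟨U ∪ U', hU.union hU', union_subset_union h1 h1', C + C', by positivity,
        fun X b hX hb => ?_⟩
      rcases hb with hb | hb
      · exact h2.mono Subset.rfl (by linarith) X b hX hb
      · exact h2'.mono Subset.rfl (by linarith) X b hX hb
    · intro b hb
      obtain ⟨δ, hδ, C, hC, h1⟩ := loc hq hα hε (h b hb.1 hb.2)
      refine ⟨Ioo (b - δ) (b + δ), mem_nhdsWithin_of_mem_nhds
        (Ioo_mem_nhds (by linarith) (by linarith)), Ioo (b - δ) (b + δ), isOpen_Ioo,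
        Subset.rfl, C, hC, h1⟩
  obtain ⟨U, hU, h1, C, hC, h2⟩ := key
  obtain ⟨η, hη, h3⟩ := Metric.isOpen_iff.1 hU β (h1 ⟨hβ.le, le_rfl⟩)
  refine ⟨η, hη, C, hC, h2.mono ?_ le_rfl⟩
  intro b hb
  rcases le_total b β with h4 | h4
  · exact h1 ⟨hb.1, h4⟩
  · apply h3
    rw [Metric.mem_ball, Real.dist_eq, abs_of_nonneg (by linarith)]
    linarith [hb.2]

/-- a bound on the integrand gives a bound of the mean -/
theorem mm_le {q X M : ℝ} (hq : 1 ≤ q) (hM : 0 ≤ M) (F : ℝ → ℂ)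
    (h : ∀ t, ‖F t‖ ≤ M) : mm q X F ≤ ENNReal.ofReal (M ^ q * X) := by
  rw [mm]
  calc ∫⁻ t in Icc X (2 * X), ‖F t‖ₑ ^ q
      ≤ ∫⁻ _ in Icc X (2 * X), ENNReal.ofReal (M ^ q) := by
        refine lintegral_mono fun t => ?_
        rw [← ENNReal.ofReal_rpow_of_nonneg hM (by linarith), ← ofReal_norm]
        exact ENNReal.rpow_le_rpow (ENNReal.ofReal_le_ofReal (h t)) (by linarith)
    _ = ENNReal.ofReal (M ^ q * X) := by
        rw [setLIntegral_const, Real.volume_Icc, ← ENNReal.ofReal_mul (by positivity)]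
        congr 1
        ring

end UNIQ_

open UNIQ_ in
theorem p_UNIQ : T_UNIQ := by
  intro q β α hq hβ hβ1 hα h ε hε
  obtain ⟨η, hη, C, hC, h1⟩ := nbd hq hβ hα hε h
  set X₀ : ℝ := Real.exp (Real.log 3 / η) + 2 with hX₀
  have hX₀1 : 1 ≤ X₀ := by have := Real.exp_pos (Real.log 3 / η); linarith
  have hX₀0 : 0 < X₀ := by linarith
  have hl3 : 0 < Real.log 3 := Real.log_pos (by norm_num)
  have hl2 : 0 < Real.log 2 := Real.log_pos (by norm_num)
  -- a lower bound of `α`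
  obtain ⟨A₀, hA₀⟩ : ∃ A₀ : ℝ, ∀ b ∈ Icc (0 : ℝ) (β + Real.log 3 / Real.log 2), A₀ ≤ α b := by
    obtain ⟨A₀, hA⟩ := (isCompact_Icc.image hα).bddBelow
    exact ⟨A₀, fun b hb => hA ⟨b, hb, rfl⟩⟩
  set A : ℝ := min A₀ 0 with hA
  have hA0 : A ≤ 0 := min_le_right _ _
  have hA1 : A ≤ A₀ := min_le_left _ _
  set D : ℝ := Real.exp 1 * Nw.S32 with hD
  have hD0 : 0 ≤ D := mul_nonneg (Real.exp_pos _).le Nw.S32_nonneg
  set M : ℝ := D * (3 * X₀ ^ β) with hM
  have hM0 : 0 ≤ M := by positivity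
  refine ⟨C + M ^ q * X₀ * X₀ ^ (-(q * A)), fun X N hX hN1 hN2 => ?_⟩
  have hX1 : 1 ≤ X := by linarith
  have hX0 : 0 < X := by linarith
  have hN0 : 0 < N := by linarith
  have hlX : 0 < Real.log X := Real.log_pos (by linarith)
  have hlN : 0 ≤ Real.log N := Real.log_nonneg hN1
  have hlN2 : Real.log N ≤ Real.log 3 + β * Real.log X := by
    have h2 := Real.log_le_log hN0 hN2
    rwa [Real.log_mul (by norm_num) (Real.rpow_pos_of_pos hX0 _).ne', Real.log_rpow hX0] at h2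
  set b : ℝ := Real.log N / Real.log X with hb
  have hb0 : 0 ≤ b := by positivity
  have hb1 : b ≤ β + Real.log 3 / Real.log X := by
    rw [hb, div_le_iff₀ hlX, add_mul, div_mul_cancel₀ _ hlX.ne']
    linarith
  have eN : X ^ b = N := by
    rw [Real.rpow_def_of_pos hX0, hb, mul_div_cancel₀ _ hlX.ne', Real.exp_log hN0]
  have hp := Real.rpow_pos_of_pos hX0 (1 + q * (α b + ε))
  have hq0 : 0 ≤ M ^ q * X₀ * X₀ ^ (-(q * A)) := by positivity
  rcases lt_or_ge (Real.exp (Real.log 3 / η)) X with hXX | hXX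
  · -- large `X`
    have h2 : Real.log 3 / η < Real.log X := by
      have := Real.log_lt_log (Real.exp_pos _) hXX
      rwa [Real.log_exp] at this
    have h3 : Real.log 3 / Real.log X < η := by
      rw [div_lt_iff₀ hη] at h2
      rw [div_lt_iff₀ hlX]
      linarith
    have h4 := h1 X b hX ⟨hb0, by linarith⟩
    rw [eN] at h4
    refine h4.trans (ENNReal.ofReal_le_ofReal ?_)
    nlinarith
  · -- small `X`
    have hXX0 : X ≤ X₀ := by linarith
    have h2 : N ≤ 3 * X₀ ^ β := hN2.trans (by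
      have := Real.rpow_le_rpow hX0.le hXX0 hβ.le
      linarith)
    have h3 : ∀ t, ‖zsum N t‖ ≤ M := by
      intro t
      refine (GSB_crude N t hN0).trans ?_
      rw [← hD, hM]
      exact mul_le_mul_of_nonneg_left h2 hD0
    refine (mm_le hq hM0 _ h3).trans (ENNReal.ofReal_le_ofReal ?_)
    have hbm : b ∈ Icc (0 : ℝ) (β + Real.log 3 / Real.log 2) := by
      refine ⟨hb0, hb1.trans ?_⟩
      have h5 : Real.log 3 / Real.log X ≤ Real.log 3 / Real.log 2 :=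
        div_le_div_of_nonneg_left hl3.le hl2 (Real.log_le_log (by norm_num) hX)
      linarith
    have h4 : A ≤ α b := hA1.trans (hA₀ b hbm)
    have h5 : X₀ ^ (q * A) ≤ X ^ (1 + q * (α b + ε)) := by
      calc X₀ ^ (q * A) ≤ X ^ (q * A) :=
            Real.rpow_le_rpow_of_nonpos hX0 hXX0 (mul_nonpos_of_nonneg_of_nonpos (by linarith) hA0)
        _ ≤ X ^ (1 + q * (α b + ε)) := by
            apply Real.rpow_le_rpow_of_exponent_le hX1
            nlinarith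
    have h6 : X₀ ^ (-(q * A)) * X₀ ^ (q * A) = 1 := by
      rw [← Real.rpow_add hX₀0]
      simp
    have h7 : 0 ≤ M ^ q * X₀ := by positivity
    calc M ^ q * X ≤ M ^ q * X₀ := by
          apply mul_le_mul_of_nonneg_left hXX0 (by positivity)
      _ = M ^ q * X₀ * X₀ ^ (-(q * A)) * X₀ ^ (q * A) := by rw [mul_assoc _ _ (X₀ ^ (q * A)), h6,
          mul_one]
      _ ≤ M ^ q * X₀ * X₀ ^ (-(q * A)) * X ^ (1 + q * (α b + ε)) :=
          mul_le_mul_of_nonneg_left h5 hq0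
      _ ≤ _ := by nlinarith [mul_nonneg hC hp.le]

end Pool.Agent.PertQ
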