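import Pool.Agent.PertQ.Targets
import Pool.Agent.PertZ.GZL

/-!
# ZSI: smoothed sums are bounded by short averages of zeta on the critical line
-/

set_option autoImplicit false

namespace Pool.Agent.PertQ

open MeasureTheory Set Complex Pool.Agent.CW Pool.Agent.DBN Pool.Agent.PertZ
open scoped ENNReal

namespace ZSI_

lemma ne_one (v : ℝ) : (1 / 2 + (v : ℂ) * I) ≠ 1 := by
  intro h
  have := congrArg Complex.re h
  simp at this

lemma cont : Continuous zl := by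
  rw [continuous_iff_continuousAt]
  intro v
  have h1 : ContinuousAt riemannZeta (1 / 2 + (v : ℂ) * I) :=
    (differentiableAt_riemannZeta (ne_one v)).continuousAt
  have h2 : Continuous fun v : ℝ => (1 / 2 + (v : ℂ) * I) := by fun_prop
  exact ContinuousAt.comp (f := fun v : ℝ => (1 / 2 + (v : ℂ) * I)) (g := riemannZeta) h1
    h2.continuousAt

lemma cast_line (v : ℝ) : (((1 / 2 : ℝ) + (0 : ℝ) : ℝ) : ℂ) + v * I = 1 / 2 + v * I := by
  push_cast
  ring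

/-- the interval integral as a lower integral -/
lemma toL (T : ℝ) (hT : 0 < T) :
    ENNReal.ofReal (∫ v in (T / 2)..(2 * T), Real.exp (-(v - T) ^ 2) *
      ‖riemannZeta ((((1 / 2 : ℝ) + (0 : ℝ) : ℝ) : ℂ) + v * I)‖) ≤
    ∫⁻ v in Icc (T / 2) (2 * T), ENNReal.ofReal (Real.exp (-(v - T) ^ 2)) * ‖zl v‖ₑ := by
  have h0 : ∀ v : ℝ, riemannZeta ((((1 / 2 : ℝ) + (0 : ℝ) : ℝ) : ℂ) + v * I) = zl v := by
    intro v
    rw [cast_line]
    rfl
  simp_rw [h0]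
  have hc : Continuous fun v : ℝ => Real.exp (-(v - T) ^ 2) * ‖zl v‖ := by
    have := cont.norm
    fun_prop
  rw [intervalIntegral.integral_of_le (by linarith)]
  rw [ofReal_integral_eq_lintegral_ofReal]
  · refine (lintegral_mono_set Ioc_subset_Icc_self).trans (lintegral_mono fun v => ?_)
    rw [ENNReal.ofReal_mul (Real.exp_pos _).le, ofReal_norm]
  · exact (hc.integrableOn_Icc).mono_set Ioc_subset_Icc_self
  · exact Filter.Eventually.of_forall fun v => by positivity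

lemma summ : Summable (fun n : ℕ => ‖one' n‖ * (n : ℝ) ^ (-((1 / 2 : ℝ) + 1))) := by
  refine Summable.of_nonneg_of_le (fun n => by positivity) (fun n => ?_)
    (Real.summable_nat_rpow.mpr (by norm_num : (-((1 / 2 : ℝ) + 1)) < -1))
  have h3 : ‖one' n‖ ≤ 1 := by
    unfold one'
    split_ifs <;> simp
  have h4 : 0 ≤ (n : ℝ) ^ (-((1 / 2 : ℝ) + 1)) := by positivity
  nlinarith

lemma small (L C T N : ℝ) (hL : 0 ≤ L) (hC : 0 ≤ C) (hT : 2 ≤ T) (hN : 0 < N) (hN2 : N ≤ T ^ 2) :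
    (N ^ (0 : ℝ) + N ^ (1 : ℝ)) * (L + C * (1 + 2 * T)) * Real.exp (-T ^ 2 / 8) ≤
      2 * (L + 3 * C) * Real.exp (2 * (3 : ℝ) ^ 2) := by
  have h1 := GZL_exp (p := 3) (by norm_num) (show 0 < T by linarith)
  rw [Real.rpow_zero, Real.rpow_one]
  have h2 : 1 + N ≤ 2 * T ^ 2 := by nlinarith
  have h3 : L + C * (1 + 2 * T) ≤ (L + 3 * C) * T := by nlinarith
  have h4 : T ^ (3 : ℝ) = T ^ 2 * T := by
    rw [show (3 : ℝ) = ((3 : ℕ) : ℝ) by norm_num, Real.rpow_natCast]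
    ring
  have h5 : 0 ≤ L + C * (1 + 2 * T) := by positivity
  calc (1 + N) * (L + C * (1 + 2 * T)) * Real.exp (-T ^ 2 / 8)
      ≤ (2 * T ^ 2) * ((L + 3 * C) * T) * Real.exp (-T ^ 2 / 8) := by gcongr
    _ = 2 * (L + 3 * C) * (T ^ (3 : ℝ) * Real.exp (-T ^ 2 / 8)) := by rw [h4]; ring
    _ ≤ 2 * (L + 3 * C) * Real.exp (2 * (3 : ℝ) ^ 2) := by gcongr

/-- the bound with a real interval integral -/
lemma realBd (h_BLGI : T_BLGI) (hZ : P_ZST) : ∃ C₀ K : ℝ, 0 < C₀ ∧ 0 ≤ K ∧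
    ∀ T N : ℝ, 2 ≤ T → 0 < N → N ≤ T ^ 2 →
      ‖zsum N T‖ ≤ C₀ * ((∫ v in (T / 2)..(2 * T), Real.exp (-(v - T) ^ 2) *
        ‖riemannZeta ((((1 / 2 : ℝ) + (0 : ℝ) : ℝ) : ℂ) + v * I)‖) + K) := by
  obtain ⟨C₀, hC₀, h0⟩ := h_BLGI 0 0 1 (by norm_num)
  obtain ⟨C₁, h1⟩ := hZ.2.1 (1 / 2) (by norm_num)
  set L : ℝ := ∑' n : ℕ, ‖one' n‖ * (n : ℝ) ^ (-((1 / 2 : ℝ) + 1)) with hL
  have hL0 : 0 ≤ L := tsum_nonneg fun n => by positivity
  refine ⟨C₀, 2 * (L + 3 * |C₁|) * Real.exp (2 * (3 : ℝ) ^ 2), hC₀, by positivity,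
    fun T N hT hN hN2 => ?_⟩
  have hT0 : 0 < T := by linarith
  have key := h0 one' (1 / 2) L (|C₁| * (1 + 2 * T)) T N riemannZeta hT hN (by positivity)
    (by simp [one']) summ le_rfl ?_ ?_
  rotate_left
  · intro z hz1 hz2 hz3 hz4
    have hne : z ≠ 1 := by
      rintro rfl
      simp at hz3
      linarith
    refine ⟨?_, ?_⟩
    · refine DifferentiableOn.analyticAt (s := {1}ᶜ) ?_ (isOpen_compl_singleton.mem_nhds hne)
      intro w hw
      exact (differentiableAt_riemannZeta hw).differentiableWithinAt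
    · have h2 := h1 z (by linarith) (by linarith) (by linarith)
      have e1 : ((1 : ℝ) / 2 + 1 / 2) = 1 := by norm_num
      rw [e1, Real.rpow_one] at h2
      have h3 : 0 ≤ 1 + z.im := by linarith
      calc ‖riemannZeta z‖ ≤ C₁ * (1 + z.im) := h2
        _ ≤ |C₁| * (1 + z.im) := by gcongr; exact le_abs_self _
        _ ≤ |C₁| * (1 + 2 * T) := by gcongr
  · intro z hz _ _
    exact GZL_zeta (by rw [hz]; norm_num)
  rw [GZL_sum] at key
  refine key.trans ?_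
  have hs := small L |C₁| T N hL0 (abs_nonneg _) hT hN hN2
  have e0 : N ^ (0 : ℝ) = 1 := Real.rpow_zero N
  refine mul_le_mul_of_nonneg_left ?_ hC₀.le
  refine add_le_add ?_ hs
  rw [e0, one_mul]

end ZSI_

theorem p_ZSI (h_BLGI : T_BLGI) (hZ : P_ZST) : T_ZSI := by
  obtain ⟨C₀, K, hC₀, hK, h⟩ := ZSI_.realBd h_BLGI hZ
  refine ⟨C₀ * (1 + K), fun T N hT hN hN2 => ?_⟩
  have h1 := h T N hT hN hN2
  have h2 := ZSI_.toL T (by linarith)
  set J : ℝ := ∫ v in (T / 2)..(2 * T), Real.exp (-(v - T) ^ 2) *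
        ‖riemannZeta ((((1 / 2 : ℝ) + (0 : ℝ) : ℝ) : ℂ) + v * I)‖ with hJ
  set A : ℝ≥0∞ := ∫⁻ v in Icc (T / 2) (2 * T),
    ENNReal.ofReal (Real.exp (-(v - T) ^ 2)) * ‖zl v‖ₑ with hA
  have hJ0 : 0 ≤ J := by
    rw [hJ]
    exact intervalIntegral.integral_nonneg (by linarith) fun v _ => by positivity
  rw [← ofReal_norm]
  calc ENNReal.ofReal ‖zsum N T‖ ≤ ENNReal.ofReal (C₀ * (J + K)) := ENNReal.ofReal_le_ofReal h1
    _ ≤ ENNReal.ofReal ((C₀ * (1 + K)) * (1 + J)) := by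
        apply ENNReal.ofReal_le_ofReal
        rw [mul_assoc]
        refine mul_le_mul_of_nonneg_left ?_ hC₀.le
        nlinarith [mul_nonneg hK hJ0]
    _ = ENNReal.ofReal (C₀ * (1 + K)) * (1 + ENNReal.ofReal J) := by
        rw [ENNReal.ofReal_mul (by positivity), ENNReal.ofReal_add zero_le_one hJ0,
          ENNReal.ofReal_one]
    _ ≤ ENNReal.ofReal (C₀ * (1 + K)) * (1 + A) := by gcongr

end Pool.Agent.PertQ
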