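import Pool.Agent.PertQ.Targets

/-!
# PertQ, ZSQ: from zeta to the sums in the mean of order `q`
-/

set_option autoImplicit false

namespace Pool.Agent.PertQ

open MeasureTheory Set Complex Pool.Agent.CW Pool.Agent.DBN Pool.Agent.PertZ
open scoped ENNReal

namespace ZSQ_

theorem zl_cont : Continuous zl := by
  refine continuous_iff_continuousAt.mpr fun t => ?_
  have h : (1 / 2 + t * I : ℂ) ≠ 1 := by
    intro h
    have := congrArg Complex.re h
    norm_num at this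
  have h1 : ContinuousAt (fun t : ℝ => (1 / 2 + t * I : ℂ)) t := by fun_prop
  exact ContinuousAt.comp (f := fun t : ℝ => (1 / 2 + t * I : ℂ))
    (differentiableAt_riemannZeta h).continuousAt h1

theorem cover {f : ℝ → ℝ≥0∞} {X : ℝ} :
    ∫⁻ v in Icc (X / 2) (4 * X), f v ≤ (∫⁻ v in Icc (X / 2) (2 * (X / 2)), f v) +
      (∫⁻ v in Icc X (2 * X), f v) + ∫⁻ v in Icc (2 * X) (2 * (2 * X)), f v := by
  have h : Icc (X / 2) (4 * X) ⊆
      (Icc (X / 2) (2 * (X / 2)) ∪ Icc X (2 * X)) ∪ Icc (2 * X) (2 * (2 * X)) := by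
    intro v hv
    rcases le_total v X with h1 | h1
    · exact Or.inl (Or.inl ⟨hv.1, by linarith⟩)
    · rcases le_total v (2 * X) with h2 | h2
      · exact Or.inl (Or.inr ⟨h1, h2⟩)
      · exact Or.inr ⟨h2, by linarith [hv.2]⟩
  refine (lintegral_mono_set h).trans ((lintegral_union_le _ _ _).trans ?_)
  gcongr
  exact lintegral_union_le _ _ _

end ZSQ_

/-- from zeta to the sums in the mean of order `q` -/
theorem p_ZSQ (h_CVQ : T_CVQ) (h_ZSI : T_ZSI) : T_ZSQ := by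
  intro q A hq hA hE b hb0 hb1 ε hε
  have hq0 : 0 < q := by linarith
  obtain ⟨C₁, h₁⟩ := h_ZSI
  obtain ⟨C₂, h₂⟩ := h_CVQ q hq
  obtain ⟨C₃, h₃⟩ := hE ε hε
  have hs1 : 1 ≤ 1 + q * (A + ε) := by
    have : 0 ≤ q * (A + ε) := by positivity
    linarith
  refine ⟨1, one_pos, |C₁| ^ q * |C₂| * (1 + 3 * (|C₃| * 2 ^ (1 + q * (A + ε)))),
    fun X N hX hN1 hN2 => ?_⟩
  have hX0 : 0 < X := by linarith
  have hN0 : 0 < N := (Real.rpow_pos_of_pos hX0 _).trans_le hN1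
  have hN3 : N ≤ X ^ 2 := by
    refine hN2.trans ?_
    rw [← Real.rpow_natCast]
    exact Real.rpow_le_rpow_of_exponent_le (by linarith) (by push_cast; linarith)
  have hφ : Measurable fun v => ‖zl v‖ₑ := ZSQ_.zl_cont.measurable.enorm
  have h4 : ∀ T ∈ Icc X (2 * X), ‖zsum N T‖ₑ ^ q ≤ ENNReal.ofReal (|C₁| ^ q) *
      (1 + ∫⁻ v in Icc (T / 2) (2 * T),
        ENNReal.ofReal (Real.exp (-(v - T) ^ 2)) * ‖zl v‖ₑ) ^ q := by
    intro T hT
    have hXT : X ^ 2 ≤ T ^ 2 := by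
      have := hT.1
      gcongr
    have h5 := h₁ T N (by linarith [hT.1]) hN0 (hN3.trans hXT)
    rw [← ENNReal.ofReal_rpow_of_nonneg (abs_nonneg _) hq0.le,
      ← ENNReal.mul_rpow_of_nonneg _ _ hq0.le]
    refine ENNReal.rpow_le_rpow (h5.trans ?_) hq0.le
    gcongr
    exact le_abs_self _
  have h6 : ∀ Y : ℝ, 1 ≤ Y → Y ≤ 2 * X → mm q Y zl ≤
      ENNReal.ofReal (|C₃| * 2 ^ (1 + q * (A + ε)) * X ^ (1 + q * (A + ε))) := by
    intro Y h1 h2
    refine (h₃ Y h1).trans (ENNReal.ofReal_le_ofReal ?_)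
    calc C₃ * Y ^ (1 + q * (A + ε)) ≤ |C₃| * Y ^ (1 + q * (A + ε)) :=
          mul_le_mul_of_nonneg_right (le_abs_self _) (Real.rpow_nonneg (by linarith) _)
      _ ≤ |C₃| * (2 * X) ^ (1 + q * (A + ε)) :=
          mul_le_mul_of_nonneg_left (Real.rpow_le_rpow (by linarith) h2 (by linarith))
            (abs_nonneg _)
      _ = _ := by
        rw [Real.mul_rpow (by norm_num) hX0.le]
        ring
  have h7 : ∫⁻ v in Icc (X / 2) (4 * X), ‖zl v‖ₑ ^ q ≤
      3 * ENNReal.ofReal (|C₃| * 2 ^ (1 + q * (A + ε)) * X ^ (1 + q * (A + ε))) := by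
    refine ZSQ_.cover.trans ?_
    refine (add_le_add (add_le_add (h6 (X / 2) (by linarith) (by linarith))
      (h6 X (by linarith) (by linarith))) (h6 (2 * X) (by linarith) le_rfl)).trans
      (le_of_eq ?_)
    ring
  have h8 : X ≤ X ^ (1 + q * (A + ε)) := by
    calc X = X ^ (1 : ℝ) := (Real.rpow_one X).symm
      _ ≤ _ := Real.rpow_le_rpow_of_exponent_le (by linarith) hs1
  have hM : 0 ≤ |C₃| * 2 ^ (1 + q * (A + ε)) * X ^ (1 + q * (A + ε)) := by positivity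
  have hC1 : 0 ≤ |C₁| ^ q := by positivity
  calc mm q X (zsum N) ≤ ∫⁻ T in Icc X (2 * X), ENNReal.ofReal (|C₁| ^ q) *
      (1 + ∫⁻ v in Icc (T / 2) (2 * T),
        ENNReal.ofReal (Real.exp (-(v - T) ^ 2)) * ‖zl v‖ₑ) ^ q :=
        setLIntegral_mono' measurableSet_Icc h4
    _ = ENNReal.ofReal (|C₁| ^ q) * ∫⁻ T in Icc X (2 * X), (1 + ∫⁻ v in Icc (T / 2) (2 * T),
        ENNReal.ofReal (Real.exp (-(v - T) ^ 2)) * ‖zl v‖ₑ) ^ q :=
        lintegral_const_mul' _ _ ENNReal.ofReal_ne_top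
    _ ≤ ENNReal.ofReal (|C₁| ^ q) * (ENNReal.ofReal |C₂| * (ENNReal.ofReal X +
        3 * ENNReal.ofReal (|C₃| * 2 ^ (1 + q * (A + ε)) * X ^ (1 + q * (A + ε))))) := by
        gcongr
        refine (h₂ (fun v => ‖zl v‖ₑ) X hφ hX0).trans ?_
        gcongr
        exact le_abs_self _
    _ = ENNReal.ofReal (|C₁| ^ q * (|C₂| *
        (X + 3 * (|C₃| * 2 ^ (1 + q * (A + ε)) * X ^ (1 + q * (A + ε)))))) := by
        rw [ENNReal.ofReal_mul hC1, ENNReal.ofReal_mul (abs_nonneg _),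
          ENNReal.ofReal_add hX0.le (by positivity),
          ENNReal.ofReal_mul (show (0 : ℝ) ≤ 3 by norm_num), ENNReal.ofReal_ofNat]
    _ ≤ _ := by
        apply ENNReal.ofReal_le_ofReal
        calc |C₁| ^ q * (|C₂| *
              (X + 3 * (|C₃| * 2 ^ (1 + q * (A + ε)) * X ^ (1 + q * (A + ε))))) ≤
            |C₁| ^ q * (|C₂| * (X ^ (1 + q * (A + ε)) +
              3 * (|C₃| * 2 ^ (1 + q * (A + ε)) * X ^ (1 + q * (A + ε))))) := by gcongr
          _ = _ := by ring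

end Pool.Agent.PertQ
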